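import Pool.Agent.Work.MP_2df4ce_k.InterfaceH

/-! # Block BIR: bipartite Ramsey -/

set_option autoImplicit false

namespace Pool.Ker

open Classical St

theorem stmt_BIR : Stmt_BIR := by
  intro m
  refine ⟨2 * m + 2 ^ (2 * m) * m, ?_⟩
  intro V _ G A B hA hB
  obtain ⟨A0, hA0, hA0c⟩ := Finset.exists_subset_card_eq (show 2 * m ≤ A.card by omega)
  obtain ⟨S, hS, hSc⟩ := Finset.exists_le_card_fiber_of_mul_le_card_of_maps_to
    (s := B) (t := A0.powerset) (f := fun y => A0.filter fun x => G.Adj x y) (n := m)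
    (fun y _ => Finset.mem_powerset.2 (Finset.filter_subset _ _))
    ⟨∅, Finset.empty_mem_powerset _⟩
    (by rw [Finset.card_powerset, hA0c]; omega)
  obtain ⟨B', hB', hB'c⟩ := Finset.exists_subset_card_eq hSc
  have hSA : S ⊆ A0 := Finset.mem_powerset.1 hS
  have hty : ∀ y ∈ B', (A0.filter fun x => G.Adj x y) = S := fun y hy =>
    (Finset.mem_filter.1 (hB' hy)).2
  have hBB : B' ⊆ B := fun y hy => (Finset.mem_filter.1 (hB' hy)).1
  by_cases hm : m ≤ S.card
  · obtain ⟨A', hA', hA'c⟩ := Finset.exists_subset_card_eq hm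
    refine ⟨A', fun x hx => hA0 (hSA (hA' hx)), B', hBB, hA'c, hB'c, true, ?_⟩
    intro x hx y hy
    have h1 : x ∈ A0.filter fun x => G.Adj x y := by
      rw [hty y hy]
      exact hA' hx
    exact iff_of_true (Finset.mem_filter.1 h1).2 rfl
  · have h2 : m ≤ (A0 \ S).card := by
      rw [Finset.card_sdiff_of_subset hSA]
      omega
    obtain ⟨A', hA', hA'c⟩ := Finset.exists_subset_card_eq h2
    refine ⟨A', fun x hx => hA0 (Finset.mem_sdiff.1 (hA' hx)).1, B', hBB, hA'c, hB'c, false, ?_⟩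
    intro x hx y hy
    obtain ⟨h3, h4⟩ := Finset.mem_sdiff.1 (hA' hx)
    refine iff_of_false (fun h5 => h4 ?_) (by decide)
    rw [← hty y hy]
    exact Finset.mem_filter.2 ⟨h3, h5⟩

end Pool.Ker
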