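import Pool.Agent.Work.MP_2df4ce_k.InterfaceH

/-!
# MP_2df4ce_lc, block CHN: a chain of separations
-/

set_option autoImplicit false

namespace Pool.Ker

open Classical St

theorem CHN_half {ι : Type} (R : Finset ι) (s : ι → Bool) (n : ℕ) (h : 2 * n ≤ R.card) :
    ∃ b : Bool, n ≤ (R.filter fun x => s x = b).card := by
  by_contra hn
  push Not at hn
  have h1 := hn true
  have h2 := hn false
  have h3 : R.card = (R.filter fun x => s x = true).card +
      (R.filter fun x => ¬ s x = true).card :=
    (Finset.card_filter_add_card_filter_not _).symm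
  have h4 : (R.filter fun x => ¬ s x = true) = R.filter fun x => s x = false := by
    refine Finset.filter_congr fun x _ => ?_
    rw [Bool.not_eq_true]
  rw [h4] at h3
  omega

theorem stmt_CHN : Stmt_CHN := by
  intro ι _ Hv L
  induction L with
  | zero =>
    intro R _ _
    exact ⟨fun i => i.elim0, fun i => i.elim0, fun i => i.elim0, fun i => i.elim0,
      fun i => i.elim0⟩
  | succ L ih =>
    intro R hR hs
    have h2 : 2 ^ (L + 1) = 2 * 2 ^ L := by rw [pow_succ, mul_comm]
    have hpos : 0 < 2 ^ L := Nat.pow_pos two_pos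
    have hc : 1 < R.card := by omega
    obtain ⟨p, hp, q, hq, hpq⟩ := Finset.one_lt_card.1 hc
    obtain ⟨s, hHs, hspq⟩ := hs p hp q hq hpq
    obtain ⟨b, hb⟩ := CHN_half R s (2 ^ L) (by omega)
    obtain ⟨f0, hf0, hsf0⟩ : ∃ f0 ∈ R, s f0 ≠ b := by
      by_cases h : s p = b
      · exact ⟨q, hq, fun h' => hspq (h.trans h'.symm)⟩
      · exact ⟨p, hp, h⟩
    obtain ⟨f, t, h1, h3, h4⟩ := ih (R.filter fun x => s x = b) hb
      (fun i hi j hj hij => hs i (Finset.mem_filter.1 hi).1 j (Finset.mem_filter.1 hj).1 hij)
    refine ⟨Fin.cons f0 f, Fin.cons s t, ?_, ?_, ?_⟩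
    · intro i
      refine Fin.cases ?_ (fun i => ?_) i
      · rw [Fin.cons_zero]
        exact hf0
      · rw [Fin.cons_succ]
        exact (Finset.mem_filter.1 (h1 i)).1
    · intro i
      refine Fin.cases ?_ (fun i => ?_) i
      · rw [Fin.cons_zero]
        exact hHs
      · rw [Fin.cons_succ]
        exact h3 i
    · intro i j
      refine Fin.cases ?_ (fun j => ?_) j
      · intro h
        exact absurd h (Fin.not_lt_zero i)
      · refine Fin.cases ?_ (fun i => ?_) i
        · intro _
          rw [Fin.cons_succ, Fin.cons_zero, Fin.cons_zero]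
          rw [(Finset.mem_filter.1 (h1 j)).2]
          exact hsf0.symm
        · intro h
          rw [Fin.cons_succ, Fin.cons_succ, Fin.cons_succ]
          exact h4 i j (Fin.succ_lt_succ_iff.1 h)

end Pool.Ker
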