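import Pool.Agent.Work.MP_2df4ce_k.InterfaceH

/-!
# MP_2df4ce_lc, block CLE: cleaning
-/

set_option autoImplicit false

namespace Pool.Ker

open Classical St

theorem CLE_aux (hR : Stmt_RAM) (hB : Stmt_BIR) (L : ℕ) (ps : List (Fin L × Fin L)) :
    (∀ p ∈ ps, p.1 ≠ p.2) → ∀ m : ℕ, ∃ T : ℕ, ∀ (V : Type) [Fintype V] (G : SimpleGraph V)
    (B : Fin L → Finset V), (∀ i, T ≤ (B i).card) →
    ∃ (B' : Fin L → Finset V) (b : Fin L → Bool) (e : Fin L → Fin L → Bool),
      (∀ i, B' i ⊆ B i) ∧ (∀ i, (B' i).card = m) ∧ (∀ i, Hom G (b i) (B' i)) ∧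
      ∀ p ∈ ps, ∀ x ∈ B' p.1, ∀ y ∈ B' p.2, (G.Adj x y ↔ e p.1 p.2 = true) := by
  induction ps with
  | nil =>
    intro _ m
    obtain ⟨T, hT⟩ := hR m
    refine ⟨T, fun V _ G B hc => ?_⟩
    choose B' h1 h2 h3 using fun i => hT V G (B i) (hc i)
    choose b hb using h3
    exact ⟨B', b, fun _ _ => true, h1, h2, hb, fun p hp => by simp at hp⟩
  | cons p ps ih =>
    intro hne m
    obtain ⟨N, hN⟩ := hB m
    obtain ⟨T, hT⟩ := ih (fun q hq => hne q (List.mem_cons_of_mem _ hq)) (max N m)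
    refine ⟨T, fun V _ G B hc => ?_⟩
    obtain ⟨B1, b, e, k1, k2, k3, k4⟩ := hT V G B hc
    obtain ⟨A', hA', C', hC', cA, cC, e0, he0⟩ := hN V G (B1 p.1) (B1 p.2)
      (by rw [k2]; exact le_max_left _ _) (by rw [k2]; exact le_max_left _ _)
    have hex : ∀ i, ∃ D ⊆ B1 i, D.card = m := fun i =>
      Finset.exists_subset_card_eq (by rw [k2]; exact le_max_right _ _)
    choose D hD1 hD2 using hex
    have hp : p.1 ≠ p.2 := hne p List.mem_cons_self
    obtain ⟨B2, hB2⟩ : ∃ B2 : Fin L → Finset V, B2 = fun i =>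
      if i = p.1 then A' else if i = p.2 then C' else D i := ⟨_, rfl⟩
    have e1 : B2 p.1 = A' := by rw [hB2]; simp
    have e2 : B2 p.2 = C' := by rw [hB2]; simp [hp.symm]
    have hsub : ∀ i, B2 i ⊆ B1 i := by
      intro i
      rw [hB2]
      by_cases h1 : i = p.1
      · subst h1; simpa using hA'
      · by_cases h2 : i = p.2
        · subst h2; simpa [h1] using hC'
        · simpa [h1, h2] using hD1 i
    have hcard : ∀ i, (B2 i).card = m := by
      intro i
      rw [hB2]
      by_cases h1 : i = p.1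
      · subst h1; simpa using cA
      · by_cases h2 : i = p.2
        · subst h2; simpa [h1] using cC
        · simpa [h1, h2] using hD2 i
    refine ⟨B2, b, fun i j => if (i, j) = p then e0 else e i j, fun i => (hsub i).trans (k1 i),
      hcard, fun i x hx y hy hxy => k3 i x (hsub i hx) y (hsub i hy) hxy, ?_⟩
    intro q hq x hx y hy
    by_cases hqp : q = p
    · subst hqp
      rw [e1] at hx
      rw [e2] at hy
      simpa using he0 x hx y hy
    · have hq' : q ∈ ps := by
        rcases List.mem_cons.1 hq with h | h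
        · exact absurd h hqp
        · exact h
      have hq'' : ¬ (q.1, q.2) = p := hqp
      simp only [if_neg hq'']
      exact k4 q hq' x (hsub _ hx) y (hsub _ hy)

theorem stmt_CLE : Stmt_RAM → Stmt_BIR → Stmt_CLE := by
  intro hR hB L m
  obtain ⟨T, hT⟩ := CLE_aux hR hB L
    ((Finset.univ : Finset (Fin L × Fin L)).filter fun p => p.1 < p.2).toList (by
      intro p hp
      rw [Finset.mem_toList, Finset.mem_filter] at hp
      exact ne_of_lt hp.2) m
  refine ⟨T, fun V _ G B hc => ?_⟩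
  obtain ⟨B', b, e, h1, h2, h3, h4⟩ := hT V G B hc
  refine ⟨B', b, e, h1, h2, h3, fun i j hij => h4 (i, j) ?_⟩
  rw [Finset.mem_toList, Finset.mem_filter]
  exact ⟨Finset.mem_univ _, hij⟩

end Pool.Ker
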