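import Pool.Agent.Work.MP_2df4ce_k.InterfaceH

set_option autoImplicit false

namespace Pool.Ker

open Classical St

theorem EXC_colour (q : ℕ) (α : Type) [Fintype α] (hq : Fintype.card α = q + 1) (m : ℕ)
    (hRMC : Stmt_RMC) : ∃ N : ℕ, ∀ c : Fin N → Fin N → α,
    ∃ (f : Fin m → Fin N) (k : α), StrictMono f ∧ ∀ i j, i < j → c (f i) (f j) = k := by
  obtain ⟨N, hN⟩ := hRMC m q
  refine ⟨N, fun c => ?_⟩
  let E : α ≃ Fin (q + 1) := Fintype.equivFinOfCardEq hq
  obtain ⟨f, k, hf, hk⟩ := hN (fun i j => E (c i j))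
  refine ⟨f, E.symm k, hf, fun i j hij => ?_⟩
  rw [← hk i j hij, Equiv.symm_apply_apply]

theorem stmt_EXC (hRMC : Stmt_RMC) (hCLE : Stmt_CLE) (hCHN : Stmt_CHN) (hHTY : Stmt_HTY)
    (hUNI : Stmt_UNI) : Stmt_EXC := by
  intro m hm
  obtain ⟨L, hL⟩ := EXC_colour 31 (Bool × Bool × Bool × Bool × Bool) rfl (m + 2) hRMC
  obtain ⟨T, hT⟩ := hCLE L m
  refine ⟨2 ^ (2 ^ L) * T + 2 ^ L, ?_⟩
  intro V _ G hx
  obtain ⟨x0, hx0⟩ := hx
  set x : Fin (2 ^ L) → V := fun i => x0 (Fin.castLE (Nat.le_add_left _ _) i) with hxdef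
  have hx : ∀ i j, i ≠ j → 2 ^ (2 ^ L) * T + 2 ^ L ≤ dst G (x i) (x j) := by
    intro i j hij
    apply hx0
    intro h
    exact hij (Fin.castLE_injective _ h)
  clear_value x
  have hty := hHTY V G (2 ^ L) T x hx
  obtain ⟨f, σ, -, hHv, hsep⟩ := hCHN (Fin (2 ^ L))
    (fun σ => T ≤ (Finset.univ.filter fun v => ∀ l, v ≠ x l ∧ (G.Adj (x l) v ↔ σ l = true)).card)
    L Finset.univ (by simp) (fun i _ j _ hij => by
      obtain ⟨σ, h1, h2⟩ := hty i j hij
      exact ⟨σ, h2, h1⟩)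
  obtain ⟨B, b, e, hBs, hBc, hBh, hBe⟩ := hT V G
    (fun i => Finset.univ.filter fun v => ∀ l, v ≠ x l ∧ (G.Adj (x l) v ↔ σ i l = true)) hHv
  have hB : ∀ i, ∀ v ∈ B i, ∀ l, v ≠ x l ∧ (G.Adj (x l) v ↔ σ i l = true) := by
    intro i v hv
    have h1 := hBs i hv
    rw [Finset.mem_filter] at h1
    exact h1.2
  obtain ⟨g, col, hg, hcol⟩ := hL (fun i j =>
    (decide (G.Adj (x (f i)) (x (f j))), b i, e i j, σ i (f i), σ j (f i)))
  obtain ⟨a, bb, ee, dd, uu⟩ := col
  have hlt : ∀ i j : Fin (m + 1), i < j → i.castSucc < j.castSucc := fun i j h => h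
  have hlast : ∀ i : Fin (m + 1), i.castSucc < Fin.last (m + 1) := fun i => Fin.castSucc_lt_last i
  have hbits : ∀ i j : Fin (m + 2), i < j → decide (G.Adj (x (f (g i))) (x (f (g j)))) = a ∧
      b (g i) = bb ∧ e (g i) (g j) = ee ∧ σ (g i) (f (g i)) = dd ∧ σ (g j) (f (g i)) = uu := by
    intro i j hij
    have h1 := hcol i j hij
    simp only [Prod.mk.injEq] at h1
    exact h1
  have hb : ∀ i : Fin (m + 1), b (g i.castSucc) = bb := fun i => (hbits _ _ (hlast i)).2.1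
  have hd : ∀ i : Fin (m + 1), σ (g i.castSucc) (f (g i.castSucc)) = dd := fun i =>
    (hbits _ _ (hlast i)).2.2.2.1
  have hne : ∀ i j : Fin (m + 1), i < j →
      x (f (g i.castSucc)) ≠ x (f (g j.castSucc)) := by
    intro i j hij h
    have hpos : 0 < (B (g i.castSucc)).card := by
      rw [hBc]
      omega
    obtain ⟨y, hy⟩ := Finset.card_pos.1 hpos
    have h1 := (hB _ y hy (f (g i.castSucc))).2
    have h2 := (hB _ y hy (f (g j.castSucc))).2
    rw [h] at h1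
    have h3 : σ (g i.castSucc) (f (g i.castSucc)) = σ (g i.castSucc) (f (g j.castSucc)) :=
      Bool.eq_iff_iff.2 (h1.symm.trans h2)
    exact hsep _ _ (hg (hlt i j hij)) h3.symm
  refine hUNI V G m a bb ee dd uu (fun i => x (f (g i.castSucc))) (fun i => B (g i.castSucc)) hm
    ?_ ?_ (fun i => hBc _) ?_ ?_ ?_ ?_ ?_ ?_
  · intro i j hij
    rcases lt_trichotomy i j with h | h | h
    · exact absurd hij (hne i j h)
    · exact h
    · exact absurd hij.symm (hne j i h)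
  · intro i j hij
    rw [← (hbits _ _ (hlt i j hij)).1]
    exact decide_eq_true_iff.symm
  · intro i
    have h1 := hBh (g i.castSucc)
    rw [hb] at h1
    exact h1
  · intro i j hij y hy z hz
    rw [← (hbits _ _ (hlt i j hij)).2.2.1]
    exact hBe _ _ (hg (hlt i j hij)) y hy z hz
  · intro i j h
    exact (hB _ _ h (f (g i.castSucc))).1 rfl
  · intro i y hy
    rw [← hd i]
    exact (hB _ y hy _).2
  · intro i j hij y hy
    rw [← (hbits _ _ (hlt i j hij)).2.2.2.2]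
    exact (hB _ y hy _).2
  · intro i j hji y hy
    have h1 := (hB _ y hy (f (g i.castSucc))).2
    have h2 := hsep _ _ (hg (hlt j i hji))
    rw [hd j] at h2
    have h3 : σ (g j.castSucc) (f (g i.castSucc)) = !dd := Bool.eq_not.2 h2
    rw [h3] at h1
    rw [h1]
    cases dd <;> simp

end Pool.Ker
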