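import Pool.Agent.Work.MP_2df4ce_k.InterfaceH

set_option autoImplicit false

namespace Pool.Ker

open Classical St

theorem FTN_ncard {V : Type} [Fintype V] (G : SimpleGraph V) (u w : V) :
    {v | v ≠ u ∧ v ≠ w ∧ (G.Adj u v ↔ ¬ G.Adj w v)}.ncard = dst G u w := by
  unfold dst
  rw [← Set.ncard_coe_finset]
  apply congrArg
  ext v
  simp

/-- a bound for all finite types of vertices -/
theorem FTN_types {F : Set Gr} {t : ℕ} (hB : ∀ (n : ℕ) (G : SimpleGraph (Fin n)), Free F G →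
      ¬ ∃ x : Fin t → Fin n, ∀ i j, i ≠ j →
        t ≤ {v | v ≠ x i ∧ v ≠ x j ∧ (G.Adj (x i) v ↔ ¬ G.Adj (x j) v)}.ncard)
    {V : Type} [Fintype V] (G : SimpleGraph V) (hG : Free F G) (x : Fin t → V)
    (hx : ∀ i j, i ≠ j → t ≤ dst G (x i) (x j)) : False := by
  let e : V ≃ Fin (Fintype.card V) := Fintype.equivFin V
  let G' : SimpleGraph (Fin (Fintype.card V)) := G.comap e.symm
  have hadj : ∀ u v, G'.Adj (e u) (e v) ↔ G.Adj u v := by
    intro u v
    show G.Adj (e.symm (e u)) (e.symm (e v)) ↔ _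
    rw [Equiv.symm_apply_apply, Equiv.symm_apply_apply]
  have hfree : Free F G' := by
    intro H hH
    constructor
    intro φ
    apply (hG H hH).false
    exact φ.trans ⟨e.symm.toEmbedding, Iff.rfl⟩
  apply hB _ G' hfree
  refine ⟨fun i => e (x i), fun i j hij => ?_⟩
  refine (hx i j hij).trans (le_of_eq ?_)
  rw [← FTN_ncard, ← Set.ncard_image_of_injective _ e.injective]
  apply congrArg
  ext v
  constructor
  · rintro ⟨w, ⟨h1, h2, h3⟩, rfl⟩
    refine ⟨fun h => h1 (e.injective h), fun h => h2 (e.injective h), ?_⟩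
    rw [hadj, hadj]
    exact h3
  · rintro ⟨h1, h2, h3⟩
    obtain ⟨w, rfl⟩ := e.surjective v
    rw [hadj, hadj] at h3
    exact ⟨w, ⟨fun h => h1 (congrArg e h), fun h => h2 (congrArg e h), h3⟩, rfl⟩

theorem stmt_FTN (hEXC : Stmt_EXC) (hMO2 : Stmt_MO2) (hUNB : Stmt_UNB) : Stmt_FTN := by
  intro F
  constructor
  · rintro ⟨t, ht⟩
    obtain ⟨m, h1, h2, h3, h4⟩ := hUNB (t + 1) (by omega)
    have key : ∀ (V : Type) [Fintype V] (G : SimpleGraph V),
        (∃ x : Fin (t + 1) → V, ∀ i j, i ≠ j → t + 1 ≤ dst G (x i) (x j)) →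
        ∃ H ∈ F, Nonempty (H.2 ↪g G) := by
      intro V _ G hx
      by_contra hcon
      push Not at hcon
      obtain ⟨x, hx⟩ := hx
      refine FTN_types ht G (fun H hH => ?_) (fun i => x i.castSucc) (fun i j hij => ?_)
      · exact hcon H hH
      · have h5 : i.castSucc ≠ j.castSucc := fun h => hij (Fin.castSucc_injective _ h)
        have h6 := hx _ _ h5
        omega
    refine ⟨?_, ?_, ?_, ?_⟩
    · intro a b
      obtain ⟨H, hH, hn⟩ := key _ _ (h1 a b)
      exact ⟨H, hH, m, hn⟩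
    · intro a b c
      obtain ⟨H, hH, hn⟩ := key _ _ (h2 a b c)
      exact ⟨H, hH, m, hn⟩
    · obtain ⟨H, hH, hn⟩ := key _ _ h3
      exact ⟨H, hH, m, hn⟩
    · obtain ⟨H, hH, hn⟩ := key _ _ h4
      exact ⟨H, hH, m, hn⟩
  · intro hU
    obtain ⟨m, hm, hM⟩ := hMO2 F hU
    obtain ⟨t, ht⟩ := hEXC m hm
    refine ⟨t, fun n G hG hx => ?_⟩
    obtain ⟨x, hx⟩ := hx
    refine ht (Fin n) G ⟨x, fun i j hij => ?_⟩ (hM (Fin n) G hG)
    rw [← FTN_ncard]
    exact hx i j hij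

end Pool.Ker
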