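import Pool.Agent.Work.MP_2df4ce_k.InterfaceH

/-!
# Block HTY: heavy types
-/

set_option autoImplicit false

namespace Pool.Ker

open Classical St

theorem stmt_HTY : Stmt_HTY := by
  intro V _ G k T x hd i j hij
  rcases Nat.eq_zero_or_pos T with hT | hT
  · refine ⟨fun l => decide (l = i), ?_, by rw [hT]; exact Nat.zero_le _⟩
    have h1 : decide (i = i) = true := decide_eq_true rfl
    have h2 : decide (j = i) = false := decide_eq_false (fun h => hij h.symm)
    show decide (i = i) ≠ decide (j = i)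
    rw [h1, h2]
    exact Bool.noConfusion
  set D : Finset V := Finset.univ.filter fun v =>
    v ≠ x i ∧ v ≠ x j ∧ (G.Adj (x i) v ↔ ¬ G.Adj (x j) v) with hD
  have hDc : 2 ^ k * T + k ≤ D.card := hd i j hij
  set X : Finset V := Finset.univ.image x with hX
  have hXc : X.card ≤ k := by
    have h1 : X.card ≤ (Finset.univ : Finset (Fin k)).card := Finset.card_image_le
    rw [Finset.card_univ, Fintype.card_fin] at h1
    exact h1
  have hD' : 2 ^ k * T ≤ (D \ X).card := by
    have h1 := Finset.le_card_sdiff X D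
    omega
  set typ : V → (Fin k → Bool) := fun v l => decide (G.Adj (x l) v) with htyp
  obtain ⟨σ, -, hσ⟩ := Finset.exists_le_card_fiber_of_mul_le_card_of_maps_to
    (s := D \ X) (t := (Finset.univ : Finset (Fin k → Bool))) (f := typ) (n := T)
    (fun a _ => Finset.mem_univ _) ⟨fun _ => true, Finset.mem_univ _⟩ (by
      rw [Finset.card_univ, Fintype.card_fun, Fintype.card_bool, Fintype.card_fin]
      exact hD')
  have hmem : ∀ v, v ∈ (D \ X).filter (fun v => typ v = σ) →
      (∀ l, v ≠ x l ∧ (G.Adj (x l) v ↔ σ l = true)) ∧ (G.Adj (x i) v ↔ ¬ G.Adj (x j) v) := by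
    intro v hv
    rw [Finset.mem_filter, Finset.mem_sdiff] at hv
    obtain ⟨⟨h1, h2⟩, h3⟩ := hv
    rw [hD, Finset.mem_filter] at h1
    refine ⟨fun l => ⟨fun h => h2 ?_, ?_⟩, h1.2.2.2⟩
    · rw [hX, Finset.mem_image]
      exact ⟨l, Finset.mem_univ _, h.symm⟩
    · rw [← h3]
      show G.Adj (x l) v ↔ decide (G.Adj (x l) v) = true
      rw [decide_eq_true_iff]
  refine ⟨σ, ?_, ?_⟩
  · obtain ⟨v, hv⟩ := Finset.card_pos.mp (lt_of_lt_of_le hT hσ)
    obtain ⟨h1, h2⟩ := hmem v hv
    intro h3
    have h4 := (h1 i).2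
    have h5 := (h1 j).2
    rw [h3] at h4
    rw [h4, h5] at h2
    exact (iff_not_self h2).elim
  · refine hσ.trans (Finset.card_le_card ?_)
    intro v hv
    rw [Finset.mem_filter]
    exact ⟨Finset.mem_univ _, (hmem v hv).1⟩

end Pool.Ker
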