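import Pool.Agent.Work.MP_2df4ce_k.InterfaceH

/-!
# MP_2df4ce_lc, block MO2: monotonicity of the 14 families
-/

set_option autoImplicit false

namespace Pool.Ker

open Classical St

theorem MO2_bip {m m' : ℕ} (h : m ≤ m') {B B' : Type} (g : B → B') (hg : Function.Injective g)
    (a b : Bool) (R : Fin m → B → Prop) (R' : Fin m' → B' → Prop)
    (hR : ∀ i x, R' (Fin.castLE h i) (g x) ↔ R i x) :
    Nonempty (St.bip m a b R ↪g St.bip m' a b R') := by
  refine ⟨⟨⟨Sum.map (Fin.castLE h) g, ?_⟩, ?_⟩⟩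
  · exact Sum.map_injective.mpr ⟨Fin.castLE_injective h, hg⟩
  · intro x y
    rcases x with i | x <;> rcases y with j | y
    · show (Fin.castLE h i ≠ Fin.castLE h j ∧ a = true) ↔ (i ≠ j ∧ a = true)
      rw [(Fin.castLE_injective h).ne_iff]
    · exact hR i y
    · exact hR j x
    · show (g x ≠ g y ∧ b = true) ↔ (x ≠ y ∧ b = true)
      rw [hg.ne_iff]

theorem MO2_half {m m' : ℕ} (h : m ≤ m') (a b : Bool) :
    Nonempty (St.half a b m ↪g St.half a b m') := by
  refine MO2_bip h (Fin.castLE h) (Fin.castLE_injective h) a b _ _ ?_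
  intro i x
  show (Fin.castLE h i ≤ Fin.castLE h x) ↔ i ≤ x
  simp only [Fin.le_def, Fin.val_castLE]

theorem MO2_mtch {m m' : ℕ} (h : m ≤ m') (a b c : Bool) :
    Nonempty (St.mtch a b c m ↪g St.mtch a b c m') := by
  refine MO2_bip h (Prod.map (Fin.castLE h) (Fin.castLE h))
    ((Fin.castLE_injective h).prodMap (Fin.castLE_injective h)) a b _ _ ?_
  intro i x
  show ((Fin.castLE h i = Fin.castLE h x.1) ↔ c = true) ↔ (i = x.1 ↔ c = true)
  rw [(Fin.castLE_injective h).eq_iff]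

theorem MO2_cliques {m m' : ℕ} (h : m ≤ m') : Nonempty (St.cliques m ↪g St.cliques m') := by
  refine ⟨⟨⟨Prod.map (Fin.castLE h) (Fin.castLE h),
    (Fin.castLE_injective h).prodMap (Fin.castLE_injective h)⟩, ?_⟩⟩
  intro x y
  have hi := (Fin.castLE_injective h).prodMap (Fin.castLE_injective h)
  unfold St.cliques
  rw [SimpleGraph.fromRel_adj, SimpleGraph.fromRel_adj]
  show (Prod.map (Fin.castLE h) (Fin.castLE h) x ≠ Prod.map (Fin.castLE h) (Fin.castLE h) y ∧
    (Fin.castLE h x.1 = Fin.castLE h y.1 ∨ Fin.castLE h y.1 = Fin.castLE h x.1)) ↔ _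
  rw [hi.ne_iff, (Fin.castLE_injective h).eq_iff, (Fin.castLE_injective h).eq_iff]

theorem MO2_ev (F : Set Gr) (T : ℕ → Type) (K : ∀ m, SimpleGraph (T m))
    (hK : ∀ m m', m ≤ m' → Nonempty (K m ↪g K m')) (h : ∃ H ∈ F, ∃ m, Nonempty (H.2 ↪g K m)) :
    ∀ᶠ m in Filter.atTop, ∀ (V : Type) (G : SimpleGraph V), Free F G → IsEmpty (K m ↪g G) := by
  obtain ⟨H, hH, m, ⟨φ⟩⟩ := h
  refine Filter.eventually_atTop.mpr ⟨m, ?_⟩
  intro m' hm V G hG
  obtain ⟨ψ⟩ := hK m m' hm
  refine ⟨fun χ => ?_⟩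
  exact (hG H hH).false ((φ.trans ψ).trans χ)

theorem stmt_MO2 : Stmt_MO2 := by
  intro F hF
  obtain ⟨h1, h2, h3, h4⟩ := hF
  have e1 : ∀ᶠ m in Filter.atTop, ∀ a b, ∀ (V : Type) (G : SimpleGraph V), Free F G →
      IsEmpty (St.half a b m ↪g G) := by
    rw [Filter.eventually_all]
    intro a
    rw [Filter.eventually_all]
    intro b
    exact MO2_ev F _ (fun m => St.half a b m) (fun m m' h => MO2_half h a b) (h1 a b)
  have e2 : ∀ᶠ m in Filter.atTop, ∀ a b c, ∀ (V : Type) (G : SimpleGraph V), Free F G →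
      IsEmpty (St.mtch a b c m ↪g G) := by
    rw [Filter.eventually_all]
    intro a
    rw [Filter.eventually_all]
    intro b
    rw [Filter.eventually_all]
    intro c
    exact MO2_ev F _ (fun m => St.mtch a b c m) (fun m m' h => MO2_mtch h a b c) (h2 a b c)
  have e3 := MO2_ev F _ (fun m => St.cliques m) (fun m m' h => MO2_cliques h) h3
  have e4 := MO2_ev F _ (fun m => (St.cliques m)ᶜ)
    (fun m m' h => ⟨SimpleGraph.Embedding.complEquiv (MO2_cliques h).some⟩) h4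
  obtain ⟨m, hm1, hm⟩ := ((e1.and (e2.and (e3.and e4))).and
    (Filter.eventually_ge_atTop 1)).exists
  refine ⟨m, hm, ?_⟩
  intro V G hG
  exact ⟨fun a b => hm1.1 a b V G hG, fun a b c => hm1.2.1 a b c V G hG, hm1.2.2.1 V G hG,
    hm1.2.2.2 V G hG⟩

end Pool.Ker
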