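import Pool.Agent.Work.MP_2df4ce_k.InterfaceH

/-! # MP_2df4ce_lc, block RMC: Ramsey for pairs and finitely many colours (helper10) -/

set_option autoImplicit false

namespace Pool.Ker

open Classical St

theorem RMC_aux (q : ℕ) : ∀ L : ℕ, ∃ N : ℕ, ∀ (α : Type) [LinearOrder α]
    (c : α → α → Fin (q + 1)) (S : Finset α), N ≤ S.card → ∃ T ⊆ S, T.card = L ∧
      ∃ d : α → Fin (q + 1), ∀ x ∈ T, ∀ y ∈ T, x < y → c x y = d x := by
  intro L
  induction L with
  | zero =>
    refine ⟨0, fun α _ c S _ => ⟨∅, Finset.empty_subset _, rfl, fun _ => 0, ?_⟩⟩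
    intro x hx
    exact absurd hx (Finset.notMem_empty x)
  | succ L ih =>
    obtain ⟨N, hN⟩ := ih
    refine ⟨(q + 1) * N + 1, fun α _ c S hS => ?_⟩
    have hne : S.Nonempty := by
      rw [← Finset.card_pos]
      omega
    set x := S.min' hne with hx
    have hxS : x ∈ S := S.min'_mem hne
    have hc : (Finset.univ : Finset (Fin (q + 1))).card * N ≤ (S.erase x).card := by
      rw [Finset.card_erase_of_mem hxS, Finset.card_univ, Fintype.card_fin]
      omega
    obtain ⟨k, -, hk⟩ := Finset.exists_le_card_fiber_of_mul_le_card_of_maps_to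
      (f := fun y => c x y) (fun a _ => Finset.mem_univ _) Finset.univ_nonempty hc
    obtain ⟨T, hT, hTc, d, hd⟩ := hN α c _ hk
    have hTS : ∀ y ∈ T, (y ≠ x ∧ y ∈ S) ∧ c x y = k := by
      intro y hy
      have h := hT hy
      rw [Finset.mem_filter, Finset.mem_erase] at h
      exact h
    have hxT : x ∉ T := fun h => (hTS x h).1.1 rfl
    refine ⟨insert x T, ?_, ?_, Function.update d x k, ?_⟩
    · intro y hy
      rcases Finset.mem_insert.1 hy with rfl | h
      · exact hxS
      · exact (hTS y h).1.2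
    · rw [Finset.card_insert_of_notMem hxT, hTc]
    · intro a ha b hb hab
      rcases Finset.mem_insert.1 ha with rfl | ha'
      · rcases Finset.mem_insert.1 hb with rfl | hb'
        · exact absurd hab (lt_irrefl _)
        · rw [Function.update_self]
          exact (hTS b hb').2
      · rw [Function.update_of_ne (hTS a ha').1.1]
        rcases Finset.mem_insert.1 hb with rfl | hb'
        · exact absurd (S.min'_le a (hTS a ha').1.2) (not_le.2 hab)
        · exact hd a ha' b hb' hab

theorem p_RMC : Stmt_RMC := by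
  intro m q
  obtain ⟨N, hN⟩ := RMC_aux q ((q + 1) * m)
  refine ⟨N, fun c => ?_⟩
  obtain ⟨T, -, hTc, d, hd⟩ := hN (Fin N) c Finset.univ (by simp)
  have hc : (Finset.univ : Finset (Fin (q + 1))).card * m ≤ T.card := by
    rw [hTc, Finset.card_univ, Fintype.card_fin]
  obtain ⟨k, -, hk⟩ := Finset.exists_le_card_fiber_of_mul_le_card_of_maps_to
    (f := d) (fun a _ => Finset.mem_univ _) Finset.univ_nonempty hc
  obtain ⟨T', hT', hTc'⟩ := Finset.exists_subset_card_eq hk
  refine ⟨T'.orderEmbOfFin hTc', k, (T'.orderEmbOfFin hTc').strictMono, ?_⟩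
  intro i j hij
  have h1 : ∀ i, T'.orderEmbOfFin hTc' i ∈ T ∧ d (T'.orderEmbOfFin hTc' i) = k := by
    intro i
    have h := hT' (T'.orderEmbOfFin_mem hTc' i)
    rw [Finset.mem_filter] at h
    exact h
  rw [hd _ (h1 i).1 _ (h1 j).1 ((T'.orderEmbOfFin hTc').strictMono hij), (h1 i).2]

end Pool.Ker
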