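import Pool.Agent.Work.MP_2df4ce_k.InterfaceH

/-!
# MP_2df4ce_lc, block UNB: the 14 families are unbounded
-/

set_option autoImplicit false

namespace Pool.Ker

open Classical St

theorem UNB_inj {V : Type} [Fintype V] (G : SimpleGraph V) (x y : V) (t : ℕ) (g : Fin t → V)
    (hg : Function.Injective g) (h1 : ∀ i, g i ≠ x) (h2 : ∀ i, g i ≠ y)
    (h3 : ∀ i, G.Adj x (g i) ↔ ¬ G.Adj y (g i)) : t ≤ dst G x y := by
  unfold dst
  have hc : (Finset.univ.image g).card = t := by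
    rw [Finset.card_image_of_injective _ hg, Finset.card_univ, Fintype.card_fin]
  refine hc.symm.le.trans (Finset.card_le_card ?_)
  intro v hv
  rw [Finset.mem_image] at hv
  obtain ⟨i, -, rfl⟩ := hv
  exact Finset.mem_filter.mpr ⟨Finset.mem_univ _, h1 i, h2 i, h3 i⟩

theorem UNB_comm {V : Type} [Fintype V] (G : SimpleGraph V) (x y : V) :
    dst G x y = dst G y x := by
  unfold dst
  apply congrArg Finset.card
  ext v
  rw [Finset.mem_filter, Finset.mem_filter]
  have h : (G.Adj x v ↔ ¬ G.Adj y v) ↔ (G.Adj y v ↔ ¬ G.Adj x v) := by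
    by_cases h1 : G.Adj x v <;> by_cases h2 : G.Adj y v <;> simp [h1, h2]
  rw [h]
  constructor
  · rintro ⟨h0, h1, h2, h3⟩
    exact ⟨h0, h2, h1, h3⟩
  · rintro ⟨h0, h1, h2, h3⟩
    exact ⟨h0, h2, h1, h3⟩

theorem UNB_half (t : ℕ) (a b : Bool) : ∃ x : Fin t → Fin (t * t + t) ⊕ Fin (t * t + t),
    ∀ i j, i ≠ j → t ≤ dst (half a b (t * t + t)) (x i) (x j) := by
  have hx : ∀ i : Fin t, t * (i : ℕ) < t * t + t := by
    intro i
    have h1 : t * (i : ℕ) ≤ t * t := Nat.mul_le_mul_left _ i.2.le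
    have h2 : 0 < t := lt_of_le_of_lt (Nat.zero_le _) i.2
    omega
  have key : ∀ i j : Fin t, i < j → t ≤ dst (half a b (t * t + t))
      (Sum.inl (⟨t * (i : ℕ), hx i⟩ : Fin (t * t + t)))
      (Sum.inl (⟨t * (j : ℕ), hx j⟩ : Fin (t * t + t))) := by
    intro i j hij
    have hb : ∀ k : Fin t, t * (i : ℕ) + (k : ℕ) < t * (j : ℕ) := by
      intro k
      have h1 : t * ((i : ℕ) + 1) ≤ t * (j : ℕ) := Nat.mul_le_mul_left _ hij
      have h2 : t * ((i : ℕ) + 1) = t * (i : ℕ) + t := by ring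
      have h3 := k.2
      omega
    have hg : ∀ k : Fin t, t * (i : ℕ) + (k : ℕ) < t * t + t := fun k =>
      (hb k).trans (hx j)
    refine UNB_inj _ _ _ t (fun k => Sum.inr (⟨t * (i : ℕ) + (k : ℕ), hg k⟩ :
      Fin (t * t + t))) ?_ ?_ ?_ ?_
    · intro k k' h
      have h1 := Sum.inr_injective h
      have h2 : t * (i : ℕ) + (k : ℕ) = t * (i : ℕ) + (k' : ℕ) := congrArg Fin.val h1
      exact Fin.ext (by omega)
    · intro k h
      exact Sum.inr_ne_inl h
    · intro k h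
      exact Sum.inr_ne_inl h
    · intro k
      show (t * (i : ℕ) ≤ t * (i : ℕ) + (k : ℕ)) ↔ ¬ (t * (j : ℕ) ≤ t * (i : ℕ) + (k : ℕ))
      have := hb k
      constructor
      · intro _
        omega
      · intro _
        omega
  refine ⟨fun i => Sum.inl ⟨t * (i : ℕ), hx i⟩, fun i j hij => ?_⟩
  rcases lt_or_gt_of_ne hij with h | h
  · exact key i j h
  · rw [UNB_comm]
    exact key j i h

theorem UNB_mtch (t : ℕ) (a b c : Bool) :
    ∃ x : Fin t → Fin (t * t + t) ⊕ Fin (t * t + t) × Fin (t * t + t),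
      ∀ i j, i ≠ j → t ≤ dst (mtch a b c (t * t + t)) (x i) (x j) := by
  have ht : t ≤ t * t + t := by omega
  refine ⟨fun i => Sum.inl (Fin.castLE ht i), fun i j hij => ?_⟩
  refine UNB_inj _ _ _ t (fun k => Sum.inr (Fin.castLE ht i, Fin.castLE ht k)) ?_ ?_ ?_ ?_
  · intro k k' h
    have h1 := Sum.inr_injective h
    exact Fin.castLE_injective ht (Prod.ext_iff.mp h1).2
  · intro k h
    exact Sum.inr_ne_inl h
  · intro k h
    exact Sum.inr_ne_inl h
  · intro k
    show (Fin.castLE ht i = Fin.castLE ht i ↔ c = true) ↔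
      ¬ (Fin.castLE ht j = Fin.castLE ht i ↔ c = true)
    have hne : ¬ Fin.castLE ht j = Fin.castLE ht i := fun h =>
      hij (Fin.castLE_injective ht h).symm
    cases c
    · simp [hne]
    · simp [hne]

theorem UNB_cl (t : ℕ) (ht1 : 1 ≤ t) :
    ∃ (x : Fin t → Fin (t * t + t) × Fin (t * t + t))
      (g : Fin t → Fin t → Fin (t * t + t) × Fin (t * t + t)),
      ∀ i j, i ≠ j → Function.Injective (g i) ∧ (∀ k, g i k ≠ x i) ∧ (∀ k, g i k ≠ x j) ∧
        (∀ k, (cliques (t * t + t)).Adj (x i) (g i k)) ∧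
        ∀ k, ¬ (cliques (t * t + t)).Adj (x j) (g i k) := by
  have ht : t ≤ t * t + t := by omega
  have htt : 1 ≤ t * t := Nat.mul_pos ht1 ht1
  have h0 : 0 < t * t + t := by omega
  have hk : ∀ k : Fin t, (k : ℕ) + 1 < t * t + t := by
    intro k
    have := k.2
    omega
  refine ⟨fun i => (Fin.castLE ht i, ⟨0, h0⟩),
    fun i k => (Fin.castLE ht i, ⟨(k : ℕ) + 1, hk k⟩), fun i j hij => ?_⟩
  have hne : ¬ Fin.castLE ht j = Fin.castLE ht i := fun h =>
    hij (Fin.castLE_injective ht h).symm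
  refine ⟨?_, ?_, ?_, ?_, ?_⟩
  · intro k k' h
    have h1 := (Prod.ext_iff.mp h).2
    have h2 : (k : ℕ) + 1 = (k' : ℕ) + 1 := congrArg Fin.val h1
    exact Fin.ext (by omega)
  · intro k h
    have h2 : (k : ℕ) + 1 = 0 := congrArg Fin.val (Prod.ext_iff.mp h).2
    omega
  · intro k h
    exact hne (Prod.ext_iff.mp h).1.symm
  · intro k
    unfold cliques
    rw [SimpleGraph.fromRel_adj]
    refine ⟨fun h => ?_, Or.inl rfl⟩
    have h2 : 0 = (k : ℕ) + 1 := congrArg Fin.val (Prod.ext_iff.mp h).2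
    omega
  · intro k h
    unfold cliques at h
    rw [SimpleGraph.fromRel_adj] at h
    rcases h.2 with h1 | h1
    · exact hne h1
    · exact hne h1.symm

theorem stmt_UNB : Stmt_UNB := by
  intro t ht1
  obtain ⟨x, g, hxg⟩ := UNB_cl t ht1
  refine ⟨t * t + t, fun a b => UNB_half t a b, fun a b c => UNB_mtch t a b c,
    ⟨x, fun i j hij => ?_⟩, ⟨x, fun i j hij => ?_⟩⟩
  · obtain ⟨h1, h2, h3, h4, h5⟩ := hxg i j hij
    exact UNB_inj _ _ _ t (g i) h1 h2 h3 fun k => ⟨fun _ => h5 k, fun _ => h4 k⟩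
  · obtain ⟨h1, h2, h3, h4, h5⟩ := hxg i j hij
    refine UNB_inj _ _ _ t (g i) h1 h2 h3 fun k => ?_
    rw [SimpleGraph.compl_adj, SimpleGraph.compl_adj]
    constructor
    · rintro ⟨-, h⟩
      exact absurd (h4 k) h
    · intro h
      exact absurd ⟨(h3 k).symm, h5 k⟩ h

end Pool.Ker
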