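import Pool.Agent.Work.MP_2df4ce_k.InterfaceH

/-! # MP_2df4ce_lc, block UNI: the uniform configuration contains one of the 14 graphs -/

set_option autoImplicit false

namespace Pool.Ker

open Classical St

private theorem UNI_bip {V : Type} (G : SimpleGraph V) (m : ℕ) {B : Type} (a b : Bool)
    (R : Fin m → B → Prop) (X : Fin m → V) (Y : B → V) (hX : Function.Injective X)
    (hY : Function.Injective Y) (hXY : ∀ i x, X i ≠ Y x)
    (h1 : ∀ i j, i ≠ j → (G.Adj (X i) (X j) ↔ a = true))
    (h2 : ∀ x y, x ≠ y → (G.Adj (Y x) (Y y) ↔ b = true))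
    (h3 : ∀ i x, G.Adj (X i) (Y x) ↔ R i x) : Nonempty (bip m a b R ↪g G) := by
  refine ⟨{ toFun := Sum.elim X Y, inj' := ?_, map_rel_iff' := ?_ }⟩
  · rintro (i | x) (j | y) h
    · rw [hX h]
    · exact absurd h (hXY i y)
    · exact absurd h.symm (hXY j x)
    · rw [hY h]
  · rintro (i | x) (j | y)
    · show G.Adj (X i) (X j) ↔ (i ≠ j ∧ a = true)
      by_cases h : i = j
      · subst h
        exact ⟨fun h' => absurd h' (G.loopless.irrefl _), fun h' => absurd rfl h'.1⟩
      · exact (h1 i j h).trans ⟨fun h' => ⟨h, h'⟩, fun h' => h'.2⟩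
    · show G.Adj (X i) (Y y) ↔ R i y
      exact h3 i y
    · show G.Adj (Y x) (X j) ↔ R j x
      rw [G.adj_comm]
      exact h3 j x
    · show G.Adj (Y x) (Y y) ↔ (x ≠ y ∧ b = true)
      by_cases h : x = y
      · subst h
        exact ⟨fun h' => absurd h' (G.loopless.irrefl _), fun h' => absurd rfl h'.1⟩
      · exact (h2 x y h).trans ⟨fun h' => ⟨h, h'⟩, fun h' => h'.2⟩

theorem stmt_UNI : Stmt_UNI := by
  intro V _ G m a b e d u x B hm hx hxx hcard hhom hBB hxB hd hu hl hE
  obtain ⟨hE1, hE2, hE3, hE4⟩ := hE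
  -- the vertices of the sets
  let β : Fin (m + 1) → Fin m → V := fun i y =>
    (((B i).equivFinOfCardEq (hcard i)).symm y : V)
  have hβ : ∀ i y, β i y ∈ B i := fun i y =>
    (((B i).equivFinOfCardEq (hcard i)).symm y).2
  have hβi : ∀ i y z, β i y = β i z → y = z := by
    intro i y z h
    exact ((B i).equivFinOfCardEq (hcard i)).symm.injective (Subtype.ext h)
  have hdis' : ∀ i j, i < j → ∀ v, v ∈ B i → v ∈ B j → False := by
    intro i j hij v hi hj
    have h1 := hd j v hj
    have h2 := hl j i hij v hi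
    have h3 := h1.symm.trans h2
    cases d
    · exact absurd (h3.2 rfl) (by decide)
    · exact absurd (h3.1 rfl) (by decide)
  have hdis : ∀ i j, i ≠ j → ∀ y z, β i y ≠ β j z := by
    intro i j hij y z h
    rcases lt_or_gt_of_ne hij with h' | h'
    · exact hdis' i j h' (β i y) (hβ i y) (by rw [h]; exact hβ j z)
    · exact hdis' j i h' (β i y) (by rw [h]; exact hβ j z) (hβ i y)
  have hBne : ∀ i j, i ≠ j → ∀ y z, (G.Adj (β i y) (β j z) ↔ e = true) := by
    intro i j hij y z
    rcases lt_or_gt_of_ne hij with h' | h'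
    · exact hBB i j h' _ (hβ i y) _ (hβ j z)
    · rw [G.adj_comm]
      exact hBB j i h' _ (hβ j z) _ (hβ i y)
  have hBeq : ∀ i y z, y ≠ z → (G.Adj (β i y) (β i z) ↔ b = true) := by
    intro i y z h
    exact hhom i _ (hβ i y) _ (hβ i z) (fun h' => h (hβi i y z h'))
  have hxx' : ∀ i j, i ≠ j → (G.Adj (x i) (x j) ↔ a = true) := by
    intro i j hij
    rcases lt_or_gt_of_ne hij with h' | h'
    · exact hxx i j h'
    · rw [G.adj_comm]
      exact hxx j i h'
  have hcs : ∀ i j : Fin m, i.castSucc = j.castSucc → i = j := fun i j h =>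
    Fin.castSucc_injective m h
  by_cases heb : e = b
  · -- all the vertices of the sets are pairwise adjacent iff `b`
    subst heb
    have hall : ∀ i j y z, β i y ≠ β j z → (G.Adj (β i y) (β j z) ↔ e = true) := by
      intro i j y z h
      by_cases hij : i = j
      · subst hij
        exact hBeq i y z (fun h' => h (by rw [h']))
      · exact hBne i j hij y z
    let z0 : Fin m := ⟨0, hm⟩
    by_cases hud : u = d
    · subst hud
      cases u with
      | true =>
        refine (hE1 a e).elim (UNI_bip G m a e _ (fun i => x i.castSucc)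
          (fun j => β j.castSucc z0) ?_ ?_ ?_ ?_ ?_ ?_).some
        · intro i j h
          exact hcs _ _ (hx h)
        · intro i j h
          by_contra hij
          exact hdis i.castSucc j.castSucc (fun h' => hij (hcs _ _ h')) z0 z0 h
        · intro i j h
          exact hxB i.castSucc j.castSucc (by rw [h]; exact hβ _ _)
        · intro i j hij
          exact hxx' _ _ (fun h' => hij (hcs _ _ h'))
        · intro i j hij
          exact hall _ _ _ _ (hdis i.castSucc j.castSucc (fun h' => hij (hcs _ _ h')) z0 z0)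
        · intro i j
          rcases lt_trichotomy i j with h | h | h
          · rw [hu i.castSucc j.castSucc (Fin.castSucc_lt_castSucc_iff.2 h) _ (hβ _ _)]
            exact ⟨fun _ => h.le, fun _ => rfl⟩
          · subst h
            rw [hd i.castSucc _ (hβ _ _)]
            exact ⟨fun _ => le_rfl, fun _ => rfl⟩
          · rw [hl i.castSucc j.castSucc (Fin.castSucc_lt_castSucc_iff.2 h) _ (hβ _ _)]
            exact ⟨fun h' => absurd h' (by decide), fun h' => absurd h' (not_le.2 h)⟩
      | false =>
        have hp : ∀ i : Fin m, m - i.val < m + 1 := fun i => by omega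
        have hq : ∀ i : Fin m, m - 1 - i.val < m + 1 := fun i => by omega
        have hpi : ∀ i j : Fin m, (⟨m - i.val, hp i⟩ : Fin (m + 1)) = ⟨m - j.val, hp j⟩ →
            i = j := by
          intro i j h
          have h' := Fin.mk.inj_iff.1 h
          exact Fin.ext (by have := i.2; have := j.2; omega)
        have hqi : ∀ i j : Fin m, (⟨m - 1 - i.val, hq i⟩ : Fin (m + 1)) = ⟨m - 1 - j.val, hq j⟩ →
            i = j := by
          intro i j h
          have h' := Fin.mk.inj_iff.1 h
          exact Fin.ext (by have := i.2; have := j.2; omega)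
        refine (hE1 a e).elim (UNI_bip G m a e _ (fun i => x ⟨m - i.val, hp i⟩)
          (fun j => β ⟨m - 1 - j.val, hq j⟩ z0) ?_ ?_ ?_ ?_ ?_ ?_).some
        · intro i j h
          exact hpi _ _ (hx h)
        · intro i j h
          by_contra hij
          exact hdis _ _ (fun h' => hij (hqi i j h')) z0 z0 h
        · intro i j h
          exact hxB ⟨m - i.val, hp i⟩ ⟨m - 1 - j.val, hq j⟩ (by rw [h]; exact hβ _ _)
        · intro i j hij
          exact hxx' _ _ (fun h' => hij (hpi _ _ h'))
        · intro i j hij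
          exact hall _ _ _ _ (hdis _ _ (fun h' => hij (hqi i j h')) z0 z0)
        · intro i j
          have hi := i.2
          have hj := j.2
          have hle : i ≤ j ↔ i.val ≤ j.val := Fin.le_def
          rw [hle]
          rcases lt_trichotomy (m - i.val) (m - 1 - j.val) with h | h | h
          · rw [hu ⟨m - i.val, hp i⟩ ⟨m - 1 - j.val, hq j⟩ (Fin.lt_def.2 h) _ (hβ _ _)]
            exact ⟨fun h' => absurd h' (by decide), fun h' => by omega⟩
          · have h2 : (⟨m - 1 - j.val, hq j⟩ : Fin (m + 1)) = ⟨m - i.val, hp i⟩ := Fin.ext h.symm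
            have h3 := hd ⟨m - i.val, hp i⟩ (β ⟨m - 1 - j.val, hq j⟩ z0) (by
              rw [← h2]
              exact hβ _ _)
            rw [h3]
            exact ⟨fun h' => absurd h' (by decide), fun h' => by omega⟩
          · rw [hl ⟨m - i.val, hp i⟩ ⟨m - 1 - j.val, hq j⟩ (Fin.lt_def.2 h) _ (hβ _ _)]
            exact ⟨fun _ => by omega, fun _ => rfl⟩
    · have hud' : u = !d := by
        revert hud
        cases u <;> cases d <;> decide
      refine (hE2 a e d).elim (UNI_bip G m a e _ (fun i => x i.castSucc)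
          (fun p => β p.1.castSucc p.2) ?_ ?_ ?_ ?_ ?_ ?_).some
      · intro i j h
        exact hcs _ _ (hx h)
      · rintro ⟨i, y⟩ ⟨j, z⟩ h
        by_cases hij : i = j
        · subst hij
          exact Prod.ext rfl (hβi _ _ _ h)
        · exact absurd h (hdis _ _ (fun h' => hij (hcs _ _ h')) y z)
      · rintro i ⟨j, z⟩ h
        exact hxB i.castSucc j.castSucc (by rw [h]; exact hβ _ _)
      · intro i j hij
        exact hxx' _ _ (fun h' => hij (hcs _ _ h'))
      · rintro ⟨i, y⟩ ⟨j, z⟩ hij
        by_cases hij' : i = j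
        · subst hij'
          exact hBeq _ _ _ (fun h' => hij (Prod.ext rfl h'))
        · exact hBne _ _ (fun h' => hij' (hcs _ _ h')) y z
      · rintro i ⟨j, z⟩
        show G.Adj (x i.castSucc) (β j.castSucc z) ↔ (i = j ↔ d = true)
        rcases lt_trichotomy i j with h | h | h
        · rw [hu i.castSucc j.castSucc (Fin.castSucc_lt_castSucc_iff.2 h) _ (hβ _ _), hud']
          cases d
          · exact ⟨fun _ => ⟨fun h' => absurd h' h.ne, fun h' => absurd h' (by decide)⟩,
              fun _ => rfl⟩
          · exact ⟨fun h' => absurd h' (by decide), fun h' => absurd (h'.2 rfl) h.ne⟩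
        · subst h
          rw [hd i.castSucc _ (hβ _ _)]
          exact ⟨fun h' => ⟨fun _ => h', fun _ => rfl⟩, fun h' => h'.1 rfl⟩
        · rw [hl i.castSucc j.castSucc (Fin.castSucc_lt_castSucc_iff.2 h) _ (hβ _ _)]
          cases d
          · exact ⟨fun _ => ⟨fun h' => absurd h' h.ne', fun h' => absurd h' (by decide)⟩,
              fun _ => rfl⟩
          · exact ⟨fun h' => absurd h' (by decide), fun h' => absurd (h'.2 rfl) h.ne'⟩
  · -- the sets give `cliques m` or its complement
    let F : Fin m × Fin m → V := fun p => β p.1.castSucc p.2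
    have hF : Function.Injective F := by
      rintro ⟨i, y⟩ ⟨j, z⟩ h
      by_cases hij : i = j
      · subst hij
        exact Prod.ext rfl (hβi _ _ _ h)
      · exact absurd h (hdis _ _ (fun h' => hij (hcs _ _ h')) y z)
    have hcl : ∀ p q : Fin m × Fin m, (cliques m).Adj p q ↔ (p ≠ q ∧ p.1 = q.1) := by
      intro p q
      unfold cliques
      rw [SimpleGraph.fromRel_adj]
      constructor
      · rintro ⟨h1, h2 | h2⟩
        · exact ⟨h1, h2⟩
        · exact ⟨h1, h2.symm⟩
      · rintro ⟨h1, h2⟩
        exact ⟨h1, Or.inl h2⟩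
    have hsame : ∀ p q : Fin m × Fin m, p ≠ q → p.1 = q.1 → (G.Adj (F p) (F q) ↔ b = true) := by
      rintro ⟨i, y⟩ ⟨j, z⟩ h1 h2
      have h2' : i = j := h2
      subst h2'
      exact hBeq _ _ _ (fun h' => h1 (Prod.ext rfl h'))
    have hdiff : ∀ p q : Fin m × Fin m, p.1 ≠ q.1 → (G.Adj (F p) (F q) ↔ e = true) := by
      rintro ⟨i, y⟩ ⟨j, z⟩ h1
      exact hBne _ _ (fun h' => h1 (hcs _ _ h')) y z
    have heb' : e = !b := by
      revert heb
      cases e <;> cases b <;> decide
    cases b with
    | true =>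
      refine hE3.elim ⟨⟨F, hF⟩, ?_⟩
      intro p q
      show G.Adj (F p) (F q) ↔ (cliques m).Adj p q
      rw [hcl]
      by_cases h1 : p = q
      · subst h1
        exact ⟨fun h' => absurd h' (G.loopless.irrefl _), fun h' => absurd rfl h'.1⟩
      · by_cases h2 : p.1 = q.1
        · rw [hsame p q h1 h2]
          exact ⟨fun _ => ⟨h1, h2⟩, fun _ => rfl⟩
        · rw [hdiff p q h2, heb']
          exact ⟨fun h' => absurd h' (by decide), fun h' => absurd h'.2 h2⟩
    | false =>
      refine hE4.elim ⟨⟨F, hF⟩, ?_⟩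
      intro p q
      show G.Adj (F p) (F q) ↔ (cliques m)ᶜ.Adj p q
      rw [SimpleGraph.compl_adj, hcl]
      by_cases h1 : p = q
      · subst h1
        exact ⟨fun h' => absurd h' (G.loopless.irrefl _), fun h' => absurd rfl h'.1⟩
      · by_cases h2 : p.1 = q.1
        · rw [hsame p q h1 h2]
          exact ⟨fun h' => absurd h' (by decide), fun h' => absurd ⟨h1, h2⟩ h'.2⟩
        · rw [hdiff p q h2, heb']
          exact ⟨fun _ => ⟨h1, fun h' => h2 h'.2⟩, fun _ => rfl⟩

end Pool.Ker
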