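import Mathlib
import Pool.Agent.Work.TMLib.Classes

/-!
# MP_2df4ce_lc: the definitions of the final statement

(They are repeated, with the same bodies, in the Results file.)
-/

set_option autoImplicit false

namespace Pool.Ker.St

open Pool.Agent.Work.TMLib

/-- Graphs with vertex set `{0, ..., m - 1}`. -/
abbrev Gr := Σ m : ℕ, SimpleGraph (Fin m)

/-- No induced subgraph of `G` is isomorphic to a member of `F`. -/
def Free (F : Set Gr) {V : Type} (G : SimpleGraph V) : Prop := ∀ H ∈ F, IsEmpty (H.2 ↪g G)

/-- An instance of edge editing: the number `n` of vertices, a list of edges, the parameter `k`. -/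
abbrev Inst := ℕ × List (ℕ × ℕ) × ℕ

/-- The graph of an instance; its vertices are `0, ..., n - 1`. -/
def Inst.graph (I : Inst) : SimpleGraph (Fin I.1) :=
  SimpleGraph.fromRel fun i j => ((i : ℕ), (j : ℕ)) ∈ I.2.1

/-- The graph can be made `F`-free by adding and removing at most `k` edges in total. -/
def Yes (F : Set Gr) (I : Inst) : Prop :=
  ∃ G' : SimpleGraph (Fin I.1), Free F G' ∧ (symmDiff I.graph.edgeSet G'.edgeSet).ncard ≤ I.2.2

/-- A natural number as a string of bits: `x` zeros followed by a one. -/
def encNum (x : ℕ) : List Bool := List.replicate x false ++ [true]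

/-- An instance as a string of bits: `n`, `k`, the ends of the edges one after the other. -/
def Inst.enc (I : Inst) : List Bool :=
  encNum I.1 ++ encNum I.2.2 ++ I.2.1.flatMap fun e => encNum e.1 ++ encNum e.2

/-- `F`-free edge editing has a polynomial kernel: a polynomial-time algorithm (Turing machine) which
maps every instance to an equivalent one, of length bounded by a polynomial in the parameter, and
whose parameter is not larger. -/
def HasKernel (F : Set Gr) : Prop :=
  ∃ (f : Inst → Inst) (P : Polynomial ℕ), PolyTime Inst.enc Inst.enc f ∧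
    ∀ I : Inst, (Yes F (f I) ↔ Yes F I) ∧ (f I).2.2 ≤ I.2.2 ∧
      (f I).enc.length ≤ P.eval I.2.2

/-- There are `r`, `D`, `c` such that in every finite `F`-free graph all but at most `c` vertices can be
divided into `r` classes, with a symmetric relation `M` on the classes, so that every vertex `v` of the
class `i` has at most `D` defects, i.e. vertices `u ≠ v` of a class `j` such that `v u` is an edge but not
`M i j`, or `M i j` but `v u` is not an edge. -/
def Structured (F : Set Gr) : Prop :=
  ∃ r D c : ℕ, ∀ (n : ℕ) (G : SimpleGraph (Fin n)), Free F G →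
    ∃ (lab : Fin n → Option (Fin r)) (M : Fin r → Fin r → Prop), (∀ i j, M i j → M j i) ∧
      {v | lab v = none}.ncard ≤ c ∧
      ∀ v i, lab v = some i →
        {u | u ≠ v ∧ ∃ j, lab u = some j ∧ ¬ (G.Adj v u ↔ M i j)}.ncard ≤ D

/-- The star with `m` leaves plus `m` isolated vertices: `0` is joined to `1, ..., m`. -/
def starIso (m : ℕ) : SimpleGraph (Fin (2 * m + 1)) :=
  SimpleGraph.fromRel fun i j => i.val = 0 ∧ 1 ≤ j.val ∧ j.val ≤ m

/-- The disjoint union of `m` complete graphs with `m` vertices. -/
def cliques (m : ℕ) : SimpleGraph (Fin m × Fin m) :=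
  SimpleGraph.fromRel fun x y => x.1 = y.1

/-- Some member of `F` is an induced subgraph of a star plus isolated vertices, some member is an induced
subgraph of a disjoint union of complete graphs, and the same for the complements of these graphs. -/
def Four (F : Set Gr) : Prop :=
  (∃ H ∈ F, ∃ m, Nonempty (H.2 ↪g starIso m)) ∧ (∃ H ∈ F, ∃ m, Nonempty (H.2 ↪g (starIso m)ᶜ)) ∧
    (∃ H ∈ F, ∃ m, Nonempty (H.2 ↪g cliques m)) ∧ (∃ H ∈ F, ∃ m, Nonempty (H.2 ↪g (cliques m)ᶜ))

/-- The complete graph on `p` vertices minus the edge `0 1`. -/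
def KMinus (p : ℕ) : SimpleGraph (Fin p) :=
  SimpleGraph.fromRel fun i _ => 2 ≤ i.val

end Pool.Ker.St
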