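import Pool.Agent.Work.MP_2df4ce_k.Defs
import Pool.Agent.Work.MP_2df4ce_k.Stmt

/-!
# MP_2df4ce_lc: the kernelization algorithm

Parameters: `OL` (the list of the forbidden graphs as adjacency patterns), `s` (bound for their sizes),
`r`, `D` (number of classes, number of defects), `cc` (bound for the exceptional vertices), `noI` (a
no-instance).
-/

set_option autoImplicit false

namespace Pool.Ker.Alg

/-- Adjacency of `u` and `v` in the graph with edge list `E`. -/
def adj (E : List (ℕ × ℕ)) (u v : ℕ) : Bool :=
  !(decide (u = v)) && E.any fun e =>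
    (decide (e.1 = u) && decide (e.2 = v)) || (decide (e.1 = v) && decide (e.2 = u))

/-- Membership. -/
def memB (l : List ℕ) (v : ℕ) : Bool := l.any fun u => decide (u = v)

/-- All lists of length `l` with entries in `U`. -/
def tup {α : Type} (U : List α) : ℕ → List (List α)
  | 0 => [[]]
  | l + 1 => U.flatMap fun u => (tup U l).map fun t => u :: t

/-- All lists of length at most `l` with entries in `U`. -/
def allT (U : List ℕ) : ℕ → List (List ℕ)
  | 0 => tup U 0
  | l + 1 => tup U (l + 1) ++ allT U l

/-- Does `t` have no repeated entries? (the number of pairs of equal entries is the length) -/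
def nodB (t : List ℕ) : Bool :=
  decide ((t.flatMap fun x => t.filter fun y => decide (x = y)).length = t.length)

/-- The adjacencies between the entries of `t` and those of `z`. -/
def apat (E : List (ℕ × ℕ)) (t z : List ℕ) : List Bool := t.flatMap fun x => z.map fun y => adj E x y

/-- Is `t` a forbidden induced subgraph (in the right order)? -/
def obB (OL : List (ℕ × List Bool)) (E : List (ℕ × ℕ)) (t : List ℕ) : Bool :=
  nodB t && OL.any fun g => decide (g = (t.length, apat E t t))

/-- Have `t` and `l` no common element? -/
def disB (t l : List ℕ) : Bool := !(t.any fun x => memB l x)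

/-- Greedy choice of at most `N` pairwise disjoint lists `t` of `ts` with `c t`. -/
def pack (N : ℕ) (c : List ℕ → Bool) (ts : List (List ℕ)) : List (List ℕ) :=
  ts.foldl (fun acc t => bif c t && (disB t (acc.flatMap fun x => x) && decide (acc.length < N))
    then acc ++ [t] else acc) []

/-- The packing of obstructions. -/
def packO (OL : List (ℕ × List Bool)) (s n k : ℕ) (E : List (ℕ × ℕ)) : List (List ℕ) :=
  pack (k + 1) (obB OL E) (allT (List.range n) s)

/-- The vertices outside of the packing `P`. -/
def restL (n : ℕ) (P : List (List ℕ)) : List ℕ :=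
  (List.range n).filter fun v => !(memB (P.flatMap fun x => x) v)

/-- The vote of the sample set `A` about `v`: more than `D` neighbours. -/
def vote (D : ℕ) (E : List (ℕ × ℕ)) (A : List ℕ) (v : ℕ) : Bool :=
  decide (D < (A.filter fun x => adj E v x).length)

/-- All votes about `v` of the sample `Sa`. -/
def rowB (D : ℕ) (E : List (ℕ × ℕ)) (Sa : List (List ℕ)) (v : ℕ) : List Bool :=
  Sa.map fun A => vote D E A v

/-- The label of `v`: the first `i` such that the set `i` of the sample is not empty and its first element
has the same votes as `v`; the length of `Sa` if there is none. -/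
def labB (D : ℕ) (E : List (ℕ × ℕ)) (Sa : List (List ℕ)) (v : ℕ) : ℕ :=
  ((List.range Sa.length).filter fun i => !((Sa.getD i []).isEmpty) &&
    decide (rowB D E Sa v = rowB D E Sa ((Sa.getD i []).headD 0))).headD Sa.length

/-- The prescribed adjacency between the labels `i` and `j`. -/
def idB (D : ℕ) (E : List (ℕ × ℕ)) (Sa : List (List ℕ)) (i j : ℕ) : Bool :=
  vote D E (Sa.getD j []) ((Sa.getD i []).headD 0) &&
    vote D E (Sa.getD i []) ((Sa.getD j []).headD 0)

/-- Has `v` a label? -/
def labdB (D : ℕ) (E : List (ℕ × ℕ)) (Sa : List (List ℕ)) (v : ℕ) : Bool :=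
  decide (labB D E Sa v < Sa.length)

/-- Is `u v` a defect? -/
def defB (D : ℕ) (E : List (ℕ × ℕ)) (Sa : List (List ℕ)) (u v : ℕ) : Bool :=
  !(decide (u = v)) && !(decide (adj E u v = idB D E Sa (labB D E Sa u) (labB D E Sa v)))

/-- The exceptional vertices of `V`: no label, or more than `D + cc` defects. -/
def exL (D cc : ℕ) (E : List (ℕ × ℕ)) (Sa : List (List ℕ)) (V : List ℕ) : List ℕ :=
  V.filter fun v => !(labdB D E Sa v) ||
    decide (D + cc < (V.filter fun u => labdB D E Sa u && defB D E Sa v u).length)

/-- The candidates for the sets of the sample. -/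
def cands (D : ℕ) (V : List ℕ) : List (List ℕ) := [] :: tup V (2 * D + 2)

/-- The first sample with at most `cc` exceptional vertices. -/
def samp (D cc r : ℕ) (E : List (ℕ × ℕ)) (V : List ℕ) : List (List ℕ) :=
  ((tup (cands D V) r).filter fun Sa => decide ((exL D cc E Sa V).length ≤ cc)).headD []

/-- The regular vertices. -/
def regL (D cc : ℕ) (E : List (ℕ × ℕ)) (Sa : List (List ℕ)) (V : List ℕ) : List ℕ :=
  V.filter fun v => !(memB (exL D cc E Sa V) v)

/-- The vertices less than `n` not in `R`. -/
def coL (n : ℕ) (R : List ℕ) : List ℕ := (List.range n).filter fun v => !(memB R v)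

/-- The pattern of `t` with respect to `zt`: labels, adjacencies, adjacencies to `zt`. -/
def pat (D : ℕ) (E : List (ℕ × ℕ)) (Sa : List (List ℕ)) (zt t : List ℕ) :
    (List ℕ × List Bool) × List Bool := ((t.map (labB D E Sa), apat E t t), apat E t zt)

/-- The disjoint copies of `t0` chosen by the algorithm. -/
def packP (D s N : ℕ) (E : List (ℕ × ℕ)) (Sa : List (List ℕ)) (R zt t0 : List ℕ) :
    List (List ℕ) :=
  pack N (fun t => nodB t && decide (pat D E Sa zt t = pat D E Sa zt t0)) (allT R s)

/-- The set `M`: the vertices of all the chosen copies, for all `t0` and all `zt`. -/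
def Ml (D s N n : ℕ) (E : List (ℕ × ℕ)) (Sa : List (List ℕ)) (Z R : List ℕ) : List ℕ :=
  (List.range n).filter fun v => (allT Z s).any fun zt => (allT R s).any fun t0 =>
    (packP D s N E Sa R zt t0).any fun t => memB t v

/-- One step of the growth of a ball. -/
def stepB (D n : ℕ) (E : List (ℕ × ℕ)) (Sa : List (List ℕ)) (R B : List ℕ) : List ℕ :=
  (List.range n).filter fun v => memB B v || B.any fun u =>
    memB R u && (memB R v && defB D E Sa u v)

/-- The start: the vertices in `Z` or `M`. -/
def startB (n : ℕ) (Z M : List ℕ) : List ℕ := (List.range n).filter fun v => memB Z v || memB M v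

/-- The number of copies. -/
def Nc (s Δ k : ℕ) : ℕ := 2 * k + s + s * Δ + 1

/-- The number of binary digits: `k < 2 ^ L k`. -/
def Ln (k : ℕ) : ℕ := k.bits.length

/-- The kernel vertices, from the packing `P` of obstructions. -/
def vk (s r D cc n k : ℕ) (E : List (ℕ × ℕ)) (P : List (List ℕ)) : List ℕ :=
  (stepB D n E (samp D cc r E (restL n P))
      (regL D cc E (samp D cc r E (restL n P)) (restL n P)))^[Rad s (D + cc) (Ln k) + s + 1]
    (startB n (coL n (regL D cc E (samp D cc r E (restL n P)) (restL n P)))
      (Ml D s (Nc s (D + cc) k) n E (samp D cc r E (restL n P))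
        (coL n (regL D cc E (samp D cc r E (restL n P)) (restL n P)))
        (regL D cc E (samp D cc r E (restL n P)) (restL n P))))

/-- The instance induced on the list `K` of vertices. -/
def sub (E : List (ℕ × ℕ)) (k : ℕ) (K : List ℕ) : St.Inst :=
  (K.length, (List.range K.length).flatMap (fun i => ((List.range K.length).filter fun j =>
    decide (i < j) && adj E (K.getD i 0) (K.getD j 0)).map fun j => (i, j)), k)

/-- The kernelization. -/
def kern (OL : List (ℕ × List Bool)) (s r D cc : ℕ) (noI : St.Inst) (I : St.Inst) : St.Inst :=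
  bif decide (I.2.2 < (packO OL s I.1 I.2.2 I.2.1).length) then noI
  else sub I.2.1 I.2.2 (vk s r D cc I.1 I.2.2 I.2.1 (packO OL s I.1 I.2.2 I.2.1))

end Pool.Ker.Alg
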