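import Pool.Agent.Work.MP_2df4ce_k.InterfaceB

/-!
# MP_2df4ce_lc, block APT (helper58): patterns
-/

set_option autoImplicit false

namespace Pool.Ker

open Classical St Alg

theorem APT_map {β : Type} (f g : ℕ → β) (z z' : List ℕ) (hz : z.length = z'.length) :
    z.map f = z'.map g ↔ ∀ j, j < z.length → f (z.getD j 0) = g (z'.getD j 0) := by
  induction z generalizing z' with
  | nil =>
    have h1 : z' = [] := by
      rw [← List.length_eq_zero_iff, ← hz]
      rfl
    subst h1
    simp
  | cons a z ih =>
    cases z' with
    | nil => simp at hz
    | cons a' z' =>
      have hz' : z.length = z'.length := by simpa using hz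
      rw [List.map_cons, List.map_cons, List.cons.injEq, ih z' hz']
      constructor
      · rintro ⟨h1, h2⟩ j hj
        cases j with
        | zero => simpa using h1
        | succ j =>
          have h3 := h2 j (by simpa using hj)
          simpa using h3
      · intro h
        refine ⟨by simpa using h 0 (by simp), fun j hj => ?_⟩
        have h3 := h (j + 1) (by simpa using hj)
        simpa using h3

theorem stmt_APT : Stmt_APT := by
  intro E E' t t' z z' ht hz
  induction t generalizing t' with
  | nil =>
    have h1 : t' = [] := by
      rw [← List.length_eq_zero_iff, ← ht]
      rfl
    subst h1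
    unfold apat
    simp
  | cons a t ih =>
    cases t' with
    | nil => simp at ht
    | cons a' t' =>
      have ht' : t.length = t'.length := by simpa using ht
      have ih' := ih t' ht'
      unfold apat at ih' ⊢
      rw [List.flatMap_cons, List.flatMap_cons]
      have h1 : (z.map fun y => adj E a y) ++ (t.flatMap fun x => z.map fun y => adj E x y) =
          (z'.map fun y => adj E' a' y) ++ (t'.flatMap fun x => z'.map fun y => adj E' x y) ↔
          (z.map fun y => adj E a y) = (z'.map fun y => adj E' a' y) ∧
          (t.flatMap fun x => z.map fun y => adj E x y) =
            (t'.flatMap fun x => z'.map fun y => adj E' x y) := by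
        constructor
        · intro h
          exact List.append_inj h (by rw [List.length_map, List.length_map, hz])
        · rintro ⟨h2, h3⟩
          rw [h2, h3]
      rw [h1, APT_map _ _ z z' hz, ih']
      constructor
      · rintro ⟨h2, h3⟩ i j hi hj
        cases i with
        | zero => simpa using h2 j hj
        | succ i =>
          have h4 := h3 i j (by simpa using hi) hj
          simpa using h4
      · intro h
        refine ⟨fun j hj => by simpa using h 0 j (by simp) hj, fun i j hi hj => ?_⟩
        have h4 := h (i + 1) j (by simpa using hi) hj
        simpa using h4

end Pool.Ker
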