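import Pool.Agent.Work.MP_2df4ce_k.Interface

set_option autoImplicit false

/-! # Block BAL (helper53) -/

namespace Pool.Ker

open Classical

theorem stmt_BAL : Stmt_BAL := by
  intro G X s Δ N Z M lab W hC n
  induction n with
  | zero =>
    unfold bl
    simp [ball]
  | succ n ih =>
    have hsub : bl G X Z M lab W (n + 1) ⊆ bl G X Z M lab W n ∪
        (bl G X Z M lab W n).biUnion (fun v => X.filter fun u => Df G X Z lab W v u) := by
      intro v hv
      unfold bl at hv ⊢
      rw [ball, Finset.mem_filter] at hv
      obtain ⟨hvX, hv | ⟨u, hu, huv⟩⟩ := hv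
      · exact Finset.mem_union_left _ hv
      · refine Finset.mem_union_right _ ?_
        rw [Finset.mem_biUnion]
        exact ⟨u, hu, Finset.mem_filter.2 ⟨hvX, huv⟩⟩
    refine (Finset.card_le_card hsub).trans ?_
    refine (Finset.card_union_le _ _).trans ?_
    have h1 : ((bl G X Z M lab W n).biUnion
        (fun v => X.filter fun u => Df G X Z lab W v u)).card ≤
        (bl G X Z M lab W n).card * Δ := by
      refine Finset.card_biUnion_le_card_mul _ _ _ fun v _ => ?_
      exact hC.deg v
    calc (bl G X Z M lab W n).card + ((bl G X Z M lab W n).biUnion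
          (fun v => X.filter fun u => Df G X Z lab W v u)).card
        ≤ (bl G X Z M lab W n).card + (bl G X Z M lab W n).card * Δ :=
          Nat.add_le_add_left h1 _
      _ = (bl G X Z M lab W n).card * (1 + Δ) := by ring
      _ ≤ ((Z ∪ M).card * (1 + Δ) ^ n) * (1 + Δ) := Nat.mul_le_mul_right _ ih
      _ = (Z ∪ M).card * (1 + Δ) ^ (n + 1) := by ring

end Pool.Ker
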