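import Pool.Agent.Work.MP_2df4ce_k.InterfaceB

/-!
# MP_2df4ce_lc, block BLE: the balls of the algorithm
-/

set_option autoImplicit false

namespace Pool.Ker

open Classical St Alg

theorem BLE_mem (hLBA : Stmt_LBA) (n : ℕ) (R : List ℕ) (hR : ∀ v ∈ R, v < n) (v : ℕ) :
    v ∈ R ↔ v ∈ Finset.range n ∧ v ∉ (coL n R).toFinset := by
  constructor
  · intro h
    refine ⟨Finset.mem_range.mpr (hR v h), ?_⟩
    intro hc
    unfold coL at hc
    rw [List.mem_toFinset, List.mem_filter] at hc
    have h2 := hc.2
    rw [(hLBA.1 R v).mpr h] at h2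
    exact absurd h2 (by decide)
  · rintro ⟨hv, hz⟩
    by_contra h
    apply hz
    unfold coL
    rw [List.mem_toFinset, List.mem_filter]
    refine ⟨List.mem_range.mpr (Finset.mem_range.mp hv), ?_⟩
    have h1 : memB R v = false := by
      cases hm : memB R v
      · rfl
      · exact absurd ((hLBA.1 R v).mp hm) h
    rw [h1]
    rfl

theorem BLE_step (hLBA : Stmt_LBA) (n D : ℕ) (E : List (ℕ × ℕ)) (Sa : List (List ℕ))
    (R B : List ℕ) (hR : ∀ v ∈ R, v < n) (v : ℕ) :
    v ∈ stepB D n E Sa R B ↔ v ∈ Finset.range n ∧ (v ∈ B ∨ ∃ u ∈ B,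
      Df (gr E) (Finset.range n) (coL n R).toFinset (labB D E Sa)
        (fun i j => idB D E Sa i j = true) u v) := by
  unfold stepB
  rw [List.mem_filter, List.mem_range, Finset.mem_range, Bool.or_eq_true, hLBA.1,
    List.any_eq_true]
  refine and_congr_right fun hvn => or_congr_right ?_
  refine exists_congr fun u => and_congr_right fun hu => ?_
  rw [Bool.and_eq_true, Bool.and_eq_true, hLBA.1, hLBA.1, BLE_mem hLBA n R hR u,
    BLE_mem hLBA n R hR v]
  unfold defB Df
  rw [Bool.and_eq_true, Bool.not_eq_true', Bool.not_eq_true', decide_eq_false_iff_not,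
    decide_eq_false_iff_not]
  have hadj : (gr E).Adj u v ↔ adj E u v = true := Iff.rfl
  rw [hadj]
  have hb : (¬ adj E u v = idB D E Sa (labB D E Sa u) (labB D E Sa v)) ↔
      ¬ (adj E u v = true ↔ idB D E Sa (labB D E Sa u) (labB D E Sa v) = true) := by
    rw [not_iff_not]
    exact Bool.eq_iff_iff
  rw [hb]
  constructor
  · rintro ⟨⟨h1, h2⟩, ⟨h3, h4⟩, h5, h6⟩
    exact ⟨h1, h2, h3, h4, h5, h6⟩
  · rintro ⟨h1, h2, h3, h4, h5, h6⟩
    exact ⟨⟨h1, h2⟩, ⟨h3, h4⟩, h5, h6⟩

theorem stmt_BLE : Stmt_LBA → Stmt_BLE := by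
  intro hLBA n D E Sa R M m hR hM
  induction m with
  | zero =>
    constructor
    · ext v
      show v ∈ (startB n (coL n R) M).toFinset ↔ v ∈ (coL n R).toFinset ∪ M.toFinset
      rw [List.mem_toFinset, Finset.mem_union, List.mem_toFinset, List.mem_toFinset]
      unfold startB
      rw [List.mem_filter, List.mem_range, Bool.or_eq_true, hLBA.1, hLBA.1]
      constructor
      · rintro ⟨_, h⟩
        exact h
      · intro h
        refine ⟨?_, h⟩
        rcases h with h | h
        · unfold coL at h
          rw [List.mem_filter] at h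
          exact List.mem_range.mp h.1
        · exact hM v h
    · show (startB n (coL n R) M).Nodup
      exact List.Nodup.filter _ List.nodup_range
  | succ m ih =>
    rw [Function.iterate_succ_apply']
    constructor
    · ext v
      rw [List.mem_toFinset, BLE_step hLBA n D E Sa R _ hR v]
      have hbl : bl (gr E) (Finset.range n) (coL n R).toFinset M.toFinset (labB D E Sa)
          (fun i j => idB D E Sa i j = true) (m + 1) = (Finset.range n).filter fun v =>
          v ∈ bl (gr E) (Finset.range n) (coL n R).toFinset M.toFinset (labB D E Sa)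
            (fun i j => idB D E Sa i j = true) m ∨
          ∃ u ∈ bl (gr E) (Finset.range n) (coL n R).toFinset M.toFinset (labB D E Sa)
            (fun i j => idB D E Sa i j = true) m, Df (gr E) (Finset.range n)
            (coL n R).toFinset (labB D E Sa) (fun i j => idB D E Sa i j = true) u v := rfl
      rw [hbl, Finset.mem_filter, ← ih.1]
      simp only [List.mem_toFinset]
    · exact List.Nodup.filter _ List.nodup_range

end Pool.Ker
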