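import Pool.Agent.Work.MP_2df4ce_k.InterfaceB

/-!
# MP_2df4ce_lc, block CDG: defects of regular vertices
-/

set_option autoImplicit false

namespace Pool.Ker

open Classical St Alg

theorem CDG_mem (hLBA : Stmt_LBA) (n : ℕ) (R : List ℕ) (v : ℕ) (hv : v ∈ Finset.range n)
    (hz : v ∉ (coL n R).toFinset) : v ∈ R := by
  by_contra h
  apply hz
  unfold coL
  rw [List.mem_toFinset, List.mem_filter]
  refine ⟨List.mem_range.mpr (Finset.mem_range.mp hv), ?_⟩
  have h1 : memB R v = false := by
    cases hm : memB R v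
    · rfl
    · exact absurd ((hLBA.1 R v).mp hm) h
  rw [h1]
  rfl

theorem CDG_reg (hLBA : Stmt_LBA) (D cc : ℕ) (E : List (ℕ × ℕ)) (Sa : List (List ℕ))
    (V : List ℕ) (v : ℕ) (hv : v ∈ regL D cc E Sa V) :
    v ∈ V ∧ labdB D E Sa v = true ∧
      (V.filter fun u => labdB D E Sa u && defB D E Sa v u).length ≤ D + cc := by
  unfold regL at hv
  rw [List.mem_filter] at hv
  obtain ⟨hV, h2⟩ := hv
  have h3 : v ∉ exL D cc E Sa V := by
    intro h
    rw [(hLBA.1 _ _).mpr h] at h2
    exact absurd h2 (by decide)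
  unfold exL at h3
  rw [List.mem_filter] at h3
  have h4 : ¬ ((!(labdB D E Sa v) || decide (D + cc <
      (V.filter fun u => labdB D E Sa u && defB D E Sa v u).length)) = true) :=
    fun h => h3 ⟨hV, h⟩
  rw [Bool.or_eq_true, not_or] at h4
  obtain ⟨h5, h6⟩ := h4
  refine ⟨hV, ?_, ?_⟩
  · cases hl : labdB D E Sa v
    · rw [hl] at h5
      exact absurd rfl h5
    · rfl
  · by_contra hc
    exact h6 (decide_eq_true (not_le.mp hc))

theorem stmt_CDG : Stmt_LBA → Stmt_CDG := by
  intro hLBA n D cc E Sa V hnd hlt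
  refine ⟨?_, ?_⟩
  · intro i j h
    unfold idB at h ⊢
    rw [Bool.and_eq_true] at h ⊢
    exact ⟨h.2, h.1⟩
  · intro v
    by_cases hv : v ∈ regL D cc E Sa V
    · obtain ⟨hV, hl, hc⟩ := CDG_reg hLBA D cc E Sa V v hv
      refine (Finset.card_le_card
        (t := (V.filter fun u => labdB D E Sa u && defB D E Sa v u).toFinset) ?_).trans
        ((List.toFinset_card_le _).trans hc)
      intro u hu
      rw [Finset.mem_filter] at hu
      obtain ⟨hun, hD⟩ := hu
      obtain ⟨h1, h2, h3, h4, h5, h6⟩ := hD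
      have huR : u ∈ regL D cc E Sa V := CDG_mem hLBA n _ u h3 h4
      obtain ⟨huV, hul, _⟩ := CDG_reg hLBA D cc E Sa V u huR
      rw [List.mem_toFinset, List.mem_filter]
      refine ⟨huV, ?_⟩
      rw [Bool.and_eq_true]
      refine ⟨hul, ?_⟩
      unfold defB
      rw [Bool.and_eq_true, Bool.not_eq_true', Bool.not_eq_true', decide_eq_false_iff_not,
        decide_eq_false_iff_not]
      refine ⟨h5, ?_⟩
      intro he
      apply h6
      show adj E v u = true ↔ _
      rw [he]
    · refine le_trans (le_of_eq ?_) (Nat.zero_le _)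
      rw [Finset.card_eq_zero]
      apply Finset.eq_empty_of_forall_notMem
      intro u hu
      rw [Finset.mem_filter] at hu
      obtain ⟨hun, hD⟩ := hu
      exact hv (CDG_mem hLBA n _ v hD.1 hD.2.1)

end Pool.Ker
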