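import Pool.Agent.Work.MP_2df4ce_k.InterfaceB

/-!
# MP_2df4ce_lc, part B: COR (correctness, mathematical form)
-/

set_option autoImplicit false

namespace Pool.Ker

open Classical St Alg

theorem stmt_COR (hIOB : Stmt_IOB) (_hLBA : Stmt_LBA) (hCRE : Stmt_CRE) (hBLE : Stmt_BLE)
    (hGLU : Stmt_GLU) : Stmt_COR := by
  intro F OL s r D c _hOL hB _hStr n k E _hk
  set P := packO OL s n k E with hP
  set cc := c + r * (2 * D + 2) with hcc
  set V := restL n P with hV
  set Sa := samp D cc r E V with hSa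
  set R := regL D cc E Sa V with hR
  have hVn : V.Nodup := List.Nodup.filter _ List.nodup_range
  have hVl : ∀ v ∈ V, v < n := fun v hv => List.mem_range.1 (List.mem_of_mem_filter hv)
  have hRl : ∀ v ∈ R, v < n := fun v hv => hVl v (List.mem_of_mem_filter hv)
  have hMl : ∀ v ∈ Ml D s (Nc s (D + cc) k) n E Sa (coL n R) R, v < n := fun v hv =>
    List.mem_range.1 (List.mem_of_mem_filter hv)
  have hcore := hCRE n D cc s (Nc s (D + cc) k) E Sa V hVn hVl
  have hlt : k < 2 ^ Ln k := by
    unfold Ln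
    rw [Nat.size_eq_bits_len]
    exact Nat.lt_size_self k
  have hg := hGLU (gr E) (Finset.range n) s (D + cc) (Nc s (D + cc) k) k (Ln k)
    (coL n R).toFinset (Ml D s (Nc s (D + cc) k) n E Sa (coL n R) R).toFinset
    (labB D E Sa) (fun i j => idB D E Sa i j = true) (OF F) (hIOB F s hB) hcore le_rfl hlt
  obtain ⟨hb1, hb2⟩ := hBLE n D E Sa R (Ml D s (Nc s (D + cc) k) n E Sa (coL n R) R)
    (Rad s (D + cc) (Ln k) + s + 1) hRl hMl
  have hvk : vk s r D cc n k E P = (stepB D n E Sa R)^[Rad s (D + cc) (Ln k) + s + 1]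
    (startB n (coL n R) (Ml D s (Nc s (D + cc) k) n E Sa (coL n R) R)) := rfl
  rw [hvk]
  refine ⟨?_, hb2, ?_⟩
  · rw [hb1]
    exact hg
  · intro v hv
    rw [← List.mem_toFinset, hb1] at hv
    have h2 : v ∈ Finset.range n := by
      unfold bl ball at hv
      exact (Finset.mem_filter.1 hv).1
    exact Finset.mem_range.1 h2

end Pool.Ker
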