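import Pool.Agent.Work.MP_2df4ce_k.InterfaceB

/-!
# MP_2df4ce_lc, block CRE: the structure of part A
-/

set_option autoImplicit false

namespace Pool.Ker

open Classical St Alg

theorem stmt_CRE : Stmt_LBA → Stmt_CDG → Stmt_RPC → Stmt_CRE := by
  intro hLBA hCDG hRPC n D cc s N E Sa V hnd hlt
  have hR : ∀ v ∈ regL D cc E Sa V, v < n := by
    intro v hv
    unfold regL at hv
    exact hlt v (List.mem_filter.mp hv).1
  obtain ⟨hM1, hM2⟩ := hRPC n D s N E Sa (regL D cc E Sa V) hR
  obtain ⟨hs, hd⟩ := hCDG n D cc E Sa V hnd hlt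
  refine ⟨?_, ?_, ?_, hs, hd, hM2⟩
  · intro v hv
    rw [List.mem_toFinset] at hv
    unfold coL at hv
    exact Finset.mem_range.mpr (List.mem_range.mp (List.mem_filter.mp hv).1)
  · intro v hv
    rw [List.mem_toFinset] at hv
    unfold Ml at hv
    exact Finset.mem_range.mpr (List.mem_range.mp (List.mem_filter.mp hv).1)
  · intro v hv hz
    rw [List.mem_toFinset] at hv hz
    have h1 := hM1 v hv
    unfold coL at hz
    have h2 := (List.mem_filter.mp hz).2
    rw [(hLBA.1 _ _).mpr h1] at h2
    exact absurd h2 (by decide)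

end Pool.Ker
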