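import Pool.Agent.Work.MP_2df4ce_k.InterfaceE

/-! # Block DFB: the defects -/

set_option autoImplicit false

namespace Pool.Ker

open Classical St

theorem DFB_sg {V : Type} (G : SimpleGraph V) {m : ℕ} (hm : 1 ≤ m) (A B : Finset V) (τ : Bool)
    (h : ∀ v ∈ B, ty m G A v = τ) (hB : 2 * m ≤ B.card) : sg m G A B = τ := by
  unfold sg
  cases τ with
  | true =>
    rw [decide_eq_true_eq, Finset.filter_true_of_mem h]
    exact hB
  | false =>
    rw [decide_eq_false_iff_not, Finset.filter_false_of_mem]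
    · simp only [Finset.card_empty]
      omega
    · intro v hv
      rw [h v hv]
      decide

theorem DFB_ty {V : Type} (G : SimpleGraph V) {m : ℕ} (hm : 1 ≤ m) (A : Finset V) (b : Bool)
    (hA : Hom G b A) (hc : m + 1 ≤ A.card) (x : V) (hx : x ∈ A) : ty m G A x = b := by
  unfold ty
  cases b with
  | true =>
    rw [decide_eq_true_eq]
    have h1 : A.erase x ⊆ nb G x A true := by
      intro y hy
      obtain ⟨hy1, hy2⟩ := Finset.mem_erase.1 hy
      exact Finset.mem_filter.2 ⟨hy2, hy1, hA x hx y hy2 (Ne.symm hy1)⟩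
    have h2 := Finset.card_le_card h1
    rw [Finset.card_erase_of_mem hx] at h2
    omega
  | false =>
    rw [decide_eq_false_iff_not]
    have h1 : nb G x A true = ∅ := by
      refine Finset.filter_false_of_mem ?_
      rintro y hy ⟨hy1, hy2⟩
      have h3 := hA x hx y hy (Ne.symm hy1)
      simp only [Bool.false_eq_true, iff_false, iff_true] at h3 hy2
      exact h3 hy2
    rw [h1]
    simp only [Finset.card_empty]
    omega

theorem DFB_not {p : Prop} {σ : Bool} (h : ¬ (p ↔ σ = true)) : p ↔ (!σ) = true := by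
  by_cases hp : p <;> cases σ <;> simp_all

theorem stmt_DFB (hSYM : Stmt_SYM) (hSGT : Stmt_SGT) (hMIX : Stmt_MIX) (hROW : Stmt_ROW) :
    Stmt_DFB := by
  intro m V _ G hm hNS r A b hS hMAX R hR v i j hv
  by_contra hcon
  rw [not_lt] at hcon
  have hm3 : m ≤ m ^ 3 := Nat.le_self_pow (by norm_num) m
  have hm2 : m * m ≤ m ^ 3 := by
    have : m ^ 3 = m * m * m := by ring
    rw [this]
    exact Nat.le_mul_of_pos_right _ hm
  obtain ⟨B, hBW, hBc, β, hB⟩ := hR _ (le_trans (Nat.le_succ R) hcon)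
  have hB1 : ∀ u ∈ B, u ≠ v ∧ (∀ l, ty m G (A l) u = sg m G (A l) (A j)) ∧
      ¬ (G.Adj v u ↔ sg m G (A i) (A j) = true) := fun u hu => (Finset.mem_filter.1 (hBW hu)).2
  obtain ⟨l, hl1, hl2⟩ := hMAX B β hB hBc
  have h1 : sg m G (A l) B = sg m G (A l) (A j) :=
    DFB_sg G hm _ _ _ (fun u hu => (hB1 u hu).2.1 l) (by rw [hBc]; omega)
  have h2 := hROW m V G hm hNS r A b hS B β (fun l' => sg m G (A l') (A j)) l hB
    (by rw [hBc]; omega) (fun u hu l' => (hB1 u hu).2.1 l') hl1 (by rw [← hl2, h1])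
  have hsym : ∀ i j, sg m G (A i) (A j) = sg m G (A j) (A i) := fun i j =>
    hSYM m V G hm hNS (A i) (A j) (b i) (b j) (hS.hom i) (hS.hom j)
      (by rw [hS.card]; omega) (by rw [hS.card]; omega)
  have h3 : sg m G (A j) (A j) = β := by
    rw [h2 j, hsym, ← h1, hl2]
  have h4 : sg m G (A j) (A j) = b j :=
    DFB_sg G hm _ _ _ (fun x hx => DFB_ty G hm _ _ (hS.hom j) (by rw [hS.card]; omega) x hx)
      (by rw [hS.card]; omega)
  have hbj : b j = β := h4.symm.trans h3
  obtain ⟨B', hB'B, hB'c⟩ := Finset.exists_subset_card_eq (show 2 * m ≤ B.card by rw [hBc]; omega)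
  have hHj : Hom G β (A j) := hbj ▸ hS.hom j
  set σ := sg m G (A i) (A j) with hσ
  have hty : ty m G (A j) v = σ := by rw [hv j, hsym j i]
  have hX : 2 * m + 2 * m * m ≤ (nb G v (A j) σ).card := by
    have h5 := (hSGT m V G hm hNS).2 (A j) β v hHj
    rw [hty] at h5
    have h6 : A j ⊆ (nb G v (A j) σ ∪ nb G v (A j) (!σ)) ∪ {v} := by
      intro x hx
      by_cases hxv : x = v
      · exact Finset.mem_union_right _ (Finset.mem_singleton.2 hxv)
      · refine Finset.mem_union_left _ ?_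
        by_cases hadj : (G.Adj v x ↔ σ = true)
        · exact Finset.mem_union_left _ (Finset.mem_filter.2 ⟨hx, hxv, hadj⟩)
        · refine Finset.mem_union_right _ (Finset.mem_filter.2 ⟨hx, hxv, DFB_not hadj⟩)
    have h7 := Finset.card_le_card h6
    have h8 := Finset.card_union_le (nb G v (A j) σ ∪ nb G v (A j) (!σ)) {v}
    have h9 := Finset.card_union_le (nb G v (A j) σ) (nb G v (A j) (!σ))
    rw [hS.card] at h7
    rw [Finset.card_singleton] at h8
    have h10 : 2 * m * m = 2 * (m * m) := by ring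
    omega
  obtain ⟨A', hA'X, hA'c, hdis, hhom⟩ := hMIX m V G hm hNS (A j) B' (nb G v (A j) σ) β hHj
    (fun x hx y hy hxy => hB x (hB'B hx) y (hB'B hy) hxy) (le_of_eq hB'c)
    (fun u hu => ((hB1 u (hB'B hu)).2.1 j).trans h3) (Finset.filter_subset _ _) hX
  have hn1 : A' ⊆ nb G v (A' ∪ B') σ := fun x hx =>
    Finset.mem_filter.2 ⟨Finset.mem_union_left _ hx, (Finset.mem_filter.1 (hA'X hx)).2⟩
  have hn2 : B' ⊆ nb G v (A' ∪ B') (!σ) := by
    intro x hx
    obtain ⟨h11, _, h12⟩ := hB1 x (hB'B hx)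
    exact Finset.mem_filter.2 ⟨Finset.mem_union_right _ hx, h11, DFB_not h12⟩
  have hc1 := Finset.card_le_card hn1
  have hc2 := Finset.card_le_card hn2
  rw [hA'c] at hc1
  rw [hB'c] at hc2
  have hfin : ∀ σ' : Bool, 2 * m ≤ (nb G v (A' ∪ B') σ').card →
      2 * m ≤ (nb G v (A' ∪ B') (!σ')).card → False := by
    intro σ' k1 k2
    refine hNS β (A' ∪ B') v hhom ?_
    cases σ' with
    | true =>
      rw [Bool.not_true] at k2
      exact ⟨by omega, by omega⟩
    | false =>
      rw [Bool.not_false] at k2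
      exact ⟨by omega, by omega⟩
  exact hfin σ hc1 hc2

end Pool.Ker
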