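import Pool.Agent.Work.MP_2df4ce_k.Interface

set_option autoImplicit false

namespace Pool.Ker

open Classical

theorem stmt_DFS : Stmt_DFS := by
  intro G X s Δ N Z M lab W hC
  have hX0 : Z ∪ M ⊆ X := Finset.union_subset hC.hZ hC.hM
  have hX : ∀ n, bl G X Z M lab W n ⊆ X := by
    intro n
    cases n with
    | zero => exact hX0
    | succ n =>
      intro v hv
      have hv' : v ∈ X.filter fun v => v ∈ ball G X Z lab W (Z ∪ M) n ∨
        ∃ u ∈ ball G X Z lab W (Z ∪ M) n, Df G X Z lab W u v := hv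
      exact (Finset.mem_filter.mp hv').1
  have hsucc : ∀ n, bl G X Z M lab W n ⊆ bl G X Z M lab W (n + 1) := by
    intro n v hv
    have h1 : v ∈ X.filter fun v => v ∈ ball G X Z lab W (Z ∪ M) n ∨
        ∃ u ∈ ball G X Z lab W (Z ∪ M) n, Df G X Z lab W u v :=
      Finset.mem_filter.mpr ⟨hX n hv, Or.inl hv⟩
    exact h1
  have hmono : ∀ m n, m ≤ n → bl G X Z M lab W m ⊆ bl G X Z M lab W n := by
    intro m n hmn
    induction hmn with
    | refl => exact Finset.Subset.refl _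
    | step _ ih => exact ih.trans (hsucc _)
  refine ⟨?_, hsucc, hmono, hX, ?_, ?_, ?_⟩
  · rintro u v ⟨h1, h2, h3, h4, h5, h6⟩
    refine ⟨h3, h4, h1, h2, h5.symm, ?_⟩
    intro h
    apply h6
    constructor
    · intro h7
      exact hC.sym _ _ (h.mp h7.symm)
    · intro h7
      exact (h.mpr (hC.sym _ _ h7)).symm
  · intro n
    exact hmono 0 n (Nat.zero_le n)
  · intro n u v hu hd
    have h1 : v ∈ X.filter fun v => v ∈ ball G X Z lab W (Z ∪ M) n ∨
        ∃ u ∈ ball G X Z lab W (Z ∪ M) n, Df G X Z lab W u v :=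
      Finset.mem_filter.mpr ⟨hd.2.2.1, Or.inr ⟨u, hu, hd⟩⟩
    exact h1
  · intro S x y hS
    constructor
    · intro h
      have h2 : x ≠ y ∧ ¬ (G.Adj x y ↔ s(x, y) ∈ S) := h
      by_contra h3
      exact h2.2 ⟨fun h4 => absurd h4 h3, fun h4 => absurd h4 hS⟩
    · intro h
      have h2 : x ≠ y ∧ ¬ (G.Adj x y ↔ s(x, y) ∈ S) :=
        ⟨h.ne, fun h3 => hS (h3.mp h)⟩
      exact h2

end Pool.Ker
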