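import Pool.Agent.Work.MP_2df4ce_k.Stmt

/-!
# MP_2df4ce_lc, part E: the structure theorem (statements, proofs in the comments)

If `F` has a member in each of the four graph families, then `F` is `Structured`.
-/

set_option autoImplicit false

namespace Pool.Ker

open Classical St

/-- None of the four graphs is an induced subgraph of `G`. -/
def Excl (m : ℕ) {V : Type} (G : SimpleGraph V) : Prop :=
  IsEmpty (starIso m ↪g G) ∧ IsEmpty ((starIso m)ᶜ ↪g G) ∧
    IsEmpty (cliques m ↪g G) ∧ IsEmpty ((cliques m)ᶜ ↪g G)

/-- `A` is a clique (`b = true`) or an independent set (`b = false`). -/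
def Hom {V : Type} (G : SimpleGraph V) (b : Bool) (A : Finset V) : Prop :=
  ∀ x ∈ A, ∀ y ∈ A, x ≠ y → (G.Adj x y ↔ b = true)

/-- The vertices `x ≠ v` of `A` adjacent (`β = true`) or not adjacent (`β = false`) to `v`. -/
noncomputable def nb {V : Type} (G : SimpleGraph V) (v : V) (A : Finset V) (β : Bool) : Finset V :=
  A.filter fun x => x ≠ v ∧ (G.Adj v x ↔ β = true)

/-- The type of `v` with respect to `A`: has it at least `m` neighbours in `A`? -/
noncomputable def ty (m : ℕ) {V : Type} (G : SimpleGraph V) (A : Finset V) (v : V) : Bool :=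
  decide (m ≤ (nb G v A true).card)

/-- The type of `B` with respect to `A`: do at least `2m` vertices of `B` have type `true`? -/
noncomputable def sg (m : ℕ) {V : Type} (G : SimpleGraph V) (A B : Finset V) : Bool :=
  decide (2 * m ≤ (B.filter fun v => ty m G A v = true).card)

/-- No vertex splits a homogeneous set. -/
def NoSplit (m : ℕ) {V : Type} (G : SimpleGraph V) : Prop :=
  ∀ (b : Bool) (A : Finset V) (v : V), Hom G b A →
    ¬ (m ≤ (nb G v A true).card ∧ m ≤ (nb G v A false).card)

/-- No `m` homogeneous sets of the same kind `b` with `m` vertices each and all pairs between them of the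
other kind. -/
def NoCl (m : ℕ) {V : Type} (G : SimpleGraph V) : Prop :=
  ∀ (b : Bool) (C : Fin m → Finset V), (∀ i, (C i).card = m) → (∀ i, Hom G b (C i)) →
    ¬ ∀ i j, i ≠ j → ∀ x ∈ C i, ∀ y ∈ C j, x ≠ y ∧ (G.Adj x y ↔ b = false)

/-- A system of pairwise distinguishable homogeneous sets `A i` of kind `b i` with `h` vertices each: two of
them of the same kind `b` do not have type `b` with respect to each other. -/
structure Sys (m h : ℕ) {V : Type} (G : SimpleGraph V) (r : ℕ) (A : Fin r → Finset V)
    (b : Fin r → Bool) : Prop where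
  card : ∀ i, (A i).card = h
  hom : ∀ i, Hom G (b i) (A i)
  dist : ∀ i j, i ≠ j → b i = b j → sg m G (A i) (A j) ≠ b i

/-- RAM (Ramsey). There is `R` such that every set with at least `R` vertices contains a homogeneous set
with exactly `h` vertices. (E.g. `R = 4^h`; by induction: for all `a`, `c` a set with at least `2^(a + c)`
vertices contains a clique with `a` or an independent set with `c` vertices: take a vertex `v`, its
neighbours or its non-neighbours in the set are at least `2^(a + c - 1)`.) -/
def Stmt_RAM : Prop :=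
  ∀ h : ℕ, ∃ R : ℕ, ∀ (V : Type) [Fintype V] (G : SimpleGraph V) (A : Finset V), R ≤ A.card →
    ∃ B ⊆ A, B.card = h ∧ ∃ b, Hom G b B

/-- MON. The four graphs grow with `m`: `starIso m` embeds into `starIso m'` for `m ≤ m'` (`0 ↦ 0`,
`i ↦ i` for `i ≤ m`, `i ↦ i - m + m'` for `i > m`), `cliques m` into `cliques m'`; the same map embeds
the complements. So if `Four F`, then for the largest `m` of the four (and `1`) every `F`-free graph is
`Excl m`: an embedding of e.g. `starIso m` in `G` composed with the one of `H` is an embedding of `H`. -/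
def Stmt_MON : Prop :=
  ∀ F : Set Gr, Four F → ∃ m, 1 ≤ m ∧ ∀ (V : Type) (G : SimpleGraph V), Free F G → Excl m G

/-- EX1. If `v` had `m` neighbours `x_1, ..., x_m` and `m` non-neighbours `y_1, ..., y_m` in `A \ {v}`, then
`0 ↦ v`, `i ↦ x_i`, `m + i ↦ y_i` is an embedding of `starIso m` (`b = false`); for `b = true` take `y_i` for
`i ≤ m` and `x_i` for the others: an embedding of the complement of `starIso m`. -/
def Stmt_EX1 : Prop :=
  ∀ (m : ℕ) (V : Type) [Fintype V] (G : SimpleGraph V), 1 ≤ m → Excl m G → NoSplit m G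

/-- EX2. `(i, a) ↦` the `a`-th vertex of `C i` is an embedding of `cliques m` (`b = true`) or of its
complement (`b = false`). -/
def Stmt_EX2 : Prop :=
  ∀ (m : ℕ) (V : Type) [Fintype V] (G : SimpleGraph V), 1 ≤ m → Excl m G → NoCl m G

/-- TWO (two homogeneous sets). `|A| ≥ 8m`: the types in `B` with respect to `A` are all equal up to `2m - 1`
exceptions. Otherwise take `B1 ⊆ B` with `2m` vertices of type `true`, `B0 ⊆ B` with `2m` vertices of type
`false`. By NoSplit (for `A`) each `v ∈ B1` has less than `m` vertices in `nb G v A false`, each `v ∈ B0` less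
than `m` in `nb G v A true`. Call `w ∈ A \ (B1 ∪ B0)` (at least `4m` vertices) bad if `w ∈ nb G v A false` for
at least `m` of the `v ∈ B1`, or `w ∈ nb G v A true` for at least `m` of the `v ∈ B0`; double counting: less
than `2m` and less than `2m`. A `w` which is not bad has at least `m` neighbours in `B1` and at least `m`
non-neighbours in `B0`: NoSplit for `B` is violated. -/
def Stmt_TWO : Prop :=
  ∀ (m : ℕ) (V : Type) [Fintype V] (G : SimpleGraph V), 1 ≤ m → NoSplit m G →
    ∀ (A B : Finset V) (b b' : Bool), Hom G b A → Hom G b' B → 8 * m ≤ A.card →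
      ¬ (2 * m ≤ (B.filter fun v => ty m G A v = true).card ∧
        2 * m ≤ (B.filter fun v => ty m G A v = false).card)

/-- SYM. `sg A B = sg B A` for homogeneous sets with at least `8m` vertices. Suppose `sg A B = true`,
`sg B A = false`: take `B' ⊆ B` with `2m` vertices, `ty A v = true` for `v ∈ B'`, so
`|nb G v A false| < m` (NoSplit). Less than `2m` vertices `w` of `A` have `ty B w = true`, so more than
`|A| - 2m` have `ty B w = false`, and at least `4m` of those are not in `B'`; each has less than `m`
neighbours in `B`, so at least `m + 1` of the `2m` vertices `v ∈ B'` satisfy `w ∈ nb G v A false`. Double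
counting: `4m (m + 1) ≤ 2m (m - 1)`, contradiction. -/
def Stmt_SYM : Prop :=
  ∀ (m : ℕ) (V : Type) [Fintype V] (G : SimpleGraph V), 1 ≤ m → NoSplit m G →
    ∀ (A B : Finset V) (b b' : Bool), Hom G b A → Hom G b' B → 8 * m ≤ A.card → 8 * m ≤ B.card →
      sg m G A B = sg m G B A

/-- SGT. If `|A| ≥ 8m`, `|B| ≥ 4m`, all but at most `2m - 1` vertices `v ∈ B` have `ty A v = sg A B` (TWO).
If `v` has type `β` with respect to `A`, less than `m` vertices of `A` are in `nb G v A (!β)` (for
`β = true` by NoSplit, for `β = false` by definition). -/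
def Stmt_SGT : Prop :=
  ∀ (m : ℕ) (V : Type) [Fintype V] (G : SimpleGraph V), 1 ≤ m → NoSplit m G →
    (∀ (A B : Finset V) (b b' : Bool), Hom G b A → Hom G b' B → 8 * m ≤ A.card →
      (B.filter fun v => ty m G A v ≠ sg m G A B).card < 2 * m) ∧
    ∀ (A : Finset V) (b : Bool) (v : V), Hom G b A → (nb G v A (!(ty m G A v))).card < m

/-- MIX. `A` homogeneous of kind `β`, `B'` homogeneous of kind `β` with at most `2m` vertices, all of type
`β` with respect to `A`, and `X ⊆ A` with at least `2m + 2m²` elements. Then there are `2m` vertices in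
`X`, not in `B'`, which together with `B'` form a homogeneous set of kind `β`. (Remove from `X` the vertices
of `B'` and of the sets `nb G v A (!β)`, `v ∈ B'`: at most `2m · m` vertices, SGT.) -/
def Stmt_MIX : Prop :=
  ∀ (m : ℕ) (V : Type) [Fintype V] (G : SimpleGraph V), 1 ≤ m → NoSplit m G →
    ∀ (A B' X : Finset V) (β : Bool), Hom G β A → Hom G β B' → B'.card ≤ 2 * m →
      (∀ v ∈ B', ty m G A v = β) → X ⊆ A → 2 * m + 2 * m * m ≤ X.card →
      ∃ A' ⊆ X, A'.card = 2 * m ∧ Disjoint A' B' ∧ Hom G β (A' ∪ B')

/-- SBD (systems are short). `h = 16 m^3`. If `r ≥ 2m` then `m` of the indices have the same kind `b`; by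
`dist` two of them have `sg = !b`. Choose `C_1, C_2, ..., C_m` one after the other, `C_t ⊆ A_t` with `m`
vertices, every `x ∈ C_t` with `ty (A_l) x = !b` for all the other indices `l` (each `l` excludes less than
`2m` vertices of `A_t`, SGT), and `x ≠ y`, `x ∉ nb G y (A_t) b` for the `y` chosen before (each of the at
most `m²` vertices `y` has type `!b` with respect to `A_t` and excludes at most `m` vertices, SGT). There
are `16 m^3 - 2m² - m³ ≥ m` vertices left. This contradicts NoCl. -/
def Stmt_SBD : Prop :=
  ∀ (m : ℕ) (V : Type) [Fintype V] (G : SimpleGraph V), 1 ≤ m → NoSplit m G → NoCl m G →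
    ∀ (r : ℕ) (A : Fin r → Finset V) (b : Fin r → Bool), Sys m (16 * m ^ 3) G r A b → r < 2 * m

/-- ROW. A homogeneous set `B` of kind `β` (at least `2m` vertices) all of whose vertices have type `τ j`
with respect to `A j`, and `b i = β = τ i`: then `τ j = sg (A j) (A i)` for all `j`. Suppose not. `X` = the
`x ∈ A i` with `ty (A j) x = sg (A j) (A i)`, at least `16 m^3 - 2m ≥ 2m + 2m²` vertices (SGT). `B' ⊆ B`
with `2m` vertices; MIX gives `A' ⊆ X`. The set `A' ∪ B'` is homogeneous and contains `2m` vertices of type
`true` and `2m` of type `false` with respect to `A j`: TWO is violated. -/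
def Stmt_ROW : Prop :=
  ∀ (m : ℕ) (V : Type) [Fintype V] (G : SimpleGraph V), 1 ≤ m → NoSplit m G →
    ∀ (r : ℕ) (A : Fin r → Finset V) (b : Fin r → Bool), Sys m (16 * m ^ 3) G r A b →
      ∀ (B : Finset V) (β : Bool) (τ : Fin r → Bool) (i : Fin r), Hom G β B → 2 * m ≤ B.card →
        (∀ v ∈ B, ∀ j, ty m G (A j) v = τ j) → b i = β → τ i = β →
        ∀ j, τ j = sg m G (A j) (A i)

/-- MAX. A maximal system: for a system of maximal length (exists by SBD) every homogeneous set `B` of kind
`β` with `16 m^3` vertices has some `i` with `b i = β` and `sg (A i) B = β` (otherwise append it: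
`Fin.snoc`; `sg B (A i) = sg (A i) B` by SYM). -/
def Stmt_MAX : Prop :=
  ∀ (m : ℕ) (V : Type) [Fintype V] (G : SimpleGraph V), 1 ≤ m → NoSplit m G → NoCl m G →
    ∃ (r : ℕ) (A : Fin r → Finset V) (b : Fin r → Bool), r < 2 * m ∧
      Sys m (16 * m ^ 3) G r A b ∧
      ∀ (B : Finset V) (β : Bool), Hom G β B → B.card = 16 * m ^ 3 →
        ∃ i, b i = β ∧ sg m G (A i) B = β

/-- LBL (unlabelled vertices). `R` from RAM for `h = 16 m^3`, the maximal system of MAX. The vertices `v`
such that for no `i` we have `ty (A j) v = sg (A j) (A i)` for all `j` are less than `2^(2m) (R + 1)`: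
otherwise `R` of them have the same types `τ` (at most `2^r` possibilities), they contain a homogeneous set `B`
of kind `β` with `h` vertices; by MAX `b i = β`, `sg (A i) B = β`; since all vertices of `B` have type `τ i`
with respect to `A i`, `sg (A i) B = τ i` (`h ≥ 2m`); ROW: `τ` is the row of `i`, contradiction. -/
def Stmt_LBL : Prop :=
  ∀ (m : ℕ) (V : Type) [Fintype V] (G : SimpleGraph V), 1 ≤ m → NoSplit m G →
    ∀ (r : ℕ) (A : Fin r → Finset V) (b : Fin r → Bool), r < 2 * m → Sys m (16 * m ^ 3) G r A b →
      (∀ (B : Finset V) (β : Bool), Hom G β B → B.card = 16 * m ^ 3 →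
        ∃ i, b i = β ∧ sg m G (A i) B = β) →
      ∀ R : ℕ, (∀ A' : Finset V, R ≤ A'.card → ∃ B ⊆ A', B.card = 16 * m ^ 3 ∧ ∃ b, Hom G b B) →
        (Finset.univ.filter fun v => ¬ ∃ i, ∀ j, ty m G (A j) v = sg m G (A j) (A i)).card ≤
          2 ^ (2 * m) * (R + 1)

/-- DFB (defects). `v` has the row of `i`; the vertices `u ≠ v` with the row of `j` and
`¬ (Adj v u ↔ sg (A i) (A j))` are less than `R`. Otherwise they contain a homogeneous set `B` of kind `β` with
`h = 16 m^3` vertices. MAX: `b l = β = sg (A l) B`, and `sg (A l) B = sg (A l) (A j)` (all types are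
equal). ROW (with `τ l' = sg (A l') (A j)`, `i := l`): `sg (A l') (A j) = sg (A l') (A l)` for all `l'`. For
`l' = j`: `sg (A j) (A j) = sg (A j) (A l) = sg (A l) (A j) = β` (SYM), and `sg (A j) (A j) = b j` (all vertices
of `A j` have type `b j` with respect to `A j`, `h ≥ m + 1`). So `b j = β`, and all vertices of `B` have type
`sg (A j) (A j) = β` with respect to `A j`. Let `B' ⊆ B` with `2m` vertices, `X` = the vertices `x ≠ v` of `A j`
not in `nb G v (A j) (!(sg (A i) (A j)))` (less than `m` vertices are lost, SGT, since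
`ty (A j) v = sg (A j) (A i) = sg (A i) (A j)`). MIX: `A' ∪ B'` is homogeneous; `v` is joined to its
`2m` vertices in `A'` as `sg (A i) (A j)` says, and to the `2m` vertices of `B'` in the other way:
NoSplit is violated. -/
def Stmt_DFB : Prop :=
  ∀ (m : ℕ) (V : Type) [Fintype V] (G : SimpleGraph V), 1 ≤ m → NoSplit m G →
    ∀ (r : ℕ) (A : Fin r → Finset V) (b : Fin r → Bool), Sys m (16 * m ^ 3) G r A b →
      (∀ (B : Finset V) (β : Bool), Hom G β B → B.card = 16 * m ^ 3 →
        ∃ i, b i = β ∧ sg m G (A i) B = β) →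
      ∀ R : ℕ, (∀ A' : Finset V, R ≤ A'.card → ∃ B ⊆ A', B.card = 16 * m ^ 3 ∧ ∃ b, Hom G b B) →
        ∀ (v : V) (i j : Fin r), (∀ l, ty m G (A l) v = sg m G (A l) (A i)) →
          (Finset.univ.filter fun u => u ≠ v ∧ (∀ l, ty m G (A l) u = sg m G (A l) (A j)) ∧
            ¬ (G.Adj v u ↔ sg m G (A i) (A j) = true)).card < R + 1

/-- STR (the structure theorem). `m` from MON, `R` from RAM for `h = 16 m^3`; `r = 2m`,
`D = 2m (R + 1)`, `c = 2^(2m) (R + 1)`. For an `F`-free graph `G` take the maximal system (MAX; EX1,
EX2), with `r' < 2m` members; `lab v` = some `i` (chosen, as an element of `Fin (2m)`) with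
`ty (A j) v = sg (A j) (A i)` for all `j`, `none` if there is none; `M i j` iff `i, j < r'` and
`sg (A i) (A j) = true` (symmetric by SYM). LBL bounds the unlabelled vertices, DFB the defects of `v` in each
of the `r'` classes. -/
def Stmt_STR : Prop := ∀ F : Set Gr, Four F → Structured F

/-- KFR. The pair `K_p` minus an edge, complement of `K_q` minus an edge is `Four`: `KMinus p` embeds into
the complement of `starIso m` and into the complement of `cliques m` for `m ≥ p` (the non-adjacent pair
`0, 1` goes to the centre and a leaf, resp. to two vertices of one clique, the others to isolated vertices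
resp. to other cliques); and complements (for `q`: `(KMinus q)ᶜ` embeds into `starIso m`, `cliques m`). -/
def Stmt_KFR : Prop :=
  ∀ (p q : ℕ) (F : Set Gr), ⟨p, KMinus p⟩ ∈ F → ⟨q, (KMinus q)ᶜ⟩ ∈ F → Four F

end Pool.Ker
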