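import Mathlib
import Pool.Agent.Work.MP_2df4ce_k.InterfaceE

set_option autoImplicit false

namespace Pool.Ker

open Classical St

theorem EX1_exists {V : Type} (s : Finset V) (m : ℕ) (h : m ≤ s.card) :
    ∃ x : Fin m → V, Function.Injective x ∧ ∀ i, x i ∈ s := by
  have h1 : Fintype.card (Fin m) ≤ Fintype.card s := by
    rw [Fintype.card_fin, Fintype.card_coe]
    exact h
  obtain ⟨f⟩ := Function.Embedding.nonempty_of_card_le h1
  exact ⟨fun i => (f i : V), fun i j hij => f.injective (Subtype.ext hij), fun i => (f i).2⟩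

theorem EX1_core {m : ℕ} {V : Type} (G : SimpleGraph V) (b : Bool) (A : Finset V) (v : V)
    (hA : Hom G b A) (x y : Fin m → V) (hx : Function.Injective x) (hy : Function.Injective y)
    (hxA : ∀ i, x i ∈ A ∧ x i ≠ v ∧ (G.Adj v (x i) ↔ b = false))
    (hyA : ∀ i, y i ∈ A ∧ y i ≠ v ∧ (G.Adj v (y i) ↔ b = true)) :
    ∃ g : Fin (2 * m + 1) → V, Function.Injective g ∧
      ∀ i j, i ≠ j → ((G.Adj (g i) (g j) ↔ b = true) ↔ ¬ (starIso m).Adj i j) := by
  let g : Fin (2 * m + 1) → V := fun i =>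
    if h0 : i.val = 0 then v else if h : i.val ≤ m then x ⟨i.val - 1, by omega⟩
      else y ⟨i.val - 1 - m, by omega⟩
  have hg : ∀ i : Fin (2 * m + 1), (i.val = 0 ∧ g i = v) ∨
      (∃ k : Fin m, i.val = k.val + 1 ∧ g i = x k) ∨
      (∃ k : Fin m, i.val = k.val + 1 + m ∧ g i = y k) := by
    intro i
    by_cases h0 : i.val = 0
    · exact Or.inl ⟨h0, dif_pos h0⟩
    · by_cases h : i.val ≤ m
      · refine Or.inr (Or.inl ⟨⟨i.val - 1, by omega⟩, ?_, ?_⟩)
        · show i.val = i.val - 1 + 1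
          omega
        · show (if h0 : i.val = 0 then v else if h : i.val ≤ m then x ⟨i.val - 1, by omega⟩
            else y ⟨i.val - 1 - m, by omega⟩) = _
          rw [dif_neg h0, dif_pos h]
      · refine Or.inr (Or.inr ⟨⟨i.val - 1 - m, by omega⟩, ?_, ?_⟩)
        · show i.val = i.val - 1 - m + 1 + m
          omega
        · show (if h0 : i.val = 0 then v else if h : i.val ≤ m then x ⟨i.val - 1, by omega⟩
            else y ⟨i.val - 1 - m, by omega⟩) = _
          rw [dif_neg h0, dif_neg h]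
  have hxy : ∀ k l, x k ≠ y l := by
    intro k l h
    have h1 := (hxA k).2.2
    have h2 := (hyA l).2.2
    rw [h] at h1
    cases b
    · exact absurd (h2.1 (h1.2 rfl)) (by decide)
    · exact absurd (h1.1 (h2.2 rfl)) (by decide)
  have hinj : Function.Injective g := by
    intro i j hij
    apply Fin.ext
    rcases hg i with ⟨h1, h2⟩ | ⟨k, h1, h2⟩ | ⟨k, h1, h2⟩ <;>
      rcases hg j with ⟨h3, h4⟩ | ⟨l, h3, h4⟩ | ⟨l, h3, h4⟩ <;> rw [h2, h4] at hij
    · rw [h1, h3]
    · exact absurd hij.symm (hxA l).2.1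
    · exact absurd hij.symm (hyA l).2.1
    · exact absurd hij (hxA k).2.1
    · rw [h1, h3, hx hij]
    · exact absurd hij (hxy k l)
    · exact absurd hij (hyA k).2.1
    · exact absurd hij.symm (hxy l k)
    · rw [h1, h3, hy hij]
  refine ⟨g, hinj, ?_⟩
  have hstar : ∀ i j : Fin (2 * m + 1), i ≠ j → ((starIso m).Adj i j ↔
      (i.val = 0 ∧ 1 ≤ j.val ∧ j.val ≤ m) ∨ (j.val = 0 ∧ 1 ≤ i.val ∧ i.val ≤ m)) := by
    intro i j hij
    unfold starIso
    rw [SimpleGraph.fromRel_adj]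
    exact ⟨fun h => h.2, fun h => ⟨hij, h⟩⟩
  have hb : ∀ P : Prop, (P ↔ b = false) → ¬ (P ↔ b = true) := by
    intro P h1 h2
    cases b
    · exact absurd (h2.1 (h1.2 rfl)) (by decide)
    · exact absurd (h1.1 (h2.2 rfl)) (by decide)
  intro i j hij
  rw [hstar i j hij]
  have hne : g i ≠ g j := fun h => hij (hinj h)
  have hAA : g i ∈ A → g j ∈ A → (G.Adj (g i) (g j) ↔ b = true) :=
    fun h1 h2 => hA _ h1 _ h2 hne
  rcases hg i with ⟨h1, h2⟩ | ⟨k, h1, h2⟩ | ⟨k, h1, h2⟩ <;>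
    rcases hg j with ⟨h3, h4⟩ | ⟨l, h3, h4⟩ | ⟨l, h3, h4⟩
  · exact absurd (Fin.ext (h1.trans h3.symm)) hij
  · rw [h2, h4]
    refine ⟨fun h => absurd h (hb _ (hxA l).2.2), fun h => absurd (Or.inl ⟨h1, ?_, ?_⟩) h⟩ <;> omega
  · rw [h2, h4]
    refine ⟨fun _ => ?_, fun _ => (hyA l).2.2⟩
    omega
  · rw [h2, h4, G.adj_comm]
    refine ⟨fun h => absurd h (hb _ (hxA k).2.2), fun h => absurd (Or.inr ⟨h3, ?_, ?_⟩) h⟩ <;> omega
  · refine ⟨fun _ => ?_, fun _ => hAA (by rw [h2]; exact (hxA k).1) (by rw [h4]; exact (hxA l).1)⟩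
    omega
  · refine ⟨fun _ => ?_, fun _ => hAA (by rw [h2]; exact (hxA k).1) (by rw [h4]; exact (hyA l).1)⟩
    omega
  · rw [h2, h4, G.adj_comm]
    refine ⟨fun _ => ?_, fun _ => (hyA k).2.2⟩
    omega
  · refine ⟨fun _ => ?_, fun _ => hAA (by rw [h2]; exact (hyA k).1) (by rw [h4]; exact (hxA l).1)⟩
    omega
  · refine ⟨fun _ => ?_, fun _ => hAA (by rw [h2]; exact (hyA k).1) (by rw [h4]; exact (hyA l).1)⟩
    omega

theorem stmt_EX1 : Stmt_EX1 := by
  intro m V _ G _ hE b A v hA h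
  obtain ⟨x, hx, hxm⟩ := EX1_exists _ m h.1
  obtain ⟨y, hy, hym⟩ := EX1_exists _ m h.2
  have hx' : ∀ i, x i ∈ A ∧ x i ≠ v ∧ (G.Adj v (x i) ↔ true = true) := fun i => by
    have := hxm i
    unfold nb at this
    rw [Finset.mem_filter] at this
    exact this
  have hy' : ∀ i, y i ∈ A ∧ y i ≠ v ∧ (G.Adj v (y i) ↔ false = true) := fun i => by
    have := hym i
    unfold nb at this
    rw [Finset.mem_filter] at this
    exact this
  cases b
  · obtain ⟨g, hg, hadj⟩ := EX1_core G false A v hA x y hx hy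
      (fun i => ⟨(hx' i).1, (hx' i).2.1, (hx' i).2.2.trans (by simp)⟩)
      (fun i => ⟨(hy' i).1, (hy' i).2.1, (hy' i).2.2⟩)
    refine hE.1.false ⟨⟨g, hg⟩, ?_⟩
    intro i j
    show G.Adj (g i) (g j) ↔ (starIso m).Adj i j
    by_cases hij : i = j
    · rw [hij]
      exact ⟨fun h => absurd h (G.irrefl), fun h => absurd h ((starIso m).irrefl)⟩
    · have := hadj i j hij
      constructor
      · intro h1
        by_contra h2
        exact absurd ((this.2 h2).1 h1) (by decide)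
      · intro h1
        by_contra h2
        exact this.1 ⟨fun h3 => absurd h3 h2, fun h3 => absurd h3 (by decide)⟩ h1
  · obtain ⟨g, hg, hadj⟩ := EX1_core G true A v hA y x hy hx
      (fun i => ⟨(hy' i).1, (hy' i).2.1, (hy' i).2.2.trans (by simp)⟩)
      (fun i => ⟨(hx' i).1, (hx' i).2.1, (hx' i).2.2⟩)
    refine hE.2.1.false ⟨⟨g, hg⟩, ?_⟩
    intro i j
    show G.Adj (g i) (g j) ↔ (starIso m)ᶜ.Adj i j
    rw [SimpleGraph.compl_adj]
    by_cases hij : i = j
    · rw [hij]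
      exact ⟨fun h => absurd h (G.irrefl), fun h => absurd rfl h.1⟩
    · have := hadj i j hij
      constructor
      · intro h1
        exact ⟨hij, this.1 ⟨fun _ => rfl, fun _ => h1⟩⟩
      · intro h1
        exact (this.2 h1.2).2 rfl

end Pool.Ker
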