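import Pool.Agent.Work.MP_2df4ce_k.InterfaceE

set_option autoImplicit false

namespace Pool.Ker

open Classical St

theorem stmt_EX2 : Stmt_EX2 := by
  classical
  intro m V _ G _ hE b C hcard hhom hcross
  let φ : Fin m × Fin m → V := fun p => (((C p.1).equivFinOfCardEq (hcard p.1)).symm p.2 : V)
  have hmem : ∀ p, φ p ∈ C p.1 := fun p =>
    (((C p.1).equivFinOfCardEq (hcard p.1)).symm p.2).2
  have hsame : ∀ (i a a' : Fin m), φ (i, a) = φ (i, a') → a = a' := by
    intro i a a' h
    have h' : ((C i).equivFinOfCardEq (hcard i)).symm a =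
        ((C i).equivFinOfCardEq (hcard i)).symm a' := Subtype.ext h
    exact ((C i).equivFinOfCardEq (hcard i)).symm.injective h'
  have hinj : Function.Injective φ := by
    rintro ⟨i, a⟩ ⟨j, a'⟩ h
    by_cases hij : i = j
    · subst hij
      rw [hsame i a a' h]
    · exact absurd h (hcross i j hij _ (hmem (i, a)) _ (hmem (j, a'))).1
  cases b with
  | true =>
    refine hE.2.2.1.false ⟨⟨φ, hinj⟩, ?_⟩
    intro p q
    show G.Adj (φ p) (φ q) ↔ (cliques m).Adj p q
    unfold cliques
    rw [SimpleGraph.fromRel_adj]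
    by_cases hpq : p = q
    · subst hpq
      simp
    · have hne : φ p ≠ φ q := fun h => hpq (hinj h)
      by_cases h1 : p.1 = q.1
      · have hq : φ q ∈ C p.1 := by
          rw [h1]
          exact hmem q
        have := hhom p.1 (φ p) (hmem p) (φ q) hq hne
        simp [this, hpq, h1]
      · have := (hcross p.1 q.1 h1 (φ p) (hmem p) (φ q) (hmem q)).2
        simp [this, hpq, h1, Ne.symm h1]
  | false =>
    refine hE.2.2.2.false ⟨⟨φ, hinj⟩, ?_⟩
    intro p q
    show G.Adj (φ p) (φ q) ↔ (cliques m)ᶜ.Adj p q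
    rw [SimpleGraph.compl_adj]
    unfold cliques
    rw [SimpleGraph.fromRel_adj]
    by_cases hpq : p = q
    · subst hpq
      simp
    · have hne : φ p ≠ φ q := fun h => hpq (hinj h)
      by_cases h1 : p.1 = q.1
      · have hq : φ q ∈ C p.1 := by
          rw [h1]
          exact hmem q
        have := hhom p.1 (φ p) (hmem p) (φ q) hq hne
        simp [this, hpq, h1]
      · have := (hcross p.1 q.1 h1 (φ p) (hmem p) (φ q) (hmem q)).2
        simp [this, hpq, h1, Ne.symm h1]

end Pool.Ker
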