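import Pool.Agent.Work.MP_2df4ce_k.Defs

/-!
# MP_2df4ce_lc, part A: the kernelization argument (statements, proofs in the comments)

`Core` is the structure: `Z` exceptional vertices, `M` a set of vertices containing many copies of
everything, `Df` defects (at most `Δ` per vertex). `bl n` are the balls around `T = Z ∪ M` in the
defect graph. Solutions `S` are sets of pairs; `ed G S` is the edited graph.
-/

set_option autoImplicit false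

namespace Pool.Ker

open Classical

/-- DFS. Basic facts: the defect relation is symmetric (`Core.sym`, `SimpleGraph.adj_comm`); the balls
increase, lie in `X`, contain `Z ∪ M`; a vertex with a defect to the ball of radius `n` is in the ball
of radius `n + 1`; and a pair with a vertex in no pair of `S` is unchanged. -/
def Stmt_DFS : Prop :=
  ∀ (G : SimpleGraph ℕ) (X : Finset ℕ) (s Δ N : ℕ) (Z M : Finset ℕ) (lab : ℕ → ℕ)
    (W : ℕ → ℕ → Prop), Core G X s Δ N Z M lab W →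
    (∀ u v, Df G X Z lab W u v → Df G X Z lab W v u) ∧
    (∀ n, bl G X Z M lab W n ⊆ bl G X Z M lab W (n + 1)) ∧
    (∀ m n, m ≤ n → bl G X Z M lab W m ⊆ bl G X Z M lab W n) ∧
    (∀ n, bl G X Z M lab W n ⊆ X) ∧ (∀ n, Z ∪ M ⊆ bl G X Z M lab W n) ∧
    (∀ n u v, u ∈ bl G X Z M lab W n → Df G X Z lab W u v → v ∈ bl G X Z M lab W (n + 1)) ∧
    (∀ (S : Finset (Sym2 ℕ)) (x y : ℕ), s(x, y) ∉ S → ((ed G S).Adj x y ↔ G.Adj x y))

/-- SHL (an empty shell). `F` increasing, `|O| ≤ s`: one of the `s + 1` shells `F (c + 1) \ F c`,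
`a ≤ c ≤ a + s`, contains no element of `O`. Otherwise choose `x_c ∈ O` in each shell; these are
`s + 1` different elements (for `c < c'`: `x_c ∈ F (c + 1) ⊆ F c'`). -/
def Stmt_SHL : Prop :=
  ∀ (F : ℕ → Finset ℕ) (O : Finset ℕ) (a s : ℕ), (∀ n, F n ⊆ F (n + 1)) → O.card ≤ s →
    ∃ c, a ≤ c ∧ c ≤ a + s ∧ ∀ x ∈ O, x ∈ F (c + 1) → x ∈ F c

/-- STP (choice of a copy). If `P` is empty, any `c`. Otherwise `Core.rep` gives `N` pairwise disjoint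
copies `c i`. Let `Bd` be the union of the vertices of the pairs of `S` (at most `2k`), of `A'` (at most
`s`) and of the vertices with a defect to some `a ∈ A'` (at most `s Δ`, `Core.deg`). If for each `i`
there were `x_i ∈ P` with `c i x_i ∈ Bd`, then `i ↦ c i x_i` would be injective from `Fin N` to `Bd`,
but `N > 2k + s + s Δ`. So some copy avoids `Bd`. (`Df` is symmetric, and `c x ∈ M ⊆ X`.) -/
def Stmt_STP : Prop :=
  ∀ (G : SimpleGraph ℕ) (X : Finset ℕ) (s Δ N k : ℕ) (Z M : Finset ℕ) (lab : ℕ → ℕ)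
    (W : ℕ → ℕ → Prop), Core G X s Δ N Z M lab W → 2 * k + s + s * Δ + 1 ≤ N →
    ∀ (S : Finset (Sym2 ℕ)) (A' P Z' : Finset ℕ), S.card ≤ k → A'.card ≤ s → P ⊆ X →
      (∀ x ∈ P, x ∉ Z ∧ x ∉ M) → P.card ≤ s → Z' ⊆ Z → Z'.card ≤ s →
      ∃ c : ℕ → ℕ, Copy G lab M P Z' c ∧ (∀ x ∈ P, ∀ e ∈ S, c x ∉ e) ∧ (∀ x ∈ P, c x ∉ A') ∧
        ∀ x ∈ P, ∀ a ∈ A', ¬ Df G X Z lab W (c x) a

/-- EXT (extension of the replacement). STP with `A' = A0.image f`, `Z' = A0 ∩ Z` gives `c`; put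
`f' x = c x` for `x ∈ P`, `f' x = f x` otherwise. Pairs in `P`: `c x` is in no pair of `S`, so
`(ed G S).Adj (c x) (c y) ↔ G.Adj (c x) (c y) ↔ G.Adj x y ↔ H.Adj x y`. `x ∈ P`, `a ∈ A0`:
`(ed G S).Adj (c x) (f a) ↔ G.Adj (c x) (f a)`; if `a ∈ Z` then `f a = a` and this is `G.Adj x a`
(`Copy.adz`); if `a ∉ Z` then `f a ∉ Z`, `c x ∈ M` is not in `Z`, `c x ≠ f a` (`c x ∉ A'`), both are in
`X`, there is no defect, so it is `W (lab (c x)) (lab (f a)) = W (lab x) (lab a)`. -/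
def Stmt_EXT : Prop :=
  ∀ (G : SimpleGraph ℕ) (X : Finset ℕ) (s Δ N k : ℕ) (Z M : Finset ℕ) (lab : ℕ → ℕ)
    (W : ℕ → ℕ → Prop), Core G X s Δ N Z M lab W → 2 * k + s + s * Δ + 1 ≤ N →
    ∀ (S : Finset (Sym2 ℕ)) (H : SimpleGraph ℕ) (A A0 P : Finset ℕ) (f : ℕ → ℕ), S.card ≤ k →
      A ⊆ X → Emb G S H Z M A lab A0 f → Disjoint A0 P → (A0 ∪ P).card ≤ s → P ⊆ X →
      (∀ x ∈ P, x ∉ Z ∧ x ∉ M) →
      (∀ x ∈ P, ∀ y ∈ P, (H.Adj x y ↔ G.Adj x y)) →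
      (∀ x ∈ P, ∀ a ∈ A0, a ∈ Z → (H.Adj x a ↔ G.Adj x a)) →
      (∀ x ∈ P, ∀ a ∈ A0, a ∉ Z → (H.Adj x a ↔ W (lab x) (lab a))) →
      ∃ f' : ℕ → ℕ, Emb G S H Z M A lab (A0 ∪ P) f'

/-- REP (replacement). `O = A ∪ B ∪ C` is an obstruction of `H`; `H` is the edited graph on `A`; `B`
avoids `T = Z ∪ M`, `H = G` at `B` and there are no defects between `B` and `A`; `C` avoids `T` and its
vertices are perfect in `H`. Then the edited graph has an obstruction in `A ∪ M`.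
Proof: `f = id` on `A` is an `Emb`. EXT with `P = B`: for `a ∈ A \ Z`, `x ∈ B` there is no defect, so
`H.Adj x a ↔ G.Adj x a ↔ W (lab x) (lab a)` (`x ≠ a` by disjointness). Then EXT with `P = {x}` for the
elements `x` of `C` one after the other (induction over the subsets of `C`). The result is an `Emb` on
`O`, and `IsOb.map` gives the obstruction `O.image f ⊆ A ∪ M`. -/
def Stmt_REP : Prop :=
  ∀ (G : SimpleGraph ℕ) (X : Finset ℕ) (s Δ N k : ℕ) (Z M : Finset ℕ) (lab : ℕ → ℕ)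
    (W : ℕ → ℕ → Prop) (Ob : SimpleGraph ℕ → Finset ℕ → Prop), IsOb s Ob →
    Core G X s Δ N Z M lab W → 2 * k + s + s * Δ + 1 ≤ N →
    ∀ (S : Finset (Sym2 ℕ)) (H : SimpleGraph ℕ) (A B C : Finset ℕ), S.card ≤ k →
      A ⊆ X → B ⊆ X → C ⊆ X → Disjoint A B → Disjoint A C → Disjoint B C →
      Ob H (A ∪ B ∪ C) →
      (∀ x ∈ A, ∀ y ∈ A, (H.Adj x y ↔ (ed G S).Adj x y)) →
      (∀ x ∈ B, x ∉ Z ∧ x ∉ M) → (∀ x ∈ B, ∀ y ∈ A ∪ B, (H.Adj x y ↔ G.Adj x y)) →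
      (∀ x ∈ B, ∀ y ∈ A, ¬ Df G X Z lab W x y) →
      (∀ x ∈ C, x ∉ Z ∧ x ∉ M) →
      (∀ x ∈ C, ∀ y ∈ A ∪ B ∪ C, y ∈ Z → (H.Adj x y ↔ G.Adj x y)) →
      (∀ x ∈ C, ∀ y ∈ A ∪ B ∪ C, y ∉ Z → x ≠ y → (H.Adj x y ↔ W (lab x) (lab y))) →
      ∃ O' ⊆ A ∪ M, Ob (ed G S) O'

/-- LOS (the repaired set is a solution). `S` solution on `U`, `Z ∪ M ⊆ U ⊆ X`, `|S| ≤ k`. Let
`Ba = bl a`, `Bb = bl (a + s + 1)`, `S' = Sst Ba Bb S`, `H = ed G S'`, `Wt = Wt Ba Bb S`. Suppose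
`O ⊆ U` with `Ob H O`. SHL (`F = bl`): `a ≤ c ≤ a + s` with no vertex of `O` in `bl (c + 1) \ bl c`.
`A = (O ∩ bl c) \ Wt`, `B = O \ bl (c + 1) \ Wt`, `C = O ∩ Wt`; check the hypotheses of REP.
(A) `x, y ∈ A`: `s(x,y) ∈ S' ↔ s(x,y) ∈ S`: the pairs of the second part of `S'` contain a vertex of
`Wt`; a pair of `S` in `bl c ⊆ Bb` avoiding `Wt` is in the first part.
(B) `x ∈ B` is not in `bl (c + 1) ⊇ bl a ⊇ Z ∪ M`. `y ∈ A ∪ B`: `s(x,y) ∉ S'`: if it is in the first part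
then `x ∈ Bb`, `x ∉ Ba` and `x` is in a pair of `Sin Bb S`, so `x ∈ Wt`, no; second part: contains a
vertex of `Wt`, no. A defect between `x ∈ B` and `y ∈ A ⊆ bl c` would give `x ∈ bl (c + 1)`.
(C) `x ∈ Wt` is not in `Ba ⊇ Z ∪ M`, `x ∈ X`. For `y ≠ x`: `s(x,y)` is not in the first part of `S'`; it is
in the second part iff `Df x y` (`Df` symmetric). So `y ∈ Z`: as in `G`; `y ∉ Z` (in `X`):
`H.Adj x y ↔ ¬ (G.Adj x y ↔ Df x y) ↔ W (lab x) (lab y)`.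
REP gives an obstruction of `ed G S` in `A ∪ M ⊆ U`, contradiction. -/
def Stmt_LOS : Prop :=
  ∀ (G : SimpleGraph ℕ) (X : Finset ℕ) (s Δ N k : ℕ) (Z M : Finset ℕ) (lab : ℕ → ℕ)
    (W : ℕ → ℕ → Prop) (Ob : SimpleGraph ℕ → Finset ℕ → Prop), IsOb s Ob →
    Core G X s Δ N Z M lab W → 2 * k + s + s * Δ + 1 ≤ N →
    ∀ (S : Finset (Sym2 ℕ)) (U : Finset ℕ) (a : ℕ), S.card ≤ k → Z ∪ M ⊆ U → U ⊆ X →
      Sol Ob G U S →
      Sol Ob G U (Sst G X Z lab W (bl G X Z M lab W a) (bl G X Z M lab W (a + s + 1)) S)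

/-- LOD (decay). `S` a solution on `U` of least cardinality, `|S| ≤ k`. With `f n = |Sout (bl n) S|`,
`b = a + s + 1`: `|S| = |Sin (bl b) S| + f b`, `|Sst| ≤ |Sin (bl b) S| + Δ |Wt|` (`Core.deg`), and
`|S| ≤ |Sst|` (LOS). So `f b ≤ Δ |Wt|`. Every vertex of `Wt` is in a pair `e ∈ S`, inside `bl b` and not
inside `bl a`; there are `f a - f b` such pairs (`Sout (bl b) S ⊆ Sout (bl a) S`), with at most two
vertices each: `|Wt| ≤ 2 (f a - f b)`. Hence `f b (2Δ + 1) ≤ 2Δ f a`. -/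
def Stmt_LOD : Prop :=
  ∀ (G : SimpleGraph ℕ) (X : Finset ℕ) (s Δ N k : ℕ) (Z M : Finset ℕ) (lab : ℕ → ℕ)
    (W : ℕ → ℕ → Prop) (Ob : SimpleGraph ℕ → Finset ℕ → Prop), IsOb s Ob →
    Core G X s Δ N Z M lab W → 2 * k + s + s * Δ + 1 ≤ N →
    ∀ (S : Finset (Sym2 ℕ)) (U : Finset ℕ) (a : ℕ), S.card ≤ k → Z ∪ M ⊆ U → U ⊆ X →
      Sol Ob G U S → (∀ S' : Finset (Sym2 ℕ), Sol Ob G U S' → S.card ≤ S'.card) →
      (Sout (bl G X Z M lab W (a + s + 1)) S).card * (2 * Δ + 1) ≤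
        2 * Δ * (Sout (bl G X Z M lab W a) S).card

/-- EXP. `2 D^(D+1) ≤ (D+1)^(D+1)`: `(D + 1)^n ≥ D^n + n D^(n-1)` with `n = D + 1`. -/
def Stmt_EXP : Prop := ∀ D : ℕ, 2 * D ^ (D + 1) ≤ (D + 1) ^ (D + 1)

/-- LOC (all pairs of a minimal solution are near `Z ∪ M`). By induction on `t` (LOD):
`f (t (s + 1)) (2Δ + 1)^t ≤ (2Δ)^t k`. For `t = (2Δ + 1) L`:
`(2Δ + 1)^t = ((2Δ + 1)^(2Δ + 1))^L ≥ 2^L (2Δ)^t` (EXP with `D = 2Δ`). So `f 2^L (2Δ)^t ≤ (2Δ)^t k`. If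
`Δ > 0`, then `f 2^L ≤ k < 2^L`, `f = 0`. If `Δ = 0` and `L ≥ 1`, the inequality for `t` gives `f = 0`
(`0^t = 0`). If `L = 0` then `k = 0` and `S` is empty. `f = 0` means that all pairs are inside. -/
def Stmt_LOC : Prop :=
  ∀ (G : SimpleGraph ℕ) (X : Finset ℕ) (s Δ N k L : ℕ) (Z M : Finset ℕ) (lab : ℕ → ℕ)
    (W : ℕ → ℕ → Prop) (Ob : SimpleGraph ℕ → Finset ℕ → Prop), IsOb s Ob →
    Core G X s Δ N Z M lab W → 2 * k + s + s * Δ + 1 ≤ N → k < 2 ^ L →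
    ∀ (S : Finset (Sym2 ℕ)) (U : Finset ℕ), S.card ≤ k → Z ∪ M ⊆ U → U ⊆ X →
      Sol Ob G U S → (∀ S' : Finset (Sym2 ℕ), Sol Ob G U S' → S.card ≤ S'.card) →
      ∀ e ∈ S, ∀ x ∈ e, x ∈ bl G X Z M lab W (Rad s Δ L)

/-- GLU (the kernel). `U = bl (R + s + 1)`, `R = Rad s Δ L`. A solution on `X` is a solution on
`U ⊆ X`. Conversely, take a solution `S` on `U` of least cardinality (at most `k`); by LOC its pairs are
inside `bl R`. Suppose `O ⊆ X`, `Ob (ed G S) O`. SHL: `R ≤ c ≤ R + s` with no vertex of `O` in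
`bl (c + 1) \ bl c`. REP with `H = ed G S`, `A = O ∩ bl c`, `B = O \ bl (c + 1)`, `C = ∅`: vertices of
`B` are in no pair of `S`, not in `Z ∪ M`, and a defect to `A` would put them into `bl (c + 1)`. The new
obstruction is in `A ∪ M ⊆ bl c ∪ M ⊆ U`, contradiction. -/
def Stmt_GLU : Prop :=
  ∀ (G : SimpleGraph ℕ) (X : Finset ℕ) (s Δ N k L : ℕ) (Z M : Finset ℕ) (lab : ℕ → ℕ)
    (W : ℕ → ℕ → Prop) (Ob : SimpleGraph ℕ → Finset ℕ → Prop), IsOb s Ob →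
    Core G X s Δ N Z M lab W → 2 * k + s + s * Δ + 1 ≤ N → k < 2 ^ L →
    (Yes Ob G X k ↔ Yes Ob G (bl G X Z M lab W (Rad s Δ L + s + 1)) k)

/-- BAL. `|bl (n + 1)| ≤ |bl n| (1 + Δ)` (`Core.deg`; `bl (n + 1)` is the union of `bl n` and of the sets
of defects of its vertices). -/
def Stmt_BAL : Prop :=
  ∀ (G : SimpleGraph ℕ) (X : Finset ℕ) (s Δ N : ℕ) (Z M : Finset ℕ) (lab : ℕ → ℕ)
    (W : ℕ → ℕ → Prop), Core G X s Δ N Z M lab W →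
    ∀ n, (bl G X Z M lab W n).card ≤ (Z ∪ M).card * (1 + Δ) ^ n

/-- PKN (packing). `k + 1` pairwise disjoint obstructions of `G` in `X`: no solution with at most `k`
pairs. Otherwise for each `i` some `s(x, y) ∈ S` has `x, y ∈ Q i`: if not, `G` and `ed G S` agree on
`Q i` and `IsOb.map` with the identity gives `Ob (ed G S) (Q i)`. The pairs are different since the `Q i`
are disjoint: `k + 1 ≤ |S|`. -/
def Stmt_PKN : Prop :=
  ∀ (G : SimpleGraph ℕ) (X : Finset ℕ) (s k : ℕ) (Ob : SimpleGraph ℕ → Finset ℕ → Prop),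
    IsOb s Ob → ∀ Q : Fin (k + 1) → Finset ℕ, (∀ i, Q i ⊆ X) → (∀ i, Ob G (Q i)) →
    (∀ i j, i ≠ j → Disjoint (Q i) (Q j)) → ¬ Yes Ob G X k

end Pool.Ker
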