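import Mathlib
import Pool.Agent.Work.MP_2df4ce_k.Interface

set_option autoImplicit false

namespace Pool.Ker

theorem EXP_aux (D : ℕ) : ∀ n : ℕ, D ^ (n + 1) + (n + 1) * D ^ n ≤ (D + 1) ^ (n + 1)
  | 0 => by simp
  | n + 1 => by
      have h := EXP_aux D n
      calc D ^ (n + 1 + 1) + (n + 1 + 1) * D ^ (n + 1)
          ≤ (D ^ (n + 1) + (n + 1) * D ^ n) * (D + 1) := by
            have h1 : (D ^ (n + 1) + (n + 1) * D ^ n) * (D + 1) =
                D ^ (n + 1 + 1) + (n + 1 + 1) * D ^ (n + 1) + (n + 1) * D ^ n := by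
              ring
            rw [h1]
            exact Nat.le_add_right _ _
        _ ≤ (D + 1) ^ (n + 1) * (D + 1) := Nat.mul_le_mul_right _ h
        _ = (D + 1) ^ (n + 1 + 1) := (pow_succ _ _).symm

theorem stmt_EXP : Stmt_EXP := by
  intro D
  have h := EXP_aux D D
  have h1 : D ^ (D + 1) ≤ (D + 1) * D ^ D := by
    rw [pow_succ, mul_comm]
    exact Nat.mul_le_mul_right _ (Nat.le_succ D)
  omega

end Pool.Ker
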