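import Pool.Agent.Work.MP_2df4ce_k.Interface

/-!
# MP_2df4ce_lc, block EXT: extension of the replacement
-/

set_option autoImplicit false

namespace Pool.Ker

open Classical

theorem stmt_EXT : Stmt_DFS → Stmt_STP → Stmt_EXT := by
  intro hDFS hSTP G X s Δ N k Z M lab W hC hN S H A A0 P f hS hAX hE hdis hcard hPX hPZM hPP hPz hPw
  have hed := (hDFS G X s Δ N Z M lab W hC).2.2.2.2.2.2
  have hA0 : A0.card ≤ s := le_trans (Finset.card_le_card Finset.subset_union_left) hcard
  have hP : P.card ≤ s := le_trans (Finset.card_le_card Finset.subset_union_right) hcard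
  obtain ⟨c, hc, hcS, hcA, hcD⟩ := hSTP G X s Δ N k Z M lab W hC hN S (A0.image f) P (A0 ∩ Z) hS
    (le_trans Finset.card_image_le hA0) hPX hPZM hP Finset.inter_subset_right
    (le_trans (Finset.card_le_card Finset.inter_subset_left) hA0)
  have hcZ : ∀ x ∈ P, c x ∉ Z := fun x hx => hC.hZM _ (hc.mem x hx)
  -- pairs with a vertex of the copy are unchanged
  have hun : ∀ x ∈ P, ∀ v, ((ed G S).Adj (c x) v ↔ G.Adj (c x) v) := by
    intro x hx v
    refine hed S (c x) v ?_
    intro hmem
    exact hcS x hx _ hmem (Sym2.mem_mk_left _ _)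
  -- the mixed case
  have hmix : ∀ x ∈ P, ∀ a ∈ A0, (H.Adj x a ↔ (ed G S).Adj (c x) (f a)) := by
    intro x hx a ha
    rw [hun x hx (f a)]
    by_cases haZ : a ∈ Z
    · rw [hE.fz a ha haZ, hPz x hx a ha haZ]
      exact (hc.adz x hx a (Finset.mem_inter.mpr ⟨ha, haZ⟩)).symm
    · obtain ⟨hfa, hlab⟩ := hE.fnz a ha haZ
      have hfA : f a ∈ A0.image f := Finset.mem_image_of_mem f ha
      have hne : c x ≠ f a := by
        intro h
        apply hcA x hx
        rw [h]
        exact hfA
      have hfX : f a ∈ X := by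
        rcases Finset.mem_union.mp (hE.mem a ha) with h | h
        · exact hAX h
        · exact hC.hM h
      have hD := hcD x hx (f a) hfA
      rw [hPw x hx a ha haZ]
      by_contra hcon
      apply hD
      refine ⟨hC.hM (hc.mem x hx), hcZ x hx, hfX, hfa, hne, ?_⟩
      intro hiff
      apply hcon
      rw [hiff, hc.lab x hx, hlab]
  have hnP : ∀ x ∈ A0 ∪ P, x ∉ P → x ∈ A0 := by
    intro x hx hxP
    rcases Finset.mem_union.mp hx with h | h
    · exact h
    · exact absurd h hxP
  refine ⟨fun x => if x ∈ P then c x else f x, ?_, ?_, ?_, ?_, ?_⟩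
  · intro x hx
    by_cases hxP : x ∈ P
    · simp only [hxP, if_true]
      exact Finset.mem_union_right _ (hc.mem x hxP)
    · simp only [hxP, if_false]
      exact hE.mem x (hnP x hx hxP)
  · intro x hx y hy hxy
    by_cases hxP : x ∈ P
    · by_cases hyP : y ∈ P
      · simp only [hxP, hyP, if_true] at hxy
        exact hc.inj x hxP y hyP hxy
      · simp only [hxP, hyP, if_true, if_false] at hxy
        exfalso
        apply hcA x hxP
        rw [hxy]
        exact Finset.mem_image_of_mem f (hnP y hy hyP)
    · by_cases hyP : y ∈ P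
      · simp only [hxP, hyP, if_true, if_false] at hxy
        exfalso
        apply hcA y hyP
        rw [← hxy]
        exact Finset.mem_image_of_mem f (hnP x hx hxP)
      · simp only [hxP, hyP, if_false] at hxy
        exact hE.inj x (hnP x hx hxP) y (hnP y hy hyP) hxy
  · intro x hx hxZ
    by_cases hxP : x ∈ P
    · exact absurd hxZ (hPZM x hxP).1
    · simp only [hxP, if_false]
      exact hE.fz x (hnP x hx hxP) hxZ
  · intro x hx hxZ
    by_cases hxP : x ∈ P
    · simp only [hxP, if_true]
      exact ⟨hcZ x hxP, hc.lab x hxP⟩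
    · simp only [hxP, if_false]
      exact hE.fnz x (hnP x hx hxP) hxZ
  · intro x hx y hy
    by_cases hxP : x ∈ P
    · by_cases hyP : y ∈ P
      · simp only [hxP, hyP, if_true]
        rw [hun x hxP (c y), hc.adj x hxP y hyP]
        exact hPP x hxP y hyP
      · simp only [hxP, hyP, if_true, if_false]
        exact hmix x hxP y (hnP y hy hyP)
    · by_cases hyP : y ∈ P
      · simp only [hxP, hyP, if_true, if_false]
        rw [H.adj_comm x y, (ed G S).adj_comm (f x) (c y)]
        exact hmix y hyP x (hnP x hx hxP)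
      · simp only [hxP, hyP, if_false]
        exact hE.adj x (hnP x hx hxP) y (hnP y hy hyP)

end Pool.Ker
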