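import Pool.Agent.Work.MP_2df4ce_k.InterfaceF

/-!
# Block FIN
-/

set_option autoImplicit false

namespace Pool.Ker

open St Alg Pool.Agent.Work.TMLib

theorem stmt_FIN : Stmt_TRS → Stmt_KRN → Stmt_PA6 → Stmt_PEN → Stmt_ZER → Stmt_FIN := by
  intro hTRS hKRN hPA6 hPEN hZER F hF hS
  by_cases h0 : ∃ H ∈ F, H.1 = 0
  · exact hZER F h0
  have hb : ∃ s : ℕ, ∀ H ∈ F, H.1 ≤ s := by
    obtain ⟨s, hs⟩ := (hF.image (fun H : Gr => H.1)).bddAbove
    exact ⟨s, fun H hH => hs ⟨H, hH, rfl⟩⟩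
  obtain ⟨s, hs⟩ := hb
  have hB : Bdd F s := by
    intro H hH
    refine ⟨?_, hs H hH⟩
    rcases Nat.eq_zero_or_pos H.1 with h | h
    · exact absurd ⟨H, hH, h⟩ h0
    · exact h
  obtain ⟨r, D, c, hN⟩ := hTRS F hS
  have hOL : IsOL F (hF.toFinset.toList.map patG) := by
    intro g
    rw [List.mem_map]
    constructor
    · rintro ⟨H, hH, rfl⟩
      rw [Finset.mem_toList, Set.Finite.mem_toFinset] at hH
      exact ⟨H, hH, rfl⟩
    · rintro ⟨H, hH, rfl⟩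
      refine ⟨H, ?_, rfl⟩
      rw [Finset.mem_toList, Set.Finite.mem_toFinset]
      exact hH
  obtain ⟨noI, P, hP⟩ := hKRN F (hF.toFinset.toList.map patG) s r D c hOL hB hN
  exact ⟨fun I => kern (hF.toFinset.toList.map patG) s r D (c + r * (2 * D + 2)) noI I, P,
    hPEN _ (hPA6 _ s r D _ noI), hP⟩

end Pool.Ker
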