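import Pool.Agent.Work.MP_2df4ce_k.Interface

/-!
# Block GLU (helper6): the kernel
-/

set_option autoImplicit false

namespace Pool.Ker

open Classical

/-- GLU (helper6) -/
theorem stmt_GLU : Stmt_DFS → Stmt_SHL → Stmt_REP → Stmt_LOC → Stmt_GLU := by
  intro hDFS hSHL hREP hLOC G X s Δ N k L Z M lab W Ob hOb hC hN hk
  obtain ⟨hsym, hinc, hmono, hX, hT, hdef, hed⟩ := hDFS G X s Δ N Z M lab W hC
  constructor
  · rintro ⟨S, hSk, hS⟩
    exact ⟨S, hSk, fun O hO => hS O (hO.trans (hX _))⟩
  · rintro ⟨S0, hS0k, hS0⟩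
    have hex : ∃ n : ℕ, ∃ S : Finset (Sym2 ℕ), S.card = n ∧
        Sol Ob G (bl G X Z M lab W (Rad s Δ L + s + 1)) S := ⟨_, S0, rfl, hS0⟩
    obtain ⟨S, hSc, hS⟩ := Nat.find_spec hex
    have hmin : ∀ S' : Finset (Sym2 ℕ), Sol Ob G (bl G X Z M lab W (Rad s Δ L + s + 1)) S' →
        S.card ≤ S'.card := fun S' h => by
      rw [hSc]
      exact Nat.find_min' hex ⟨S', rfl, h⟩
    have hSk : S.card ≤ k := (hmin S0 hS0).trans hS0k
    have hloc := hLOC G X s Δ N k L Z M lab W Ob hOb hC hN hk S _ hSk (hT _) (hX _) hS hmin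
    refine ⟨S, hSk, fun O hO hobs => ?_⟩
    have hcard := hOb.card _ _ hobs
    obtain ⟨c, hc1, hc2, hc3⟩ := hSHL (bl G X Z M lab W) O (Rad s Δ L) s hinc hcard
    have hOe : O.filter (fun x => x ∈ bl G X Z M lab W c) ∪
        O.filter (fun x => x ∉ bl G X Z M lab W (c + 1)) ∪ ∅ = O := by
      ext x
      simp only [Finset.mem_union, Finset.mem_filter, Finset.notMem_empty, or_false]
      constructor
      · rintro (h | h)
        · exact h.1
        · exact h.1
      · intro h
        by_cases h1 : x ∈ bl G X Z M lab W (c + 1)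
        · exact Or.inl ⟨h, hc3 x h h1⟩
        · exact Or.inr ⟨h, h1⟩
    have hBT : ∀ x ∈ O.filter (fun x => x ∉ bl G X Z M lab W (c + 1)), x ∉ Z ∧ x ∉ M := by
      intro x hx
      have hx2 := (Finset.mem_filter.1 hx).2
      exact ⟨fun h => hx2 (hT _ (Finset.mem_union_left _ h)),
        fun h => hx2 (hT _ (Finset.mem_union_right _ h))⟩
    obtain ⟨O', hO', hobs'⟩ := hREP G X s Δ N k Z M lab W Ob hOb hC hN S (ed G S)
      (O.filter (fun x => x ∈ bl G X Z M lab W c))
      (O.filter (fun x => x ∉ bl G X Z M lab W (c + 1))) ∅ hSk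
      ((Finset.filter_subset _ _).trans hO) ((Finset.filter_subset _ _).trans hO)
      (Finset.empty_subset _)
      (Finset.disjoint_left.2 fun x h1 h2 =>
        (Finset.mem_filter.1 h2).2 (hinc c (Finset.mem_filter.1 h1).2))
      (Finset.disjoint_empty_right _) (Finset.disjoint_empty_right _) (by rw [hOe]; exact hobs)
      (fun x _ y _ => Iff.rfl) hBT
      (fun x hx y _ => hed S x y fun hxy => (Finset.mem_filter.1 hx).2
        (hmono (Rad s Δ L) (c + 1) (by omega) (hloc _ hxy x (Sym2.mem_mk_left x y))))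
      (fun x hx y hy hdf => (Finset.mem_filter.1 hx).2
        (hdef c y x (Finset.mem_filter.1 hy).2 (hsym x y hdf)))
      (by simp) (by simp) (by simp)
    refine hS O' (hO'.trans ?_) hobs'
    intro x hx
    rcases Finset.mem_union.1 hx with h | h
    · exact hmono c _ (by omega) (Finset.mem_filter.1 h).2
    · exact hT _ (Finset.mem_union_right _ h)

end Pool.Ker
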