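import Pool.Agent.Work.MP_2df4ce_k.InterfaceG

/-!
# MP_2df4ce_lc, part G: block GS1 (helper75)
-/

set_option autoImplicit false

namespace Pool.Ker

open Classical St

/-- pigeonhole: two indices with the same value `some a` -/
theorem GS1_pig (t r c : ℕ) (f : Fin t → Option (Fin r))
    (hc : (Finset.univ.filter fun i => f i = none).card ≤ c) (ht : r + c < t) :
    ∃ i j a, i ≠ j ∧ f i = some a ∧ f j = some a := by
  by_contra hcon
  push Not at hcon
  have h1 : (Finset.univ.filter fun i => ¬ f i = none).card ≤ r := by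
    have h2 : ((Finset.univ.filter fun i => ¬ f i = none).image f).card =
        (Finset.univ.filter fun i => ¬ f i = none).card := by
      refine Finset.card_image_of_injOn ?_
      intro i hi j hj hij
      have hi' := (Finset.mem_filter.mp (Finset.mem_coe.mp hi)).2
      obtain ⟨a, ha⟩ := Option.ne_none_iff_exists'.mp hi'
      by_contra hne
      exact hcon i j a hne ha (by rw [← hij]; exact ha)
    rw [← h2]
    have h3 : (Finset.univ.filter fun i => ¬ f i = none).image f ⊆
        (Finset.univ : Finset (Fin r)).image some := by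
      intro o ho
      obtain ⟨i, hi, rfl⟩ := Finset.mem_image.mp ho
      obtain ⟨a, ha⟩ := Option.ne_none_iff_exists'.mp (Finset.mem_filter.mp hi).2
      rw [ha]
      exact Finset.mem_image_of_mem _ (Finset.mem_univ a)
    calc ((Finset.univ.filter fun i => ¬ f i = none).image f).card
        ≤ ((Finset.univ : Finset (Fin r)).image some).card := Finset.card_le_card h3
      _ ≤ (Finset.univ : Finset (Fin r)).card := Finset.card_image_le
      _ = r := by simp
  have h4 : (Finset.univ.filter fun i => f i = none).card +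
      (Finset.univ.filter fun i => ¬ f i = none).card = t := by
    rw [Finset.card_filter_add_card_filter_not]
    simp
  omega

theorem stmt_GS1 : Stmt_GS1 := by
  intro F hF
  obtain ⟨r, D, c, hS⟩ := hF
  refine ⟨r + c + 2 * D + 1, ?_⟩
  intro n G hG hx
  obtain ⟨x, hx⟩ := hx
  obtain ⟨lab, M, hM, hlab, hdef⟩ := hS n G hG
  have hinj : Function.Injective x := by
    intro i j hij
    by_contra hne
    have h1 := hx i j hne
    rw [hij] at h1
    have h2 : {v | v ≠ x j ∧ v ≠ x j ∧ (G.Adj (x j) v ↔ ¬ G.Adj (x j) v)} = ∅ := by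
      ext v
      simp only [Set.mem_ofPred_eq, Set.mem_empty_iff_false, iff_false]
      rintro ⟨-, -, h⟩
      tauto
    rw [h2, Set.ncard_empty] at h1
    omega
  have hnone : (Finset.univ.filter fun i => lab (x i) = none).card ≤ c := by
    refine le_trans ?_ hlab
    rw [← Set.ncard_coe_finset]
    refine Set.ncard_le_ncard_of_injOn x ?_ (hinj.injOn) (Set.toFinite _)
    intro i hi
    exact (Finset.mem_filter.mp (Finset.mem_coe.mp hi)).2
  obtain ⟨i, j, a, hij, hi, hj⟩ := GS1_pig (r + c + 2 * D + 1) r c (fun i => lab (x i)) hnone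
    (by omega)
  have h1 := hx i j hij
  have h2 := hdef (x i) a hi
  have h3 := hdef (x j) a hj
  have h4 : {v | v ≠ x i ∧ v ≠ x j ∧ (G.Adj (x i) v ↔ ¬ G.Adj (x j) v)} ⊆
      {v | lab v = none} ∪ ({u | u ≠ x i ∧ ∃ b, lab u = some b ∧ ¬ (G.Adj (x i) u ↔ M a b)} ∪
        {u | u ≠ x j ∧ ∃ b, lab u = some b ∧ ¬ (G.Adj (x j) u ↔ M a b)}) := by
    rintro v ⟨hv1, hv2, hv3⟩
    rcases hv : lab v with _ | b
    · exact Or.inl hv
    · refine Or.inr ?_
      by_cases h5 : G.Adj (x i) v ↔ M a b
      · refine Or.inr ⟨hv2, b, hv, ?_⟩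
        tauto
      · exact Or.inl ⟨hv1, b, hv, h5⟩
  have h5 := Set.ncard_le_ncard h4 (Set.toFinite _)
  have h6 := Set.ncard_union_le {v | lab v = none}
    ({u | u ≠ x i ∧ ∃ b, lab u = some b ∧ ¬ (G.Adj (x i) u ↔ M a b)} ∪
        {u | u ≠ x j ∧ ∃ b, lab u = some b ∧ ¬ (G.Adj (x j) u ↔ M a b)})
  have h7 := Set.ncard_union_le
    {u | u ≠ x i ∧ ∃ b, lab u = some b ∧ ¬ (G.Adj (x i) u ↔ M a b)}
    {u | u ≠ x j ∧ ∃ b, lab u = some b ∧ ¬ (G.Adj (x j) u ↔ M a b)}
  omega

end Pool.Ker
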