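import Pool.Agent.Work.MP_2df4ce_k.InterfaceG

/-!
# MP_2df4ce_lc, part G: block GS2 (helper75)
-/

set_option autoImplicit false

namespace Pool.Ker

open Classical St

theorem GS2_self {V : Type} [Fintype V] (G : SimpleGraph V) (v : V) : dst G v v = 0 := by
  unfold dst
  rw [Finset.card_eq_zero, Finset.filter_eq_empty_iff]
  rintro w - ⟨-, -, h⟩
  tauto

theorem GS2_symm {V : Type} [Fintype V] (G : SimpleGraph V) (u v : V) :
    dst G u v = dst G v u := by
  unfold dst
  congr 1
  ext w
  simp only [Finset.mem_filter, Finset.mem_univ, true_and]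
  tauto

theorem stmt_GS2 : Stmt_GS2 := by
  intro V _ G t ht hno
  obtain ⟨S, hS, hmax⟩ := Finset.exists_max_image
    (Finset.univ.filter fun S : Finset V => ∀ a ∈ S, ∀ b ∈ S, a ≠ b → t ≤ dst G a b)
    Finset.card ⟨∅, by simp⟩
  rw [Finset.mem_filter] at hS
  obtain ⟨-, hS⟩ := hS
  have hSt : S.card < t := by
    by_contra hc
    obtain ⟨T, hTS, hT⟩ := Finset.exists_subset_card_eq (not_lt.mp hc)
    refine hno ⟨fun i => ((T.equivFinOfCardEq hT).symm i : V), fun i j hij => ?_⟩
    refine hS _ (hTS (Finset.coe_mem _)) _ (hTS (Finset.coe_mem _)) ?_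
    intro h
    exact hij ((T.equivFinOfCardEq hT).symm.injective (Subtype.ext h))
  have hex : ∀ v, ∃ x, x ∈ S ∧ dst G v x < t ∧ (v ∈ S → x = v) := by
    intro v
    by_cases hv : v ∈ S
    · exact ⟨v, hv, by rw [GS2_self]; omega, fun _ => rfl⟩
    · by_contra hc
      push Not at hc
      have h1 : ∀ x ∈ S, t ≤ dst G v x := by
        intro x hx
        by_contra h2
        exact (hc x hx (not_le.mp h2)).1 |> hv
      have h2 := hmax (insert v S) (by
        rw [Finset.mem_filter]
        refine ⟨Finset.mem_univ _, ?_⟩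
        intro a ha b hb hab
        rw [Finset.mem_insert] at ha hb
        rcases ha with rfl | ha
        · rcases hb with rfl | hb
          · exact absurd rfl hab
          · exact h1 b hb
        · rcases hb with rfl | hb
          · rw [GS2_symm]
            exact h1 a ha
          · exact hS a ha b hb hab)
      rw [Finset.card_insert_of_notMem hv] at h2
      omega
  choose cl hcl using hex
  refine ⟨cl, ?_, ?_, ?_, ?_⟩
  · refine lt_of_le_of_lt (Finset.card_le_card ?_) hSt
    intro x hx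
    obtain ⟨v, -, rfl⟩ := Finset.mem_image.mp hx
    exact (hcl v).1
  · intro v
    exact (hcl (cl v)).2.2 (hcl v).1
  · intro v
    exact (hcl v).2.1
  · intro u v huv
    have h1 := (hcl u).2.1
    have h2 := (hcl v).2.1
    rw [← huv] at h2
    have h3 : (Finset.univ.filter fun w => w ≠ u ∧ w ≠ v ∧ (G.Adj u w ↔ ¬ G.Adj v w)) ⊆
        {cl u} ∪ ((Finset.univ.filter fun w => w ≠ u ∧ w ≠ cl u ∧
          (G.Adj u w ↔ ¬ G.Adj (cl u) w)) ∪
          (Finset.univ.filter fun w => w ≠ v ∧ w ≠ cl u ∧ (G.Adj v w ↔ ¬ G.Adj (cl u) w))) := by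
      intro w hw
      simp only [Finset.mem_union, Finset.mem_singleton, Finset.mem_filter, Finset.mem_univ,
        true_and] at hw ⊢
      by_cases hw1 : w = cl u
      · exact Or.inl hw1
      · tauto
    have h4 := Finset.card_le_card h3
    have h5 := Finset.card_union_le {cl u} ((Finset.univ.filter fun w => w ≠ u ∧ w ≠ cl u ∧
          (G.Adj u w ↔ ¬ G.Adj (cl u) w)) ∪
          (Finset.univ.filter fun w => w ≠ v ∧ w ≠ cl u ∧ (G.Adj v w ↔ ¬ G.Adj (cl u) w)))
    have h6 := Finset.card_union_le (Finset.univ.filter fun w => w ≠ u ∧ w ≠ cl u ∧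
          (G.Adj u w ↔ ¬ G.Adj (cl u) w))
          (Finset.univ.filter fun w => w ≠ v ∧ w ≠ cl u ∧ (G.Adj v w ↔ ¬ G.Adj (cl u) w))
    rw [Finset.card_singleton] at h5
    unfold dst at h1 h2 ⊢
    omega

end Pool.Ker
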