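import Pool.Agent.Work.MP_2df4ce_k.InterfaceG

/-! # Block GS3 (helper54): two classes -/

set_option autoImplicit false

namespace Pool.Ker

open Classical St

theorem GS3_key {V : Type} [Fintype V] (G : SimpleGraph V) (t : ℕ) (A B' : Finset V) (β : Bool)
    (u : V) (hu : u ∈ A) (ht : 1 ≤ t) (hA : ∀ u ∈ A, ∀ v ∈ A, dst G u v < 2 * t)
    (hB' : ∀ w ∈ B', w ≠ u ∧ (G.Adj u w ↔ β = true)) (hcard : 8 * t ≤ B'.card) :
    ∃ w ∈ B', 4 * (A.filter fun u' => u' ≠ w ∧ ¬ (G.Adj u' w ↔ β = true)).card ≤ A.card := by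
  by_contra hcon0
  have hcon : ∀ w ∈ B', A.card + 1 ≤
      4 * (A.filter fun u' => u' ≠ w ∧ ¬ (G.Adj u' w ↔ β = true)).card := by
    intro w hw
    by_contra h
    exact hcon0 ⟨w, hw, by omega⟩
  have h1 : ∑ w ∈ B', (A.filter fun u' => u' ≠ w ∧ ¬ (G.Adj u' w ↔ β = true)).card =
      ∑ u' ∈ A, (B'.filter fun w => u' ≠ w ∧ ¬ (G.Adj u' w ↔ β = true)).card := by
    simp only [Finset.card_filter]
    exact Finset.sum_comm
  have h2 : ∀ u' ∈ A, (B'.filter fun w => u' ≠ w ∧ ¬ (G.Adj u' w ↔ β = true)).card ≤ 2 * t := by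
    intro u' hu'
    refine le_trans (Finset.card_le_card ?_) (hA u hu u' hu').le
    intro w hw
    rw [Finset.mem_filter] at hw
    obtain ⟨hw1, hw2, hw3⟩ := hw
    obtain ⟨hw4, hw5⟩ := hB' w hw1
    rw [Finset.mem_filter]
    refine ⟨Finset.mem_univ _, hw4, fun h => hw2 h.symm, ?_⟩
    tauto
  have h3 := Finset.sum_le_sum h2
  rw [Finset.sum_const, smul_eq_mul, ← h1] at h3
  have h4 : ∑ w ∈ B', (A.card + 1) ≤
      ∑ w ∈ B', 4 * (A.filter fun u' => u' ≠ w ∧ ¬ (G.Adj u' w ↔ β = true)).card :=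
    Finset.sum_le_sum fun w hw => hcon w hw
  rw [Finset.sum_const, smul_eq_mul, ← Finset.mul_sum] at h4
  have h5 : 8 * t * (A.card + 1) ≤ B'.card * (A.card + 1) := Nat.mul_le_mul_right _ hcard
  nlinarith

theorem stmt_GS3 : Stmt_GS3 := by
  intro V _ G t A B ht hA hB hcard u hu
  by_contra hcon
  push Not at hcon
  obtain ⟨hc1, hc0⟩ := hcon
  obtain ⟨w1, hw1, k1⟩ := GS3_key G t A (nbr G B true u) true u hu ht hA
    (fun w hw => by
      unfold nbr at hw
      rw [Finset.mem_filter] at hw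
      exact hw.2) hc1
  obtain ⟨w0, hw0, k0⟩ := GS3_key G t A (nbr G B false u) false u hu ht hA
    (fun w hw => by
      unfold nbr at hw
      rw [Finset.mem_filter] at hw
      exact hw.2) hc0
  have hb1 : w1 ∈ B := by
    unfold nbr at hw1
    exact (Finset.mem_filter.1 hw1).1
  have hb0 : w0 ∈ B := by
    unfold nbr at hw0
    exact (Finset.mem_filter.1 hw0).1
  have hd := hB w1 hb1 w0 hb0
  have hsub : A ⊆ ({w0, w1} ∪ (A.filter fun u' => u' ≠ w1 ∧ ¬ (G.Adj u' w1 ↔ true = true))) ∪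
      ((A.filter fun u' => u' ≠ w0 ∧ ¬ (G.Adj u' w0 ↔ false = true)) ∪
        (Finset.univ.filter fun v => v ≠ w1 ∧ v ≠ w0 ∧ (G.Adj w1 v ↔ ¬ G.Adj w0 v))) := by
    intro v hv
    simp only [Finset.mem_union, Finset.mem_insert, Finset.mem_singleton, Finset.mem_filter,
      Finset.mem_univ, true_and]
    rw [G.adj_comm w1 v, G.adj_comm w0 v]
    by_cases e0 : v = w0
    · exact Or.inl (Or.inl (Or.inl e0))
    · by_cases e1 : v = w1
      · exact Or.inl (Or.inl (Or.inr e1))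
      · by_cases a1 : G.Adj v w1
        · by_cases a0 : G.Adj v w0
          · refine Or.inr (Or.inl ⟨hv, e0, ?_⟩)
            simp [a0]
          · refine Or.inr (Or.inr ⟨e1, e0, ?_⟩)
            simp [a1, a0]
        · refine Or.inl (Or.inr ⟨hv, e1, ?_⟩)
          simp [a1]
  have h1 := Finset.card_le_card hsub
  have h2 := Finset.card_union_le
    ({w0, w1} ∪ (A.filter fun u' => u' ≠ w1 ∧ ¬ (G.Adj u' w1 ↔ true = true)))
    ((A.filter fun u' => u' ≠ w0 ∧ ¬ (G.Adj u' w0 ↔ false = true)) ∪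
        (Finset.univ.filter fun v => v ≠ w1 ∧ v ≠ w0 ∧ (G.Adj w1 v ↔ ¬ G.Adj w0 v)))
  have h3 := Finset.card_union_le ({w0, w1} : Finset V)
    (A.filter fun u' => u' ≠ w1 ∧ ¬ (G.Adj u' w1 ↔ true = true))
  have h4 := Finset.card_union_le
    (A.filter fun u' => u' ≠ w0 ∧ ¬ (G.Adj u' w0 ↔ false = true))
    (Finset.univ.filter fun v => v ≠ w1 ∧ v ≠ w0 ∧ (G.Adj w1 v ↔ ¬ G.Adj w0 v))
  have h5 : ({w0, w1} : Finset V).card ≤ 2 := Finset.card_le_two
  unfold dst at hd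
  omega

end Pool.Ker
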