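import Pool.Agent.Work.MP_2df4ce_k.InterfaceG

set_option autoImplicit false

namespace Pool.Ker

open Classical St

theorem GS4_num (V : Type) [Fintype V] (cl : V → V) (t : ℕ) (ht : 1 ≤ t)
    (hR : (Finset.univ.image cl).card < t) :
    ∃ f : V → Fin t, ∀ u v, f (cl u) = f (cl v) → cl u = cl v := by
  have hlt : ∀ x : (Finset.univ.image cl : Finset V),
      ((Finset.univ.image cl).equivFin x).val < t :=
    fun x => lt_trans ((Finset.univ.image cl).equivFin x).isLt hR
  refine ⟨fun v => if hv : v ∈ Finset.univ.image cl then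
    ⟨((Finset.univ.image cl).equivFin ⟨v, hv⟩).val, hlt _⟩ else ⟨0, ht⟩, ?_⟩
  intro u v huv
  have hu : cl u ∈ Finset.univ.image cl := Finset.mem_image_of_mem _ (Finset.mem_univ u)
  have hv : cl v ∈ Finset.univ.image cl := Finset.mem_image_of_mem _ (Finset.mem_univ v)
  simp only [dif_pos hu, dif_pos hv, Fin.mk.injEq] at huv
  have h1 := (Finset.univ.image cl).equivFin.injective (Fin.ext huv)
  exact congrArg Subtype.val h1

theorem GS4_far {V : Type} [Fintype V] (G : SimpleGraph V) (t : ℕ) (B : Finset V) (u u0 : V)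
    (h0 : (nbr G B false u0).card < 8 * t) (hd : dst G u u0 < 2 * t) :
    (nbr G B false u).card ≤ 10 * t := by
  have hsub : nbr G B false u ⊆ nbr G B false u0 ∪
      (Finset.univ.filter fun v => v ≠ u ∧ v ≠ u0 ∧ (G.Adj u v ↔ ¬ G.Adj u0 v)) ∪ {u0} := by
    intro w hw
    unfold nbr at hw
    rw [Finset.mem_filter] at hw
    obtain ⟨hwB, hwu, hadj⟩ := hw
    have hna : ¬ G.Adj u w := by
      intro h
      exact absurd (hadj.mp h) (by simp)
    by_cases h1 : w = u0
    · simp [h1]
    · by_cases h2 : G.Adj u0 w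
      · apply Finset.mem_union_left
        apply Finset.mem_union_right
        rw [Finset.mem_filter]
        exact ⟨Finset.mem_univ _, hwu, h1, ⟨fun h => absurd h hna, fun h => absurd h2 h⟩⟩
      · apply Finset.mem_union_left
        apply Finset.mem_union_left
        unfold nbr
        rw [Finset.mem_filter]
        refine ⟨hwB, h1, ⟨fun h => absurd h h2, fun h => ?_⟩⟩
        exact absurd h (by simp)
  have h1 := Finset.card_le_card hsub
  have h2 := Finset.card_union_le (nbr G B false u0 ∪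
      (Finset.univ.filter fun v => v ≠ u ∧ v ≠ u0 ∧ (G.Adj u v ↔ ¬ G.Adj u0 v))) {u0}
  have h3 := Finset.card_union_le (nbr G B false u0)
      (Finset.univ.filter fun v => v ≠ u ∧ v ≠ u0 ∧ (G.Adj u v ↔ ¬ G.Adj u0 v))
  have h4 : (Finset.univ.filter fun v => v ≠ u ∧ v ≠ u0 ∧ (G.Adj u v ↔ ¬ G.Adj u0 v)).card <
      2 * t := hd
  have h5 : ({u0} : Finset V).card = 1 := Finset.card_singleton u0
  omega

theorem GS4_split {V : Type} (G : SimpleGraph V) (B : Finset V) (u : V) :
    B.card ≤ (nbr G B true u).card + (nbr G B false u).card + 1 := by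
  have hsub : B ⊆ nbr G B true u ∪ nbr G B false u ∪ {u} := by
    intro w hw
    by_cases h1 : w = u
    · simp [h1]
    · apply Finset.mem_union_left
      by_cases h2 : G.Adj u w
      · apply Finset.mem_union_left
        unfold nbr
        rw [Finset.mem_filter]
        exact ⟨hw, h1, ⟨fun _ => rfl, fun _ => h2⟩⟩
      · apply Finset.mem_union_right
        unfold nbr
        rw [Finset.mem_filter]
        refine ⟨hw, h1, ⟨fun h => absurd h h2, fun h => ?_⟩⟩
        exact absurd h (by simp)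
  have h1 := Finset.card_le_card hsub
  have h2 := Finset.card_union_le (nbr G B true u ∪ nbr G B false u) {u}
  have h3 := Finset.card_union_le (nbr G B true u) (nbr G B false u)
  have h5 : ({u} : Finset V).card = 1 := Finset.card_singleton u
  omega

theorem GS4_count {V : Type} (G : SimpleGraph V) (A B : Finset V) :
    ∑ u ∈ A, (nbr G B true u).card = ∑ w ∈ B, (nbr G A true w).card := by
  have h := Finset.sum_card_bipartiteAbove_eq_sum_card_bipartiteBelow
    (s := A) (t := B) (fun u w => G.Adj u w)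
  have h1 : ∀ u ∈ A, (nbr G B true u).card =
      (Finset.bipartiteAbove (fun u w => G.Adj u w) B u).card := by
    intro u _
    congr 1
    ext w
    unfold nbr Finset.bipartiteAbove
    rw [Finset.mem_filter, Finset.mem_filter]
    constructor
    · rintro ⟨h1, _, h3⟩
      exact ⟨h1, h3.mpr rfl⟩
    · rintro ⟨h1, h2⟩
      exact ⟨h1, h2.ne', ⟨fun _ => rfl, fun _ => h2⟩⟩
  have h2 : ∀ w ∈ B, (nbr G A true w).card =
      (Finset.bipartiteBelow (fun u w => G.Adj u w) A w).card := by
    intro w _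
    congr 1
    ext u
    unfold nbr Finset.bipartiteBelow
    rw [Finset.mem_filter, Finset.mem_filter]
    constructor
    · rintro ⟨h1, _, h3⟩
      exact ⟨h1, (h3.mpr rfl).symm⟩
    · rintro ⟨h1, h2⟩
      exact ⟨h1, h2.ne, ⟨fun _ => rfl, fun _ => h2.symm⟩⟩
  rw [Finset.sum_congr rfl h1, Finset.sum_congr rfl h2]
  exact h

theorem GS4_arith (t a b : ℕ) (ht : 1 ≤ t) (ha : 40 * t + 8 ≤ a) (hb : 40 * t + 8 ≤ b)
    (h : a * (b - 10 * t - 1) ≤ b * (8 * t)) : False := by
  obtain ⟨c, hc⟩ : ∃ c, b = c + (10 * t + 1) := ⟨b - (10 * t + 1), by omega⟩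
  have h1 : b - 10 * t - 1 = c := by omega
  rw [h1] at h
  have h2 : 30 * t + 7 ≤ c := by omega
  have h3 : (40 * t + 8) * c ≤ a * c := Nat.mul_le_mul_right c ha
  rw [hc] at h
  nlinarith

theorem GS4_core (hGS2 : Stmt_GS2) (hGS3 : Stmt_GS3) (V : Type) [Fintype V]
    (G : SimpleGraph V) (t : ℕ) (ht : 1 ≤ t)
    (h : ¬ ∃ x : Fin t → V, ∀ i j, i ≠ j → t ≤ dst G (x i) (x j)) :
    ∃ (lab : V → Option (Fin t)) (M : Fin t → Fin t → Prop), (∀ i j, M i j → M j i) ∧
      {v | lab v = none}.ncard ≤ t * (40 * t + 8) ∧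
      ∀ v i, lab v = some i →
        {u | u ≠ v ∧ ∃ j, lab u = some j ∧ ¬ (G.Adj v u ↔ M i j)}.ncard ≤ t * (10 * t) := by
  obtain ⟨cl, hR, hcl, hd, hd2⟩ := hGS2 V G t ht h
  obtain ⟨f, hf⟩ := GS4_num V cl t ht hR
  obtain ⟨A, hAdef⟩ : ∃ A : Fin t → Finset V, ∀ i v, v ∈ A i ↔ f (cl v) = i :=
    ⟨fun i => Finset.univ.filter (fun v => f (cl v) = i), fun i v => by simp⟩
  have hA : ∀ i, ∀ u ∈ A i, ∀ v ∈ A i, dst G u v < 2 * t := by
    intro i u hu v hv
    rw [hAdef] at hu hv
    exact hd2 u v (hf u v (hu.trans hv.symm))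
  have h3 : ∀ i j, 40 * t + 8 ≤ (A i).card → ∀ u ∈ A i,
      (nbr G (A j) true u).card < 8 * t ∨ (nbr G (A j) false u).card < 8 * t :=
    fun i j hi u hu => hGS3 V G t (A i) (A j) ht (hA i) (hA j) (by omega) u hu
  have hM1 : ∀ i j, 40 * t + 8 ≤ (A i).card → (∃ u ∈ A i, 8 * t ≤ (nbr G (A j) true u).card) →
      ∀ u ∈ A i, (nbr G (A j) false u).card ≤ 10 * t := by
    rintro i j hi ⟨u0, hu0, h0⟩ u hu
    have h4 : (nbr G (A j) false u0).card < 8 * t := by
      rcases h3 i j hi u0 hu0 with h5 | h5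
      · omega
      · exact h5
    exact GS4_far G t (A j) u u0 h4 (hA i u hu u0 hu0)
  have hM2 : ∀ i j, (¬ ∃ u ∈ A i, 8 * t ≤ (nbr G (A j) true u).card) →
      ∀ u ∈ A i, (nbr G (A j) true u).card < 8 * t := by
    intro i j hn u hu
    by_contra hc
    exact hn ⟨u, hu, not_lt.mp hc⟩
  have hsym : ∀ i j, 40 * t + 8 ≤ (A i).card → 40 * t + 8 ≤ (A j).card →
      (∃ u ∈ A i, 8 * t ≤ (nbr G (A j) true u).card) →
      (∃ u ∈ A j, 8 * t ≤ (nbr G (A i) true u).card) := by
    intro i j hi hj hM
    by_contra hn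
    have h4 := hM1 i j hi hM
    have h5 := hM2 j i hn
    have h6 : (A i).card * ((A j).card - 10 * t - 1) ≤ ∑ u ∈ A i, (nbr G (A j) true u).card := by
      rw [← smul_eq_mul]
      apply Finset.card_nsmul_le_sum
      intro u hu
      have h7 := GS4_split G (A j) u
      have h8 := h4 u hu
      omega
    have h7 : ∑ w ∈ A j, (nbr G (A i) true w).card ≤ (A j).card * (8 * t) := by
      rw [← smul_eq_mul]
      apply Finset.sum_le_card_nsmul
      intro w hw
      exact (h5 w hw).le
    rw [GS4_count] at h6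
    exact GS4_arith t _ _ ht hi hj (h6.trans h7)
  refine ⟨fun v => if 40 * t + 8 ≤ (A (f (cl v))).card then some (f (cl v)) else none,
    fun i j => 40 * t + 8 ≤ (A i).card ∧ 40 * t + 8 ≤ (A j).card ∧
      ∃ u ∈ A i, 8 * t ≤ (nbr G (A j) true u).card, ?_, ?_, ?_⟩
  · rintro i j ⟨h4, h5, h6⟩
    exact ⟨h5, h4, hsym i j h4 h5 h6⟩
  · have hsub : {v | (if 40 * t + 8 ≤ (A (f (cl v))).card then some (f (cl v)) else none) = none} ⊆
        (((Finset.univ : Finset (Fin t)).biUnion fun i =>
          if 40 * t + 8 ≤ (A i).card then ∅ else A i : Finset V) : Set V) := by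
      intro v hv
      have hv' : (if 40 * t + 8 ≤ (A (f (cl v))).card then some (f (cl v)) else none) = none := hv
      rw [Finset.mem_coe, Finset.mem_biUnion]
      refine ⟨f (cl v), Finset.mem_univ _, ?_⟩
      by_cases hb : 40 * t + 8 ≤ (A (f (cl v))).card
      · rw [if_pos hb] at hv'
        exact absurd hv' (by simp)
      · rw [if_neg hb, hAdef]
    have h4 := Set.ncard_le_ncard hsub (Finset.finite_toSet _)
    rw [Set.ncard_coe_finset] at h4
    refine h4.trans ?_
    have h5 := Finset.card_biUnion_le_card_mul (Finset.univ : Finset (Fin t))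
      (fun i => if 40 * t + 8 ≤ (A i).card then ∅ else A i) (40 * t + 8) (by
        intro i _
        split_ifs with hb
        · simp
        · omega)
    simpa using h5
  · intro v i hvi
    have hb : 40 * t + 8 ≤ (A (f (cl v))).card := by
      by_contra hb
      simp only [if_neg hb] at hvi
      exact absurd hvi (by simp)
    have hi : f (cl v) = i := by
      simp only [if_pos hb] at hvi
      exact Option.some.inj hvi
    subst hi
    have hvA : v ∈ A (f (cl v)) := (hAdef _ _).mpr rfl
    have hsub : {u | u ≠ v ∧ ∃ j, (if 40 * t + 8 ≤ (A (f (cl u))).card then some (f (cl u))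
        else none) = some j ∧ ¬ (G.Adj v u ↔ (40 * t + 8 ≤ (A (f (cl v))).card ∧
          40 * t + 8 ≤ (A j).card ∧ ∃ u ∈ A (f (cl v)), 8 * t ≤ (nbr G (A j) true u).card))} ⊆
        (((Finset.univ : Finset (Fin t)).biUnion fun j =>
          if (∃ u ∈ A (f (cl v)), 8 * t ≤ (nbr G (A j) true u).card) then nbr G (A j) false v
          else nbr G (A j) true v : Finset V) : Set V) := by
      rintro u ⟨huv, j, hj, hne⟩
      have hbu : 40 * t + 8 ≤ (A (f (cl u))).card := by
        by_contra hb'
        rw [if_neg hb'] at hj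
        exact absurd hj (by simp)
      rw [if_pos hbu] at hj
      have hj' := Option.some.inj hj
      subst hj'
      have huA : u ∈ A (f (cl u)) := (hAdef _ _).mpr rfl
      rw [Finset.mem_coe, Finset.mem_biUnion]
      refine ⟨f (cl u), Finset.mem_univ _, ?_⟩
      split_ifs with hM
      · unfold nbr
        rw [Finset.mem_filter]
        refine ⟨huA, huv, ?_⟩
        have hna : ¬ G.Adj v u := by
          intro hadj
          exact hne ⟨fun _ => ⟨hb, hbu, hM⟩, fun _ => hadj⟩
        exact ⟨fun h => absurd h hna, fun h => absurd h (by simp)⟩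
      · unfold nbr
        rw [Finset.mem_filter]
        refine ⟨huA, huv, ?_⟩
        have hadj : G.Adj v u := by
          by_contra hna
          exact hne ⟨fun h => absurd h hna, fun h => absurd h.2.2 hM⟩
        exact ⟨fun _ => rfl, fun _ => hadj⟩
    have h4 := Set.ncard_le_ncard hsub (Finset.finite_toSet _)
    rw [Set.ncard_coe_finset] at h4
    refine h4.trans ?_
    have h5 := Finset.card_biUnion_le_card_mul (Finset.univ : Finset (Fin t))
      (fun j => if (∃ u ∈ A (f (cl v)), 8 * t ≤ (nbr G (A j) true u).card) then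
        nbr G (A j) false v else nbr G (A j) true v) (10 * t) (by
        intro j _
        split_ifs with hM
        · exact hM1 _ j hb hM v hvA
        · have := hM2 _ j hM v hvA
          omega)
    simpa using h5

theorem stmt_GS4 : Stmt_GS2 → Stmt_GS3 → Stmt_GS4 := by
  intro hGS2 hGS3 F hF
  obtain ⟨t, ht⟩ := hF
  rcases Nat.eq_zero_or_pos t with h0 | h1
  · subst h0
    refine ⟨0, 0, 0, ?_⟩
    intro n G hG
    exact absurd ⟨Fin.elim0, fun i => i.elim0⟩ (ht n G hG)
  · refine ⟨t, t * (10 * t), t * (40 * t + 8), ?_⟩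
    intro n G hG
    refine GS4_core hGS2 hGS3 (Fin n) G t h1 ?_
    rintro ⟨x, hx⟩
    apply ht n G hG
    refine ⟨x, ?_⟩
    intro i j hij
    have h2 := hx i j hij
    have h3 : {v | v ≠ x i ∧ v ≠ x j ∧ (G.Adj (x i) v ↔ ¬ G.Adj (x j) v)}.ncard =
        dst G (x i) (x j) := by
      unfold dst
      rw [← Set.ncard_coe_finset]
      congr 1
      ext v
      simp
    rw [h3]
    exact h2

end Pool.Ker
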