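import Pool.Agent.Work.MP_2df4ce_k.InterfaceB

/-!
# MP_2df4ce_lc, block IOB: `OF F` satisfies the axioms of obstructions (helper63)
-/

set_option autoImplicit false

namespace Pool.Ker

open Classical St Alg

theorem stmt_IOB : Stmt_IOB := by
  intro F s hF
  refine ⟨?_, ?_, ?_⟩
  · rintro G O ⟨H, hH, φ, -, -, rfl⟩
    refine Finset.card_image_le.trans ?_
    rw [Finset.card_univ, Fintype.card_fin]
    exact (hF H hH).2
  · rintro G O ⟨H, hH, φ, -, -, rfl⟩
    have : Nonempty (Fin H.1) := ⟨⟨0, (hF H hH).1⟩⟩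
    exact Finset.Nonempty.image Finset.univ_nonempty φ
  · rintro G G' O f ⟨H, hH, φ, hφ, hadj, rfl⟩ hf hG
    have hm : ∀ a, φ a ∈ Finset.univ.image φ := fun a => Finset.mem_image_of_mem φ (Finset.mem_univ a)
    refine ⟨H, hH, f ∘ φ, ?_, ?_, ?_⟩
    · intro a b hab
      exact hφ (hf (hm a) (hm b) hab)
    · intro a b
      rw [hadj a b]
      exact hG _ (hm a) _ (hm b)
    · rw [Finset.image_image]

end Pool.Ker
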