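import Mathlib
import Pool.Agent.Work.MP_2df4ce_k.InterfaceE

set_option autoImplicit false

namespace Pool.Ker

open Classical St

theorem KFR_adj (p : ℕ) (i j : Fin p) :
    (KMinus p).Adj i j ↔ i ≠ j ∧ (2 ≤ i.val ∨ 2 ≤ j.val) := by
  unfold KMinus
  rw [SimpleGraph.fromRel_adj]

theorem KFR_star (m : ℕ) (i j : Fin (2 * m + 1)) :
    ((starIso m)ᶜ).Adj i j ↔ i ≠ j ∧ ¬ ((i.val = 0 ∧ 1 ≤ j.val ∧ j.val ≤ m) ∨
      (j.val = 0 ∧ 1 ≤ i.val ∧ i.val ≤ m)) := by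
  unfold starIso
  rw [SimpleGraph.compl_adj, SimpleGraph.fromRel_adj]
  constructor
  · rintro ⟨h1, h2⟩
    exact ⟨h1, fun h => h2 ⟨h1, h⟩⟩
  · rintro ⟨h1, h2⟩
    exact ⟨h1, fun h => h2 h.2⟩

theorem KFR_cliques (m : ℕ) (x y : Fin m × Fin m) :
    ((cliques m)ᶜ).Adj x y ↔ x ≠ y ∧ x.1 ≠ y.1 := by
  unfold cliques
  rw [SimpleGraph.compl_adj, SimpleGraph.fromRel_adj]
  constructor
  · rintro ⟨h1, h2⟩
    exact ⟨h1, fun h => h2 ⟨h1, Or.inl h⟩⟩
  · rintro ⟨h1, h2⟩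
    refine ⟨h1, fun h => ?_⟩
    rcases h.2 with h3 | h3
    · exact h2 h3
    · exact h2 h3.symm

theorem KFR_emb1 (p : ℕ) : Nonempty (KMinus p ↪g (starIso (p + 1))ᶜ) := by
  let f : Fin p → Fin (2 * (p + 1) + 1) := fun i =>
    ⟨if i.val < 2 then i.val else p + i.val, by
      have := i.2
      split_ifs <;> omega⟩
  have hf : ∀ i : Fin p, (f i).val = if i.val < 2 then i.val else p + i.val := fun i => rfl
  have hinj : Function.Injective f := by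
    intro i j hij
    have h1 := congrArg Fin.val hij
    rw [hf, hf] at h1
    apply Fin.ext
    have := i.2
    have := j.2
    split_ifs at h1 <;> omega
  refine ⟨⟨⟨f, hinj⟩, ?_⟩⟩
  intro i j
  show ((starIso (p + 1))ᶜ).Adj (f i) (f j) ↔ (KMinus p).Adj i j
  rw [KFR_star, KFR_adj, hf, hf, hinj.ne_iff]
  have hi := i.2
  have hj := j.2
  constructor
  · rintro ⟨h1, h2⟩
    refine ⟨h1, ?_⟩
    by_contra h3
    push Not at h3
    have h4 : i.val ≠ j.val := fun h => h1 (Fin.ext h)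
    rw [if_pos h3.1, if_pos h3.2] at h2
    omega
  · rintro ⟨h1, h2⟩
    refine ⟨h1, ?_⟩
    intro h3
    split_ifs at h3 <;> omega

theorem KFR_emb2 (p : ℕ) : Nonempty (KMinus p ↪g (cliques (p + 2))ᶜ) := by
  let f : Fin p → Fin (p + 2) × Fin (p + 2) := fun i =>
    (⟨if i.val < 2 then 0 else i.val, by
      have := i.2
      split_ifs <;> omega⟩,
     ⟨if i.val < 2 then i.val else 0, by
      have := i.2
      split_ifs <;> omega⟩)
  have hf1 : ∀ i : Fin p, ((f i).1).val = if i.val < 2 then 0 else i.val := fun i => rfl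
  have hf2 : ∀ i : Fin p, ((f i).2).val = if i.val < 2 then i.val else 0 := fun i => rfl
  have hinj : Function.Injective f := by
    intro i j hij
    have h1 := congrArg (fun x => (x.1).val) hij
    have h2 := congrArg (fun x => (x.2).val) hij
    simp only [hf1, hf2] at h1 h2
    apply Fin.ext
    split_ifs at h1 h2 <;> omega
  refine ⟨⟨⟨f, hinj⟩, ?_⟩⟩
  intro i j
  show ((cliques (p + 2))ᶜ).Adj (f i) (f j) ↔ (KMinus p).Adj i j
  rw [KFR_cliques, KFR_adj, hinj.ne_iff]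
  have hne : (f i).1 ≠ (f j).1 ↔ ¬ ((if i.val < 2 then 0 else i.val) =
      (if j.val < 2 then 0 else j.val)) := by
    rw [Ne, Fin.ext_iff, hf1, hf1]
  rw [hne]
  constructor
  · rintro ⟨h1, h2⟩
    refine ⟨h1, ?_⟩
    by_contra h3
    push Not at h3
    apply h2
    rw [if_pos h3.1, if_pos h3.2]
  · rintro ⟨h1, h2⟩
    refine ⟨h1, ?_⟩
    have h4 : i.val ≠ j.val := fun h => h1 (Fin.ext h)
    intro h3
    split_ifs at h3 <;> omega

theorem KFR_compl {V W : Type} {G : SimpleGraph V} {H : SimpleGraph W}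
    (h : Nonempty (G ↪g Hᶜ)) : Nonempty (Gᶜ ↪g H) := by
  obtain ⟨φ⟩ := h
  refine ⟨⟨φ.toEmbedding, ?_⟩⟩
  intro a b
  have h1 : (Hᶜ).Adj (φ a) (φ b) ↔ G.Adj a b := φ.map_rel_iff
  have h2 : φ a ≠ φ b ↔ a ≠ b := φ.injective.ne_iff
  show H.Adj (φ a) (φ b) ↔ (Gᶜ).Adj a b
  rw [SimpleGraph.compl_adj, ← h1, SimpleGraph.compl_adj]
  constructor
  · intro h
    exact ⟨h2.1 h.ne, fun h' => h'.2 h⟩
  · rintro ⟨h3, h4⟩
    by_contra h5
    exact h4 ⟨h2.2 h3, h5⟩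

theorem stmt_KFR : Stmt_KFR := by
  intro p q F hp hq
  exact ⟨⟨_, hq, _, KFR_compl (KFR_emb1 q)⟩, ⟨_, hp, _, KFR_emb1 p⟩,
    ⟨_, hq, _, KFR_compl (KFR_emb2 q)⟩, ⟨_, hp, _, KFR_emb2 p⟩⟩

end Pool.Ker
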