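import Pool.Agent.Work.MP_2df4ce_k.InterfaceB

/-!
# MP_2df4ce_lc, block KRN: the kernel
-/

set_option autoImplicit false

namespace Pool.Ker

open Classical St Alg

theorem stmt_KRN (hPAK : Stmt_PAK) (hOBT : Stmt_OBT) (hPFR : Stmt_PFR) (hCOR : Stmt_COR)
    (hVKB : Stmt_VKB) (hTRF : Stmt_TRF) (hSBB : Stmt_SBB) (hNOI : Stmt_NOI) : Stmt_KRN := by
  intro F OL s r D c hOL hB hS
  obtain ⟨P1, hP1⟩ := hVKB F OL s r D c hOL hB hS
  obtain ⟨noI, hno⟩ : ∃ noI : Inst, F.Nonempty → noI.2.2 = 0 ∧ ¬ St.Yes F noI := by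
    by_cases hF : F.Nonempty
    · obtain ⟨I, h1, h2⟩ := hNOI F hF
      exact ⟨I, fun _ => ⟨h1, h2⟩⟩
    · exact ⟨(0, [], 0), fun h => absurd h hF⟩
  refine ⟨noI, Polynomial.C noI.enc.length +
    ((P1 + Polynomial.C 1) + (Polynomial.X + Polynomial.C 1) +
      P1 ^ 2 * (Polynomial.C 2 * P1 + Polynomial.C 2)), ?_⟩
  intro I
  have hid : St.Yes F I ↔ Ker.Yes (OF F) (gr I.2.1) (Finset.range I.1) I.2.2 := by
    have h := hTRF F I.2.1 I id (fun i j _ _ h => h) (fun i j _ _ => rfl)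
    rw [Finset.image_id] at h
    exact h
  by_cases h : I.2.2 < (packO OL s I.1 I.2.2 I.2.1).length
  · have hk : kern OL s r D (c + r * (2 * D + 2)) noI I = noI := by
      unfold kern
      rw [decide_eq_true h]
      rfl
    rw [hk]
    have hF : F.Nonempty := by
      have hne : (packO OL s I.1 I.2.2 I.2.1) ≠ [] := by
        intro h0
        rw [h0] at h
        simp at h
      obtain ⟨t, ht⟩ := List.exists_mem_of_ne_nil _ hne
      have h1 := ((hPAK _ _ _).1 t ht).2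
      obtain ⟨_, _, _, H, hH, _⟩ := (hOBT F OL s hOL hB I.2.1).1 t h1
      exact ⟨H, hH⟩
    obtain ⟨h0, hn⟩ := hno hF
    have hnot : ¬ St.Yes F I := by
      rw [hid]
      exact (hPFR F OL s hOL hB I.1 I.2.2 I.2.1).1 h
    refine ⟨⟨fun h => absurd h hn, fun h => absurd h hnot⟩, ?_, ?_⟩
    · rw [h0]
      exact Nat.zero_le _
    · rw [Polynomial.eval_add, Polynomial.eval_C]
      exact Nat.le_add_right _ _
  · have h' : (packO OL s I.1 I.2.2 I.2.1).length ≤ I.2.2 := not_lt.1 h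
    obtain ⟨K, hK⟩ : ∃ K, K = vk s r D (c + r * (2 * D + 2)) I.1 I.2.2 I.2.1
      (packO OL s I.1 I.2.2 I.2.1) := ⟨_, rfl⟩
    have hk : kern OL s r D (c + r * (2 * D + 2)) noI I = sub I.2.1 I.2.2 K := by
      unfold kern
      rw [decide_eq_false h, hK]
      rfl
    rw [hk]
    obtain ⟨hc1, hc2, _⟩ := hCOR F OL s r D c hOL hB hS I.1 I.2.2 I.2.1 h'
    have hlen := hP1 I.1 I.2.2 I.2.1 h'
    rw [← hK] at hc1 hc2 hlen
    obtain ⟨hs1, hs2, hs3, hs4⟩ := hSBB I.2.1 I.2.2 K hc2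
    refine ⟨?_, le_refl _, ?_⟩
    · have h2 := hTRF F I.2.1 (sub I.2.1 I.2.2 K) (fun i => K.getD i 0) hs2 hs1
      have h3 : (Finset.range (sub I.2.1 I.2.2 K).1).image (fun i => K.getD i 0) =
          K.toFinset := hs3
      rw [h3] at h2
      rw [h2, hid]
      exact hc1.symm
    · refine hs4.trans ?_
      simp only [Polynomial.eval_add, Polynomial.eval_C, Polynomial.eval_mul, Polynomial.eval_pow,
        Polynomial.eval_X]
      refine le_trans ?_ (Nat.le_add_left _ _)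
      gcongr

end Pool.Ker
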