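import Pool.Agent.Work.MP_2df4ce_k.Interface
import Pool.Agent.Work.MP_2df4ce_k.Alg

/-!
# MP_2df4ce_lc, part B: correctness of the algorithm (statements, proofs in the comments)

`OF F G O`: `O` is the vertex set of an induced subgraph of `G` isomorphic to a member of `F`.
-/

set_option autoImplicit false

namespace Pool.Ker

open Classical St Alg

/-- The graph on `ℕ` with edge list `E`. -/
def gr (E : List (ℕ × ℕ)) : SimpleGraph ℕ where
  Adj u v := adj E u v = true
  symm := ⟨fun u v h => by
    unfold adj at h ⊢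
    simp only [Bool.and_eq_true, Bool.not_eq_true', decide_eq_false_iff_not, List.any_eq_true,
      Bool.or_eq_true, decide_eq_true_eq] at h ⊢
    obtain ⟨h1, e, he, h2⟩ := h
    exact ⟨fun h => h1 h.symm, e, he, h2.symm⟩⟩
  loopless := ⟨fun u h => by
    unfold adj at h
    simp at h⟩

/-- `O` is the vertex set of a copy in `G` of a member of `F`. -/
def OF (F : Set Gr) (G : SimpleGraph ℕ) (O : Finset ℕ) : Prop :=
  ∃ H ∈ F, ∃ φ : Fin H.1 → ℕ, Function.Injective φ ∧
    (∀ a b, H.2.Adj a b ↔ G.Adj (φ a) (φ b)) ∧ Finset.univ.image φ = O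

/-- The adjacency pattern of a graph on `Fin m`. -/
noncomputable def patG (H : Gr) : ℕ × List Bool :=
  (H.1, (List.finRange H.1).flatMap fun a => (List.finRange H.1).map fun b => decide (H.2.Adj a b))

/-- `OL` lists the members of `F`. -/
def IsOL (F : Set Gr) (OL : List (ℕ × List Bool)) : Prop := ∀ g, g ∈ OL ↔ ∃ H ∈ F, g = patG H

/-- All members of `F` have between `1` and `s` vertices. -/
def Bdd (F : Set Gr) (s : ℕ) : Prop := ∀ H ∈ F, 0 < H.1 ∧ H.1 ≤ s

/-- The form in which `Structured` is used. -/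
def StrN (F : Set Gr) (r D c : ℕ) : Prop :=
  ∀ (G : SimpleGraph ℕ) (V : Finset ℕ), (∀ O ⊆ V, ¬ OF F G O) →
    ∃ (lab : ℕ → Option (Fin r)) (M : Fin r → Fin r → Prop), (∀ i j, M i j → M j i) ∧
      (V.filter fun v => lab v = none).card ≤ c ∧
      ∀ v ∈ V, ∀ i, lab v = some i →
        (V.filter fun u => u ≠ v ∧ ∃ j, lab u = some j ∧ ¬ (G.Adj v u ↔ M i j)).card ≤ D

/-- IOB. `OF F` satisfies the axioms of obstructions (compose `φ` with `f`). -/
def Stmt_IOB : Prop := ∀ (F : Set Gr) (s : ℕ), Bdd F s → IsOb s (OF F)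

/-- TRS. Let `V` be finite without a copy of a member of `F`. Enumerate `V` (`V.equivFin`, `n = |V|`) and let
`G'` be the graph on `Fin n` induced by `G`: it is `F`-free (an embedding of `H ∈ F` composed with the
enumeration gives `OF F G O` with `O ⊆ V`). Transport the labels (outside of `V`: `none`). -/
def Stmt_TRS : Prop := ∀ (F : Set Gr), Structured F → ∃ r D c, StrN F r D c

/-- LBA (lists). Elementary facts on the functions of the algorithm. `nodB`: the number of pairs of
positions with equal entries is at least the length, with equality iff there are no repetitions. -/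
def Stmt_LBA : Prop :=
  (∀ (l : List ℕ) (v : ℕ), memB l v = true ↔ v ∈ l) ∧
  (∀ (U t : List ℕ) (l : ℕ), t ∈ tup U l ↔ t.length = l ∧ ∀ x ∈ t, x ∈ U) ∧
  (∀ (U : List (List ℕ)) (t : List (List ℕ)) (l : ℕ), t ∈ tup U l ↔ t.length = l ∧ ∀ x ∈ t, x ∈ U) ∧
  (∀ (U t : List ℕ) (s : ℕ), t ∈ allT U s ↔ t.length ≤ s ∧ ∀ x ∈ t, x ∈ U) ∧
  (∀ t : List ℕ, nodB t = true ↔ t.Nodup) ∧
  (∀ t l : List ℕ, disB t l = true ↔ ∀ x ∈ t, x ∉ l) ∧
  (∀ (E : List (ℕ × ℕ)) (u v : ℕ), adj E u v = adj E v u) ∧
  (∀ (E : List (ℕ × ℕ)) (u : ℕ), adj E u u = false)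

/-- APT (patterns). If `t` and `t'` have the same length and `apat E t z = apat E t' z'` with
`z, z'` of the same length, then corresponding entries have the same adjacencies (entry
`i * z.length + j` of the pattern). -/
def Stmt_APT : Prop :=
  ∀ (E E' : List (ℕ × ℕ)) (t t' z z' : List ℕ), t.length = t'.length → z.length = z'.length →
    (apat E t z = apat E' t' z' ↔ ∀ i j, i < t.length → j < z.length →
      adj E (t.getD i 0) (z.getD j 0) = adj E' (t'.getD i 0) (z'.getD j 0))

/-- PAK (greedy packing). The chosen lists are in `ts`, satisfy `c`, are pairwise disjoint, at most `N` of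
them; and if there are less than `N`, every non-empty `t ∈ ts` with `c t` meets one of them. (Induction on
`ts` from the right: `List.foldl_append`; if `t` is rejected it meets the list at that moment, which only
grows.) -/
def Stmt_PAK : Prop :=
  ∀ (N : ℕ) (c : List ℕ → Bool) (ts : List (List ℕ)),
    (∀ t ∈ pack N c ts, t ∈ ts ∧ c t = true) ∧ (pack N c ts).length ≤ N ∧
    (pack N c ts).Pairwise (fun t t' => ∀ x ∈ t, x ∉ t') ∧
    ((pack N c ts).length < N → ∀ t ∈ ts, c t = true → t ≠ [] →
      ∃ t' ∈ pack N c ts, ∃ x ∈ t, x ∈ t')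

/-- OBT. The test `obB`: if `obB OL E t`, then `t` has no repetitions, `1 ≤ |t| ≤ s` and its vertices form
a copy of a member of `F` (`t = φ 0, φ 1, ...`); and every copy has an order `t` of its vertices which passes
(`t = List.ofFn φ`). Compare `patG H` with `(t.length, apat E t t)` entry by entry. -/
def Stmt_OBT : Prop :=
  ∀ (F : Set Gr) (OL : List (ℕ × List Bool)) (s : ℕ), IsOL F OL → Bdd F s →
    ∀ E : List (ℕ × ℕ),
      (∀ t, obB OL E t = true → t.Nodup ∧ t ≠ [] ∧ t.length ≤ s ∧ OF F (gr E) t.toFinset) ∧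
      (∀ O, OF F (gr E) O → ∃ t : List ℕ, t.toFinset = O ∧ t.length ≤ s ∧ t ≠ [] ∧
        obB OL E t = true)

/-- PFR (the packing). If the packing has at most `k` members, it has at most `s k` vertices and the rest is
free: an obstruction in the rest has an order `t` which passes (OBT), `t ∈ allT (range n) s`, so by PAK it
meets the packing, contradiction. If it has `k + 1` members there is no solution (PKN). -/
def Stmt_PFR : Prop :=
  ∀ (F : Set Gr) (OL : List (ℕ × List Bool)) (s : ℕ), IsOL F OL → Bdd F s →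
    ∀ (n k : ℕ) (E : List (ℕ × ℕ)),
      (k < (packO OL s n k E).length → ¬ Ker.Yes (OF F) (gr E) (Finset.range n) k) ∧
      ((packO OL s n k E).length ≤ k →
        (∀ O ⊆ (restL n (packO OL s n k E)).toFinset, ¬ OF F (gr E) O) ∧
        (coL n (restL n (packO OL s n k E))).length ≤ s * k)

/-- SMV (votes of a good sample). `lab`, `M` from `StrN`; for each class `i` either `A i = []` or `A i` is
a list of `2D + 2` different vertices of `V` with label `i`. Then for every `v ∈ V` with
`lab v = some a`: `vote (A i) v` is `false` if `A i = []`, and otherwise it is `M a i`: the vertices `x ≠ v` of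
`A i` with `¬ (adj v x ↔ M a i)` are at most `D`; if `M a i` at least `2D + 2 - D - 1 > D` are adjacent to
`v`, if not at most `D`. (`adj E x v = adj E v x`.) -/
def Stmt_SMV : Prop :=
  ∀ (r D : ℕ) (E : List (ℕ × ℕ)) (V : List ℕ) (lab : ℕ → Option (Fin r))
    (M : Fin r → Fin r → Prop) (A : Fin r → List ℕ), V.Nodup → (∀ i j, M i j → M j i) →
    (∀ v ∈ V, ∀ i, lab v = some i → (V.toFinset.filter fun u => u ≠ v ∧
      ∃ j, lab u = some j ∧ ¬ ((gr E).Adj v u ↔ M i j)).card ≤ D) →
    (∀ i, A i = [] ∨ ((A i).Nodup ∧ (A i).length = 2 * D + 2 ∧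
      ∀ x ∈ A i, x ∈ V ∧ lab x = some i)) →
    ∀ v ∈ V, ∀ a, lab v = some a → ∀ i,
      (vote D E (A i) v = true ↔ A i ≠ [] ∧ M a i)

/-- SMP (a good sample exists). `cc = c + r (2D + 2)`. A class is large if it has at least `2D + 2` vertices
in `V`; `A i` = `2D + 2` vertices of the class for large `i`, `[]` otherwise; `Sa = List.ofFn A` is in
`tup (cands D V) r`. `Ex` = vertices of `V` without label or in a small class: at most
`c + r (2D + 1) ≤ cc`. For `v ∈ V \ Ex` with `lab v = some a`, `rowB Sa v = List.ofFn (A i ≠ [] ∧ M a i)`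
(SMV). So the first `i` with `A i ≠ []` whose head has the votes of `v` exists (`i = a` is one), and
`i = labB v` satisfies: for all large `l`: `M i l ↔ M a l`. If also `u ∈ V \ Ex`, `lab u = some b`,
`j = labB u`: `idB i j = (M i j ∧ M j i)`, and `M a b ↔ M i b ↔ M b i ↔ M j i ↔ M i j`. So defects between
`v` and `u` for `defB` are defects for `lab`, `M`: at most `D`; the vertices of `Ex` give at most `cc`
further ones. So `exL ⊆ Ex`, and the sample passes the test. -/
def Stmt_SMP : Prop :=
  ∀ (F : Set Gr) (r D c : ℕ), StrN F r D c → ∀ (E : List (ℕ × ℕ)) (V : List ℕ), V.Nodup →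
    (∀ O ⊆ V.toFinset, ¬ OF F (gr E) O) →
    (exL D (c + r * (2 * D + 2)) E (samp D (c + r * (2 * D + 2)) r E V) V).length ≤
      c + r * (2 * D + 2) ∧ (samp D (c + r * (2 * D + 2)) r E V).length = r

/-- CDG (defects of regular vertices). For `R = regL D cc E Sa V`, `V` a sublist of `range n` and
`Z = coL n R`: a vertex of `R` has a label and at most `D + cc` defects in `R`. (It is not in `exL`, and the
vertices of `R` are in `V` and have labels.) The relation `idB` is symmetric. -/
def Stmt_CDG : Prop :=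
  ∀ (n D cc : ℕ) (E : List (ℕ × ℕ)) (Sa : List (List ℕ)) (V : List ℕ), V.Nodup →
    (∀ v ∈ V, v < n) →
    (∀ i j, idB D E Sa i j = true → idB D E Sa j i = true) ∧
    ∀ v, ((Finset.range n).filter fun u =>
      Df (gr E) (Finset.range n) (coL n (regL D cc E Sa V)).toFinset (labB D E Sa)
        (fun i j => idB D E Sa i j = true) v u).card ≤ D + cc

/-- RPC (copies). `R` a list without repetitions of numbers less than `n`, `Z = coL n R`,
`M = Ml D s N n E Sa Z R`. `M ⊆ R`. For `P ⊆ range n` disjoint from `Z` and `M`, not empty, `|P| ≤ s`, and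
`Z' ⊆ Z`, `|Z'| ≤ s`: let `zt = Z'.toList ∈ allT Z s`, `t0 = P.toList ∈ allT R s` and
`Q = packP D s N E Sa R zt t0`. All its members are in `M`. `t0` passes the test of `packP`, so if `Q` had
less than `N` members, some `t' ∈ Q` would meet `t0` (PAK), so `P` would meet `M`. So `Q` has `N` members; the
member `i` is `t_i`, without repetitions, with the pattern of `t0`: put `c i x = ` the entry of `t_i` at the
position of `x` in `t0` (`List.idxOf`). Labels, adjacencies, adjacencies to `Z'`: APT. Disjointness: PAK. -/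
def Stmt_RPC : Prop :=
  ∀ (n D s N : ℕ) (E : List (ℕ × ℕ)) (Sa : List (List ℕ)) (R : List ℕ), (∀ v ∈ R, v < n) →
    (∀ x ∈ Ml D s N n E Sa (coL n R) R, x ∈ R) ∧
    ∀ P Z' : Finset ℕ, P ⊆ Finset.range n →
      (∀ x ∈ P, x ∉ (coL n R).toFinset ∧ x ∉ (Ml D s N n E Sa (coL n R) R).toFinset) →
      P.Nonempty → P.card ≤ s → Z' ⊆ (coL n R).toFinset → Z'.card ≤ s →
      ∃ c : Fin N → ℕ → ℕ,
        (∀ i, Copy (gr E) (labB D E Sa) (Ml D s N n E Sa (coL n R) R).toFinset P Z' (c i)) ∧
        ∀ i j, i ≠ j → ∀ x ∈ P, ∀ y ∈ P, c i x ≠ c j y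

/-- MCA (the size of `M`). `M` is contained in the union, over `zt ∈ allT Z s` (at most
`(s + 1) (|Z| + 1)^s` lists) and over the possible patterns `π` (labels at most `|Sa|`, lists of length at
most `s` resp. `s²`: a finite set depending only on `s` and `|Sa| = r`), of the vertices of the at most `N` lists
(of length at most `s`) chosen for `zt` and `π`. -/
def Stmt_MCA : Prop :=
  ∀ (s r : ℕ), ∃ C : ℕ, ∀ (n D N : ℕ) (E : List (ℕ × ℕ)) (Sa : List (List ℕ)) (Z R : List ℕ),
    Sa.length ≤ r → (Ml D s N n E Sa Z R).length ≤ C * (Z.length + 1) ^ s * N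

/-- CRE (the structure of part A). CDG gives `sym` and `deg`, RPC gives `rep` and `M ⊆ R` (so `M` and `Z` are
disjoint); `Z, M ⊆ range n` by definition. -/
def Stmt_CRE : Prop :=
  ∀ (n D cc s N : ℕ) (E : List (ℕ × ℕ)) (Sa : List (List ℕ)) (V : List ℕ), V.Nodup →
    (∀ v ∈ V, v < n) →
    Core (gr E) (Finset.range n) s (D + cc) N (coL n (regL D cc E Sa V)).toFinset
      (Ml D s N n E Sa (coL n (regL D cc E Sa V)) (regL D cc E Sa V)).toFinset (labB D E Sa)
      (fun i j => idB D E Sa i j = true)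

/-- BLE (balls). The iterated step is `bl` (with `X = range n`, `lab = labB`, `W = idB`), if
`M` and `R` consist of numbers less than `n`: `v ∉ Z` iff `v ∈ R` for `v < n`. Induction on `m`:
`stepB B` has the vertices `v < n` in `B` or with a defect to some `u ∈ B`. -/
def Stmt_BLE : Prop :=
  ∀ (n D : ℕ) (E : List (ℕ × ℕ)) (Sa : List (List ℕ)) (R M : List ℕ) (m : ℕ), (∀ v ∈ R, v < n) →
    (∀ v ∈ M, v < n) →
    ((stepB D n E Sa R)^[m] (startB n (coL n R) M)).toFinset =
      bl (gr E) (Finset.range n) (coL n R).toFinset M.toFinset (labB D E Sa)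
        (fun i j => idB D E Sa i j = true) m ∧
    ((stepB D n E Sa R)^[m] (startB n (coL n R) M)).Nodup

/-- COR (correctness, mathematical form). `cc = c + r (2D + 2)`, `P` the packing with at most `k` members.
`Core` holds with `X = range n`, `Δ = D + cc`, `N = Nc s Δ k`, `Z = coL n R`, `M = Ml ...`, `lab = labB`,
`W = idB` (CRE with `V = restL n P`); `k < 2 ^ Ln k` (`Nat.size`, `Nat.lt_size_self`); GLU and BLE. -/
def Stmt_COR : Prop :=
  ∀ (F : Set Gr) (OL : List (ℕ × List Bool)) (s r D c : ℕ), IsOL F OL → Bdd F s →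
    StrN F r D c → ∀ (n k : ℕ) (E : List (ℕ × ℕ)), (packO OL s n k E).length ≤ k →
      (Ker.Yes (OF F) (gr E) (Finset.range n) k ↔
        Ker.Yes (OF F) (gr E)
          (vk s r D (c + r * (2 * D + 2)) n k E (packO OL s n k E)).toFinset k) ∧
      (vk s r D (c + r * (2 * D + 2)) n k E (packO OL s n k E)).Nodup ∧
      ∀ v ∈ vk s r D (c + r * (2 * D + 2)) n k E (packO OL s n k E), v < n

/-- RDB. `(1 + Δ)^(Rad s Δ (Ln k) + s + 1)` is at most a polynomial in `k`: with `x = (s + 1) (2Δ + 1)`,
`(1 + Δ)^(x L) ≤ (2^Δ)^(x L) = (2^L)^(Δ x)` and `2^(Ln k) ≤ 2k + 1` (`Nat.size`). -/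
def Stmt_RDB : Prop :=
  ∀ s Δ : ℕ, ∃ P : Polynomial ℕ, ∀ k, (1 + Δ) ^ (Rad s Δ (Ln k) + s + 1) ≤ P.eval k

/-- VKB (the number of kernel vertices). `|Z| ≤ s k + cc` (PFR, SMP: a vertex of `Z = coL n R` is in
`coL n V` or in `exL`), `|M| ≤ C (|Z| + 1)^s N` (MCA), `vk ≤ (|Z| + |M|) (1 + Δ)^(Rad + s + 1)` (BAL with
`Core` from CRE, BLE) and RDB. Polynomials are monotone (`Polynomial` with coefficients in `ℕ`). -/
def Stmt_VKB : Prop :=
  ∀ (F : Set Gr) (OL : List (ℕ × List Bool)) (s r D c : ℕ), IsOL F OL → Bdd F s →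
    StrN F r D c → ∃ P : Polynomial ℕ, ∀ (n k : ℕ) (E : List (ℕ × ℕ)),
      (packO OL s n k E).length ≤ k →
      (vk s r D (c + r * (2 * D + 2)) n k E (packO OL s n k E)).length ≤ P.eval k

/-- TRF (transfer). `I'` an instance, `φ` injective on the numbers less than `I'.1` and
`adj I'.2.1 i j = adj E (φ i) (φ j)`. Then `St.Yes F I'` iff there is a solution on the image of `φ` in
`gr E` with at most `k` pairs. `I'.graph.Adj i j ↔ adj I'.2.1 i j`. From left to right: `G'` given, `S` = the
image of the symmetric difference of the edge sets under `Sym2.map φ`; then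
`(ed (gr E) S).Adj (φ i) (φ j) ↔ G'.Adj i j`, and a copy of `H ∈ F` in the image pulls back to an
embedding of `H` in `G'`. From right to left: `G'.Adj i j := (ed (gr E) S).Adj (φ i) (φ j)`; the symmetric
difference is mapped injectively into `S`. -/
def Stmt_TRF : Prop :=
  ∀ (F : Set Gr) (E : List (ℕ × ℕ)) (I' : Inst) (φ : ℕ → ℕ),
    (∀ i j, i < I'.1 → j < I'.1 → φ i = φ j → i = j) →
    (∀ i j, i < I'.1 → j < I'.1 → adj I'.2.1 i j = adj E (φ i) (φ j)) →
    (St.Yes F I' ↔ Ker.Yes (OF F) (gr E) ((Finset.range I'.1).image φ) I'.2.2)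

/-- SBB. The adjacencies of `sub`, its size. (`K.getD i 0` for `i < K.length` are different for
`K.Nodup`.) -/
def Stmt_SBB : Prop :=
  ∀ (E : List (ℕ × ℕ)) (k : ℕ) (K : List ℕ), K.Nodup →
    (∀ i j, i < K.length → j < K.length →
      adj (sub E k K).2.1 i j = adj E (K.getD i 0) (K.getD j 0)) ∧
    (∀ i j, i < K.length → j < K.length → K.getD i 0 = K.getD j 0 → i = j) ∧
    (Finset.range K.length).image (fun i => K.getD i 0) = K.toFinset ∧
    (sub E k K).enc.length ≤ (K.length + 1) + (k + 1) + K.length ^ 2 * (2 * K.length + 2)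

/-- NOI. If `F` has a member there is a no-instance with `k = 0`: the member itself (edge list from
`H.2`); editing no pair leaves `H.2`, which is not `F`-free. -/
def Stmt_NOI : Prop :=
  ∀ (F : Set Gr), F.Nonempty → ∃ I : Inst, I.2.2 = 0 ∧ ¬ St.Yes F I

/-- KRN (the kernel). `cc = c + r (2D + 2)`. If the packing has more than `k` members, `F` is not
empty, there is no solution (PFR, TRF with `φ = id`), and the output is `noI`. Otherwise COR and TRF with
`φ = id` and with `φ i = K.getD i 0` (SBB). The length: SBB, VKB. `P` is a polynomial with value at least the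
length of `noI.enc` plus the bound of SBB at `K.length = P_VKB.eval k`. -/
def Stmt_KRN : Prop :=
  ∀ (F : Set Gr) (OL : List (ℕ × List Bool)) (s r D c : ℕ), IsOL F OL → Bdd F s →
    StrN F r D c → ∃ (noI : Inst) (P : Polynomial ℕ), ∀ I : Inst,
      (St.Yes F (kern OL s r D (c + r * (2 * D + 2)) noI I) ↔ St.Yes F I) ∧
      (kern OL s r D (c + r * (2 * D + 2)) noI I).2.2 ≤ I.2.2 ∧
      (kern OL s r D (c + r * (2 * D + 2)) noI I).enc.length ≤ P.eval I.2.2

end Pool.Ker
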