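import Mathlib
import Pool.Agent.Work.MP_2df4ce_k.InterfaceB

set_option autoImplicit false

/-! # MP_2df4ce_lc, block LBA: elementary facts on the functions of the algorithm -/

namespace Pool.Ker

open Classical St Alg

theorem LBA_mem (l : List ℕ) (v : ℕ) : memB l v = true ↔ v ∈ l := by
  unfold memB
  rw [List.any_eq_true]
  constructor
  · rintro ⟨x, hx, h⟩
    rw [decide_eq_true_eq] at h
    rw [← h]
    exact hx
  · intro h
    exact ⟨v, h, decide_eq_true rfl⟩

theorem LBA_tup {α : Type} (U : List α) (l : ℕ) : ∀ t : List α, t ∈ tup U l ↔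
    t.length = l ∧ ∀ x ∈ t, x ∈ U := by
  induction l with
  | zero =>
    intro t
    show t ∈ [[]] ↔ _
    rw [List.mem_singleton]
    constructor
    · rintro rfl
      exact ⟨rfl, fun x hx => absurd hx List.not_mem_nil⟩
    · rintro ⟨h, _⟩
      exact List.length_eq_zero_iff.1 h
  | succ l ih =>
    intro t
    show t ∈ (U.flatMap fun u => (tup U l).map fun t => u :: t) ↔ _
    rw [List.mem_flatMap]
    constructor
    · rintro ⟨u, hu, h⟩
      obtain ⟨t', ht', rfl⟩ := List.mem_map.1 h
      obtain ⟨h1, h2⟩ := (ih t').1 ht'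
      refine ⟨by rw [List.length_cons, h1], ?_⟩
      intro x hx
      rcases List.mem_cons.1 hx with rfl | hx
      · exact hu
      · exact h2 x hx
    · rintro ⟨h1, h2⟩
      cases t with
      | nil => exact absurd h1 (by simp)
      | cons u t' =>
        refine ⟨u, h2 u List.mem_cons_self, List.mem_map.2 ⟨t', (ih t').2 ⟨?_, ?_⟩, rfl⟩⟩
        · rw [List.length_cons] at h1
          omega
        · intro x hx
          exact h2 x (List.mem_cons_of_mem u hx)

theorem LBA_all (U : List ℕ) (s : ℕ) : ∀ t : List ℕ, t ∈ allT U s ↔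
    t.length ≤ s ∧ ∀ x ∈ t, x ∈ U := by
  induction s with
  | zero =>
    intro t
    show t ∈ tup U 0 ↔ _
    rw [LBA_tup, Nat.le_zero]
  | succ s ih =>
    intro t
    show t ∈ tup U (s + 1) ++ allT U s ↔ _
    rw [List.mem_append, LBA_tup, ih]
    constructor
    · rintro (⟨h1, h2⟩ | ⟨h1, h2⟩)
      · exact ⟨h1.le, h2⟩
      · exact ⟨by omega, h2⟩
    · rintro ⟨h1, h2⟩
      rcases Nat.lt_or_ge s t.length with h | h
      · exact Or.inl ⟨by omega, h2⟩
      · exact Or.inr ⟨h, h2⟩

theorem LBA_sum (t : List ℕ) (f : ℕ → ℕ) (hf : ∀ x ∈ t, 1 ≤ f x) :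
    t.length ≤ (t.map f).sum ∧ ((t.map f).sum = t.length ↔ ∀ x ∈ t, f x = 1) := by
  induction t with
  | nil => exact ⟨le_rfl, fun _ x hx => absurd hx List.not_mem_nil, fun _ => rfl⟩
  | cons a t ih =>
    obtain ⟨h1, h2⟩ := ih fun x hx => hf x (List.mem_cons_of_mem a hx)
    have h3 := hf a List.mem_cons_self
    rw [List.map_cons, List.sum_cons, List.length_cons]
    refine ⟨by omega, ?_⟩
    constructor
    · intro h x hx
      rcases List.mem_cons.1 hx with rfl | hx
      · omega
      · exact (h2.1 (by omega)) x hx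
    · intro h
      have h4 := h2.2 fun x hx => h x (List.mem_cons_of_mem a hx)
      have h5 := h a List.mem_cons_self
      omega

theorem LBA_nod (t : List ℕ) : nodB t = true ↔ t.Nodup := by
  unfold nodB
  rw [decide_eq_true_eq, List.length_flatMap]
  have h1 : ∀ x : ℕ, (t.filter fun y => decide (x = y)).length = t.count x := by
    intro x
    rw [List.count_eq_length_filter]
    congr 1
    refine List.filter_congr fun y _ => ?_
    rw [Bool.eq_iff_iff, decide_eq_true_eq, beq_iff_eq]
    exact eq_comm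
  have h2 : (t.map fun x => (t.filter fun y => decide (x = y)).length) =
      t.map fun x => t.count x := List.map_congr_left fun x _ => h1 x
  rw [h2, List.nodup_iff_count_eq_one]
  exact (LBA_sum t _ fun x hx => List.one_le_count_iff.2 hx).2

theorem LBA_dis (t l : List ℕ) : disB t l = true ↔ ∀ x ∈ t, x ∉ l := by
  unfold disB
  rw [Bool.not_eq_true', ← Bool.not_eq_true, List.any_eq_true]
  constructor
  · intro h x hx hl
    exact h ⟨x, hx, (LBA_mem l x).2 hl⟩
  · rintro h ⟨x, hx, hl⟩
    exact h x hx ((LBA_mem l x).1 hl)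

theorem stmt_LBA : Stmt_LBA := by
  refine ⟨LBA_mem, fun U t l => LBA_tup U l t, fun U t l => LBA_tup U l t,
    fun U t s => LBA_all U s t, LBA_nod, LBA_dis, ?_, ?_⟩
  · intro E u v
    unfold adj
    rw [show decide (u = v) = decide (v = u) from decide_eq_decide.2 eq_comm]
    congr 2
    funext e
    exact Bool.or_comm _ _
  · intro E u
    unfold adj
    rw [decide_eq_true rfl]
    rfl

end Pool.Ker
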