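import Pool.Agent.Work.MP_2df4ce_k.InterfaceE

/-! # MP_2df4ce_lc, block LBL: the unlabelled vertices -/

set_option autoImplicit false

namespace Pool.Ker

open Classical St

/-- the type of a set all of whose vertices have the same type -/
theorem LBL_sg (m : ℕ) {V : Type} (G : SimpleGraph V) (hm : 1 ≤ m) (A B : Finset V) (t : Bool)
    (hB : 2 * m ≤ B.card) (ht : ∀ v ∈ B, ty m G A v = t) : sg m G A B = t := by
  unfold sg
  cases t with
  | true =>
    have h1 : (B.filter fun v => ty m G A v = true) = B :=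
      Finset.filter_true_of_mem ht
    rw [h1]
    exact decide_eq_true hB
  | false =>
    have h1 : (B.filter fun v => ty m G A v = true) = ∅ := by
      refine Finset.filter_false_of_mem fun v hv => ?_
      rw [ht v hv]
      exact Bool.false_ne_true
    rw [h1]
    refine decide_eq_false ?_
    rw [Finset.card_empty]
    omega

/-- LBL. -/
theorem stmt_LBL : Stmt_ROW → Stmt_LBL := by
  intro hR m V _ G hm hN r A b hr hS hmax R hRam
  by_contra hcon
  rw [not_le] at hcon
  obtain ⟨U, hU⟩ : ∃ U : Finset V, U = Finset.univ.filter fun v =>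
      ¬ ∃ i, ∀ j, ty m G (A j) v = sg m G (A j) (A i) := ⟨_, rfl⟩
  rw [← hU] at hcon
  have hmem : ∀ v ∈ U, ¬ ∃ i, ∀ j, ty m G (A j) v = sg m G (A j) (A i) := by
    intro v hv
    rw [hU] at hv
    exact (Finset.mem_filter.1 hv).2
  have hcard : (Finset.univ : Finset (Fin r → Bool)).card * R < U.card := by
    refine lt_of_le_of_lt ?_ hcon
    rw [Finset.card_univ, Fintype.card_fun, Fintype.card_bool, Fintype.card_fin]
    exact Nat.mul_le_mul (Nat.pow_le_pow_right (by norm_num) hr.le) (Nat.le_succ R)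
  obtain ⟨τ, -, hτ⟩ := Finset.exists_lt_card_fiber_of_mul_lt_card_of_maps_to
    (f := fun v => fun j => ty m G (A j) v) (fun v _ => Finset.mem_univ _) hcard
  obtain ⟨B, hBs, hBc, β, hB⟩ := hRam _ hτ.le
  have hty : ∀ v ∈ B, ∀ j, ty m G (A j) v = τ j := by
    intro v hv j
    have h1 := (Finset.mem_filter.1 (hBs hv)).2
    exact congrFun h1 j
  have h2m : 2 * m ≤ B.card := by
    rw [hBc]
    have h1 : 1 ≤ m ^ 2 := Nat.one_le_pow _ _ hm
    have h2 : m ^ 3 = m * m ^ 2 := by ring
    nlinarith
  obtain ⟨i, hbi, hsg⟩ := hmax B β hB hBc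
  have hτi : τ i = β := by
    rw [← hsg]
    exact (LBL_sg m G hm (A i) B (τ i) h2m fun v hv => hty v hv i).symm
  have hrow := hR m V G hm hN r A b hS B β τ i hB h2m hty hbi hτi
  have hne : B.Nonempty := by
    rw [← Finset.card_pos]
    omega
  obtain ⟨v, hv⟩ := hne
  refine hmem v (Finset.mem_filter.1 (hBs hv)).1 ⟨i, fun j => ?_⟩
  rw [hty v hv j]
  exact hrow j

end Pool.Ker
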