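import Pool.Agent.Work.MP_2df4ce_k.Interface

/-!
# MP_2df4ce_lc, block LOC: all pairs of a minimal solution are near `Z ∪ M` (helper25)
-/

set_option autoImplicit false

namespace Pool.Ker

open Classical

theorem LOC_pow (h : Stmt_EXP) (Δ L : ℕ) :
    2 ^ L * (2 * Δ) ^ ((2 * Δ + 1) * L) ≤ (2 * Δ + 1) ^ ((2 * Δ + 1) * L) := by
  calc 2 ^ L * (2 * Δ) ^ ((2 * Δ + 1) * L) = (2 * (2 * Δ) ^ (2 * Δ + 1)) ^ L := by
        rw [mul_pow 2 ((2 * Δ) ^ (2 * Δ + 1)) L, ← pow_mul]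
    _ ≤ ((2 * Δ + 1) ^ (2 * Δ + 1)) ^ L := Nat.pow_le_pow_left (h (2 * Δ)) L
    _ = (2 * Δ + 1) ^ ((2 * Δ + 1) * L) := by rw [← pow_mul]

theorem LOC_zero (h : Stmt_EXP) (Δ L k f : ℕ) (hk : k < 2 ^ L) (hfk : f ≤ k)
    (hf : f * (2 * Δ + 1) ^ ((2 * Δ + 1) * L) ≤ (2 * Δ) ^ ((2 * Δ + 1) * L) * k) : f = 0 := by
  rcases Nat.eq_zero_or_pos L with hL | hL
  · subst hL
    rw [pow_zero] at hk
    omega
  · rcases Nat.eq_zero_or_pos Δ with hD | hD
    · subst hD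
      have h1 : (2 * 0 : ℕ) ^ ((2 * 0 + 1) * L) = 0 := by
        rw [mul_zero]
        exact zero_pow (by omega)
      rw [h1, zero_mul, mul_zero, zero_add, one_pow, mul_one] at hf
      omega
    · have h1 : 0 < (2 * Δ) ^ ((2 * Δ + 1) * L) := Nat.pow_pos (by omega)
      have h2 : (2 * Δ) ^ ((2 * Δ + 1) * L) * (f * 2 ^ L) ≤
          (2 * Δ) ^ ((2 * Δ + 1) * L) * k := by
        calc (2 * Δ) ^ ((2 * Δ + 1) * L) * (f * 2 ^ L)
            = f * (2 ^ L * (2 * Δ) ^ ((2 * Δ + 1) * L)) := by ring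
          _ ≤ f * (2 * Δ + 1) ^ ((2 * Δ + 1) * L) := Nat.mul_le_mul_left _ (LOC_pow h Δ L)
          _ ≤ _ := hf
      have h3 : f * 2 ^ L ≤ k := Nat.le_of_mul_le_mul_left h2 h1
      by_contra hne
      have h4 : 1 * 2 ^ L ≤ f * 2 ^ L := Nat.mul_le_mul_right _ (Nat.pos_of_ne_zero hne)
      omega

theorem stmt_LOC : Stmt_EXP → Stmt_LOD → Stmt_LOC := by
  intro hEXP hLOD G X s Δ N k L Z M lab W Ob hOb hCore hN hk S U hS hZU hUX hSol hmin
  have hstep := fun a => hLOD G X s Δ N k Z M lab W Ob hOb hCore hN S U a hS hZU hUX hSol hmin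
  have hle : ∀ n, (Sout (bl G X Z M lab W n) S).card ≤ k := fun n =>
    (Finset.card_le_card (Finset.filter_subset _ _)).trans hS
  have hind : ∀ t, (Sout (bl G X Z M lab W (t * (s + 1))) S).card * (2 * Δ + 1) ^ t ≤
      (2 * Δ) ^ t * k := by
    intro t
    induction t with
    | zero =>
      rw [pow_zero, pow_zero, mul_one, one_mul]
      exact hle _
    | succ t ih =>
      have h1 := hstep (t * (s + 1))
      have e : (t + 1) * (s + 1) = t * (s + 1) + s + 1 := by ring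
      rw [e]
      calc (Sout (bl G X Z M lab W (t * (s + 1) + s + 1)) S).card * (2 * Δ + 1) ^ (t + 1)
          = ((Sout (bl G X Z M lab W (t * (s + 1) + s + 1)) S).card * (2 * Δ + 1)) *
            (2 * Δ + 1) ^ t := by ring
        _ ≤ (2 * Δ * (Sout (bl G X Z M lab W (t * (s + 1))) S).card) * (2 * Δ + 1) ^ t :=
          Nat.mul_le_mul_right _ h1
        _ = 2 * Δ * ((Sout (bl G X Z M lab W (t * (s + 1))) S).card * (2 * Δ + 1) ^ t) := by
          ring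
        _ ≤ 2 * Δ * ((2 * Δ) ^ t * k) := Nat.mul_le_mul_left _ ih
        _ = (2 * Δ) ^ (t + 1) * k := by ring
  have hR : Rad s Δ L = ((2 * Δ + 1) * L) * (s + 1) := by
    unfold Rad
    ring
  have h0 : (Sout (bl G X Z M lab W (Rad s Δ L)) S).card = 0 := by
    refine LOC_zero hEXP Δ L k _ hk (hle _) ?_
    rw [hR]
    exact hind _
  intro e he x hx
  by_contra hne
  have h1 : e ∈ Sout (bl G X Z M lab W (Rad s Δ L)) S :=
    Finset.mem_filter.2 ⟨he, fun hall => hne (hall x hx)⟩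
  rw [Finset.card_eq_zero.1 h0] at h1
  exact absurd h1 (Finset.notMem_empty e)

end Pool.Ker
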