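import Pool.Agent.Work.MP_2df4ce_k.Interface

/-!
# MP_2df4ce_lc, block LOD
-/

set_option autoImplicit false

namespace Pool.Ker

open Classical

theorem stmt_LOD : Stmt_DFS → Stmt_LOS → Stmt_LOD := by
  intro hDFS hLOS G X s Δ N k Z M lab W Ob hOb hC hN S U a hSk hTU hUX hS hmin
  obtain ⟨-, -, hmono, -, -, -, -⟩ := hDFS G X s Δ N Z M lab W hC
  have hab : bl G X Z M lab W a ⊆ bl G X Z M lab W (a + s + 1) := hmono _ _ (by omega)
  have hsol := hLOS G X s Δ N k Z M lab W Ob hOb hC hN S U a hSk hTU hUX hS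
  have h3 := hmin _ hsol
  generalize hBa : bl G X Z M lab W a = Ba at *
  generalize hBb : bl G X Z M lab W (a + s + 1) = Bb at *
  -- the cardinality of S
  have h1 : (Sin Bb S).card + (Sout Bb S).card = S.card := by
    unfold Sin Sout
    exact Finset.card_filter_add_card_filter_not _
  -- the cardinality of the repaired set
  have h2 : (Sst G X Z lab W Ba Bb S).card ≤ (Sin Bb S).card + (Wt Ba Bb S).card * Δ := by
    unfold Sst
    refine (Finset.card_union_le _ _).trans (Nat.add_le_add (Finset.card_filter_le _ _) ?_)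
    refine Finset.card_biUnion_le_card_mul _ _ _ (fun x _ => ?_)
    exact Finset.card_image_le.trans (hC.deg x)
  -- the number of pairs inside Bb and not inside Ba
  have hsubO : Sout Bb S ⊆ Sout Ba S := by
    intro e he
    unfold Sout at he ⊢
    rw [Finset.mem_filter] at he ⊢
    exact ⟨he.1, fun h => he.2 (fun x hx => hab (h x hx))⟩
  have h4 : (Sout Ba S \ Sout Bb S).card + (Sout Bb S).card = (Sout Ba S).card :=
    Finset.card_sdiff_add_card_eq_card hsubO
  have h5 : (Wt Ba Bb S).card ≤ (Sout Ba S \ Sout Bb S).card * 2 := by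
    have hsub : Wt Ba Bb S ⊆ (Sout Ba S \ Sout Bb S).biUnion (fun e => e.toFinset) := by
      intro x hx
      unfold Wt at hx
      rw [Finset.mem_filter, Finset.mem_sdiff] at hx
      obtain ⟨⟨_, hxa⟩, e, he, hxe⟩ := hx
      unfold Sin at he
      rw [Finset.mem_filter] at he
      rw [Finset.mem_biUnion]
      refine ⟨e, ?_, Sym2.mem_toFinset.mpr hxe⟩
      rw [Finset.mem_sdiff]
      unfold Sout
      rw [Finset.mem_filter, Finset.mem_filter]
      exact ⟨⟨he.1, fun h => hxa (h x hxe)⟩, fun h => h.2 he.2⟩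
    refine (Finset.card_le_card hsub).trans ?_
    refine Finset.card_biUnion_le_card_mul _ _ _ (fun e _ => ?_)
    rw [Sym2.card_toFinset]
    split_ifs <;> omega
  have h6 : (Sout Bb S).card ≤ (Wt Ba Bb S).card * Δ := by omega
  have h7 : (Wt Ba Bb S).card * Δ ≤ (Sout Ba S \ Sout Bb S).card * 2 * Δ :=
    Nat.mul_le_mul_right _ h5
  nlinarith [h6, h7, h4]

end Pool.Ker
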