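import Pool.Agent.Work.MP_2df4ce_k.Interface

set_option autoImplicit false

/-! # MP_2df4ce_lc, block LOS: the repaired set is a solution -/

namespace Pool.Ker

open Classical

theorem LOS_mem (G : SimpleGraph ℕ) (X Z : Finset ℕ) (lab : ℕ → ℕ) (W : ℕ → ℕ → Prop)
    (Ba Bb : Finset ℕ) (S : Finset (Sym2 ℕ)) (x y : ℕ) :
    s(x, y) ∈ Sst G X Z lab W Ba Bb S ↔
      (s(x, y) ∈ S ∧ x ∈ Bb ∧ y ∈ Bb ∧ x ∉ Wt Ba Bb S ∧ y ∉ Wt Ba Bb S) ∨
        (x ∈ Wt Ba Bb S ∧ Df G X Z lab W x y) ∨ (y ∈ Wt Ba Bb S ∧ Df G X Z lab W y x) := by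
  unfold Sst
  rw [Finset.mem_union, Finset.mem_filter, Finset.mem_biUnion]
  unfold Sin
  rw [Finset.mem_filter]
  constructor
  · rintro (⟨⟨h1, h2⟩, h3⟩ | ⟨u, hu, h⟩)
    · exact Or.inl ⟨h1, h2 x (Sym2.mem_mk_left x y), h2 y (Sym2.mem_mk_right x y),
        h3 x (Sym2.mem_mk_left x y), h3 y (Sym2.mem_mk_right x y)⟩
    · obtain ⟨v, hv, he⟩ := Finset.mem_image.1 h
      have hd := (Finset.mem_filter.1 hv).2
      rcases Sym2.eq_iff.1 he with ⟨rfl, rfl⟩ | ⟨rfl, rfl⟩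
      · exact Or.inr (Or.inl ⟨hu, hd⟩)
      · exact Or.inr (Or.inr ⟨hu, hd⟩)
  · rintro (⟨h1, h2, h3, h4, h5⟩ | ⟨h1, h2⟩ | ⟨h1, h2⟩)
    · refine Or.inl ⟨⟨h1, fun z hz => ?_⟩, fun z hz => ?_⟩
      · rcases Sym2.mem_iff.1 hz with rfl | rfl
        · exact h2
        · exact h3
      · rcases Sym2.mem_iff.1 hz with rfl | rfl
        · exact h4
        · exact h5
    · exact Or.inr ⟨x, h1, Finset.mem_image.2 ⟨y, Finset.mem_filter.2 ⟨h2.2.2.1, h2⟩, rfl⟩⟩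
    · exact Or.inr ⟨y, h1, Finset.mem_image.2 ⟨x, Finset.mem_filter.2 ⟨h2.2.2.1, h2⟩,
        Sym2.eq_swap⟩⟩

theorem LOS_wt (Ba Bb : Finset ℕ) (S : Finset (Sym2 ℕ)) {x y : ℕ} (hx : x ∈ Bb) (hxa : x ∉ Ba)
    (hy : y ∈ Bb) (h : s(x, y) ∈ S) : x ∈ Wt Ba Bb S := by
  unfold Wt
  rw [Finset.mem_filter, Finset.mem_sdiff]
  refine ⟨⟨hx, hxa⟩, s(x, y), ?_, Sym2.mem_mk_left x y⟩
  unfold Sin
  rw [Finset.mem_filter]
  refine ⟨h, fun z hz => ?_⟩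
  rcases Sym2.mem_iff.1 hz with rfl | rfl
  · exact hx
  · exact hy

/-- LOS -/
theorem stmt_LOS : Stmt_DFS → Stmt_SHL → Stmt_REP → Stmt_LOS := by
  intro hDFS hSHL hREP G X s Δ N k Z M lab W Ob hIs hCore hN S U a hSk hZMU hUX hSol O hOU hOb
  obtain ⟨hsym, hsucc, hmono, hsubX, hZM, hstep, hun⟩ := hDFS G X s Δ N Z M lab W hCore
  obtain ⟨c, hac, hcs, hshell⟩ := hSHL (bl G X Z M lab W) O a s hsucc (hIs.card _ _ hOb)
  obtain ⟨Ba, hBa⟩ : ∃ Ba, Ba = bl G X Z M lab W a := ⟨_, rfl⟩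
  obtain ⟨Bb, hBb⟩ : ∃ Bb, Bb = bl G X Z M lab W (a + s + 1) := ⟨_, rfl⟩
  rw [← hBa, ← hBb] at hOb
  obtain ⟨Wx, hWx⟩ : ∃ Wx, Wx = Wt Ba Bb S := ⟨_, rfl⟩
  obtain ⟨S', hS'⟩ : ∃ S', S' = Sst G X Z lab W Ba Bb S := ⟨_, rfl⟩
  rw [← hS'] at hOb
  have hmem : ∀ x y, s(x, y) ∈ S' ↔
      (s(x, y) ∈ S ∧ x ∈ Bb ∧ y ∈ Bb ∧ x ∉ Wx ∧ y ∉ Wx) ∨
        (x ∈ Wx ∧ Df G X Z lab W x y) ∨ (y ∈ Wx ∧ Df G X Z lab W y x) := by
    intro x y
    rw [hS', hWx]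
    exact LOS_mem G X Z lab W Ba Bb S x y
  have hWa : ∀ x ∈ Wx, x ∉ Ba := by
    intro x hx
    rw [hWx] at hx
    exact (Finset.mem_sdiff.1 (Finset.mem_filter.1 hx).1).2
  have hcb : bl G X Z M lab W c ⊆ Bb := by
    rw [hBb]
    exact hmono _ _ (by omega)
  have hac1 : Ba ⊆ bl G X Z M lab W (c + 1) := by
    rw [hBa]
    exact hmono _ _ (by omega)
  have hOX : O ⊆ X := hOU.trans hUX
  obtain ⟨A, hA⟩ : ∃ A, A = (O ∩ bl G X Z M lab W c) \ Wx := ⟨_, rfl⟩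
  obtain ⟨B, hB⟩ : ∃ B, B = (O \ bl G X Z M lab W (c + 1)) \ Wx := ⟨_, rfl⟩
  obtain ⟨C, hC⟩ : ∃ C, C = O ∩ Wx := ⟨_, rfl⟩
  have mA : ∀ x, x ∈ A ↔ (x ∈ O ∧ x ∈ bl G X Z M lab W c) ∧ x ∉ Wx := fun x => by
    rw [hA, Finset.mem_sdiff, Finset.mem_inter]
  have mB : ∀ x, x ∈ B ↔ (x ∈ O ∧ x ∉ bl G X Z M lab W (c + 1)) ∧ x ∉ Wx := fun x => by
    rw [hB, Finset.mem_sdiff, Finset.mem_sdiff]
  have mC : ∀ x, x ∈ C ↔ x ∈ O ∧ x ∈ Wx := fun x => by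
    rw [hC, Finset.mem_inter]
  have hO : O = A ∪ B ∪ C := by
    ext x
    rw [Finset.mem_union, Finset.mem_union, mA, mB, mC]
    have := hshell x
    tauto
  rw [hO] at hOb
  have hBZM : ∀ x ∈ B, x ∉ Z ∧ x ∉ M := by
    intro x hx
    have h1 := ((mB x).1 hx).1.2
    exact ⟨fun h => h1 (hZM _ (Finset.mem_union_left _ h)),
      fun h => h1 (hZM _ (Finset.mem_union_right _ h))⟩
  have hCZM : ∀ x ∈ C, x ∉ Z ∧ x ∉ M := by
    intro x hx
    have h1 := hWa x ((mC x).1 hx).2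
    rw [hBa] at h1
    exact ⟨fun h => h1 (hZM _ (Finset.mem_union_left _ h)),
      fun h => h1 (hZM _ (Finset.mem_union_right _ h))⟩
  obtain ⟨O', hO', hObO'⟩ := hREP G X s Δ N k Z M lab W Ob hIs hCore hN S (ed G S') A B C hSk
    (fun x hx => hOX ((mA x).1 hx).1.1) (fun x hx => hOX ((mB x).1 hx).1.1)
    (fun x hx => hOX ((mC x).1 hx).1)
    (by
      rw [Finset.disjoint_left]
      intro x hx hx'
      exact ((mB x).1 hx').1.2 (hsucc c ((mA x).1 hx).1.2))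
    (by
      rw [Finset.disjoint_left]
      intro x hx hx'
      exact ((mA x).1 hx).2 ((mC x).1 hx').2)
    (by
      rw [Finset.disjoint_left]
      intro x hx hx'
      exact ((mB x).1 hx).2 ((mC x).1 hx').2)
    hOb
    (by
      intro x hx y hy
      have h1 : s(x, y) ∈ S' ↔ s(x, y) ∈ S := by
        rw [hmem]
        have e1 := (mA x).1 hx
        have e2 := (mA y).1 hy
        have e3 := hcb e1.1.2
        have e4 := hcb e2.1.2
        tauto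
      show (x ≠ y ∧ ¬ (G.Adj x y ↔ s(x, y) ∈ S')) ↔ (x ≠ y ∧ ¬ (G.Adj x y ↔ s(x, y) ∈ S))
      rw [h1])
    hBZM
    (by
      intro x hx y hy
      refine hun S' x y fun h => ?_
      obtain ⟨⟨_, f2⟩, f3⟩ := (mB x).1 hx
      have hyW : y ∉ Wx := by
        rcases Finset.mem_union.1 hy with h1 | h1
        · exact ((mA y).1 h1).2
        · exact ((mB y).1 h1).2
      rcases (hmem x y).1 h with h1 | h1 | h1
      · apply f3
        rw [hWx]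
        exact LOS_wt Ba Bb S h1.2.1 (fun h2 => f2 (hac1 h2)) h1.2.2.1 h1.1
      · exact f3 h1.1
      · exact hyW h1.1)
    (by
      intro x hx y hy h
      exact ((mB x).1 hx).1.2 (hstep c y x ((mA y).1 hy).1.2 (hsym _ _ h)))
    hCZM
    (by
      intro x hx y _ hyZ
      refine hun S' x y fun h => ?_
      have f1 := ((mC x).1 hx).2
      rcases (hmem x y).1 h with h1 | h1 | h1
      · exact h1.2.2.2.1 f1
      · exact h1.2.2.2.2.1 hyZ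
      · exact h1.2.2.1 hyZ)
    (by
      intro x hx y hy hyZ hxy
      have f1 := ((mC x).1 hx).2
      have hyO : y ∈ O := by
        rw [hO]
        exact hy
      have hxX := hOX ((mC x).1 hx).1
      have hyX := hOX hyO
      have hxZ := (hCZM x hx).1
      have hD : Df G X Z lab W x y ↔ ¬ (G.Adj x y ↔ W (lab x) (lab y)) := by
        unfold Df
        tauto
      have h1 : s(x, y) ∈ S' ↔ Df G X Z lab W x y := by
        rw [hmem]
        constructor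
        · rintro (h1 | h1 | h1)
          · exact absurd f1 h1.2.2.2.1
          · exact h1.2
          · exact hsym _ _ h1.2
        · intro h1
          exact Or.inr (Or.inl ⟨f1, h1⟩)
      show (x ≠ y ∧ ¬ (G.Adj x y ↔ s(x, y) ∈ S')) ↔ W (lab x) (lab y)
      rw [h1, hD]
      tauto)
  refine hSol O' (fun x hx => ?_) hObO'
  rcases Finset.mem_union.1 (hO' hx) with h | h
  · exact hOU ((mA x).1 h).1.1
  · exact hZMU (Finset.mem_union_right _ h)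

end Pool.Ker
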