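import Pool.Agent.Work.MP_2df4ce_k.InterfaceE

/-! # MP_2df4ce_lc, block MAX: a maximal system -/

set_option autoImplicit false

namespace Pool.Ker

open Classical St

theorem MAX_le (m : ℕ) (hm : 1 ≤ m) : 8 * m ≤ 16 * m ^ 3 := by
  have h1 : 1 ≤ m ^ 2 := Nat.one_le_pow _ _ hm
  have h2 : m ^ 3 = m * m ^ 2 := by ring
  nlinarith

/-- one more member -/
theorem MAX_snoc (m : ℕ) {V : Type} [Fintype V] (G : SimpleGraph V) (hm : 1 ≤ m)
    (hS : Stmt_SYM) (hN : NoSplit m G) (r : ℕ) (A : Fin r → Finset V) (b : Fin r → Bool)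
    (h : Sys m (16 * m ^ 3) G r A b) (B : Finset V) (β : Bool) (hB : Hom G β B)
    (hc : B.card = 16 * m ^ 3) (hno : ∀ i, b i = β → sg m G (A i) B ≠ β) :
    Sys m (16 * m ^ 3) G (r + 1) (Fin.snoc (α := fun _ => Finset V) A B)
      (Fin.snoc (α := fun _ => Bool) b β) := by
  refine ⟨?_, ?_, ?_⟩
  · intro i
    induction i using Fin.lastCases with
    | last =>
      rw [Fin.snoc_last]
      exact hc
    | cast i =>
      rw [Fin.snoc_castSucc]
      exact h.card i
  · intro i
    induction i using Fin.lastCases with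
    | last =>
      rw [Fin.snoc_last, Fin.snoc_last]
      exact hB
    | cast i =>
      rw [Fin.snoc_castSucc, Fin.snoc_castSucc]
      exact h.hom i
  · intro i j hij hb
    induction i using Fin.lastCases with
    | last =>
      induction j using Fin.lastCases with
      | last => exact absurd rfl hij
      | cast j =>
        rw [Fin.snoc_last, Fin.snoc_castSucc] at hb
        rw [Fin.snoc_last, Fin.snoc_last, Fin.snoc_castSucc]
        have h1 : 8 * m ≤ B.card := by
          rw [hc]
          exact MAX_le m hm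
        have h2 : 8 * m ≤ (A j).card := by
          rw [h.card j]
          exact MAX_le m hm
        rw [hS m V G hm hN B (A j) β (b j) hB (h.hom j) h1 h2]
        exact hno j hb.symm
    | cast i =>
      induction j using Fin.lastCases with
      | last =>
        rw [Fin.snoc_last, Fin.snoc_castSucc] at hb
        rw [Fin.snoc_castSucc, Fin.snoc_last, Fin.snoc_castSucc, hb]
        exact hno i hb
      | cast j =>
        rw [Fin.snoc_castSucc, Fin.snoc_castSucc] at hb
        rw [Fin.snoc_castSucc, Fin.snoc_castSucc, Fin.snoc_castSucc]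
        exact h.dist i j (fun hij' => hij (congrArg Fin.castSucc hij')) hb

/-- MAX. -/
theorem stmt_MAX : Stmt_SYM → Stmt_SBD → Stmt_MAX := by
  intro hS hD m V _ G hm hN hC
  obtain ⟨P, hP⟩ : ∃ P : ℕ → Prop, ∀ r, P r ↔ ∃ (A : Fin r → Finset V) (b : Fin r → Bool),
      Sys m (16 * m ^ 3) G r A b := ⟨_, fun _ => Iff.rfl⟩
  have h0 : P 0 := (hP 0).2 ⟨fun i => i.elim0, fun i => i.elim0,
    ⟨fun i => i.elim0, fun i => i.elim0, fun i => i.elim0⟩⟩
  have hlt : ∀ r, P r → r < 2 * m := by
    intro r hr
    obtain ⟨A, b, h⟩ := (hP r).1 hr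
    exact hD m V G hm hN hC r A b h
  have hex : ∃ r, P r ∧ ¬ P (r + 1) := by
    by_contra hcon
    push Not at hcon
    have hall : ∀ r, P r := by
      intro r
      induction r with
      | zero => exact h0
      | succ r ih => exact hcon r ih
    have := hlt (2 * m) (hall (2 * m))
    omega
  obtain ⟨r, hr, hr'⟩ := hex
  obtain ⟨A, b, h⟩ := (hP r).1 hr
  refine ⟨r, A, b, hlt r hr, h, ?_⟩
  intro B β hB hc
  by_contra hcon
  push Not at hcon
  exact hr' ((hP (r + 1)).2 ⟨_, _, MAX_snoc m G hm hS hN r A b h B β hB hc hcon⟩)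

end Pool.Ker
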