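import Pool.Agent.Work.MP_2df4ce_k.InterfaceB

/-!
# MP_2df4ce_lc, part B: block MCA (the size of the set `M`)
-/

set_option autoImplicit false

namespace Pool.Ker

open Classical St Alg

/-- The number of lists of length `l`. -/
theorem mca_tup_length {α : Type} (U : List α) (l : ℕ) : (tup U l).length = U.length ^ l := by
  induction l with
  | zero => simp [tup]
  | succ l ih =>
    simp only [tup, List.length_flatMap, List.length_map, ih]
    rw [List.map_const', List.sum_replicate, smul_eq_mul, pow_succ, mul_comm]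

/-- The number of lists of length at most `s`. -/
theorem mca_allT_length (U : List ℕ) (s : ℕ) :
    (allT U s).length ≤ (s + 1) * (U.length + 1) ^ s := by
  induction s with
  | zero => simp [allT, tup]
  | succ s ih =>
    simp only [allT, List.length_append]
    rw [mca_tup_length]
    have h1 : U.length ^ (s + 1) ≤ (U.length + 1) ^ (s + 1) :=
      Nat.pow_le_pow_left (Nat.le_succ _) _
    have h2 : (U.length + 1) ^ s ≤ (U.length + 1) ^ (s + 1) :=
      Nat.pow_le_pow_right (Nat.succ_pos _) (Nat.le_succ _)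
    calc U.length ^ (s + 1) + (allT U s).length
        ≤ (U.length + 1) ^ (s + 1) + (s + 1) * (U.length + 1) ^ s := Nat.add_le_add h1 ih
      _ ≤ (U.length + 1) ^ (s + 1) + (s + 1) * (U.length + 1) ^ (s + 1) :=
          Nat.add_le_add_left (Nat.mul_le_mul_left _ h2) _
      _ = (s + 1 + 1) * (U.length + 1) ^ (s + 1) := by ring

theorem mca_apat_length (E : List (ℕ × ℕ)) (t z : List ℕ) :
    (apat E t z).length = t.length * z.length := by
  simp only [apat, List.length_flatMap, List.length_map]
  rw [List.map_const', List.sum_replicate, smul_eq_mul]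

theorem mca_labB_le (D : ℕ) (E : List (ℕ × ℕ)) (Sa : List (List ℕ)) (v : ℕ) :
    labB D E Sa v ≤ Sa.length := by
  unfold labB
  cases h : (List.range Sa.length).filter fun i => !((Sa.getD i []).isEmpty) &&
    decide (rowB D E Sa v = rowB D E Sa ((Sa.getD i []).headD 0)) with
  | nil => simp
  | cons a l =>
    have : a ∈ (List.range Sa.length).filter fun i => !((Sa.getD i []).isEmpty) &&
        decide (rowB D E Sa v = rowB D E Sa ((Sa.getD i []).headD 0)) := by
      rw [h]; exact List.mem_cons_self
    have h2 := List.mem_range.1 (List.mem_filter.1 this).1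
    simp only [List.headD_cons]
    exact h2.le

/-- The possible patterns. -/
def mcaP (s r : ℕ) : Set ((List ℕ × List Bool) × List Bool) :=
  {p | (p.1.1.length ≤ s ∧ ∀ x ∈ p.1.1, x ≤ r) ∧ p.1.2.length ≤ s * s ∧ p.2.length ≤ s * s}

theorem mcaP_finite (s r : ℕ) : (mcaP s r).Finite := by
  have h1 : {l : List ℕ | l.length ≤ s ∧ ∀ x ∈ l, x ≤ r}.Finite := by
    have h := (List.finite_length_le (Fin (r + 1)) s).image (List.map (fun x : Fin (r + 1) => x.1))
    refine h.subset ?_
    rintro l ⟨h1, h2⟩
    refine ⟨l.map (fun x => Fin.ofNat (r + 1) x), ?_, ?_⟩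
    · simpa using h1
    · rw [List.map_map]
      conv_rhs => rw [← List.map_id l]
      apply List.map_congr_left
      intro x hx
      simp only [Function.comp, Fin.ofNat, id]
      exact Nat.mod_eq_of_lt (Nat.lt_succ_of_le (h2 x hx))
  have h2 := List.finite_length_le Bool (s * s)
  refine ((h1.prod h2).prod h2).subset ?_
  rintro ⟨⟨a, b⟩, c⟩ ⟨ha, hb, hc⟩
  exact ⟨⟨ha, hb⟩, hc⟩

/-- Block MCA. -/
theorem stmt_MCA (hLBA : Stmt_LBA) (hPAK : Stmt_PAK) : Stmt_MCA := by
  intro s r
  obtain ⟨hm, -, -, hall, -, -, -, -⟩ := hLBA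
  refine ⟨(s + 1) * ((mcaP_finite s r).toFinset.card * s), ?_⟩
  intro n D N E Sa Z R hSa
  set PF := (mcaP_finite s r).toFinset with hPF
  have hnd : (Ml D s N n E Sa Z R).Nodup := by
    unfold Ml
    exact List.nodup_range.filter _
  rw [← List.toFinset_card_of_nodup hnd]
  let ch : List ℕ → ((List ℕ × List Bool) × List Bool) → List (List ℕ) := fun zt p =>
    pack N (fun t => nodB t && decide (pat D E Sa zt t = p)) (allT R s)
  have hsub : (Ml D s N n E Sa Z R).toFinset ⊆ (allT Z s).toFinset.biUnion fun zt =>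
      PF.biUnion fun p => (ch zt p).toFinset.biUnion fun t => t.toFinset := by
    intro v hv
    rw [List.mem_toFinset] at hv
    unfold Ml at hv
    obtain ⟨-, hv⟩ := List.mem_filter.1 hv
    rw [List.any_eq_true] at hv
    obtain ⟨zt, hzt, hv⟩ := hv
    rw [List.any_eq_true] at hv
    obtain ⟨t0, ht0, hv⟩ := hv
    rw [List.any_eq_true] at hv
    obtain ⟨t, ht, hv⟩ := hv
    rw [hm] at hv
    rw [Finset.mem_biUnion]
    refine ⟨zt, List.mem_toFinset.2 hzt, ?_⟩
    rw [Finset.mem_biUnion]
    refine ⟨pat D E Sa zt t0, ?_, ?_⟩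
    · rw [hPF, Set.Finite.mem_toFinset]
      have h1 := ((hall Z zt s).1 hzt).1
      have h2 := ((hall R t0 s).1 ht0).1
      refine ⟨⟨?_, ?_⟩, ?_, ?_⟩
      · simpa [pat] using h2
      · intro x hx
        simp only [pat, List.mem_map] at hx
        obtain ⟨y, -, rfl⟩ := hx
        exact (mca_labB_le D E Sa y).trans hSa
      · simp only [pat, mca_apat_length]
        exact Nat.mul_le_mul h2 h2
      · simp only [pat, mca_apat_length]
        exact Nat.mul_le_mul h2 h1
    · rw [Finset.mem_biUnion]
      exact ⟨t, List.mem_toFinset.2 ht, List.mem_toFinset.2 hv⟩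
  have hch : ∀ zt p, ((ch zt p).toFinset.biUnion fun t => t.toFinset).card ≤ N * s := by
    intro zt p
    obtain ⟨h1, h2, -, -⟩ := hPAK N (fun t => nodB t && decide (pat D E Sa zt t = p)) (allT R s)
    have h3 : (ch zt p).toFinset.card ≤ N := (List.toFinset_card_le _).trans h2
    refine (Finset.card_biUnion_le_card_mul _ _ s ?_).trans (Nat.mul_le_mul_right _ h3)
    intro t ht
    rw [List.mem_toFinset] at ht
    exact (List.toFinset_card_le _).trans ((hall R t s).1 (h1 t ht).1).1
  have hzt : ∀ zt ∈ (allT Z s).toFinset, (PF.biUnion fun p =>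
      (ch zt p).toFinset.biUnion fun t => t.toFinset).card ≤ PF.card * (N * s) := by
    intro zt _
    exact Finset.card_biUnion_le_card_mul _ _ _ fun p _ => hch zt p
  calc (Ml D s N n E Sa Z R).toFinset.card
      ≤ _ := Finset.card_le_card hsub
    _ ≤ (allT Z s).toFinset.card * (PF.card * (N * s)) :=
        Finset.card_biUnion_le_card_mul _ _ _ hzt
    _ ≤ ((s + 1) * (Z.length + 1) ^ s) * (PF.card * (N * s)) :=
        Nat.mul_le_mul_right _ ((List.toFinset_card_le _).trans (mca_allT_length Z s))
    _ = (s + 1) * (PF.card * s) * (Z.length + 1) ^ s * N := by ring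

end Pool.Ker
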