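import Pool.Agent.Work.MP_2df4ce_k.InterfaceE

set_option autoImplicit false

namespace Pool.Ker

open Classical St

theorem stmt_MIX (hSGT : Stmt_SGT) : Stmt_MIX := by
  intro m V _ G hm hN A B' X β hA hB' hcard hty hXA hX
  have h2 := (hSGT m V G hm hN).2
  set W : Finset V := B'.biUnion fun v => nb G v A (!β) with hW
  have hWc : W.card ≤ B'.card * (m - 1) := by
    refine Finset.card_biUnion_le_card_mul _ _ _ ?_
    intro v hv
    have := h2 A β v hA
    rw [hty v hv] at this
    omega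
  have hWc2 : W.card ≤ 2 * m * (m - 1) := hWc.trans (Nat.mul_le_mul_right _ hcard)
  have hU : 2 * m ≤ ((X \ B') \ W).card := by
    have h3 : X.card ≤ (X \ B').card + B'.card := by
      have := Finset.le_card_sdiff B' X
      omega
    have h4 : (X \ B').card ≤ ((X \ B') \ W).card + W.card := by
      have := Finset.le_card_sdiff W (X \ B')
      omega
    obtain ⟨k, rfl⟩ : ∃ k, m = k + 1 := ⟨m - 1, by omega⟩
    have h5 : 2 * (k + 1) * (k + 1 - 1) + 2 * (k + 1) = 2 * (k + 1) * (k + 1) := by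
      rw [Nat.add_sub_cancel]; ring
    omega
  obtain ⟨A', hA'U, hA'c⟩ := Finset.exists_subset_card_eq hU
  have hmem : ∀ x ∈ A', x ∈ X ∧ x ∉ B' ∧ x ∉ W := by
    intro x hx
    have := hA'U hx
    rw [Finset.mem_sdiff, Finset.mem_sdiff] at this
    exact ⟨this.1.1, this.1.2, this.2⟩
  have key : ∀ x ∈ A', ∀ v ∈ B', (G.Adj v x ↔ β = true) := by
    intro x hx v hv
    obtain ⟨h1, h3, h4⟩ := hmem x hx
    have h5 : x ∉ nb G v A (!β) := fun h => h4 (Finset.mem_biUnion.2 ⟨v, hv, h⟩)
    have hne : x ≠ v := fun h => h3 (h ▸ hv)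
    have h6 : ¬ (G.Adj v x ↔ (!β) = true) := fun h =>
      h5 (Finset.mem_filter.2 ⟨hXA h1, hne, h⟩)
    cases β <;> simp_all
  refine ⟨A', fun x hx => (hmem x hx).1, hA'c, ?_, ?_⟩
  · rw [Finset.disjoint_left]
    exact fun x hx => (hmem x hx).2.1
  · intro x hx y hy hxy
    rw [Finset.mem_union] at hx hy
    rcases hx with hx | hx <;> rcases hy with hy | hy
    · exact hA x (hXA (hmem x hx).1) y (hXA (hmem y hy).1) hxy
    · rw [G.adj_comm]; exact key x hx y hy
    · exact key y hy x hx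
    · exact hB' x hx y hy hxy

end Pool.Ker
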