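import Mathlib
import Pool.Agent.Work.MP_2df4ce_k.InterfaceE

set_option autoImplicit false

/-! # MP_2df4ce_lc, block MON: the four graphs grow with `m` -/

namespace Pool.Ker

open Classical St

theorem MON_compl {V W : Type} {G : SimpleGraph V} {H : SimpleGraph W} (e : G ↪g H) :
    Nonempty (Gᶜ ↪g Hᶜ) := by
  refine ⟨⟨e.toEmbedding, ?_⟩⟩
  intro a b
  show Hᶜ.Adj (e a) (e b) ↔ Gᶜ.Adj a b
  rw [SimpleGraph.compl_adj, SimpleGraph.compl_adj, e.map_adj_iff]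
  exact and_congr (not_congr e.injective.eq_iff) Iff.rfl

theorem MON_star_adj {m : ℕ} (i j : Fin (2 * m + 1)) : (starIso m).Adj i j ↔
    (i.val = 0 ∧ 1 ≤ j.val ∧ j.val ≤ m) ∨ (j.val = 0 ∧ 1 ≤ i.val ∧ i.val ≤ m) := by
  unfold starIso
  rw [SimpleGraph.fromRel_adj]
  refine ⟨fun h => h.2, fun h => ⟨fun hij => ?_, h⟩⟩
  subst hij
  omega

theorem MON_cliques_adj {m : ℕ} (x y : Fin m × Fin m) : (cliques m).Adj x y ↔
    x ≠ y ∧ x.1 = y.1 := by
  unfold cliques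
  rw [SimpleGraph.fromRel_adj]
  refine ⟨fun h => ⟨h.1, ?_⟩, fun h => ⟨h.1, Or.inl h.2⟩⟩
  rcases h.2 with h | h
  · exact h
  · exact h.symm

theorem MON_star {m m' : ℕ} (h : m ≤ m') : Nonempty (starIso m ↪g starIso m') := by
  let f : Fin (2 * m + 1) → Fin (2 * m' + 1) := fun i =>
    ⟨if i.val ≤ m then i.val else i.val - m + m', by split_ifs <;> omega⟩
  have hf : ∀ i, (f i).val = if i.val ≤ m then i.val else i.val - m + m' := fun i => rfl
  have hinj : Function.Injective f := by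
    intro i j hij
    have h1 : (f i).val = (f j).val := congrArg Fin.val hij
    rw [hf, hf] at h1
    apply Fin.ext
    split_ifs at h1 <;> omega
  refine ⟨⟨⟨f, hinj⟩, ?_⟩⟩
  intro i j
  show (starIso m').Adj (f i) (f j) ↔ (starIso m).Adj i j
  rw [MON_star_adj, MON_star_adj, hf, hf]
  split_ifs <;> omega

theorem MON_cliques {m m' : ℕ} (h : m ≤ m') : Nonempty (cliques m ↪g cliques m') := by
  let f : Fin m × Fin m → Fin m' × Fin m' := fun x => (Fin.castLE h x.1, Fin.castLE h x.2)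
  have hinj : Function.Injective f := by
    intro x y hxy
    have h1 : Fin.castLE h x.1 = Fin.castLE h y.1 := congrArg Prod.fst hxy
    have h2 : Fin.castLE h x.2 = Fin.castLE h y.2 := congrArg Prod.snd hxy
    exact Prod.ext (Fin.castLE_injective h h1) (Fin.castLE_injective h h2)
  refine ⟨⟨⟨f, hinj⟩, ?_⟩⟩
  intro x y
  show (cliques m').Adj (f x) (f y) ↔ (cliques m).Adj x y
  rw [MON_cliques_adj, MON_cliques_adj]
  exact and_congr (not_congr hinj.eq_iff) (Fin.castLE_injective h).eq_iff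

theorem stmt_MON : Stmt_MON := by
  rintro F ⟨⟨H1, hH1, m1, ⟨e1⟩⟩, ⟨H2, hH2, m2, ⟨e2⟩⟩, ⟨H3, hH3, m3, ⟨e3⟩⟩, ⟨H4, hH4, m4, ⟨e4⟩⟩⟩
  refine ⟨max (max m1 m2) (max (max m3 m4) 1), by omega, fun V G hG => ⟨?_, ?_, ?_, ?_⟩⟩
  · obtain ⟨g⟩ := MON_star (show m1 ≤ max (max m1 m2) (max (max m3 m4) 1) by omega)
    exact ⟨fun e => (hG H1 hH1).false (e.comp (g.comp e1))⟩
  · obtain ⟨g⟩ := MON_star (show m2 ≤ max (max m1 m2) (max (max m3 m4) 1) by omega)
    obtain ⟨g'⟩ := MON_compl g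
    exact ⟨fun e => (hG H2 hH2).false (e.comp (g'.comp e2))⟩
  · obtain ⟨g⟩ := MON_cliques (show m3 ≤ max (max m1 m2) (max (max m3 m4) 1) by omega)
    exact ⟨fun e => (hG H3 hH3).false (e.comp (g.comp e3))⟩
  · obtain ⟨g⟩ := MON_cliques (show m4 ≤ max (max m1 m2) (max (max m3 m4) 1) by omega)
    obtain ⟨g'⟩ := MON_compl g
    exact ⟨fun e => (hG H4 hH4).false (e.comp (g'.comp e4))⟩

end Pool.Ker
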