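import Pool.Agent.Work.MP_2df4ce_k.InterfaceB

/-!
# MP_2df4ce_lc, block NOI (helper58): a no-instance
-/

set_option autoImplicit false

namespace Pool.Ker

open Classical St Alg

/-- the edge list of a graph on `Fin m` -/
noncomputable def NOI_list {m : ℕ} (H : SimpleGraph (Fin m)) : List (ℕ × ℕ) :=
  ((Finset.univ : Finset (Fin m × Fin m)).filter fun p => H.Adj p.1 p.2).toList.map
    fun p => ((p.1 : ℕ), (p.2 : ℕ))

theorem NOI_mem {m : ℕ} (H : SimpleGraph (Fin m)) (i j : Fin m) :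
    ((i : ℕ), (j : ℕ)) ∈ NOI_list H ↔ H.Adj i j := by
  unfold NOI_list
  rw [List.mem_map]
  constructor
  · rintro ⟨p, hp, he⟩
    rw [Finset.mem_toList, Finset.mem_filter] at hp
    have h1 : p.1 = i := Fin.ext (congrArg Prod.fst he)
    have h2 : p.2 = j := Fin.ext (congrArg Prod.snd he)
    rw [← h1, ← h2]
    exact hp.2
  · intro h
    refine ⟨(i, j), ?_, rfl⟩
    rw [Finset.mem_toList, Finset.mem_filter]
    exact ⟨Finset.mem_univ _, h⟩

theorem NOI_graph {m : ℕ} (H : SimpleGraph (Fin m)) :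
    Inst.graph ((m, NOI_list H, 0) : Inst) = H := by
  ext i j
  unfold Inst.graph
  rw [SimpleGraph.fromRel_adj]
  constructor
  · rintro ⟨-, h | h⟩
    · exact (NOI_mem H i j).mp h
    · exact ((NOI_mem H j i).mp h).symm
  · intro h
    exact ⟨h.ne, Or.inl ((NOI_mem H i j).mpr h)⟩

theorem stmt_NOI : Stmt_NOI := by
  rintro F ⟨⟨m, H⟩, hH⟩
  refine ⟨(m, NOI_list H, 0), rfl, ?_⟩
  rintro ⟨G', hfree, hcard⟩
  have h1 : (symmDiff (Inst.graph ((m, NOI_list H, 0) : Inst)).edgeSet G'.edgeSet).ncard = 0 :=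
    Nat.le_zero.mp hcard
  rw [Set.ncard_eq_zero (Set.toFinite _), ← Set.bot_eq_empty, symmDiff_eq_bot, NOI_graph] at h1
  have h2 : H = G' := SimpleGraph.edgeSet_injective h1
  have h3 := hfree ⟨m, H⟩ hH
  rw [← h2] at h3
  exact h3.false (SimpleGraph.Embedding.refl)

end Pool.Ker
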