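import Pool.Agent.Work.MP_2df4ce_k.InterfaceB

/-!
# MP_2df4ce_lc, block OBT: correctness of the test for forbidden subgraphs
-/

set_option autoImplicit false

namespace Pool.Ker

open Classical St Alg

theorem OBT_flat {α β γ : Type} (l' : List β) (P Q : α → β → γ) : ∀ l : List α,
    (l.flatMap fun a => l'.map fun b => P a b) = (l.flatMap fun a => l'.map fun b => Q a b) →
    ∀ a ∈ l, ∀ b ∈ l', P a b = Q a b := by
  intro l
  induction l with
  | nil => intro _ a ha; simp at ha
  | cons x l ih =>
    intro h
    rw [List.flatMap_cons, List.flatMap_cons] at h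
    obtain ⟨h1, h2⟩ := List.append_inj h (by simp)
    intro a ha b hb
    rcases List.mem_cons.1 ha with rfl | ha'
    · exact (List.map_inj_left.1 h1) b hb
    · exact ih h2 a ha' b hb

theorem OBT_apat (E : List (ℕ × ℕ)) (m : ℕ) (φ : Fin m → ℕ) :
    apat E ((List.finRange m).map φ) ((List.finRange m).map φ) =
      (List.finRange m).flatMap fun a => (List.finRange m).map fun b => adj E (φ a) (φ b) := by
  unfold apat
  rw [List.flatMap_map]
  congr 1
  funext a
  rw [List.map_map]
  rfl

theorem stmt_OBT : Stmt_LBA → Stmt_APT → Stmt_OBT := by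
  intro hLBA _ F OL s hOL hB E
  obtain ⟨-, -, -, -, hnod, -, -, -⟩ := hLBA
  constructor
  · intro t ht
    unfold obB at ht
    rw [Bool.and_eq_true, List.any_eq_true] at ht
    obtain ⟨h1, g, hg, h2⟩ := ht
    have h2' : g = (t.length, apat E t t) := of_decide_eq_true h2
    obtain ⟨⟨m, H⟩, hH, hgH⟩ := (hOL g).1 hg
    have h3 : (t.length, apat E t t) = patG ⟨m, H⟩ := by rw [← h2', hgH]
    unfold patG at h3
    have h4 : t.length = m := (Prod.mk.inj h3).1
    have h5 := (Prod.mk.inj h3).2
    have hb := hB _ hH
    have htn : t.Nodup := (hnod t).1 h1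
    subst h4
    have ht' : (List.finRange t.length).map t.get = t := by
      rw [← List.ofFn_eq_map, List.ofFn_get]
    have h6 : apat E t t = (List.finRange t.length).flatMap fun a =>
        (List.finRange t.length).map fun b => adj E (t.get a) (t.get b) := by
      rw [← OBT_apat, ht']
    rw [h6] at h5
    have h7 := OBT_flat _ _ _ _ h5
    refine ⟨htn, ?_, hb.2, ⟨t.length, H⟩, hH, t.get, List.nodup_iff_injective_get.1 htn,
      ?_, ?_⟩
    · intro h
      have hb1 : 0 < t.length := hb.1
      have hb2 : t.length = 0 := by rw [h]; rfl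
      omega
    · intro a b
      have h8 := h7 a (List.mem_finRange a) b (List.mem_finRange b)
      show H.Adj a b ↔ adj E (t.get a) (t.get b) = true
      rw [h8]
      simp
    · ext x
      simp only [Finset.mem_image, Finset.mem_univ, true_and, List.mem_toFinset]
      exact List.mem_iff_get.symm
  · rintro O ⟨⟨m, H⟩, hH, φ, hφ, hadj, rfl⟩
    have hb := hB _ hH
    have hlen : ((List.finRange m).map φ).length = m := by simp
    refine ⟨(List.finRange m).map φ, ?_, ?_, ?_, ?_⟩
    · ext x
      simp
    · rw [hlen]
      exact hb.2
    · intro h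
      rw [h] at hlen
      have hb1 : 0 < m := hb.1
      simp only [List.length_nil] at hlen
      omega
    · unfold obB
      rw [Bool.and_eq_true, List.any_eq_true]
      constructor
      · exact (hnod _).2 ((List.nodup_finRange m).map hφ)
      · refine ⟨patG ⟨m, H⟩, (hOL _).2 ⟨_, hH, rfl⟩, ?_⟩
        apply decide_eq_true
        rw [hlen, OBT_apat]
        unfold patG
        congr 1
        congr 1
        funext a
        congr 1
        funext b
        have h9 : H.Adj a b ↔ adj E (φ a) (φ b) = true := hadj a b
        by_cases hc : H.Adj a b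
        · rw [h9.1 hc]
          exact decide_eq_true hc
        · have h10 : adj E (φ a) (φ b) = false := by
            rw [← Bool.not_eq_true]
            exact fun h => hc (h9.2 h)
          rw [h10]
          exact decide_eq_false hc

end Pool.Ker
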