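import Pool.Agent.Work.MP_2df4ce_k.InterfaceP

/-!
# MP_2df4ce_lc: block PA1
-/

set_option autoImplicit false

namespace Pool.Ker

open St Alg Pool.Agent.Work.TMLib

section
variable {α β : Type} [DE α] [DE β]

theorem PA1_any {l : α → List β} {f : α → β → Bool} (hl : PolyF l)
    (hf : PolyF (fun p : α × β => f p.1 p.2)) : PolyF (fun a => (l a).any (f a)) := by
  have h : PolyF (fun a => !((l a).all (fun b => !(f a b)))) := by
    refine PolyF.not (PolyF.all hl (f := fun a b => !(f a b)) ?_)
    fun_prop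
  refine h.congrF fun a => ?_
  rw [List.not_all_eq_any_not]
  simp

end

theorem PA1_adj {α : Type} [DE α] {E : α → List (ℕ × ℕ)} {u v : α → ℕ} (hE : PolyF E)
    (hu : PolyF u) (hv : PolyF v) : PolyF (fun a => adj (E a) (u a) (v a)) := by
  unfold adj
  refine PolyF.and (by fun_prop) ?_
  refine PA1_any (f := fun a e => (decide (e.1 = u a) && decide (e.2 = v a)) ||
    (decide (e.1 = v a) && decide (e.2 = u a))) hE ?_
  fun_prop

theorem PA1_memB {α : Type} [DE α] {l : α → List ℕ} {v : α → ℕ} (hl : PolyF l) (hv : PolyF v) :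
    PolyF (fun a => memB (l a) (v a)) := by
  unfold memB
  refine PA1_any (f := fun a u => decide (u = v a)) hl ?_
  fun_prop

theorem PA1_apat {α : Type} [DE α] {E : α → List (ℕ × ℕ)} {t z : α → List ℕ} (hE : PolyF E)
    (ht : PolyF t) (hz : PolyF z) : PolyF (fun a => apat (E a) (t a) (z a)) := by
  unfold apat
  refine PolyF.flatMap (f := fun a x => (z a).map fun y => adj (E a) x y) ht ?_
  refine PolyF.map (l := fun p : α × ℕ => z p.1) (f := fun p y => adj (E p.1) p.2 y)
    (by fun_prop) ?_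
  exact PA1_adj (E := fun p : (α × ℕ) × ℕ => E p.1.1) (u := fun p => p.1.2) (v := fun p => p.2)
    (by fun_prop) (by fun_prop) (by fun_prop)

theorem PA1_disB {α : Type} [DE α] {t l : α → List ℕ} (ht : PolyF t) (hl : PolyF l) :
    PolyF (fun a => disB (t a) (l a)) := by
  unfold disB
  refine PolyF.not ?_
  refine PA1_any (f := fun a x => memB (l a) x) ht ?_
  exact PA1_memB (l := fun p : α × ℕ => l p.1) (v := fun p => p.2) (by fun_prop) (by fun_prop)

theorem PA1_nodB {α : Type} [DE α] {t : α → List ℕ} (ht : PolyF t) :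
    PolyF (fun a => nodB (t a)) := by
  unfold nodB
  refine PolyF.natEq ?_ (by fun_prop)
  refine PolyF.length ?_
  refine PolyF.flatMap (f := fun a x => (t a).filter fun y => decide (x = y)) ht ?_
  exact PolyF.filter (l := fun p : α × ℕ => t p.1) (f := fun p y => decide (p.2 = y))
    (by fun_prop) (by fun_prop)

theorem stmt_PA1 : Stmt_PA1 :=
  ⟨fun _ _ _ _ _ hE hu hv => PA1_adj hE hu hv, fun _ _ _ _ hl hv => PA1_memB hl hv,
    fun _ _ _ _ _ hE ht hz => PA1_apat hE ht hz, fun _ _ _ _ ht hl => PA1_disB ht hl,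
    fun _ _ _ ht => PA1_nodB ht⟩

end Pool.Ker
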