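import Pool.Agent.Work.MP_2df4ce_k.InterfaceP

/-! # MP_2df4ce_k, block PA2: tuples and equality of lists -/

set_option autoImplicit false

namespace Pool.Ker

open St Alg Pool.Agent.Work.TMLib Polynomial

theorem PA2_tup (α β : Type) [DE α] [DE β] (U : α → List β) (l : ℕ) (hU : PolyF U) :
    PolyF (fun a => tup (U a) l) := by
  induction l with
  | zero =>
    simp only [tup]
    fun_prop
  | succ l ih =>
    simp only [tup]
    refine PolyF.flatMap (f := fun a u => (tup (U a) l).map fun t => u :: t) hU ?_
    refine PolyF.map (l := fun p : α × β => tup (U p.1) l) (f := fun p t => p.2 :: t) ?_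
      (by fun_prop)
    exact PolyF.comp (f := fun a : α => tup (U a) l) (g := fun p : α × β => p.1) ih (by fun_prop)

/-- The step of the comparison of two lists. -/
def PA2_step {β : Type} [DecidableEq β] (s : Bool × List β) (b : β) : Bool × List β :=
  (s.1 && (!(s.2.isEmpty) && decide (s.2.headD b = b)), s.2.tail)

theorem PA2_run {β : Type} [DecidableEq β] (l m : List β) (c : Bool) :
    ((l.foldl PA2_step (c, m)).1 && (l.foldl PA2_step (c, m)).2.isEmpty) =
      (c && decide (l = m)) := by
  induction l generalizing m c with
  | nil =>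
    cases m with
    | nil => simp
    | cons b m => simp
  | cons a l ih =>
    cases m with
    | nil =>
      simp only [List.foldl_cons]
      rw [show PA2_step (c, ([] : List β)) a = (false, []) by simp [PA2_step], ih]
      simp
    | cons b m =>
      simp only [List.foldl_cons]
      rw [show PA2_step (c, b :: m) a = (c && decide (b = a), m) by simp [PA2_step], ih]
      rw [Bool.and_assoc]
      congr 1
      rw [← Bool.decide_and]
      congr 1
      rw [List.cons.injEq]
      exact propext ⟨fun h => ⟨h.1.symm, h.2⟩, fun h => ⟨h.1.symm, h.2⟩⟩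

theorem PA2_eq (β : Type) [DE β] [DecidableEq β] [PEq β] : PEq (List β) := ⟨by
  have hstep : PolyF (fun p : (List β × List β) × (Bool × List β) × β =>
      PA2_step p.2.1 p.2.2) := by
    unfold PA2_step
    fun_prop
  have h1 : PolyF (fun p : List β × List β => p.1.foldl PA2_step (true, p.2)) := by
    refine PolyF.foldl_add (l := fun p : List β × List β => p.1) (g := fun p => (true, p.2))
      (h := fun _ s b => PA2_step s b) (by fun_prop) (by fun_prop) hstep 2 ?_
    intro a s b _
    obtain ⟨c, m⟩ := s
    have h1 := sz_bool_le (PA2_step (c, m) b).1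
    have h2 := sz_pos c
    have h3 : sz m.tail ≤ sz m := by
      cases m with
      | nil => simp
      | cons x m => simp only [List.tail_cons, sz_cons]; omega
    have h4 : (PA2_step (c, m) b).2 = m.tail := rfl
    have h5 : sz (PA2_step (c, m) b) = sz (PA2_step (c, m) b).1 + sz (PA2_step (c, m) b).2 + 1 :=
      rfl
    rw [h5, h4]
    simp only [sz_pair, eval_ofNat]
    omega
  have h2 : PolyF (fun p : List β × List β => (p.1.foldl PA2_step (true, p.2)).1 &&
      (p.1.foldl PA2_step (true, p.2)).2.isEmpty) := by fun_prop
  refine h2.congrF fun p => ?_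
  rw [PA2_run, Bool.true_and]⟩

theorem stmt_PA2 : Stmt_PA2 := by
  refine ⟨fun α β _ _ U l hU => PA2_tup α β U l hU, ?_, fun β _ _ _ => PA2_eq β⟩
  intro α _ U l hU
  induction l with
  | zero =>
    simp only [allT]
    exact PA2_tup α ℕ U 0 hU
  | succ l ih =>
    simp only [allT]
    exact PolyF.append (PA2_tup α ℕ U (l + 1) hU) ih

end Pool.Ker
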