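import Pool.Agent.Work.MP_2df4ce_k.InterfaceP

/-! # MP_2df4ce_k, block PA3: the greedy packing -/

set_option autoImplicit false

namespace Pool.Ker

open St Alg Pool.Agent.Work.TMLib Polynomial

theorem stmt_PA3 (hPA1 : Stmt_PA1) : Stmt_PA3 := by
  intro α _ N c ts hN hc hts
  obtain ⟨-, -, -, hdis, -⟩ := hPA1
  obtain ⟨q, hq⟩ := hts.size
  unfold pack
  refine PolyF.foldl_add (l := ts) (g := fun _ => [])
    (h := fun a acc t => bif c a t && (disB t (acc.flatMap fun x => x) &&
      decide (acc.length < N a)) then acc ++ [t] else acc) hts (by fun_prop) ?_ q ?_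
  · refine PolyF.cond (PolyF.and ?_ (PolyF.and ?_ (by fun_prop))) (by fun_prop) (by fun_prop)
    · exact PolyF.comp (f := fun p : α × List ℕ => c p.1 p.2)
        (g := fun p : α × List (List ℕ) × List ℕ => (p.1, p.2.2)) hc (by fun_prop)
    · refine hdis _ (fun p : α × List (List ℕ) × List ℕ => p.2.2)
        (fun p => p.2.1.flatMap fun x => x) (by fun_prop) ?_
      exact PolyF.flatMap (l := fun p : α × List (List ℕ) × List ℕ => p.2.1)
        (f := fun _ x => x) (by fun_prop) (by fun_prop)
  · intro a s b hb
    have h1 := sz_le_of_mem hb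
    have h2 := hq a
    have h3 := sz_append s [b]
    rw [sz_cons, sz_nil] at h3
    cases c a b && (disB b (s.flatMap fun x => x) && decide (s.length < N a))
    · simp only [cond_false]
      omega
    · simp only [cond_true]
      omega

end Pool.Ker
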