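import Pool.Agent.Work.MP_2df4ce_k.InterfaceP

/-!
# MP_2df4ce_lc: block PA4
-/

set_option autoImplicit false

namespace Pool.Ker

open St Alg Pool.Agent.Work.TMLib

section
variable {α β : Type} [DE α] [DE β]

theorem PA4_any {l : α → List β} {f : α → β → Bool} (hl : PolyF l)
    (hf : PolyF (fun p : α × β => f p.1 p.2)) : PolyF (fun a => (l a).any (f a)) := by
  have h : PolyF (fun a => !((l a).all (fun b => !(f a b)))) := by
    refine PolyF.not (PolyF.all hl (f := fun a b => !(f a b)) ?_)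
    fun_prop
  refine h.congrF fun a => ?_
  rw [List.not_all_eq_any_not]
  simp

theorem PA4_obB (h1 : Stmt_PA1) (h2 : Stmt_PA2) (OL : List (ℕ × List Bool))
    {E : α → List (ℕ × ℕ)} {t : α → List ℕ} (hE : PolyF E) (ht : PolyF t) :
    PolyF (fun a => obB OL (E a) (t a)) := by
  have : PEq (List Bool) := h2.2.2 Bool
  have hap : PolyF (fun a => apat (E a) (t a) (t a)) := h1.2.2.1 α E t t hE ht ht
  unfold obB
  refine PolyF.and (h1.2.2.2.2 α t ht) ?_
  refine PA4_any (l := fun _ => OL)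
    (f := fun a g => decide (g = ((t a).length, apat (E a) (t a) (t a)))) (by fun_prop) ?_
  refine PolyF.eq (by fun_prop) ?_
  refine PolyF.pair (by fun_prop) ?_
  exact PolyF.comp (f := fun a => apat (E a) (t a) (t a))
    (g := fun p : α × (ℕ × List Bool) => p.1) hap (by fun_prop)

theorem PA4_packO (h1 : Stmt_PA1) (h2 : Stmt_PA2) (h3 : Stmt_PA3)
    (OL : List (ℕ × List Bool)) (s : ℕ) {n k : α → ℕ} {E : α → List (ℕ × ℕ)} (hn : PolyF n)
    (hk : PolyF k) (hE : PolyF E) : PolyF (fun a => packO OL s (n a) (k a) (E a)) := by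
  unfold packO
  refine h3 α (fun a => k a + 1) (fun a => obB OL (E a)) (fun a => allT (List.range (n a)) s)
    (by fun_prop) ?_ ?_
  · exact PA4_obB h1 h2 OL (E := fun p : α × List ℕ => E p.1) (t := fun p => p.2) (by fun_prop)
      (by fun_prop)
  · exact h2.2.1 α (fun a => List.range (n a)) s (by fun_prop)

theorem PA4_restL (h1 : Stmt_PA1) {n : α → ℕ} {P : α → List (List ℕ)} (hn : PolyF n)
    (hP : PolyF P) : PolyF (fun a => restL (n a) (P a)) := by
  unfold restL
  have hf : PolyF (fun a => (P a).flatMap fun x => x) :=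
    PolyF.flatMap (f := fun _ x => x) hP (by fun_prop)
  refine PolyF.filter (f := fun a v => !(memB ((P a).flatMap fun x => x) v)) (by fun_prop) ?_
  refine PolyF.not ?_
  exact h1.2.1 (α × ℕ) (fun p => (P p.1).flatMap fun x => x) (fun p => p.2)
    (PolyF.comp (f := fun a => (P a).flatMap fun x => x) (g := fun p : α × ℕ => p.1) hf
      (by fun_prop)) (by fun_prop)

theorem PA4_vote (h1 : Stmt_PA1) (D : ℕ) {E : α → List (ℕ × ℕ)} {A : α → List ℕ} {v : α → ℕ}
    (hE : PolyF E) (hA : PolyF A) (hv : PolyF v) : PolyF (fun a => vote D (E a) (A a) (v a)) := by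
  unfold vote
  refine PolyF.lt (by fun_prop) ?_
  refine PolyF.length ?_
  refine PolyF.filter (f := fun a x => adj (E a) (v a) x) hA ?_
  exact h1.1 (α × ℕ) (fun p => E p.1) (fun p => v p.1) (fun p => p.2) (by fun_prop)
    (by fun_prop) (by fun_prop)

theorem PA4_rowB (h1 : Stmt_PA1) (D : ℕ) {E : α → List (ℕ × ℕ)} {Sa : α → List (List ℕ)}
    {v : α → ℕ} (hE : PolyF E) (hSa : PolyF Sa) (hv : PolyF v) :
    PolyF (fun a => rowB D (E a) (Sa a) (v a)) := by
  unfold rowB
  refine PolyF.map (f := fun a A => vote D (E a) A (v a)) hSa ?_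
  exact PA4_vote h1 D (E := fun p : α × List ℕ => E p.1) (A := fun p => p.2)
    (v := fun p => v p.1) (by fun_prop) (by fun_prop) (by fun_prop)

theorem PA4_labB (h1 : Stmt_PA1) (h2 : Stmt_PA2) (D : ℕ) {E : α → List (ℕ × ℕ)}
    {Sa : α → List (List ℕ)} {v : α → ℕ} (hE : PolyF E) (hSa : PolyF Sa) (hv : PolyF v) :
    PolyF (fun a => labB D (E a) (Sa a) (v a)) := by
  have : PEq (List Bool) := h2.2.2 Bool
  unfold labB
  refine PolyF.headD ?_ (by fun_prop)
  refine PolyF.filter (f := fun a i => !(((Sa a).getD i []).isEmpty) &&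
    decide (rowB D (E a) (Sa a) (v a) = rowB D (E a) (Sa a) (((Sa a).getD i []).headD 0)))
    (by fun_prop) ?_
  refine PolyF.and (by fun_prop) ?_
  refine PolyF.eq ?_ ?_
  · exact PA4_rowB h1 D (E := fun p : α × ℕ => E p.1) (Sa := fun p => Sa p.1)
      (v := fun p => v p.1) (by fun_prop) (by fun_prop) (by fun_prop)
  · exact PA4_rowB h1 D (E := fun p : α × ℕ => E p.1) (Sa := fun p => Sa p.1)
      (v := fun p => ((Sa p.1).getD p.2 []).headD 0) (by fun_prop) (by fun_prop) (by fun_prop)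

theorem PA4_idB (h1 : Stmt_PA1) (D : ℕ) {E : α → List (ℕ × ℕ)} {Sa : α → List (List ℕ)}
    {i j : α → ℕ} (hE : PolyF E) (hSa : PolyF Sa) (hi : PolyF i) (hj : PolyF j) :
    PolyF (fun a => idB D (E a) (Sa a) (i a) (j a)) := by
  unfold idB
  refine PolyF.and ?_ ?_
  · exact PA4_vote h1 D (A := fun a => (Sa a).getD (j a) [])
      (v := fun a => ((Sa a).getD (i a) []).headD 0) hE (by fun_prop) (by fun_prop)
  · exact PA4_vote h1 D (A := fun a => (Sa a).getD (i a) [])
      (v := fun a => ((Sa a).getD (j a) []).headD 0) hE (by fun_prop) (by fun_prop)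

theorem PA4_labdB (h1 : Stmt_PA1) (h2 : Stmt_PA2) (D : ℕ) {E : α → List (ℕ × ℕ)}
    {Sa : α → List (List ℕ)} {v : α → ℕ} (hE : PolyF E) (hSa : PolyF Sa) (hv : PolyF v) :
    PolyF (fun a => labdB D (E a) (Sa a) (v a)) := by
  unfold labdB
  exact PolyF.lt (PA4_labB h1 h2 D hE hSa hv) (by fun_prop)

theorem PA4_defB (h1 : Stmt_PA1) (h2 : Stmt_PA2) (D : ℕ) {E : α → List (ℕ × ℕ)}
    {Sa : α → List (List ℕ)} {u v : α → ℕ} (hE : PolyF E) (hSa : PolyF Sa) (hu : PolyF u)
    (hv : PolyF v) : PolyF (fun a => defB D (E a) (Sa a) (u a) (v a)) := by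
  unfold defB
  refine PolyF.and (by fun_prop) (PolyF.not ?_)
  refine PolyF.eq (h1.1 α E u v hE hu hv) ?_
  exact PA4_idB h1 D (i := fun a => labB D (E a) (Sa a) (u a))
    (j := fun a => labB D (E a) (Sa a) (v a)) hE hSa (PA4_labB h1 h2 D hE hSa hu)
    (PA4_labB h1 h2 D hE hSa hv)

theorem PA4_exL (h1 : Stmt_PA1) (h2 : Stmt_PA2) (D cc : ℕ) {E : α → List (ℕ × ℕ)}
    {Sa : α → List (List ℕ)} {V : α → List ℕ} (hE : PolyF E) (hSa : PolyF Sa) (hV : PolyF V) :
    PolyF (fun a => exL D cc (E a) (Sa a) (V a)) := by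
  unfold exL
  refine PolyF.filter (f := fun a v => !(labdB D (E a) (Sa a) v) ||
    decide (D + cc < ((V a).filter fun u => labdB D (E a) (Sa a) u &&
      defB D (E a) (Sa a) v u).length)) hV ?_
  refine PolyF.or (PolyF.not ?_) ?_
  · exact PA4_labdB h1 h2 D (E := fun p : α × ℕ => E p.1) (Sa := fun p => Sa p.1)
      (v := fun p => p.2) (by fun_prop) (by fun_prop) (by fun_prop)
  · refine PolyF.lt (by fun_prop) (PolyF.length ?_)
    refine PolyF.filter (l := fun p : α × ℕ => V p.1) (f := fun p u => labdB D (E p.1) (Sa p.1) u &&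
      defB D (E p.1) (Sa p.1) p.2 u) (by fun_prop) ?_
    refine PolyF.and ?_ ?_
    · exact PA4_labdB h1 h2 D (E := fun p : (α × ℕ) × ℕ => E p.1.1) (Sa := fun p => Sa p.1.1)
        (v := fun p => p.2) (by fun_prop) (by fun_prop) (by fun_prop)
    · exact PA4_defB h1 h2 D (E := fun p : (α × ℕ) × ℕ => E p.1.1) (Sa := fun p => Sa p.1.1)
        (u := fun p => p.1.2) (v := fun p => p.2) (by fun_prop) (by fun_prop) (by fun_prop)
        (by fun_prop)

end

theorem stmt_PA4 : Stmt_PA1 → Stmt_PA2 → Stmt_PA3 → Stmt_PA4 := fun h1 h2 h3 =>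
  ⟨fun _ _ OL s _ _ _ hn hk hE => PA4_packO h1 h2 h3 OL s hn hk hE,
    fun _ _ _ _ hn hP => PA4_restL h1 hn hP,
    fun _ _ D _ _ _ hE hSa hv => PA4_labB h1 h2 D hE hSa hv,
    fun _ _ D _ _ _ _ hE hSa hu hv => PA4_defB h1 h2 D hE hSa hu hv,
    fun _ _ D cc _ _ _ hE hSa hV => PA4_exL h1 h2 D cc hE hSa hV⟩

end Pool.Ker
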