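import Pool.Agent.Work.MP_2df4ce_k.InterfaceP

/-!
# MP_2df4ce_lc: block PA5
-/

set_option autoImplicit false

namespace Pool.Ker

open St Alg Pool.Agent.Work.TMLib

section
variable {α β : Type} [DE α] [DE β]

theorem PA5_any {l : α → List β} {f : α → β → Bool} (hl : PolyF l)
    (hf : PolyF (fun p : α × β => f p.1 p.2)) : PolyF (fun a => (l a).any (f a)) := by
  have h : PolyF (fun a => !((l a).all (fun b => !(f a b)))) := by
    refine PolyF.not (PolyF.all hl (f := fun a b => !(f a b)) ?_)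
    fun_prop
  refine h.congrF fun a => ?_
  rw [List.not_all_eq_any_not]
  simp

theorem PA5_samp (h2 : Stmt_PA2) (h4 : Stmt_PA4) (D cc r : ℕ) {E : α → List (ℕ × ℕ)}
    {V : α → List ℕ} (hE : PolyF E) (hV : PolyF V) :
    PolyF (fun a => samp D cc r (E a) (V a)) := by
  unfold samp cands
  refine PolyF.headD ?_ (by fun_prop)
  refine PolyF.filter (f := fun a Sa => decide ((exL D cc (E a) Sa (V a)).length ≤ cc)) ?_ ?_
  · refine h2.1 α (List ℕ) (fun a => [] :: tup (V a) (2 * D + 2)) r ?_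
    exact PolyF.cons (by fun_prop) (h2.1 α ℕ V (2 * D + 2) hV)
  · refine PolyF.le (PolyF.length ?_) (by fun_prop)
    exact h4.2.2.2.2 (α × List (List ℕ)) D cc (fun p => E p.1) (fun p => p.2) (fun p => V p.1)
      (by fun_prop) (by fun_prop) (by fun_prop)

theorem PA5_memB (h1 : Stmt_PA1) {l : α → List ℕ} (hl : PolyF l) :
    PolyF (fun p : α × ℕ => memB (l p.1) p.2) :=
  h1.2.1 (α × ℕ) (fun p => l p.1) (fun p => p.2) (by fun_prop) (by fun_prop)

theorem PA5_regL (h1 : Stmt_PA1) (h4 : Stmt_PA4) (D cc : ℕ) {E : α → List (ℕ × ℕ)}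
    {Sa : α → List (List ℕ)} {V : α → List ℕ} (hE : PolyF E) (hSa : PolyF Sa) (hV : PolyF V) :
    PolyF (fun a => regL D cc (E a) (Sa a) (V a)) := by
  unfold regL
  refine PolyF.filter (f := fun a v => !(memB (exL D cc (E a) (Sa a) (V a)) v)) hV ?_
  refine PolyF.not ?_
  exact PA5_memB h1 (l := fun a => exL D cc (E a) (Sa a) (V a))
    (h4.2.2.2.2 α D cc E Sa V hE hSa hV)

theorem PA5_coL (h1 : Stmt_PA1) {n : α → ℕ} {R : α → List ℕ} (hn : PolyF n) (hR : PolyF R) :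
    PolyF (fun a => coL (n a) (R a)) := by
  unfold coL
  refine PolyF.filter (f := fun a v => !(memB (R a) v)) (by fun_prop) ?_
  exact PolyF.not (PA5_memB h1 hR)

theorem PA5_pat (h1 : Stmt_PA1) (h4 : Stmt_PA4) (D : ℕ) {E : α → List (ℕ × ℕ)}
    {Sa : α → List (List ℕ)} {zt t : α → List ℕ} (hE : PolyF E) (hSa : PolyF Sa)
    (hzt : PolyF zt) (ht : PolyF t) : PolyF (fun a => pat D (E a) (Sa a) (zt a) (t a)) := by
  unfold pat
  refine PolyF.pair (PolyF.pair ?_ ?_) ?_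
  · refine PolyF.map (f := fun a v => labB D (E a) (Sa a) v) ht ?_
    exact h4.2.2.1 (α × ℕ) D (fun p => E p.1) (fun p => Sa p.1) (fun p => p.2) (by fun_prop)
      (by fun_prop) (by fun_prop)
  · exact h1.2.2.1 α E t t hE ht ht
  · exact h1.2.2.1 α E t zt hE ht hzt

theorem PA5_packP (h1 : Stmt_PA1) (h2 : Stmt_PA2) (h3 : Stmt_PA3) (h4 : Stmt_PA4) (D s : ℕ)
    {N : α → ℕ} {E : α → List (ℕ × ℕ)} {Sa : α → List (List ℕ)} {R zt t0 : α → List ℕ}
    (hN : PolyF N) (hE : PolyF E) (hSa : PolyF Sa) (hR : PolyF R) (hzt : PolyF zt)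
    (ht0 : PolyF t0) : PolyF (fun a => packP D s (N a) (E a) (Sa a) (R a) (zt a) (t0 a)) := by
  have : PEq (List Bool) := h2.2.2 Bool
  have : PEq (List ℕ) := h2.2.2 ℕ
  unfold packP
  refine h3 α N (fun a t => nodB t &&
    decide (pat D (E a) (Sa a) (zt a) t = pat D (E a) (Sa a) (zt a) (t0 a)))
    (fun a => allT (R a) s) hN ?_ (h2.2.1 α R s hR)
  refine PolyF.and (h1.2.2.2.2 (α × List ℕ) (fun p => p.2) (by fun_prop)) ?_
  refine PolyF.eq ?_ ?_
  · exact PA5_pat h1 h4 D (E := fun p : α × List ℕ => E p.1) (Sa := fun p => Sa p.1)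
      (zt := fun p => zt p.1) (t := fun p => p.2) (by fun_prop) (by fun_prop) (by fun_prop)
      (by fun_prop)
  · exact PA5_pat h1 h4 D (E := fun p : α × List ℕ => E p.1) (Sa := fun p => Sa p.1)
      (zt := fun p => zt p.1) (t := fun p => t0 p.1) (by fun_prop) (by fun_prop) (by fun_prop)
      (by fun_prop)

theorem PA5_Ml (h1 : Stmt_PA1) (h2 : Stmt_PA2) (h3 : Stmt_PA3) (h4 : Stmt_PA4) (D s : ℕ)
    {N n : α → ℕ} {E : α → List (ℕ × ℕ)} {Sa : α → List (List ℕ)} {Z R : α → List ℕ}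
    (hN : PolyF N) (hn : PolyF n) (hE : PolyF E) (hSa : PolyF Sa) (hZ : PolyF Z)
    (hR : PolyF R) : PolyF (fun a => Ml D s (N a) (n a) (E a) (Sa a) (Z a) (R a)) := by
  unfold Ml
  refine PolyF.filter (f := fun a v => (allT (Z a) s).any fun zt => (allT (R a) s).any fun t0 =>
    (packP D s (N a) (E a) (Sa a) (R a) zt t0).any fun t => memB t v) (by fun_prop) ?_
  refine PA5_any (l := fun p : α × ℕ => allT (Z p.1) s)
    (f := fun p zt => (allT (R p.1) s).any fun t0 =>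
      (packP D s (N p.1) (E p.1) (Sa p.1) (R p.1) zt t0).any fun t => memB t p.2)
    (h2.2.1 (α × ℕ) (fun p => Z p.1) s (by fun_prop)) ?_
  refine PA5_any (l := fun p : (α × ℕ) × List ℕ => allT (R p.1.1) s)
    (f := fun p t0 =>
      (packP D s (N p.1.1) (E p.1.1) (Sa p.1.1) (R p.1.1) p.2 t0).any fun t => memB t p.1.2)
    (h2.2.1 ((α × ℕ) × List ℕ) (fun p => R p.1.1) s (by fun_prop)) ?_
  refine PA5_any (l := fun p : ((α × ℕ) × List ℕ) × List ℕ =>
      packP D s (N p.1.1.1) (E p.1.1.1) (Sa p.1.1.1) (R p.1.1.1) p.1.2 p.2)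
    (f := fun p t => memB t p.1.1.2) ?_ ?_
  · exact PA5_packP h1 h2 h3 h4 D s (N := fun p : ((α × ℕ) × List ℕ) × List ℕ => N p.1.1.1)
      (E := fun p => E p.1.1.1) (Sa := fun p => Sa p.1.1.1) (R := fun p => R p.1.1.1)
      (zt := fun p => p.1.2) (t0 := fun p => p.2) (by fun_prop) (by fun_prop) (by fun_prop)
      (by fun_prop) (by fun_prop) (by fun_prop)
  · exact h1.2.1 ((((α × ℕ) × List ℕ) × List ℕ) × List ℕ) (fun p => p.2)
      (fun p => p.1.1.1.2) (by fun_prop) (by fun_prop)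

theorem PA5_stepB (h1 : Stmt_PA1) (h4 : Stmt_PA4) (D : ℕ) {n : α → ℕ} {E : α → List (ℕ × ℕ)}
    {Sa : α → List (List ℕ)} {R B : α → List ℕ} (hn : PolyF n) (hE : PolyF E) (hSa : PolyF Sa)
    (hR : PolyF R) (hB : PolyF B) : PolyF (fun a => stepB D (n a) (E a) (Sa a) (R a) (B a)) := by
  unfold stepB
  refine PolyF.filter (f := fun a v => memB (B a) v || (B a).any fun u =>
    memB (R a) u && (memB (R a) v && defB D (E a) (Sa a) u v)) (by fun_prop) ?_
  refine PolyF.or (PA5_memB h1 hB) ?_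
  refine PA5_any (l := fun p : α × ℕ => B p.1)
    (f := fun p u => memB (R p.1) u && (memB (R p.1) p.2 && defB D (E p.1) (Sa p.1) u p.2))
    (by fun_prop) ?_
  refine PolyF.and ?_ (PolyF.and ?_ ?_)
  · exact h1.2.1 ((α × ℕ) × ℕ) (fun p => R p.1.1) (fun p => p.2) (by fun_prop) (by fun_prop)
  · exact h1.2.1 ((α × ℕ) × ℕ) (fun p => R p.1.1) (fun p => p.1.2) (by fun_prop) (by fun_prop)
  · exact h4.2.2.2.1 ((α × ℕ) × ℕ) D (fun p => E p.1.1) (fun p => Sa p.1.1) (fun p => p.2)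
      (fun p => p.1.2) (by fun_prop) (by fun_prop) (by fun_prop) (by fun_prop)

theorem PA5_startB (h1 : Stmt_PA1) {n : α → ℕ} {Z M : α → List ℕ} (hn : PolyF n) (hZ : PolyF Z)
    (hM : PolyF M) : PolyF (fun a => startB (n a) (Z a) (M a)) := by
  unfold startB
  refine PolyF.filter (f := fun a v => memB (Z a) v || memB (M a) v) (by fun_prop) ?_
  exact PolyF.or (PA5_memB h1 hZ) (PA5_memB h1 hM)

end

theorem stmt_PA5 : Stmt_PA1 → Stmt_PA2 → Stmt_PA3 → Stmt_PA4 → Stmt_PA5 := fun h1 h2 h3 h4 =>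
  ⟨fun _ _ D cc r _ _ hE hV => PA5_samp h2 h4 D cc r hE hV,
    fun _ _ D cc _ _ _ hE hSa hV => PA5_regL h1 h4 D cc hE hSa hV,
    fun _ _ _ _ hn hR => PA5_coL h1 hn hR,
    fun _ _ D s _ _ _ _ _ _ hN hn hE hSa hZ hR => PA5_Ml h1 h2 h3 h4 D s hN hn hE hSa hZ hR,
    fun _ _ D _ _ _ _ _ hn hE hSa hR hB => PA5_stepB h1 h4 D hn hE hSa hR hB,
    fun _ _ _ _ _ hn hZ hM => PA5_startB h1 hn hZ hM⟩

end Pool.Ker
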