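import Pool.Agent.Work.MP_2df4ce_k.InterfaceP

/-! # MP_2df4ce_k, block PA6: the kernelization is polynomial -/

set_option autoImplicit false

namespace Pool.Ker

open St Alg Pool.Agent.Work.TMLib Polynomial

theorem PA6_sz_filter {γ : Type} [DE γ] (l : List γ) (f : γ → Bool) :
    sz (l.filter f) ≤ sz l := by
  induction l with
  | nil => simp
  | cons e es ih =>
    rw [List.filter_cons]
    split_ifs
    · simp only [sz_cons]; omega
    · simp only [sz_cons]; omega

/-- The instance induced on a list of vertices. -/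
theorem PA6_sub (hPA1 : Stmt_PA1) (α : Type) [DE α] (E : α → List (ℕ × ℕ)) (k : α → ℕ)
    (K : α → List ℕ) (hE : PolyF E) (hk : PolyF k) (hK : PolyF K) :
    PolyF (fun a => sub (E a) (k a) (K a)) := by
  obtain ⟨hadj, -, -, -, -⟩ := hPA1
  unfold sub
  refine PolyF.pair (by fun_prop) (PolyF.pair ?_ hk)
  refine PolyF.flatMap (f := fun a i => ((List.range (K a).length).filter fun j =>
    decide (i < j) && adj (E a) ((K a).getD i 0) ((K a).getD j 0)).map fun j => (i, j))
    (by fun_prop) ?_
  refine PolyF.map (l := fun p : α × ℕ => (List.range (K p.1).length).filter fun j =>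
    decide (p.2 < j) && adj (E p.1) ((K p.1).getD p.2 0) ((K p.1).getD j 0))
    (f := fun p j => (p.2, j)) ?_ (by fun_prop)
  refine PolyF.filter (l := fun p : α × ℕ => List.range (K p.1).length)
    (f := fun p j => decide (p.2 < j) && adj (E p.1) ((K p.1).getD p.2 0) ((K p.1).getD j 0))
    (by fun_prop) ?_
  refine PolyF.and (by fun_prop) ?_
  exact hadj _ (fun q : (α × ℕ) × ℕ => E q.1.1) (fun q => (K q.1.1).getD q.1.2 0)
    (fun q => (K q.1.1).getD q.2 0) (by fun_prop) (by fun_prop) (by fun_prop)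

/-- The kernel vertices, from the packing `P`. -/
theorem PA6_vk (hPA4 : Stmt_PA4) (hPA5 : Stmt_PA5) (s r D cc : ℕ) (α : Type) [DE α]
    (n k : α → ℕ) (E : α → List (ℕ × ℕ)) (P : α → List (List ℕ)) (hn : PolyF n) (hk : PolyF k)
    (hE : PolyF E) (hP : PolyF P) :
    PolyF (fun a => vk s r D cc (n a) (k a) (E a) (P a)) := by
  obtain ⟨-, hrest, -, -, -⟩ := hPA4
  obtain ⟨hsamp, hreg, hco, hMl, hstep, hstart⟩ := hPA5
  have hV : PolyF (fun a => restL (n a) (P a)) := hrest α n P hn hP
  have hSa : PolyF (fun a => samp D cc r (E a) (restL (n a) (P a))) :=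
    hsamp α D cc r E (fun a => restL (n a) (P a)) hE hV
  have hR : PolyF (fun a => regL D cc (E a) (samp D cc r (E a) (restL (n a) (P a)))
      (restL (n a) (P a))) :=
    hreg α D cc E _ _ hE hSa hV
  have hZ : PolyF (fun a => coL (n a) (regL D cc (E a) (samp D cc r (E a) (restL (n a) (P a)))
      (restL (n a) (P a)))) := hco α n _ hn hR
  have hN : PolyF (fun a => Nc s (D + cc) (k a)) := by
    unfold Nc
    fun_prop
  have hM : PolyF (fun a => Ml D s (Nc s (D + cc) (k a)) (n a) (E a)
      (samp D cc r (E a) (restL (n a) (P a)))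
      (coL (n a) (regL D cc (E a) (samp D cc r (E a) (restL (n a) (P a))) (restL (n a) (P a))))
      (regL D cc (E a) (samp D cc r (E a) (restL (n a) (P a))) (restL (n a) (P a)))) :=
    hMl α D s _ n E _ _ _ hN hn hE hSa hZ hR
  have hS := hstart α n _ _ hn hZ hM
  have hrad : PolyF (fun a => Rad s (D + cc) (Ln (k a)) + s + 1) := by
    unfold Rad Ln
    fun_prop
  obtain ⟨q, hq⟩ := (PolyF.range hn).size
  unfold vk
  refine PolyF.iterate_add (n := fun a => Rad s (D + cc) (Ln (k a)) + s + 1)
    (h := fun a B => stepB D (n a) (E a) (samp D cc r (E a) (restL (n a) (P a)))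
      (regL D cc (E a) (samp D cc r (E a) (restL (n a) (P a))) (restL (n a) (P a))) B)
    hrad hS ?_ q ?_
  · exact hstep (α × List ℕ) D (fun p => n p.1) (fun p => E p.1)
      (fun p => samp D cc r (E p.1) (restL (n p.1) (P p.1)))
      (fun p => regL D cc (E p.1) (samp D cc r (E p.1) (restL (n p.1) (P p.1)))
        (restL (n p.1) (P p.1))) (fun p => p.2) (by fun_prop) (by fun_prop) (by fun_prop)
      (by fun_prop) (by fun_prop)
  · intro a B
    have h1 := hq a
    have h2 := PA6_sz_filter (List.range (n a)) (fun v => memB B v || B.any fun u =>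
      memB (regL D cc (E a) (samp D cc r (E a) (restL (n a) (P a))) (restL (n a) (P a))) u &&
      (memB (regL D cc (E a) (samp D cc r (E a) (restL (n a) (P a))) (restL (n a) (P a))) v &&
      defB D (E a) (samp D cc r (E a) (restL (n a) (P a))) u v))
    unfold stepB
    omega

theorem stmt_PA6 (hPA1 : Stmt_PA1) (hPA4 : Stmt_PA4) (hPA5 : Stmt_PA5) : Stmt_PA6 := by
  intro OL s r D cc noI
  have hP : PolyF (fun I : Inst => packO OL s I.1 I.2.2 I.2.1) :=
    hPA4.1 Inst OL s (fun I => I.1) (fun I => I.2.2) (fun I => I.2.1) (by fun_prop) (by fun_prop)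
      (by fun_prop)
  have hv := PA6_vk hPA4 hPA5 s r D cc Inst (fun I => I.1) (fun I => I.2.2) (fun I => I.2.1)
    (fun I => packO OL s I.1 I.2.2 I.2.1) (by fun_prop) (by fun_prop) (by fun_prop) hP
  unfold kern
  refine PolyF.cond (by fun_prop) (by fun_prop) ?_
  exact PA6_sub hPA1 Inst (fun I => I.2.1) (fun I => I.2.2) _ (by fun_prop) (by fun_prop) hv

end Pool.Ker
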