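import Pool.Agent.Work.MP_2df4ce_k.InterfaceB

set_option autoImplicit false

namespace Pool.Ker

open Classical St Alg

theorem PAK_snoc (N : ℕ) (c : List ℕ → Bool) (ts : List (List ℕ)) (a : List ℕ) :
    pack N c (ts ++ [a]) =
      bif c a && (disB a ((pack N c ts).flatMap fun x => x) && decide ((pack N c ts).length < N))
      then pack N c ts ++ [a] else pack N c ts := by
  unfold pack
  rw [List.foldl_append]
  rfl

theorem stmt_PAK (hLBA : Stmt_LBA) : Stmt_PAK := by
  obtain ⟨-, -, -, -, -, hdis, -, -⟩ := hLBA
  intro N c ts
  induction ts using List.reverseRecOn with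
  | nil =>
    refine ⟨?_, ?_, ?_, ?_⟩
    · intro t ht
      simp [pack] at ht
    · simp [pack]
    · simp [pack]
    · intro _ t ht
      simp at ht
  | append_singleton ts a ih =>
    obtain ⟨h1, h2, h3, h4⟩ := ih
    rw [PAK_snoc]
    generalize pack N c ts = acc at h1 h2 h3 h4 ⊢
    by_cases hc : (c a && (disB a (acc.flatMap fun x => x) && decide (acc.length < N))) = true
    · rw [hc, cond_true]
      rw [Bool.and_eq_true, Bool.and_eq_true, decide_eq_true_eq, hdis] at hc
      obtain ⟨hc1, hc2, hc3⟩ := hc
      refine ⟨?_, ?_, ?_, ?_⟩
      · intro t ht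
        rcases List.mem_append.1 ht with ht | ht
        · exact ⟨List.mem_append_left _ (h1 t ht).1, (h1 t ht).2⟩
        · rw [List.mem_singleton] at ht
          subst ht
          exact ⟨List.mem_append_right _ (List.mem_singleton.2 rfl), hc1⟩
      · rw [List.length_append, List.length_singleton]
        omega
      · rw [List.pairwise_append]
        refine ⟨h3, List.pairwise_singleton _ _, ?_⟩
        intro t ht t' ht' x hx hx'
        rw [List.mem_singleton] at ht'
        subst ht'
        exact hc2 x hx' (List.mem_flatMap.2 ⟨t, ht, hx⟩)
      · intro hlen t ht hct hne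
        rw [List.length_append, List.length_singleton] at hlen
        rcases List.mem_append.1 ht with ht | ht
        · obtain ⟨t', ht', x, hx, hx'⟩ := h4 (by omega) t ht hct hne
          exact ⟨t', List.mem_append_left _ ht', x, hx, hx'⟩
        · rw [List.mem_singleton] at ht
          subst ht
          obtain ⟨x, hx⟩ := List.exists_mem_of_ne_nil _ hne
          exact ⟨t, List.mem_append_right _ (List.mem_singleton.2 rfl), x, hx, hx⟩
    · rw [Bool.not_eq_true] at hc
      rw [hc, cond_false]
      refine ⟨?_, h2, h3, ?_⟩
      · intro t ht
        exact ⟨List.mem_append_left _ (h1 t ht).1, (h1 t ht).2⟩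
      · intro hlen t ht hct hne
        rcases List.mem_append.1 ht with ht | ht
        · exact h4 hlen t ht hct hne
        · rw [List.mem_singleton] at ht
          subst ht
          rw [hct, decide_eq_true hlen, Bool.and_true, Bool.true_and] at hc
          have hnd : ¬ disB t (acc.flatMap fun x => x) = true := by
            rw [hc]
            decide
          rw [hdis] at hnd
          push Not at hnd
          obtain ⟨x, hx, hx'⟩ := hnd
          obtain ⟨t', ht', hxt'⟩ := List.mem_flatMap.1 hx'
          exact ⟨t', ht', x, hx, hxt'⟩

end Pool.Ker
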