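import Pool.Agent.Work.MP_2df4ce_k.InterfaceP

/-! # Block PEN (helper56): encodings -/

set_option autoImplicit false

namespace Pool.Ker

open St Alg Pool.Agent.Work.TMLib

namespace PEN

/-- The state of the parser: counter, phase, first number, second number, pending number, edges
(reversed). -/
abbrev State := ℕ × ℕ × ℕ × ℕ × ℕ × List (ℕ × ℕ)

/-- Number read. -/
def upd (c : ℕ) (s : ℕ × ℕ × ℕ × ℕ × List (ℕ × ℕ)) : ℕ × ℕ × ℕ × ℕ × List (ℕ × ℕ) :=
  ((bif decide (s.1 = 3) then 2 else s.1 + 1), (bif decide (s.1 = 0) then c else s.2.1),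
    (bif decide (s.1 = 1) then c else s.2.2.1), (bif decide (s.1 = 2) then c else 0),
    (bif decide (s.1 = 3) then (s.2.2.2.1, c) :: s.2.2.2.2 else s.2.2.2.2))

/-- One step of the parser. -/
def step (s : State) (c : Fin 2) : State :=
  bif decide (c.val = 0) then (s.1 + 1, s.2) else (0, upd s.1 s.2)

/-- The encoding of a number in `Fin 2`. -/
def eN (x : ℕ) : List (Fin 2) := List.replicate x 0 ++ [1]

/-- The encoding in `Fin 2`. -/
def eI (I : Inst) : List (Fin 2) := eN I.1 ++ eN I.2.2 ++ I.2.1.flatMap fun e => eN e.1 ++ eN e.2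

/-- The final state. -/
def run (w : List (Fin 2)) : State := w.foldl step (0, 0, 0, 0, 0, [])

/-- The parser. -/
def dec (w : List (Fin 2)) : Inst :=
  ((run w).2.2.1, (run w).2.2.2.2.2.reverse, (run w).2.2.2.1)

theorem rep (x k : ℕ) (s : ℕ × ℕ × ℕ × ℕ × List (ℕ × ℕ)) :
    (List.replicate x (0 : Fin 2)).foldl step (k, s) = (k + x, s) := by
  induction x generalizing k with
  | zero => rfl
  | succ x ih =>
    rw [List.replicate_succ, List.foldl_cons]
    show (List.replicate x (0 : Fin 2)).foldl step (k + 1, s) = _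
    rw [ih, Nat.add_assoc, Nat.add_comm 1 x]

theorem num (x : ℕ) (s : ℕ × ℕ × ℕ × ℕ × List (ℕ × ℕ)) :
    (eN x).foldl step (0, s) = (0, upd x s) := by
  unfold eN
  rw [List.foldl_append, rep, List.foldl_cons, List.foldl_nil, Nat.zero_add]
  rfl

theorem edges (L : List (ℕ × ℕ)) (n k p : ℕ) (es : List (ℕ × ℕ)) :
    ∃ p' : ℕ, (L.flatMap fun e => eN e.1 ++ eN e.2).foldl step (0, 2, n, k, p, es) =
      (0, 2, n, k, p', L.reverse ++ es) := by
  induction L generalizing p es with
  | nil => exact ⟨p, rfl⟩
  | cons e L ih =>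
    rw [List.flatMap_cons, List.foldl_append, List.foldl_append, num]
    have h1 : upd e.1 (2, n, k, p, es) = (3, n, k, e.1, es) := rfl
    rw [h1, num]
    have h2 : upd e.2 (3, n, k, e.1, es) = (2, n, k, 0, (e.1, e.2) :: es) := rfl
    rw [h2]
    obtain ⟨p', hp'⟩ := ih 0 ((e.1, e.2) :: es)
    refine ⟨p', ?_⟩
    rw [hp', List.reverse_cons, List.append_assoc, List.singleton_append]

theorem dec_enc (I : Inst) : dec (eI I) = I := by
  obtain ⟨n, E, k⟩ := I
  obtain ⟨p', hp'⟩ := edges E n k 0 []
  have h : run (eI (n, E, k)) = (0, 2, n, k, p', E.reverse ++ []) := by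
    unfold run eI
    rw [List.foldl_append, List.foldl_append, num, num]
    exact hp'
  unfold dec
  rw [h]
  simp

theorem val {α : Type} [DE α] {f : α → Fin 2} (hf : PolyF f) : PolyF (fun x => (f x).val) :=
  PolyF.comp (f := fun c : Fin 2 => c.val) (PolyF.of_G (PolyG.refl _) fun _ => rfl) hf

theorem polyF_run : PolyF run := by
  unfold run
  refine PolyF.foldl_add (l := fun s : List (Fin 2) => s)
    (g := fun _ => ((0, 0, 0, 0, 0, []) : State))
    (h := fun _ s c => step s c) (by fun_prop) (by fun_prop) ?_ 20 ?_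
  · have hv : PolyF (fun p : List (Fin 2) × State × Fin 2 => p.2.2.val) :=
      val (by fun_prop)
    unfold step upd
    fun_prop
  · intro a s c _
    obtain ⟨k, ph, n, kk, p, es⟩ := s
    unfold step upd
    simp only [Polynomial.eval_ofNat]
    cases decide (c.val = 0)
    · simp only [cond_false]
      by_cases h0 : ph = 0
      · subst h0
        simp only [sz_pair, sz_nat, decide_true, decide_false, cond_true, cond_false,
          show ¬ ((0 : ℕ) = 3) by decide, show ¬ ((0 : ℕ) = 1) by decide,
          show ¬ ((0 : ℕ) = 2) by decide]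
        omega
      by_cases h1 : ph = 1
      · subst h1
        simp only [sz_pair, sz_nat, decide_true, decide_false, cond_true, cond_false,
          show ¬ ((1 : ℕ) = 3) by decide, show ¬ ((1 : ℕ) = 0) by decide,
          show ¬ ((1 : ℕ) = 2) by decide]
        omega
      by_cases h2 : ph = 2
      · subst h2
        simp only [sz_pair, sz_nat, decide_true, decide_false, cond_true, cond_false,
          show ¬ ((2 : ℕ) = 3) by decide, show ¬ ((2 : ℕ) = 0) by decide,
          show ¬ ((2 : ℕ) = 1) by decide]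
        omega
      by_cases h3 : ph = 3
      · subst h3
        simp only [sz_pair, sz_nat, sz_cons, decide_true, decide_false, cond_true, cond_false,
          show ¬ ((3 : ℕ) = 2) by decide, show ¬ ((3 : ℕ) = 0) by decide,
          show ¬ ((3 : ℕ) = 1) by decide]
        omega
      · simp only [sz_pair, sz_nat, h0, h1, h2, h3, decide_false, cond_false]
        omega
    · simp only [cond_true, sz_pair, sz_nat]
      omega

theorem polyF_dec : PolyF dec := by
  unfold dec
  have h := polyF_run
  exact PolyF.pair (PolyF.fst (PolyF.snd (PolyF.snd h)))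
    (PolyF.pair (PolyF.reverse (PolyF.snd (PolyF.snd (PolyF.snd (PolyF.snd (PolyF.snd h))))))
      (PolyF.fst (PolyF.snd (PolyF.snd (PolyF.snd h)))))

theorem polyF_num {α : Type} [DE α] {f : α → ℕ} (hf : PolyF f) :
    PolyF (fun a => eN (f a)) := by
  have h : PolyF (fun a => (List.range (f a)).map (fun _ => (0 : Fin 2)) ++ [(1 : Fin 2)]) := by
    refine PolyF.append ?_ (PolyF.const _)
    exact PolyF.map (f := fun _ _ => (0 : Fin 2)) (by fun_prop) (PolyF.const _)
  refine h.congrF fun a => ?_
  unfold eN
  congr 1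
  simp

theorem polyF_eI : PolyF eI := by
  unfold eI
  refine PolyF.append (PolyF.append (polyF_num (by fun_prop)) (polyF_num (by fun_prop))) ?_
  refine PolyF.flatMap (l := fun I : Inst => I.2.1)
    (f := fun _ e => eN e.1 ++ eN e.2) (by fun_prop) ?_
  exact PolyF.append (polyF_num (by fun_prop)) (polyF_num (by fun_prop))

theorem eN_eq (x : ℕ) : (encNum x).map finTwoEquiv.symm = eN x := by
  unfold encNum eN
  rw [List.map_append, List.map_replicate]
  rfl

theorem eI_eq (I : Inst) : (Inst.enc I).map finTwoEquiv.symm = eI I := by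
  unfold Inst.enc eI
  rw [List.map_append, List.map_append, eN_eq, eN_eq, List.map_flatMap]
  simp only [List.map_append, eN_eq]

end PEN

theorem stmt_PEN : Stmt_PEN := by
  intro f hf
  refine PolyTime.of_PolyF (A := Bool) (B := Bool) (N := 2) (M := 2) finTwoEquiv.symm
    finTwoEquiv.symm (g := fun s => PEN.eI (f (PEN.dec s))) ?_ ?_
  · exact PolyF.comp (f := PEN.eI) PEN.polyF_eI (PolyF.comp (f := f) hf PEN.polyF_dec)
  · intro I
    simp only [PEN.eI_eq, PEN.dec_enc]

end Pool.Ker
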