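import Pool.Agent.Work.MP_2df4ce_k.InterfaceB

/-!
# MP_2df4ce_lc, block PFR
-/

set_option autoImplicit false

namespace Pool.Ker

open Classical St Alg

theorem PFR_sum (l : List (List ℕ)) (s : ℕ) (h : ∀ t ∈ l, t.length ≤ s) :
    (l.flatMap fun x => x).length ≤ l.length * s := by
  induction l with
  | nil => simp
  | cons a l ih =>
    have h1 := h a (by simp)
    have h2 := ih (fun t ht => h t (by simp [ht]))
    simp only [List.flatMap_cons, List.length_append, List.length_cons]
    nlinarith

theorem stmt_PFR : Stmt_IOB → Stmt_PKN → Stmt_LBA → Stmt_PAK → Stmt_OBT → Stmt_PFR := by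
  intro hIOB hPKN hLBA hPAK hOBT F OL s hOL hB n k E
  obtain ⟨lmem, -, -, lall, -, -, -, -⟩ := hLBA
  obtain ⟨hmem, -, hpw, hmax⟩ := hPAK (k + 1) (obB OL E) (allT (List.range n) s)
  obtain ⟨hob1, hob2⟩ := hOBT F OL s hOL hB E
  have hP : packO OL s n k E = pack (k + 1) (obB OL E) (allT (List.range n) s) := rfl
  rw [← hP] at hmem hpw hmax
  generalize packO OL s n k E = P at hmem hpw hmax
  constructor
  · intro hk
    have hlt : ∀ i : Fin (k + 1), (i : ℕ) < P.length := fun i => by
      have := i.2
      omega
    refine hPKN (gr E) (Finset.range n) s k (OF F) (hIOB F s hB)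
      (fun i => (P[(i : ℕ)]'(hlt i)).toFinset) ?_ ?_ ?_
    · intro i x hx
      rw [List.mem_toFinset] at hx
      have h1 := (lall (List.range n) _ s).1 (hmem _ (List.getElem_mem (hlt i))).1
      have h2 := h1.2 x hx
      rw [List.mem_range] at h2
      exact Finset.mem_range.2 h2
    · intro i
      exact (hob1 _ (hmem _ (List.getElem_mem (hlt i))).2).2.2.2
    · intro i j hij
      rw [List.pairwise_iff_getElem] at hpw
      rw [Finset.disjoint_left]
      intro x hx hx'
      rw [List.mem_toFinset] at hx hx'
      have hij' : (i : ℕ) ≠ (j : ℕ) := fun h => hij (Fin.ext h)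
      rcases lt_or_gt_of_ne hij' with h | h
      · exact hpw i j (hlt i) (hlt j) h x hx hx'
      · exact hpw j i (hlt j) (hlt i) h x hx' hx
  · intro hk
    have hfl : ∀ v, v ∈ (P.flatMap fun x => x) ↔ ∃ t ∈ P, v ∈ t := fun v => by
      rw [List.mem_flatMap]
    have hrest : ∀ v, v ∈ restL n P ↔ v ∈ List.range n ∧ v ∉ (P.flatMap fun x => x) := by
      intro v
      unfold restL
      rw [List.mem_filter]
      refine and_congr_right (fun _ => ?_)
      rw [← lmem]
      simp
    constructor
    · intro O hO hOF
      obtain ⟨t, ht1, ht2, ht3, ht4⟩ := hob2 O hOF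
      have hsub : ∀ x ∈ t, x ∈ restL n P := by
        intro x hx
        have h1 : x ∈ O := by
          rw [← ht1]
          exact List.mem_toFinset.2 hx
        exact List.mem_toFinset.1 (hO h1)
      have htall : t ∈ allT (List.range n) s :=
        (lall (List.range n) t s).2 ⟨ht2, fun x hx => ((hrest x).1 (hsub x hx)).1⟩
      obtain ⟨t', ht', x, hx, hx'⟩ := hmax (by omega) t htall ht4 ht3
      exact ((hrest x).1 (hsub x hx)).2 ((hfl x).2 ⟨t', ht', hx'⟩)
    · have hnd : (coL n (restL n P)).Nodup := by
        unfold coL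
        exact List.Nodup.filter _ List.nodup_range
      have hsub : coL n (restL n P) ⊆ (P.flatMap fun x => x) := by
        intro v hv
        unfold coL at hv
        rw [List.mem_filter] at hv
        by_contra hcon
        have h1 : v ∈ restL n P := (hrest v).2 ⟨hv.1, hcon⟩
        rw [← lmem] at h1
        rw [h1] at hv
        simp at hv
      have h1 := (List.Nodup.subperm hnd hsub).length_le
      have h2 := PFR_sum P s (fun t ht => (hob1 t (hmem t ht).2).2.2.1)
      have h3 : P.length * s ≤ k * s := Nat.mul_le_mul_right _ hk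
      calc (coL n (restL n P)).length ≤ (P.flatMap fun x => x).length := h1
        _ ≤ P.length * s := h2
        _ ≤ k * s := h3
        _ = s * k := Nat.mul_comm _ _

end Pool.Ker
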