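import Pool.Agent.Work.MP_2df4ce_k.Interface

set_option autoImplicit false

namespace Pool.Ker

open Classical

theorem stmt_PKN : Stmt_PKN := by
  intro G X s k Ob hOb Q hQX hQ hdisj
  rintro ⟨S, hS, hsol⟩
  have key : ∀ i, ∃ e ∈ S, ∀ x ∈ e, x ∈ Q i := by
    intro i
    by_contra hcon
    push Not at hcon
    apply hsol (Q i) (hQX i)
    have h1 := hOb.map G (ed G S) (Q i) id (hQ i) (Set.injOn_id _) (by
      intro x hx y hy
      show G.Adj x y ↔ x ≠ y ∧ ¬ (G.Adj x y ↔ s(x, y) ∈ S)
      have hxy : s(x, y) ∉ S := by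
        intro h
        obtain ⟨z, hz, hzQ⟩ := hcon _ h
        rcases Sym2.mem_iff.1 hz with rfl | rfl
        · exact hzQ hx
        · exact hzQ hy
      constructor
      · intro h
        exact ⟨h.ne, fun h' => hxy (h'.1 h)⟩
      · rintro ⟨-, h⟩
        by_contra h'
        exact h ⟨fun h1 => absurd h1 h', fun h1 => absurd h1 hxy⟩)
    rwa [Finset.image_id] at h1
  choose e he hein using key
  have hinj : Function.Injective e := by
    intro i j hij
    by_contra hne
    have h1 := Finset.disjoint_left.1 (hdisj i j hne)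
    obtain ⟨x, hx⟩ : ∃ x, x ∈ e i := by
      induction e i using Sym2.inductionOn with
      | _ a b => exact ⟨a, Sym2.mem_mk_left a b⟩
    exact h1 (hein i x hx) (hein j x (hij ▸ hx))
  have h2 : (Finset.univ : Finset (Fin (k + 1))).card ≤ S.card :=
    Finset.card_le_card_of_injOn e (fun i _ => he i) hinj.injOn
  rw [Finset.card_univ, Fintype.card_fin] at h2
  omega

end Pool.Ker
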