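import Pool.Agent.Work.MP_2df4ce_k.InterfaceE

/-!
# MP_2df4ce_lc, block RAM: Ramsey's theorem for two colours
-/

set_option autoImplicit false

namespace Pool.Ker

theorem RAM_insert {V : Type} (G : SimpleGraph V) (b : Bool) (v : V) (B : Finset V)
    [DecidableEq V] (hB : Hom G b B) (h : ∀ x ∈ B, G.Adj v x ↔ b = true) :
    Hom G b (insert v B) := by
  intro x hx y hy hxy
  rcases Finset.mem_insert.1 hx with rfl | hx'
  · rcases Finset.mem_insert.1 hy with rfl | hy'
    · exact absurd rfl hxy
    · exact h y hy'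
  · rcases Finset.mem_insert.1 hy with rfl | hy'
    · rw [G.adj_comm]
      exact h x hx'
    · exact hB x hx' y hy' hxy

theorem RAM_aux {V : Type} (G : SimpleGraph V) : ∀ (n a c : ℕ) (A : Finset V), a + c = n →
    2 ^ n ≤ A.card →
    (∃ B ⊆ A, B.card = a ∧ Hom G true B) ∨ (∃ B ⊆ A, B.card = c ∧ Hom G false B) := by
  classical
  intro n
  induction n with
  | zero =>
    intro a c A hac _
    left
    refine ⟨∅, Finset.empty_subset _, ?_, ?_⟩
    · rw [Finset.card_empty]; omega
    · intro x hx; simp at hx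
  | succ n ih =>
    intro a c A hac hA
    rcases Nat.eq_zero_or_pos a with ha | ha
    · left
      refine ⟨∅, Finset.empty_subset _, ?_, ?_⟩
      · rw [Finset.card_empty]; omega
      · intro x hx; simp at hx
    rcases Nat.eq_zero_or_pos c with hc | hc
    · right
      refine ⟨∅, Finset.empty_subset _, ?_, ?_⟩
      · rw [Finset.card_empty]; omega
      · intro x hx; simp at hx
    have hpos : 0 < A.card := lt_of_lt_of_le (by positivity) hA
    obtain ⟨v, hv⟩ := Finset.card_pos.1 hpos
    have h1 : (A.erase v).card = A.card - 1 := Finset.card_erase_of_mem hv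
    have h2 := Finset.card_filter_add_card_filter_not (s := A.erase v) (p := fun x => G.Adj v x)
    have h3 : 2 ^ (n + 1) = 2 ^ n + 2 ^ n := by ring
    have h4 : 2 ^ n ≤ ((A.erase v).filter fun x => G.Adj v x).card ∨
        2 ^ n ≤ ((A.erase v).filter fun x => ¬ G.Adj v x).card := by
      omega
    have hne : ∀ (B : Finset V) (p : V → Prop) [DecidablePred p],
        B ⊆ (A.erase v).filter p → v ∉ B ∧ B ⊆ A ∧ ∀ x ∈ B, p x := by
      intro B p _ hB
      refine ⟨fun h => ?_, fun x hx => ?_, fun x hx => ?_⟩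
      · have := Finset.mem_filter.1 (hB h)
        exact Finset.notMem_erase v A this.1
      · exact Finset.mem_of_mem_erase (Finset.mem_filter.1 (hB hx)).1
      · exact (Finset.mem_filter.1 (hB hx)).2
    rcases h4 with h4 | h4
    · rcases ih (a - 1) c _ (by omega) h4 with ⟨B, hB, hBc, hBh⟩ | ⟨B, hB, hBc, hBh⟩
      · obtain ⟨h5, h6, h7⟩ := hne B _ hB
        left
        refine ⟨insert v B, Finset.insert_subset hv h6, ?_, ?_⟩
        · rw [Finset.card_insert_of_notMem h5]; omega
        · exact RAM_insert G true v B hBh (fun x hx => ⟨fun _ => rfl, fun _ => h7 x hx⟩)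
      · obtain ⟨h5, h6, h7⟩ := hne B _ hB
        right
        exact ⟨B, h6, hBc, hBh⟩
    · rcases ih a (c - 1) _ (by omega) h4 with ⟨B, hB, hBc, hBh⟩ | ⟨B, hB, hBc, hBh⟩
      · obtain ⟨h5, h6, h7⟩ := hne B _ hB
        left
        exact ⟨B, h6, hBc, hBh⟩
      · obtain ⟨h5, h6, h7⟩ := hne B _ hB
        right
        refine ⟨insert v B, Finset.insert_subset hv h6, ?_, ?_⟩
        · rw [Finset.card_insert_of_notMem h5]; omega
        · exact RAM_insert G false v B hBh
            (fun x hx => ⟨fun h => absurd h (h7 x hx), fun h => absurd h (by simp)⟩)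

theorem stmt_RAM : Stmt_RAM := by
  intro h
  refine ⟨2 ^ (h + h), fun V _ G A hA => ?_⟩
  rcases RAM_aux G (h + h) h h A rfl hA with ⟨B, hB, hBc, hBh⟩ | ⟨B, hB, hBc, hBh⟩
  · exact ⟨B, hB, hBc, true, hBh⟩
  · exact ⟨B, hB, hBc, false, hBh⟩

end Pool.Ker
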