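import Pool.Agent.Work.MP_2df4ce_k.InterfaceB

/-!
# MP_2df4ce_lc, part B: block RDB (helper75)
-/

set_option autoImplicit false

namespace Pool.Ker

open Classical St Alg

theorem RDB_size (k : ℕ) : 2 ^ Ln k ≤ 2 * k + 1 := by
  unfold Ln
  rw [Nat.size_eq_bits_len]
  rcases Nat.eq_zero_or_pos k.size with h | h
  · rw [h]
    omega
  · obtain ⟨m, hm⟩ : ∃ m, k.size = m + 1 := ⟨k.size - 1, by omega⟩
    have h1 : 2 ^ m ≤ k := by
      rw [← Nat.lt_size]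
      omega
    rw [hm, pow_succ]
    omega

theorem stmt_RDB : Stmt_RDB := by
  intro s Δ
  refine ⟨(2 * Polynomial.X + 1) ^ (Δ * ((s + 1) * (2 * Δ + 1))) *
    Polynomial.C ((1 + Δ) ^ (s + 1)), fun k => ?_⟩
  rw [Polynomial.eval_mul, Polynomial.eval_pow, Polynomial.eval_add, Polynomial.eval_mul,
    Polynomial.eval_X, Polynomial.eval_one, Polynomial.eval_C, Polynomial.eval_ofNat]
  have h1 : Rad s Δ (Ln k) + s + 1 = (s + 1) * (2 * Δ + 1) * Ln k + (s + 1) := by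
    unfold Rad
    ring
  rw [h1, pow_add]
  refine Nat.mul_le_mul_right _ ?_
  have h2 : 1 + Δ ≤ 2 ^ Δ := by
    have := Nat.lt_two_pow_self (n := Δ)
    omega
  calc (1 + Δ) ^ ((s + 1) * (2 * Δ + 1) * Ln k)
      ≤ (2 ^ Δ) ^ ((s + 1) * (2 * Δ + 1) * Ln k) := Nat.pow_le_pow_left h2 _
    _ = (2 ^ Ln k) ^ (Δ * ((s + 1) * (2 * Δ + 1))) := by
        rw [← pow_mul, ← pow_mul]
        congr 1
        ring
    _ ≤ (2 * k + 1) ^ (Δ * ((s + 1) * (2 * Δ + 1))) := Nat.pow_le_pow_left (RDB_size k) _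

end Pool.Ker
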