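import Pool.Agent.Work.MP_2df4ce_k.Interface

/-!
# MP_2df4ce_lc, part A: block REP (replacement), helper75
-/

set_option autoImplicit false

namespace Pool.Ker

open Classical

theorem stmt_REP : Stmt_DFS → Stmt_EXT → Stmt_REP := by
  intro _ hEXT G X s Δ N k Z M lab W Ob hOb hC hN S H A B C hS hAX hBX hCX hAB hAC hBC hO hHA
    hBT hBG hBD hCT hCZ hCn
  have hcard : (A ∪ B ∪ C).card ≤ s := hOb.card _ _ hO
  -- the identity on `A`
  have h0 : Emb G S H Z M A lab A (fun x => x) :=
    { mem := fun x hx => Finset.mem_union_left _ hx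
      inj := fun _ _ _ _ h => h
      fz := fun _ _ _ => rfl
      fnz := fun _ _ h => ⟨h, rfl⟩
      adj := hHA }
  -- the vertices of `B`
  obtain ⟨f1, h1⟩ := hEXT G X s Δ N k Z M lab W hC hN S H A A B (fun x => x) hS hAX h0 hAB
    ((Finset.card_le_card Finset.subset_union_left).trans hcard) hBX hBT
    (fun x hx y hy => hBG x hx y (Finset.mem_union_right _ hy))
    (fun x hx a ha _ => hBG x hx a (Finset.mem_union_left _ ha))
    (by
      intro x hx a ha haZ
      rw [hBG x hx a (Finset.mem_union_left _ ha)]
      by_contra hc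
      refine hBD x hx a ha ⟨hBX hx, (hBT x hx).1, hAX ha, haZ, ?_, hc⟩
      rintro rfl
      exact (Finset.disjoint_left.mp hAB) ha hx)
  -- the vertices of `C`, one after the other
  have h2 : ∀ C' : Finset ℕ, C' ⊆ C → ∃ f : ℕ → ℕ, Emb G S H Z M A lab (A ∪ B ∪ C') f := by
    intro C'
    induction C' using Finset.induction_on with
    | empty =>
      intro _
      rw [Finset.union_empty]
      exact ⟨f1, h1⟩
    | insert x C' hx ih =>
      intro hsub
      have hxC : x ∈ C := hsub (Finset.mem_insert_self _ _)
      have hC'C : C' ⊆ C := fun y hy => hsub (Finset.mem_insert_of_mem hy)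
      obtain ⟨f, hf⟩ := ih hC'C
      have hins : A ∪ B ∪ insert x C' = A ∪ B ∪ C' ∪ {x} := by
        ext y
        simp only [Finset.mem_union, Finset.mem_insert, Finset.mem_singleton]
        tauto
      have hsubO : A ∪ B ∪ C' ∪ {x} ⊆ A ∪ B ∪ C := by
        rw [← hins]
        exact Finset.union_subset_union_right hsub
      have hxA : x ∉ A := fun h => (Finset.disjoint_left.mp hAC) h hxC
      have hxB : x ∉ B := fun h => (Finset.disjoint_left.mp hBC) h hxC
      have hdis : Disjoint (A ∪ B ∪ C') {x} := by
        rw [Finset.disjoint_singleton_right, Finset.mem_union, Finset.mem_union]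
        tauto
      rw [hins]
      refine hEXT G X s Δ N k Z M lab W hC hN S H A (A ∪ B ∪ C') {x} f hS hAX hf hdis
        ((Finset.card_le_card hsubO).trans hcard) ?_ ?_ ?_ ?_ ?_
      · rw [Finset.singleton_subset_iff]
        exact hCX hxC
      · intro y hy
        rw [Finset.mem_singleton.mp hy]
        exact hCT x hxC
      · intro y hy z hz
        rw [Finset.mem_singleton.mp hy, Finset.mem_singleton.mp hz]
        exact ⟨fun h => absurd h (H.loopless.irrefl x), fun h => absurd h (G.loopless.irrefl x)⟩
      · intro y hy a ha haZ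
        rw [Finset.mem_singleton.mp hy]
        exact hCZ x hxC a (hsubO (Finset.mem_union_left _ ha)) haZ
      · intro y hy a ha haZ
        rw [Finset.mem_singleton.mp hy]
        refine hCn x hxC a (hsubO (Finset.mem_union_left _ ha)) haZ ?_
        rintro rfl
        exact (Finset.disjoint_left.mp hdis) ha (Finset.mem_singleton_self _)
  obtain ⟨f, hf⟩ := h2 C (le_refl C)
  refine ⟨(A ∪ B ∪ C).image f, ?_, hOb.map H (ed G S) (A ∪ B ∪ C) f hO ?_ hf.adj⟩
  · intro y hy
    obtain ⟨x, hx, rfl⟩ := Finset.mem_image.mp hy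
    exact hf.mem x hx
  · intro x hx y hy hxy
    exact hf.inj x hx y hy hxy

end Pool.Ker
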