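import Pool.Agent.Work.MP_2df4ce_k.InterfaceE

/-! # MP_2df4ce_lc, part E, block ROW -/

set_option autoImplicit false

namespace Pool.Ker

open Classical St

theorem ROW_num (m : ℕ) (hm : 1 ≤ m) : 2 * m + (2 * m + 2 * m * m) ≤ 16 * m ^ 3 := by
  obtain ⟨k, rfl⟩ : ∃ k, m = k + 1 := ⟨m - 1, by omega⟩
  nlinarith [Nat.zero_le k, Nat.zero_le (k ^ 2), Nat.zero_le (k ^ 3)]

theorem ROW_num2 (m : ℕ) (hm : 1 ≤ m) : 8 * m ≤ 16 * m ^ 3 := by
  obtain ⟨k, rfl⟩ : ∃ k, m = k + 1 := ⟨m - 1, by omega⟩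
  nlinarith [Nat.zero_le k, Nat.zero_le (k ^ 2), Nat.zero_le (k ^ 3)]

theorem stmt_ROW : Stmt_TWO → Stmt_SGT → Stmt_MIX → Stmt_ROW := by
  intro hTWO hSGT hMIX m V _ G hm hN r A b hS B β τ i hB hBc hty hbi hti j
  by_contra hne
  obtain ⟨hS1, hS2⟩ := hSGT m V G hm hN
  have h8 : ∀ l, 8 * m ≤ (A l).card := fun l => by
    rw [hS.card l]
    exact ROW_num2 m hm
  -- the good vertices of `A i`
  have hX1 := hS1 (A j) (A i) (b j) (b i) (hS.hom j) (hS.hom i) (h8 j)
  have hXc : 2 * m + 2 * m * m ≤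
      ((A i).filter fun x => ty m G (A j) x = sg m G (A j) (A i)).card := by
    have hs := Finset.card_filter_add_card_filter_not (s := A i)
      (fun x => ty m G (A j) x = sg m G (A j) (A i))
    have hn := ROW_num m hm
    have hc := hS.card i
    have hX1' : ((A i).filter fun x => ¬ ty m G (A j) x = sg m G (A j) (A i)).card < 2 * m := hX1
    omega
  obtain ⟨B', hB'B, hB'c⟩ := Finset.exists_subset_card_eq hBc
  have hB'hom : Hom G β B' := fun x hx y hy hxy => hB x (hB'B hx) y (hB'B hy) hxy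
  obtain ⟨A', hA'X, hA'c, hdis, hhom⟩ := hMIX m V G hm hN (A i) B'
    ((A i).filter fun x => ty m G (A j) x = sg m G (A j) (A i)) β
    (hbi ▸ hS.hom i) hB'hom (le_of_eq hB'c)
    (fun v hv => by rw [hty v (hB'B hv) i, hti]) (Finset.filter_subset _ _) hXc
  have hA'ty : ∀ x ∈ A', ty m G (A j) x = sg m G (A j) (A i) := fun x hx =>
    (Finset.mem_filter.mp (hA'X hx)).2
  have hB'ty : ∀ x ∈ B', ty m G (A j) x = τ j := fun x hx => hty x (hB'B hx) j
  have key : ∀ c : Bool, 2 * m ≤ ((A' ∪ B').filter fun v => ty m G (A j) v = c).card := by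
    intro c
    by_cases hc : c = τ j
    · calc 2 * m = B'.card := hB'c.symm
        _ ≤ _ := Finset.card_le_card (fun x hx => Finset.mem_filter.mpr
          ⟨Finset.mem_union_right _ hx, by rw [hB'ty x hx, hc]⟩)
    · have hc' : c = sg m G (A j) (A i) := by
        cases hcc : c <;> cases htt : τ j <;> cases hss : sg m G (A j) (A i) <;> simp_all
      calc 2 * m = A'.card := hA'c.symm
        _ ≤ _ := Finset.card_le_card (fun x hx => Finset.mem_filter.mpr
          ⟨Finset.mem_union_left _ hx, by rw [hA'ty x hx, hc']⟩)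
  exact hTWO m V G hm hN (A j) (A' ∪ B') (b j) β (hS.hom j) hhom (h8 j) ⟨key true, key false⟩

end Pool.Ker
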