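import Pool.Agent.Work.MP_2df4ce_k.InterfaceB

/-!
# MP_2df4ce_lc, block RPC: the copies chosen by the algorithm
-/

set_option autoImplicit false

namespace Pool.Ker

open Classical St Alg

theorem RPC_memM (hm : ∀ (l : List ℕ) (v : ℕ), memB l v = true ↔ v ∈ l) (D s N n : ℕ)
    (E : List (ℕ × ℕ)) (Sa : List (List ℕ)) (Z R : List ℕ) (x : ℕ) :
    x ∈ Ml D s N n E Sa Z R ↔ x < n ∧ ∃ zt ∈ allT Z s, ∃ t0 ∈ allT R s,
      ∃ t ∈ packP D s N E Sa R zt t0, x ∈ t := by
  unfold Ml
  simp only [List.mem_filter, List.mem_range, List.any_eq_true, hm]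

theorem RPC_memC (hm : ∀ (l : List ℕ) (v : ℕ), memB l v = true ↔ v ∈ l) (n : ℕ) (R : List ℕ)
    (x : ℕ) : x ∈ coL n R ↔ x < n ∧ x ∉ R := by
  unfold coL
  rw [List.mem_filter, List.mem_range, Bool.not_eq_true', ← Bool.not_eq_true, hm]

theorem RPC_getD_mem (t : List ℕ) (i : ℕ) (h : i < t.length) : t.getD i 0 ∈ t := by
  rw [List.getD_eq_getElem t 0 h]
  exact List.getElem_mem h

theorem RPC_getD_idx (t : List ℕ) (x : ℕ) (h : x ∈ t) : t.getD (t.idxOf x) 0 = x := by
  rw [List.getD_eq_getElem t 0 (List.idxOf_lt_length_of_mem h)]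
  exact List.getElem_idxOf _

theorem RPC_map (f : ℕ → ℕ) (t t' : List ℕ) (h : t.map f = t'.map f) (i : ℕ)
    (hi : i < t.length) (hi' : i < t'.length) : f (t.getD i 0) = f (t'.getD i 0) := by
  rw [List.getD_eq_getElem t 0 hi, List.getD_eq_getElem t' 0 hi']
  have h1 : (t.map f).getD i 0 = (t'.map f).getD i 0 := by rw [h]
  rw [List.getD_eq_getElem _ _ (by rwa [List.length_map]),
    List.getD_eq_getElem _ _ (by rwa [List.length_map]), List.getElem_map, List.getElem_map] at h1
  exact h1

theorem stmt_RPC (hLBA : Stmt_LBA) (hAPT : Stmt_APT) (hPAK : Stmt_PAK) : Stmt_RPC := by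
  obtain ⟨hm, -, -, hall, hnod, -, -, -⟩ := hLBA
  intro n D s N E Sa R hR
  constructor
  · intro x hx
    rw [RPC_memM hm] at hx
    obtain ⟨-, zt, -, t0, -, t, ht, hxt⟩ := hx
    exact ((hall R t s).1 ((hPAK N _ _).1 t ht).1).2 x hxt
  · intro P Z' hP hPM hPne hPs hZ' hZs
    set zt : List ℕ := Z'.toList with hzt
    set t0 : List ℕ := P.toList with ht0
    have hzall : zt ∈ allT (coL n R) s := by
      rw [hall]
      refine ⟨by rw [hzt, Finset.length_toList]; exact hZs, ?_⟩
      intro x hx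
      rw [hzt, Finset.mem_toList] at hx
      exact List.mem_toFinset.1 (hZ' hx)
    have hmem0 : ∀ x, x ∈ t0 ↔ x ∈ P := fun x => Finset.mem_toList
    have htR : ∀ x ∈ t0, x ∈ R := by
      intro x hx
      have h1 := hPM x ((hmem0 x).1 hx)
      by_contra h2
      refine h1.1 (List.mem_toFinset.2 ((RPC_memC hm n R x).2 ⟨?_, h2⟩))
      exact Finset.mem_range.1 (hP ((hmem0 x).1 hx))
    have ht0all : t0 ∈ allT R s := by
      rw [hall]
      exact ⟨by rw [ht0, Finset.length_toList]; exact hPs, htR⟩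
    have ht0ne : t0 ≠ [] := by
      obtain ⟨x, hx⟩ := hPne
      exact List.ne_nil_of_mem ((hmem0 x).2 hx)
    set Q : List (List ℕ) := packP D s N E Sa R zt t0 with hQ
    have hmemM : ∀ t ∈ Q, ∀ x ∈ t, x < n → x ∈ (Ml D s N n E Sa (coL n R) R).toFinset := by
      intro t ht x hx hxn
      rw [List.mem_toFinset, RPC_memM hm]
      exact ⟨hxn, zt, hzall, t0, ht0all, t, ht, hx⟩
    obtain ⟨hq1, hq2, hq3, hq4⟩ := hPAK N
      (fun t => nodB t && decide (pat D E Sa zt t = pat D E Sa zt t0)) (allT R s)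
    have hQN : Q.length = N := by
      refine le_antisymm hq2 ?_
      by_contra hlt
      push Not at hlt
      obtain ⟨t', ht', x, hx, hx'⟩ := hq4 hlt t0 ht0all (by
        simp only [Bool.and_eq_true, decide_eq_true_eq, and_true]
        rw [hnod]
        exact Finset.nodup_toList P) ht0ne
      exact (hPM x ((hmem0 x).1 hx)).2 (hmemM t' ht' x hx' (hR x (htR x hx)))
    have hQi : ∀ i : Fin N, (i : ℕ) < Q.length := fun i => by rw [hQN]; exact i.2
    set tt : Fin N → List ℕ := fun i => Q[(i : ℕ)]'(hQi i) with htt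
    have httQ : ∀ i, tt i ∈ Q := fun i => List.getElem_mem _
    have httR : ∀ i, ∀ x ∈ tt i, x ∈ R := fun i =>
      ((hall R _ s).1 (hq1 _ (httQ i)).1).2
    have httc : ∀ i, (tt i).Nodup ∧ pat D E Sa zt (tt i) = pat D E Sa zt t0 := by
      intro i
      have h1 := (hq1 _ (httQ i)).2
      simp only [Bool.and_eq_true, decide_eq_true_eq] at h1
      exact ⟨(hnod _).1 h1.1, h1.2⟩
    have hmap : ∀ i, (tt i).map (labB D E Sa) = t0.map (labB D E Sa) := by
      intro i
      exact congrArg (fun p => p.1.1) (httc i).2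
    have hap1 : ∀ i, apat E (tt i) (tt i) = apat E t0 t0 := by
      intro i
      exact congrArg (fun p => p.1.2) (httc i).2
    have hap2 : ∀ i, apat E (tt i) zt = apat E t0 zt := by
      intro i
      exact congrArg (fun p => p.2) (httc i).2
    have hlen : ∀ i, (tt i).length = t0.length := by
      intro i
      have h1 := congrArg List.length (hmap i)
      rwa [List.length_map, List.length_map] at h1
    have hidx : ∀ x ∈ P, t0.idxOf x < t0.length := fun x hx =>
      List.idxOf_lt_length_of_mem ((hmem0 x).2 hx)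
    have hcm : ∀ i, ∀ x ∈ P, (tt i).getD (t0.idxOf x) 0 ∈ tt i := by
      intro i x hx
      exact RPC_getD_mem _ _ (by rw [hlen i]; exact hidx x hx)
    refine ⟨fun i x => (tt i).getD (t0.idxOf x) 0, ?_, ?_⟩
    · intro i
      refine ⟨?_, ?_, ?_, ?_, ?_⟩
      · intro x hx
        exact hmemM _ (httQ i) _ (hcm i x hx) (hR _ (httR i _ (hcm i x hx)))
      · intro x hx y hy hxy
        have hx1 : t0.idxOf x < (tt i).length := by rw [hlen i]; exact hidx x hx
        have hy1 : t0.idxOf y < (tt i).length := by rw [hlen i]; exact hidx y hy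
        have hxy' : (tt i).getD (t0.idxOf x) 0 = (tt i).getD (t0.idxOf y) 0 := hxy
        rw [List.getD_eq_getElem _ _ hx1, List.getD_eq_getElem _ _ hy1,
          (httc i).1.getElem_inj_iff] at hxy'
        exact (List.idxOf_inj ((hmem0 x).2 hx)).1 hxy'
      · intro x hx
        have h1 := RPC_map (labB D E Sa) (tt i) t0 (hmap i) (t0.idxOf x)
          (by rw [hlen i]; exact hidx x hx) (hidx x hx)
        rw [RPC_getD_idx t0 x ((hmem0 x).2 hx)] at h1
        exact h1
      · intro x hx y hy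
        have h1 := (hAPT E E (tt i) t0 (tt i) t0 (hlen i) (hlen i)).1 (hap1 i) (t0.idxOf x)
          (t0.idxOf y) (by rw [hlen i]; exact hidx x hx) (by rw [hlen i]; exact hidx y hy)
        rw [RPC_getD_idx t0 x ((hmem0 x).2 hx), RPC_getD_idx t0 y ((hmem0 y).2 hy)] at h1
        change adj E _ _ = true ↔ adj E x y = true
        rw [h1]
      · intro x hx z hz
        have hz' : z ∈ zt := Finset.mem_toList.2 hz
        have h1 := (hAPT E E (tt i) t0 zt zt (hlen i) rfl).1 (hap2 i) (t0.idxOf x)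
          (zt.idxOf z) (by rw [hlen i]; exact hidx x hx) (List.idxOf_lt_length_of_mem hz')
        rw [RPC_getD_idx t0 x ((hmem0 x).2 hx), RPC_getD_idx zt z hz'] at h1
        change adj E _ z = true ↔ adj E x z = true
        rw [h1]
    · have hpw := List.pairwise_iff_getElem.1 hq3
      have key : ∀ i j : Fin N, i < j → ∀ x ∈ P, ∀ y ∈ P,
          (tt i).getD (t0.idxOf x) 0 ≠ (tt j).getD (t0.idxOf y) 0 := by
        intro i j hij x hx y hy h
        refine hpw i j (hQi i) (hQi j) hij _ (hcm i x hx) ?_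
        rw [h]
        exact hcm j y hy
      intro i j hij x hx y hy
      rcases lt_or_gt_of_ne hij with h | h
      · exact key i j h x hx y hy
      · exact fun h' => key j i h y hy x hx h'.symm

end Pool.Ker

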