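import Pool.Agent.Work.MP_2df4ce_k.InterfaceB

/-!
# MP_2df4ce_lc, part B: block SBB (helper75)
-/

set_option autoImplicit false

namespace Pool.Ker

open Classical St Alg

theorem SBB_flat {α β : Type} (f : α → List β) (B : ℕ) : ∀ l : List α,
    (∀ x ∈ l, (f x).length ≤ B) → (l.flatMap f).length ≤ l.length * B := by
  intro l
  induction l with
  | nil => intro _; simp
  | cons a l ih =>
    intro h
    rw [List.flatMap_cons, List.length_append, List.length_cons, Nat.succ_mul]
    have h1 := h a List.mem_cons_self
    have h2 := ih (fun x hx => h x (List.mem_cons_of_mem a hx))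
    omega

theorem SBB_adj (E : List (ℕ × ℕ)) (u v : ℕ) :
    adj E u v = true ↔ u ≠ v ∧ ((u, v) ∈ E ∨ (v, u) ∈ E) := by
  unfold adj
  simp only [Bool.and_eq_true, Bool.not_eq_true', decide_eq_false_iff_not, List.any_eq_true,
    Bool.or_eq_true, decide_eq_true_eq]
  constructor
  · rintro ⟨h1, ⟨a, b⟩, he, h2 | h2⟩
    · refine ⟨h1, Or.inl ?_⟩
      obtain ⟨h3, h4⟩ := h2
      have h3' : a = u := h3
      have h4' : b = v := h4
      rw [← h3', ← h4']
      exact he
    · refine ⟨h1, Or.inr ?_⟩
      obtain ⟨h3, h4⟩ := h2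
      have h3' : a = v := h3
      have h4' : b = u := h4
      rw [← h3', ← h4']
      exact he
  · rintro ⟨h1, h2 | h2⟩
    · exact ⟨h1, (u, v), h2, Or.inl ⟨rfl, rfl⟩⟩
    · exact ⟨h1, (v, u), h2, Or.inr ⟨rfl, rfl⟩⟩

theorem SBB_mem (E : List (ℕ × ℕ)) (k : ℕ) (K : List ℕ) (a b : ℕ) :
    (a, b) ∈ (sub E k K).2.1 ↔ a < K.length ∧ b < K.length ∧ a < b ∧
      adj E (K.getD a 0) (K.getD b 0) = true := by
  unfold sub
  simp only [List.mem_flatMap, List.mem_range, List.mem_map, List.mem_filter, Bool.and_eq_true,
    decide_eq_true_eq, Prod.mk.injEq]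
  constructor
  · rintro ⟨i, hi, j, ⟨hj, hij, hadj⟩, rfl, rfl⟩
    exact ⟨hi, hj, hij, hadj⟩
  · rintro ⟨ha, hb, hab, hadj⟩
    exact ⟨a, ha, b, ⟨hb, hab, hadj⟩, rfl, rfl⟩

theorem stmt_SBB : Stmt_LBA → Stmt_SBB := by
  intro hLBA E k K hK
  obtain ⟨-, -, -, -, -, -, hsym, hirr⟩ := hLBA
  have hget : ∀ i (hi : i < K.length), K.getD i 0 = K[i] := fun i hi =>
    List.getD_eq_getElem K 0 hi
  refine ⟨?_, ?_, ?_, ?_⟩
  · intro i j hi hj
    rw [Bool.eq_iff_iff, SBB_adj, SBB_mem, SBB_mem]
    constructor
    · rintro ⟨-, h | h⟩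
      · exact h.2.2.2
      · rw [hsym]
        exact h.2.2.2
    · intro h
      have hij : i ≠ j := by
        rintro rfl
        rw [hirr] at h
        exact absurd h (by simp)
      refine ⟨hij, ?_⟩
      rcases Nat.lt_or_gt_of_ne hij with h1 | h1
      · exact Or.inl ⟨hi, hj, h1, h⟩
      · refine Or.inr ⟨hj, hi, h1, ?_⟩
        rw [hsym]
        exact h
  · intro i j hi hj hij
    rw [hget i hi, hget j hj] at hij
    exact (hK.getElem_inj_iff).mp hij
  · ext x
    rw [Finset.mem_image, List.mem_toFinset, List.mem_iff_getElem]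
    constructor
    · rintro ⟨i, hi, hx⟩
      rw [Finset.mem_range] at hi
      exact ⟨i, hi, by rw [← hget i hi]; exact hx⟩
    · rintro ⟨i, hi, hx⟩
      exact ⟨i, Finset.mem_range.mpr hi, by rw [hget i hi]; exact hx⟩
  · have h1 : (sub E k K).enc.length = (K.length + 1) + (k + 1) +
        ((sub E k K).2.1.flatMap fun e => encNum e.1 ++ encNum e.2).length := by
      unfold Inst.enc encNum
      rw [List.length_append, List.length_append, List.length_append, List.length_append,
        List.length_replicate, List.length_replicate, List.length_singleton]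
      rfl
    rw [h1]
    have h2 : ((sub E k K).2.1.flatMap fun e => encNum e.1 ++ encNum e.2).length ≤
        (sub E k K).2.1.length * (2 * K.length) := by
      refine SBB_flat _ _ _ ?_
      rintro ⟨a, b⟩ he
      rw [SBB_mem] at he
      obtain ⟨ha, hb, -, -⟩ := he
      unfold encNum
      rw [List.length_append, List.length_append, List.length_append, List.length_replicate,
        List.length_replicate, List.length_singleton]
      show a + 1 + (b + 1) ≤ 2 * K.length
      omega
    have h3 : (sub E k K).2.1.length ≤ K.length * K.length := by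
      have h4 : (sub E k K).2.1.length ≤ (List.range K.length).length * K.length := by
        unfold sub
        refine SBB_flat _ _ _ (fun i _ => ?_)
        rw [List.length_map]
        refine (List.length_filter_le _ _).trans ?_
        rw [List.length_range]
      rwa [List.length_range] at h4
    have h5 : (sub E k K).2.1.length * (2 * K.length) ≤ K.length ^ 2 * (2 * K.length + 2) := by
      rw [pow_two]
      exact Nat.mul_le_mul h3 (by omega)
    omega

end Pool.Ker
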