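import Pool.Agent.Work.MP_2df4ce_k.InterfaceE

/-! # Block SBD: systems are short -/

set_option autoImplicit false

namespace Pool.Ker

open Classical St

theorem SBD_not {p : Prop} {σ : Bool} (h : ¬ (p ↔ σ = true)) : p ↔ σ = false := by
  by_cases hp : p <;> cases σ <;> simp_all

theorem SBD_pick (m r : ℕ) (b : Fin r → Bool) (hr : 2 * m ≤ r) :
    ∃ (b₀ : Bool) (a : Fin m → Fin r), Function.Injective a ∧ ∀ t, b (a t) = b₀ := by
  have key : ∃ b₀ : Bool, m ≤ (Finset.univ.filter fun i => b i = b₀).card := by
    by_contra hcon
    push Not at hcon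
    have h1 := hcon true
    have h2 := hcon false
    have h3 : (Finset.univ : Finset (Fin r)) ⊆
        (Finset.univ.filter fun i => b i = true) ∪ (Finset.univ.filter fun i => b i = false) := by
      intro i _
      cases hb : b i with
      | true => exact Finset.mem_union_left _ (Finset.mem_filter.2 ⟨Finset.mem_univ _, hb⟩)
      | false => exact Finset.mem_union_right _ (Finset.mem_filter.2 ⟨Finset.mem_univ _, hb⟩)
    have h4 := Finset.card_le_card h3
    have h5 := Finset.card_union_le (Finset.univ.filter fun i => b i = true)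
      (Finset.univ.filter fun i => b i = false)
    rw [Finset.card_univ, Fintype.card_fin] at h4
    omega
  obtain ⟨b₀, hb₀⟩ := key
  obtain ⟨I, hI, hIc⟩ := Finset.exists_subset_card_eq hb₀
  refine ⟨b₀, I.orderEmbOfFin hIc, (I.orderEmbOfFin hIc).injective, fun t => ?_⟩
  exact (Finset.mem_filter.1 (hI (I.orderEmbOfFin_mem hIc t))).2

theorem stmt_SBD (hSGT : Stmt_SGT) : Stmt_SBD := by
  intro m V _ G hm hNS hNC r A b hS
  by_contra hcon
  rw [not_lt] at hcon
  have hm3 : m ≤ m ^ 3 := Nat.le_self_pow (by norm_num) m
  have hm2 : m * m ≤ m ^ 3 := by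
    have : m ^ 3 = m * m * m := by ring
    rw [this]
    exact Nat.le_mul_of_pos_right _ hm
  obtain ⟨b₀, a, ha, hb⟩ := SBD_pick m r b hcon
  have hHom : ∀ t, Hom G b₀ (A (a t)) := fun t => hb t ▸ hS.hom (a t)
  have hsg : ∀ s t, s ≠ t → sg m G (A (a s)) (A (a t)) = !b₀ := by
    intro s t hst
    have h1 := hS.dist (a s) (a t) (fun h => hst (ha h)) ((hb s).trans (hb t).symm)
    rw [hb s] at h1
    cases h2 : sg m G (A (a s)) (A (a t)) <;> cases b₀ <;> simp_all
  have key : ∀ n, n ≤ m → ∃ C : Fin m → Finset V, ∀ t : Fin m, (t : ℕ) < n →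
      C t ⊆ A (a t) ∧ (C t).card = m ∧
      (∀ x ∈ C t, ∀ l, l ≠ t → ty m G (A (a l)) x = !b₀) ∧
      ∀ s : Fin m, s < t → ∀ x ∈ C t, ∀ y ∈ C s, x ≠ y ∧ (G.Adj x y ↔ b₀ = false) := by
    intro n
    induction n with
    | zero => exact fun _ => ⟨fun _ => ∅, fun t ht => absurd ht (Nat.not_lt_zero _)⟩
    | succ n ih =>
      intro hn
      obtain ⟨C, hC⟩ := ih (by omega)
      set k : Fin m := ⟨n, by omega⟩ with hk
      set X := (A (a k)).filter fun x => (∀ l, l ≠ k → ty m G (A (a l)) x = !b₀) ∧
        ∀ s : Fin m, s < k → ∀ y ∈ C s, x ≠ y ∧ (G.Adj x y ↔ b₀ = false) with hX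
      set U1 := (Finset.univ : Finset (Fin m)).biUnion fun l =>
        if l = k then ∅ else (A (a k)).filter fun x => ty m G (A (a l)) x ≠
          sg m G (A (a l)) (A (a k)) with hU1
      set U2 := (Finset.univ.filter fun s : Fin m => s < k).biUnion fun s =>
        (C s).biUnion fun y => {y} ∪ nb G y (A (a k)) b₀ with hU2
      have h1 : U1.card ≤ m * (2 * m) := by
        have := Finset.card_biUnion_le_card_mul (Finset.univ : Finset (Fin m))
          (fun l => if l = k then ∅ else (A (a k)).filter fun x => ty m G (A (a l)) x ≠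
          sg m G (A (a l)) (A (a k))) (2 * m) (by
            intro l _
            by_cases hl : l = k
            · rw [if_pos hl]
              simp
            · rw [if_neg hl]
              exact le_of_lt ((hSGT m V G hm hNS).1 (A (a l)) (A (a k)) b₀ b₀ (hHom l) (hHom k)
                (by rw [hS.card]; omega)))
        rwa [Finset.card_univ, Fintype.card_fin] at this
      have h2 : U2.card ≤ m * (m * m) := by
        have := Finset.card_biUnion_le_card_mul (Finset.univ.filter fun s : Fin m => s < k)
          (fun s => (C s).biUnion fun y => {y} ∪ nb G y (A (a k)) b₀) (m * m) (by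
            intro s hs
            have hsk : s < k := (Finset.mem_filter.1 hs).2
            obtain ⟨_, c2, c3, _⟩ := hC s hsk
            have := Finset.card_biUnion_le_card_mul (C s)
              (fun y => {y} ∪ nb G y (A (a k)) b₀) m (by
                intro y hy
                have h3 := (hSGT m V G hm hNS).2 (A (a k)) b₀ y (hHom k)
                rw [c3 y hy k (ne_of_gt hsk), Bool.not_not] at h3
                have h4 := Finset.card_union_le {y} (nb G y (A (a k)) b₀)
                rw [Finset.card_singleton] at h4
                omega)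
            rwa [c2] at this)
        refine this.trans (Nat.mul_le_mul_right _ ?_)
        have h3 := Finset.card_filter_le (Finset.univ : Finset (Fin m)) (fun s => s < k)
        rwa [Finset.card_univ, Fintype.card_fin] at h3
      have h3 : A (a k) ⊆ X ∪ (U1 ∪ U2) := by
        intro x hx
        by_cases hx1 : x ∈ U1
        · exact Finset.mem_union_right _ (Finset.mem_union_left _ hx1)
        by_cases hx2 : x ∈ U2
        · exact Finset.mem_union_right _ (Finset.mem_union_right _ hx2)
        refine Finset.mem_union_left _ (Finset.mem_filter.2 ⟨hx, ?_, ?_⟩)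
        · intro l hl
          by_contra h4
          refine hx1 (Finset.mem_biUnion.2 ⟨l, Finset.mem_univ _, ?_⟩)
          rw [if_neg hl, hsg l k hl]
          exact Finset.mem_filter.2 ⟨hx, h4⟩
        · intro s hs y hy
          have h4 : x ∉ ({y} ∪ nb G y (A (a k)) b₀ : Finset V) := by
            intro h5
            exact hx2 (Finset.mem_biUnion.2 ⟨s, Finset.mem_filter.2 ⟨Finset.mem_univ _, hs⟩,
              Finset.mem_biUnion.2 ⟨y, hy, h5⟩⟩)
          have h5 : x ≠ y := fun h => h4 (Finset.mem_union_left _ (Finset.mem_singleton.2 h))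
          refine ⟨h5, ?_⟩
          rw [SimpleGraph.adj_comm]
          refine SBD_not fun h6 => h4 (Finset.mem_union_right _ (Finset.mem_filter.2 ⟨hx, h5, h6⟩))
      have h4 : m ≤ X.card := by
        have h5 := Finset.card_le_card h3
        have h6 := Finset.card_union_le X (U1 ∪ U2)
        have h7 := Finset.card_union_le U1 U2
        rw [hS.card] at h5
        have h8 : m * (2 * m) = 2 * (m * m) := by ring
        have h9 : m * (m * m) = m ^ 3 := by ring
        omega
      obtain ⟨D, hDX, hDc⟩ := Finset.exists_subset_card_eq h4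
      refine ⟨Function.update C k D, ?_⟩
      intro t ht
      by_cases htk : t = k
      · subst htk
        rw [Function.update_self]
        refine ⟨fun x hx => (Finset.mem_filter.1 (hDX hx)).1, hDc,
          fun x hx => (Finset.mem_filter.1 (hDX hx)).2.1, ?_⟩
        intro s hs x hx y hy
        rw [Function.update_of_ne (ne_of_lt hs)] at hy
        exact (Finset.mem_filter.1 (hDX hx)).2.2 s hs y hy
      · have htn : (t : ℕ) < n := by
          have h5 : (t : ℕ) ≠ n := fun h => htk (Fin.ext h)
          omega
        rw [Function.update_of_ne htk]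
        obtain ⟨c1, c2, c3, c4⟩ := hC t htn
        refine ⟨c1, c2, c3, ?_⟩
        intro s hs x hx y hy
        have hsk : s ≠ k := by
          intro h
          rw [h] at hs
          have : n < (t : ℕ) := hs
          omega
        rw [Function.update_of_ne hsk] at hy
        exact c4 s hs x hx y hy
  obtain ⟨C, hC⟩ := key m le_rfl
  refine hNC b₀ C (fun i => (hC i i.2).2.1)
    (fun i x hx y hy hxy => hHom i x ((hC i i.2).1 hx) y ((hC i i.2).1 hy) hxy) ?_
  intro i j hij x hx y hy
  rcases lt_or_gt_of_ne hij with h | h
  · obtain ⟨h1, h2⟩ := (hC j j.2).2.2.2 i h y hy x hx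
    exact ⟨h1.symm, by rw [SimpleGraph.adj_comm]; exact h2⟩
  · exact (hC i i.2).2.2.2 j h x hx y hy

end Pool.Ker
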