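import Pool.Agent.Work.MP_2df4ce_k.InterfaceE

/-! # MP_2df4ce_lc, part E, block SGT -/

set_option autoImplicit false

namespace Pool.Ker

open Classical St

theorem stmt_SGT : Stmt_TWO → Stmt_SGT := by
  intro hTWO m V _ G hm hN
  refine ⟨?_, ?_⟩
  · intro A B b b' hA hB hc
    have h2 := hTWO m V G hm hN A B b b' hA hB hc
    by_cases h : 2 * m ≤ (B.filter fun v => ty m G A v = true).card
    · have hs : sg m G A B = true := by
        unfold sg
        exact decide_eq_true h
      rw [hs]
      by_contra hcon
      apply h2
      refine ⟨h, ?_⟩
      have he : (B.filter fun v => ty m G A v ≠ true) = B.filter fun v => ty m G A v = false := by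
        apply Finset.filter_congr
        intro v _
        exact Bool.not_eq_true _ ▸ Iff.rfl
      rw [he] at hcon
      omega
    · have hs : sg m G A B = false := by
        unfold sg
        exact decide_eq_false h
      rw [hs]
      have he : (B.filter fun v => ty m G A v ≠ false) = B.filter fun v => ty m G A v = true := by
        apply Finset.filter_congr
        intro v _
        exact Bool.not_eq_false _ ▸ Iff.rfl
      rw [he]
      omega
  · intro A b v hA
    by_cases h : m ≤ (nb G v A true).card
    · have ht : ty m G A v = true := by
        unfold ty
        exact decide_eq_true h
      rw [ht]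
      by_contra hcon
      exact hN b A v hA ⟨h, by simpa using hcon⟩
    · have ht : ty m G A v = false := by
        unfold ty
        exact decide_eq_false h
      rw [ht]
      simpa using h

end Pool.Ker
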