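import Pool.Agent.Work.MP_2df4ce_k.Interface

/-! # Block SHL (helper54): an empty shell -/

set_option autoImplicit false

namespace Pool.Ker

theorem stmt_SHL : Stmt_SHL := by
  intro F O a s hF hO
  by_contra hcon
  push Not at hcon
  have hmono : Monotone F := monotone_nat_of_le_succ hF
  have h1 : ∀ i : Fin (s + 1), ∃ x ∈ O, x ∈ F (a + i + 1) ∧ x ∉ F (a + i) := fun i =>
    hcon (a + i) (by omega) (by have := i.2; omega)
  choose x hx1 hx2 hx3 using h1
  have hinj : Function.Injective x := by
    intro i j hij
    by_contra hne
    rcases lt_or_gt_of_ne (fun h => hne (Fin.ext h)) with h | h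
    · have h2 : x i ∈ F (a + j) := hmono (by omega) (hx2 i)
      rw [hij] at h2
      exact hx3 j h2
    · have h2 : x j ∈ F (a + i) := hmono (by omega) (hx2 j)
      rw [← hij] at h2
      exact hx3 i h2
  have h2 : (Finset.univ.image x).card ≤ O.card := by
    apply Finset.card_le_card
    intro y hy
    rw [Finset.mem_image] at hy
    obtain ⟨i, -, rfl⟩ := hy
    exact hx1 i
  rw [Finset.card_image_of_injective _ hinj, Finset.card_univ, Fintype.card_fin] at h2
  omega

end Pool.Ker
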