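import Pool.Agent.Work.MP_2df4ce_k.InterfaceB

/-!
# MP_2df4ce_lc, block SMP: a good sample exists
-/

set_option autoImplicit false

namespace Pool.Ker

open Classical St Alg

/-- the vertices of `V` with label `i` -/
noncomputable def SMP_cl {r : ℕ} (V : List ℕ) (lab : ℕ → Option (Fin r)) (i : Fin r) : List ℕ :=
  V.filter fun v => decide (lab v = some i)

/-- the sample set of the class `i` -/
noncomputable def SMP_A {r : ℕ} (D : ℕ) (V : List ℕ) (lab : ℕ → Option (Fin r)) (i : Fin r) :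
    List ℕ :=
  if 2 * D + 2 ≤ (SMP_cl V lab i).length then (SMP_cl V lab i).take (2 * D + 2) else []

theorem SMP_A_cases {r : ℕ} (D : ℕ) {V : List ℕ} (lab : ℕ → Option (Fin r)) (hV : V.Nodup)
    (i : Fin r) : SMP_A D V lab i = [] ∨ ((SMP_A D V lab i).Nodup ∧
      (SMP_A D V lab i).length = 2 * D + 2 ∧ ∀ x ∈ SMP_A D V lab i, x ∈ V ∧ lab x = some i) := by
  unfold SMP_A
  split_ifs with h
  · right
    refine ⟨?_, ?_, ?_⟩
    · exact ((List.take_sublist _ _).trans List.filter_sublist).nodup hV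
    · rw [List.length_take]
      omega
    · intro x hx
      have hx' := List.mem_of_mem_take hx
      unfold SMP_cl at hx'
      rw [List.mem_filter] at hx'
      exact ⟨hx'.1, of_decide_eq_true hx'.2⟩
  · exact Or.inl rfl

theorem SMP_A_small {r : ℕ} {D : ℕ} {V : List ℕ} {lab : ℕ → Option (Fin r)} {i : Fin r}
    (h : SMP_A D V lab i = []) : (SMP_cl V lab i).length ≤ 2 * D + 1 := by
  by_contra hn
  unfold SMP_A at h
  rw [if_pos (by omega)] at h
  have := congrArg List.length h
  rw [List.length_take, List.length_nil] at this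
  omega

theorem SMP_get {r : ℕ} (A : Fin r → List ℕ) (i : Fin r) :
    (List.ofFn A).getD (i : ℕ) [] = A i := by
  simp [List.getD_eq_getElem?_getD]

theorem SMP_row {r : ℕ} (D : ℕ) (E : List (ℕ × ℕ)) (A : Fin r → List ℕ) (w w' : ℕ) :
    rowB D E (List.ofFn A) w = rowB D E (List.ofFn A) w' ↔
      ∀ l, vote D E (A l) w = vote D E (A l) w' := by
  unfold rowB
  rw [List.map_ofFn, List.map_ofFn, List.ofFn_injective.eq_iff, funext_iff]
  rfl

theorem SMP_hd {r D : ℕ} {V : List ℕ} {lab : ℕ → Option (Fin r)} {A : Fin r → List ℕ}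
    (hA : ∀ i, A i = [] ∨ ((A i).Nodup ∧ (A i).length = 2 * D + 2 ∧
      ∀ x ∈ A i, x ∈ V ∧ lab x = some i)) (i : Fin r) (hi : A i ≠ []) :
    (A i).headD 0 ∈ V ∧ lab ((A i).headD 0) = some i := by
  have h := ((hA i).resolve_left hi).2.2
  cases hAi : A i with
  | nil => exact absurd hAi hi
  | cons x t =>
    rw [hAi] at h
    exact h x List.mem_cons_self

theorem SMP_lab {r D : ℕ} {E : List (ℕ × ℕ)} {V : List ℕ} {lab : ℕ → Option (Fin r)}
    {M : Fin r → Fin r → Prop} {A : Fin r → List ℕ}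
    (hA : ∀ i, A i = [] ∨ ((A i).Nodup ∧ (A i).length = 2 * D + 2 ∧
      ∀ x ∈ A i, x ∈ V ∧ lab x = some i))
    (hvote : ∀ v ∈ V, ∀ a, lab v = some a → ∀ i, (vote D E (A i) v = true ↔ A i ≠ [] ∧ M a i))
    {v : ℕ} (hv : v ∈ V) {a : Fin r} (ha : lab v = some a) (hne : A a ≠ []) :
    ∃ i : Fin r, labB D E (List.ofFn A) v = i ∧ A i ≠ [] ∧
      ∀ l, A l ≠ [] → (M a l ↔ M i l) := by
  set Fl := (List.range (List.ofFn A).length).filter (fun i =>
    !(((List.ofFn A).getD i []).isEmpty) && decide (rowB D E (List.ofFn A) v =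
      rowB D E (List.ofFn A) (((List.ofFn A).getD i []).headD 0))) with hF
  have hmem : (a : ℕ) ∈ Fl := by
    rw [hF, List.mem_filter]
    refine ⟨List.mem_range.2 (by simp), ?_⟩
    rw [SMP_get A a, Bool.and_eq_true]
    refine ⟨by simpa [List.isEmpty_iff] using hne, decide_eq_true ?_⟩
    rw [SMP_row]
    intro l
    obtain ⟨h1, h2⟩ := SMP_hd hA a hne
    rw [Bool.eq_iff_iff, hvote v hv a ha l, hvote _ h1 a h2 l]
  have hhead : labB D E (List.ofFn A) v ∈ Fl := by
    have h : labB D E (List.ofFn A) v = Fl.headD (List.ofFn A).length := rfl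
    rw [h]
    cases hFl : Fl with
    | nil => rw [hFl] at hmem; cases hmem
    | cons x t => exact List.mem_cons_self
  rw [hF, List.mem_filter, List.mem_range, List.length_ofFn] at hhead
  obtain ⟨hlt, h2⟩ := hhead
  have hi := SMP_get A ⟨labB D E (List.ofFn A) v, hlt⟩
  simp only at hi
  rw [hi, Bool.and_eq_true] at h2
  have hne' : A ⟨labB D E (List.ofFn A) v, hlt⟩ ≠ [] := by
    have := h2.1
    simpa [List.isEmpty_iff] using this
  refine ⟨⟨labB D E (List.ofFn A) v, hlt⟩, rfl, hne', ?_⟩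
  intro l hl
  have h3 := (SMP_row D E A v _).1 (of_decide_eq_true h2.2) l
  obtain ⟨h4, h5⟩ := SMP_hd hA _ hne'
  rw [Bool.eq_iff_iff, hvote v hv a ha l, hvote _ h4 _ h5 l] at h3
  exact ⟨fun h => (h3.1 ⟨hl, h⟩).2, fun h => (h3.2 ⟨hl, h⟩).2⟩

/-- the prescribed adjacency -/
theorem SMP_id {r D : ℕ} {E : List (ℕ × ℕ)} {V : List ℕ} {lab : ℕ → Option (Fin r)}
    {M : Fin r → Fin r → Prop} {A : Fin r → List ℕ} (hM : ∀ i j, M i j → M j i)
    (hA : ∀ i, A i = [] ∨ ((A i).Nodup ∧ (A i).length = 2 * D + 2 ∧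
      ∀ x ∈ A i, x ∈ V ∧ lab x = some i))
    (hvote : ∀ v ∈ V, ∀ a, lab v = some a → ∀ i, (vote D E (A i) v = true ↔ A i ≠ [] ∧ M a i))
    {v u : ℕ} (hv : v ∈ V) (hu : u ∈ V) {a b : Fin r} (ha : lab v = some a) (hb : lab u = some b)
    (hna : A a ≠ []) (hnb : A b ≠ []) :
    idB D E (List.ofFn A) (labB D E (List.ofFn A) v) (labB D E (List.ofFn A) u) = true ↔
      M a b := by
  have hM' : ∀ i j, M i j ↔ M j i := fun i j => ⟨hM i j, hM j i⟩
  obtain ⟨i, hi, hin, hil⟩ := SMP_lab hA hvote hv ha hna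
  obtain ⟨j, hj, hjn, hjl⟩ := SMP_lab hA hvote hu hb hnb
  obtain ⟨h1, h2⟩ := SMP_hd hA i hin
  obtain ⟨h3, h4⟩ := SMP_hd hA j hjn
  rw [hi, hj]
  unfold idB
  rw [SMP_get, SMP_get, Bool.and_eq_true, hvote _ h1 i h2 j, hvote _ h3 j h4 i, hil b hnb,
    hM' i b, hjl i hin, hM' j i]
  exact ⟨fun h => h.1.2, fun h => ⟨⟨hjn, h⟩, hin, h⟩⟩

/-- a vertex without label or in a small class -/
def SMP_Ex {r : ℕ} (lab : ℕ → Option (Fin r)) (A : Fin r → List ℕ) (v : ℕ) : Prop :=
  ∀ a, lab v = some a → A a = []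

theorem SMP_cnt {r D c : ℕ} {V : List ℕ} (lab : ℕ → Option (Fin r))
    (hc : (V.toFinset.filter fun v => lab v = none).card ≤ c) :
    (V.toFinset.filter fun v => SMP_Ex lab (SMP_A D V lab) v).card ≤ c + r * (2 * D + 1) := by
  have hsub : (V.toFinset.filter fun v => SMP_Ex lab (SMP_A D V lab) v) ⊆
      (V.toFinset.filter fun v => lab v = none) ∪
        (Finset.univ.filter fun i => SMP_A D V lab i = []).biUnion
          fun i => (SMP_cl V lab i).toFinset := by
    intro v hv
    rw [Finset.mem_filter, List.mem_toFinset] at hv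
    obtain ⟨hvV, hE⟩ := hv
    rw [Finset.mem_union, Finset.mem_filter, List.mem_toFinset, Finset.mem_biUnion]
    cases hl : lab v with
    | none => exact Or.inl ⟨hvV, rfl⟩
    | some a =>
      right
      refine ⟨a, Finset.mem_filter.2 ⟨Finset.mem_univ _, hE a hl⟩, ?_⟩
      rw [List.mem_toFinset]
      unfold SMP_cl
      rw [List.mem_filter]
      exact ⟨hvV, decide_eq_true hl⟩
  refine (Finset.card_le_card hsub).trans ((Finset.card_union_le _ _).trans ?_)
  refine Nat.add_le_add hc ?_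
  refine (Finset.card_biUnion_le_card_mul _ _ (2 * D + 1) ?_).trans ?_
  · intro i hi
    rw [Finset.mem_filter] at hi
    exact (List.toFinset_card_le _).trans (SMP_A_small hi.2)
  · refine Nat.mul_le_mul_right _ ?_
    refine (Finset.card_le_univ _).trans ?_
    rw [Fintype.card_fin]

theorem SMP_main {r D c : ℕ} {E : List (ℕ × ℕ)} {V : List ℕ} (hSMV : Stmt_SMV) (hV : V.Nodup)
    {lab : ℕ → Option (Fin r)} {M : Fin r → Fin r → Prop} (hM : ∀ i j, M i j → M j i)
    (hc : (V.toFinset.filter fun v => lab v = none).card ≤ c)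
    (hD : ∀ v ∈ V, ∀ i, lab v = some i → (V.toFinset.filter fun u => u ≠ v ∧
      ∃ j, lab u = some j ∧ ¬ ((gr E).Adj v u ↔ M i j)).card ≤ D) :
    (exL D (c + r * (2 * D + 2)) E (List.ofFn (SMP_A D V lab)) V).length ≤
      c + r * (2 * D + 2) := by
  set A := SMP_A D V lab with hAdef
  have hA := SMP_A_cases D lab hV
  have hvote := hSMV r D E V lab M A hV hM hD hA
  have hcnt := SMP_cnt (D := D) lab hc
  have hle : c + r * (2 * D + 1) ≤ c + r * (2 * D + 2) :=
    Nat.add_le_add_left (Nat.mul_le_mul_left _ (by omega)) _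
  have key : ∀ v ∈ V, ¬ SMP_Ex lab A v →
      (!(labdB D E (List.ofFn A) v) || decide (D + (c + r * (2 * D + 2)) <
        (V.filter fun u => labdB D E (List.ofFn A) u &&
          defB D E (List.ofFn A) v u).length)) = false := by
    intro v hv hE
    unfold SMP_Ex at hE
    push Not at hE
    obtain ⟨a, ha, hna⟩ := hE
    rw [Bool.or_eq_false_iff]
    constructor
    · obtain ⟨i, hi, -, -⟩ := SMP_lab hA hvote hv ha hna
      unfold labdB
      rw [hi, List.length_ofFn, decide_eq_true i.isLt]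
      rfl
    · refine decide_eq_false ?_
      rw [not_lt, ← List.toFinset_card_of_nodup (hV.filter _)]
      have hsub : (V.filter fun u => labdB D E (List.ofFn A) u &&
          defB D E (List.ofFn A) v u).toFinset ⊆ (V.toFinset.filter fun u => u ≠ v ∧
            ∃ j, lab u = some j ∧ ¬ ((gr E).Adj v u ↔ M a j)) ∪
              (V.toFinset.filter fun v => SMP_Ex lab A v) := by
        intro u hu
        rw [List.mem_toFinset, List.mem_filter, Bool.and_eq_true] at hu
        obtain ⟨huV, -, hdef⟩ := hu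
        rw [Finset.mem_union, Finset.mem_filter, Finset.mem_filter, List.mem_toFinset]
        by_cases hEu : SMP_Ex lab A u
        · exact Or.inr ⟨huV, hEu⟩
        · left
          unfold SMP_Ex at hEu
          push Not at hEu
          obtain ⟨b, hb, hnb⟩ := hEu
          have hid := SMP_id hM hA hvote hv huV ha hb hna hnb
          unfold defB at hdef
          rw [Bool.and_eq_true, Bool.not_eq_true', Bool.not_eq_true', decide_eq_false_iff_not,
            decide_eq_false_iff_not] at hdef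
          refine ⟨huV, fun h => hdef.1 h.symm, b, hb, ?_⟩
          intro hiff
          refine hdef.2 ?_
          rw [Bool.eq_iff_iff, hid]
          exact hiff
      refine (Finset.card_le_card hsub).trans ((Finset.card_union_le _ _).trans ?_)
      exact Nat.add_le_add (hD v hv a ha) (hcnt.trans hle)
  unfold exL
  rw [← List.toFinset_card_of_nodup (hV.filter _)]
  refine le_trans (Finset.card_le_card ?_) (hcnt.trans hle)
  intro v hv
  rw [List.mem_toFinset, List.mem_filter] at hv
  rw [Finset.mem_filter, List.mem_toFinset]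
  refine ⟨hv.1, ?_⟩
  by_contra hn
  have := key v hv.1 hn
  rw [this] at hv
  exact Bool.false_ne_true hv.2

theorem stmt_SMP (hLBA : Stmt_LBA) (hSMV : Stmt_SMV) : Stmt_SMP := by
  intro F r D c hS E V hV hfree
  obtain ⟨lab, M, hM, hc, hD⟩ := hS (gr E) V.toFinset hfree
  have hD' : ∀ v ∈ V, ∀ i, lab v = some i → (V.toFinset.filter fun u => u ≠ v ∧
      ∃ j, lab u = some j ∧ ¬ ((gr E).Adj v u ↔ M i j)).card ≤ D :=
    fun v hv i hi => hD v (List.mem_toFinset.2 hv) i hi
  have hmain := SMP_main hSMV hV hM hc hD'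
  obtain ⟨-, hL2, hL3, -⟩ := hLBA
  have hmem : List.ofFn (SMP_A D V lab) ∈ (tup (cands D V) r).filter
      fun Sa => decide ((exL D (c + r * (2 * D + 2)) E Sa V).length ≤ c + r * (2 * D + 2)) := by
    rw [List.mem_filter]
    refine ⟨(hL3 _ _ _).2 ⟨by simp, ?_⟩, decide_eq_true hmain⟩
    intro x hx
    rw [List.mem_ofFn] at hx
    obtain ⟨i, rfl⟩ := hx
    unfold cands
    rw [List.mem_cons]
    rcases SMP_A_cases D lab hV i with h | ⟨-, h1, h2⟩
    · exact Or.inl h
    · exact Or.inr ((hL2 _ _ _).2 ⟨h1, fun x hx => (h2 x hx).1⟩)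
  have hhd : samp D (c + r * (2 * D + 2)) r E V ∈ (tup (cands D V) r).filter
      fun Sa => decide ((exL D (c + r * (2 * D + 2)) E Sa V).length ≤ c + r * (2 * D + 2)) := by
    unfold samp
    generalize (tup (cands D V) r).filter (fun Sa =>
      decide ((exL D (c + r * (2 * D + 2)) E Sa V).length ≤ c + r * (2 * D + 2))) = L at hmem ⊢
    cases L with
    | nil => cases hmem
    | cons x t => exact List.mem_cons_self
  rw [List.mem_filter] at hhd
  exact ⟨of_decide_eq_true hhd.2, ((hL3 _ _ _).1 hhd.1).1⟩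

end Pool.Ker
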