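import Pool.Agent.Work.MP_2df4ce_k.InterfaceB

/-! # MP_2df4ce_lc, block SMV -/

set_option autoImplicit false

namespace Pool.Ker

open Classical St Alg

theorem stmt_SMV (_hLBA : Stmt_LBA) : Stmt_SMV := by
  intro r D E V lab M A hV hM hd hA v hv a ha i
  have hd' := hd v hv a ha
  unfold vote
  rw [decide_eq_true_eq]
  rcases hA i with h | ⟨h1, h2, h3⟩
  · rw [h]
    simp
  · have hne : A i ≠ [] := by
      intro h
      rw [h] at h2
      simp at h2
    have hsplit : ((A i).filter fun x => adj E v x).length +
        ((A i).filter fun x => !(adj E v x)).length = (A i).length := by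
      rw [← List.countP_eq_length_filter, ← List.countP_eq_length_filter]
      exact (List.length_eq_countP_add_countP (fun x => adj E v x)
        (l := A i)).symm ▸ (by simp)
    have hcard : ∀ p : ℕ → Bool, ((A i).filter p).length = ((A i).filter p).toFinset.card :=
      fun p => (List.toFinset_card_of_nodup (h1.filter p)).symm
    constructor
    · intro h4
      refine ⟨hne, ?_⟩
      by_contra hMi
      have h5 : ((A i).filter fun x => adj E v x).toFinset ⊆ V.toFinset.filter fun u => u ≠ v ∧
          ∃ j, lab u = some j ∧ ¬ ((gr E).Adj v u ↔ M a j) := by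
        intro x hx
        rw [List.mem_toFinset, List.mem_filter] at hx
        obtain ⟨hx1, hx2⟩ := hx
        obtain ⟨hx3, hx4⟩ := h3 x hx1
        rw [Finset.mem_filter, List.mem_toFinset]
        refine ⟨hx3, ?_, i, hx4, fun hh => hMi (hh.1 hx2)⟩
        rintro rfl
        exact (gr E).loopless.irrefl x hx2
      have h6 := Finset.card_le_card h5
      rw [← hcard] at h6
      omega
    · rintro ⟨-, hMi⟩
      have h5 : ((A i).filter fun x => !(adj E v x)).toFinset ⊆ insert v (V.toFinset.filter
          fun u => u ≠ v ∧ ∃ j, lab u = some j ∧ ¬ ((gr E).Adj v u ↔ M a j)) := by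
        intro x hx
        rw [List.mem_toFinset, List.mem_filter] at hx
        obtain ⟨hx1, hx2⟩ := hx
        obtain ⟨hx3, hx4⟩ := h3 x hx1
        rw [Finset.mem_insert, Finset.mem_filter, List.mem_toFinset]
        by_cases hxv : x = v
        · exact Or.inl hxv
        · refine Or.inr ⟨hx3, hxv, i, hx4, fun hh => ?_⟩
          have h7 : adj E v x = true := hh.2 hMi
          rw [h7] at hx2
          simp at hx2
      have h6 := (Finset.card_le_card h5).trans (Finset.card_insert_le _ _)
      rw [← hcard] at h6
      omega

end Pool.Ker
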