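import Pool.Agent.Work.MP_2df4ce_k.Interface

set_option autoImplicit false

namespace Pool.Ker

open Classical

theorem stmt_STP (hDFS : Stmt_DFS) : Stmt_STP := by
  classical
  intro G X s Δ N k Z M lab W hC hN S A' P Z' hS hA' hPX hP hPs hZ' hZs
  obtain ⟨hsym, -, -, -, -, -, -⟩ := hDFS G X s Δ N Z M lab W hC
  by_cases hne : P.Nonempty
  · obtain ⟨c, hc, hd⟩ := hC.rep P Z' hPX hP hne hPs hZ' hZs
    set B1 : Finset ℕ := S.biUnion (fun e => e.toFinset) with hB1
    set B3 : Finset ℕ := A'.biUnion (fun a => X.filter fun u => Df G X Z lab W a u) with hB3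
    have h1 : B1.card ≤ S.card * 2 := by
      refine Finset.card_biUnion_le_card_mul _ _ _ ?_
      intro e _
      rw [Sym2.card_toFinset]
      split_ifs <;> omega
    have h3 : B3.card ≤ A'.card * Δ := by
      refine Finset.card_biUnion_le_card_mul _ _ _ ?_
      intro a _
      exact hC.deg a
    have h4 : (B1 ∪ A' ∪ B3).card ≤ B1.card + A'.card + B3.card := by
      refine (Finset.card_union_le _ _).trans ?_
      have := Finset.card_union_le B1 A'
      omega
    have h5 : A'.card * Δ ≤ s * Δ := Nat.mul_le_mul_right _ hA'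
    have h6 : (B1 ∪ A' ∪ B3).card < N := by omega
    have key : ∃ i : Fin N, ∀ x ∈ P, c i x ∉ B1 ∪ A' ∪ B3 := by
      by_contra hcon
      push Not at hcon
      choose x hxP hxB using hcon
      have hinj : Function.Injective (fun i : Fin N => c i (x i)) := by
        intro i j hij
        by_contra hne'
        exact hd i j hne' (x i) (hxP i) (x j) (hxP j) hij
      have hle : (Finset.univ : Finset (Fin N)).card ≤ (B1 ∪ A' ∪ B3).card :=
        Finset.card_le_card_of_injOn (fun i : Fin N => c i (x i))
          (fun i _ => hxB i) (fun i _ j _ hij => hinj hij)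
      rw [Finset.card_univ, Fintype.card_fin] at hle
      omega
    obtain ⟨i, hi⟩ := key
    refine ⟨c i, hc i, ?_, ?_, ?_⟩
    · intro x hx e he hxe
      apply hi x hx
      refine Finset.mem_union_left _ (Finset.mem_union_left _ ?_)
      rw [hB1, Finset.mem_biUnion]
      exact ⟨e, he, Sym2.mem_toFinset.mpr hxe⟩
    · intro x hx hxA
      exact hi x hx (Finset.mem_union_left _ (Finset.mem_union_right _ hxA))
    · intro x hx a ha hdf
      apply hi x hx
      refine Finset.mem_union_right _ ?_
      rw [hB3, Finset.mem_biUnion]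
      refine ⟨a, ha, ?_⟩
      rw [Finset.mem_filter]
      exact ⟨hC.hM ((hc i).mem x hx), hsym _ _ hdf⟩
  · rw [Finset.not_nonempty_iff_eq_empty] at hne
    subst hne
    refine ⟨id, ⟨?_, ?_, ?_, ?_, ?_⟩, ?_, ?_, ?_⟩
    · intro x hx; simp at hx
    · intro x hx; simp at hx
    · intro x hx; simp at hx
    · intro x hx; simp at hx
    · intro x hx; simp at hx
    · intro x hx; simp at hx
    · intro x hx; simp at hx
    · intro x hx; simp at hx

end Pool.Ker
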