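import Pool.Agent.Work.MP_2df4ce_k.InterfaceE

/-! # MP_2df4ce_lc, block STR: the structure theorem -/

set_option autoImplicit false

namespace Pool.Ker

open Classical St

/-- the label of a vertex -/
noncomputable def STR_lab (m : ℕ) {n : ℕ} (G : SimpleGraph (Fin n)) (r : ℕ)
    (A : Fin r → Finset (Fin n)) (hr : r ≤ 2 * m) (v : Fin n) : Option (Fin (2 * m)) :=
  if h : ∃ i : Fin r, ∀ j, ty m G (A j) v = sg m G (A j) (A i) then
    some (Fin.castLE hr h.choose) else none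

theorem STR_none (m : ℕ) {n : ℕ} (G : SimpleGraph (Fin n)) (r : ℕ)
    (A : Fin r → Finset (Fin n)) (hr : r ≤ 2 * m) (v : Fin n)
    (h : STR_lab m G r A hr v = none) :
    ¬ ∃ i : Fin r, ∀ j, ty m G (A j) v = sg m G (A j) (A i) := by
  intro h'
  unfold STR_lab at h
  rw [dif_pos h'] at h
  exact Option.some_ne_none _ h

theorem STR_some (m : ℕ) {n : ℕ} (G : SimpleGraph (Fin n)) (r : ℕ)
    (A : Fin r → Finset (Fin n)) (hr : r ≤ 2 * m) (v : Fin n) (k : Fin (2 * m))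
    (h : STR_lab m G r A hr v = some k) :
    ∃ i : Fin r, Fin.castLE hr i = k ∧ ∀ j, ty m G (A j) v = sg m G (A j) (A i) := by
  unfold STR_lab at h
  by_cases h' : ∃ i : Fin r, ∀ j, ty m G (A j) v = sg m G (A j) (A i)
  · rw [dif_pos h'] at h
    exact ⟨h'.choose, Option.some.inj h, h'.choose_spec⟩
  · rw [dif_neg h'] at h
    exact absurd h (Option.some_ne_none k).symm

/-- the relation on the classes -/
def STR_M (m : ℕ) {n : ℕ} (G : SimpleGraph (Fin n)) (r : ℕ) (A : Fin r → Finset (Fin n))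
    (hr : r ≤ 2 * m) (k l : Fin (2 * m)) : Prop :=
  ∃ i j : Fin r, Fin.castLE hr i = k ∧ Fin.castLE hr j = l ∧ sg m G (A i) (A j) = true

theorem STR_M_iff (m : ℕ) {n : ℕ} (G : SimpleGraph (Fin n)) (r : ℕ)
    (A : Fin r → Finset (Fin n)) (hr : r ≤ 2 * m) (i j : Fin r) :
    STR_M m G r A hr (Fin.castLE hr i) (Fin.castLE hr j) ↔ sg m G (A i) (A j) = true := by
  constructor
  · rintro ⟨i', j', hi, hj, h⟩
    have e1 : i' = i := Fin.castLE_injective hr hi
    have e2 : j' = j := Fin.castLE_injective hr hj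
    rw [← e1, ← e2]
    exact h
  · intro h
    exact ⟨i, j, rfl, rfl, h⟩

theorem STR_filter {α : Type} [Fintype α] (p : α → Prop) (i1 i2 : DecidablePred p) :
    (@Finset.filter α p i1 Finset.univ).card ≤ (@Finset.filter α p i2 Finset.univ).card := by
  have h : i1 = i2 := Subsingleton.elim _ _
  rw [h]

/-- STR. -/
theorem stmt_STR : Stmt_RAM → Stmt_MON → Stmt_EX1 → Stmt_EX2 → Stmt_SYM → Stmt_MAX →
    Stmt_LBL → Stmt_DFB → Stmt_STR := by
  intro hRAM hMON hEX1 hEX2 hSYM hMAX hLBL hDFB F hF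
  obtain ⟨m, hm, hmF⟩ := hMON F hF
  obtain ⟨R, hR⟩ := hRAM (16 * m ^ 3)
  refine ⟨2 * m, 2 * m * (R + 1), 2 ^ (2 * m) * (R + 1), fun n G hG => ?_⟩
  have hE : Excl m G := hmF (Fin n) G hG
  have hN : NoSplit m G := hEX1 m (Fin n) G hm hE
  have hC : NoCl m G := hEX2 m (Fin n) G hm hE
  obtain ⟨r, A, b, hr, hS, hmax⟩ := hMAX m (Fin n) G hm hN hC
  have hRam := hR (Fin n) G
  have h8 : ∀ i, 8 * m ≤ (A i).card := by
    intro i
    rw [hS.card i]
    have h1 : 1 ≤ m ^ 2 := Nat.one_le_pow _ _ hm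
    have h2 : m ^ 3 = m * m ^ 2 := by ring
    nlinarith
  have hlbl := hLBL m (Fin n) G hm hN r A b hr hS hmax R hRam
  have hdfb := hDFB m (Fin n) G hm hN r A b hS hmax R hRam
  refine ⟨STR_lab m G r A hr.le, STR_M m G r A hr.le, ?_, ?_, ?_⟩
  · rintro k l ⟨i, j, hi, hj, h⟩
    refine ⟨j, i, hj, hi, ?_⟩
    rw [← hSYM m (Fin n) G hm hN (A i) (A j) (b i) (b j) (hS.hom i) (hS.hom j) (h8 i) (h8 j)]
    exact h
  · refine le_trans ?_ hlbl
    rw [← Set.ncard_coe_finset]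
    refine Set.ncard_le_ncard ?_ (Finset.finite_toSet _)
    intro v hv
    exact Finset.mem_coe.2 (Finset.mem_filter.2 ⟨Finset.mem_univ v, STR_none m G r A hr.le v hv⟩)
  · intro v k hv
    obtain ⟨i, hi, hrow⟩ := STR_some m G r A hr.le v k hv
    obtain ⟨D, hD⟩ : ∃ D : Fin r → Finset (Fin n), ∀ j, D j = Finset.univ.filter fun u =>
        u ≠ v ∧ (∀ l, ty m G (A l) u = sg m G (A l) (A j)) ∧
          ¬ (G.Adj v u ↔ sg m G (A i) (A j) = true) := ⟨_, fun _ => rfl⟩
    have hDc : ∀ j, (D j).card ≤ R + 1 := by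
      intro j
      rw [hD j]
      exact le_trans (STR_filter _ _ _) (hdfb v i j hrow).le
    have hsub : {u | u ≠ v ∧ ∃ j, STR_lab m G r A hr.le u = some j ∧
        ¬ (G.Adj v u ↔ STR_M m G r A hr.le k j)} ⊆
        ((Finset.univ.biUnion D : Finset (Fin n)) : Set (Fin n)) := by
      rintro u ⟨huv, l, hl, hadj⟩
      obtain ⟨j, hj, hjrow⟩ := STR_some m G r A hr.le u l hl
      rw [← hi, ← hj, STR_M_iff] at hadj
      refine Finset.mem_coe.2 (Finset.mem_biUnion.2 ⟨j, Finset.mem_univ j, ?_⟩)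
      rw [hD j]
      exact Finset.mem_filter.2 ⟨Finset.mem_univ u, huv, hjrow, hadj⟩
    refine le_trans (Set.ncard_le_ncard hsub (Finset.finite_toSet _)) ?_
    rw [Set.ncard_coe_finset]
    refine le_trans Finset.card_biUnion_le ?_
    refine le_trans (Finset.sum_le_sum fun j _ => hDc j) ?_
    rw [Finset.sum_const, Finset.card_univ, Fintype.card_fin, smul_eq_mul]
    exact Nat.mul_le_mul_right _ hr.le

end Pool.Ker
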