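import Pool.Agent.Work.MP_2df4ce_k.InterfaceE

set_option autoImplicit false

/-! # Block SYM (helper53) -/

namespace Pool.Ker

open Classical St

private theorem SYM_aux (m : ℕ) (V : Type) [Fintype V] (G : SimpleGraph V) (hm : 1 ≤ m)
    (hNS : NoSplit m G) (A B : Finset V) (b : Bool) (hA : Hom G b A)
    (hcA : 8 * m ≤ A.card) (h1 : sg m G A B = true) (h2 : sg m G B A = false) : False := by
  unfold sg at h1 h2
  rw [decide_eq_true_eq] at h1
  rw [decide_eq_false_iff_not, not_le] at h2
  obtain ⟨B', hB'sub, hB'c⟩ := Finset.exists_subset_card_eq h1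
  obtain ⟨W, hW⟩ : ∃ W : Finset V, W = (A.filter fun w => ¬ ty m G B w = true) \ B' := ⟨_, rfl⟩
  have hWc : 4 * m ≤ W.card := by
    have h3 : (A.filter fun w => ty m G B w = true).card +
        (A.filter fun w => ¬ ty m G B w = true).card = A.card :=
      Finset.card_filter_add_card_filter_not _
    have h4 : (A.filter fun w => ¬ ty m G B w = true).card - B'.card ≤ W.card := by
      rw [hW]
      exact Finset.le_card_sdiff _ _
    omega
  have hWA : ∀ w ∈ W, w ∈ A ∧ ¬ ty m G B w = true ∧ w ∉ B' := by
    intro w hw
    rw [hW, Finset.mem_sdiff, Finset.mem_filter] at hw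
    exact ⟨hw.1.1, hw.1.2, hw.2⟩
  have key := Finset.card_mul_le_card_mul (s := W) (t := B') (fun w v => ¬ G.Adj v w)
    (m := m + 1) (n := m) (by
      intro w hw
      obtain ⟨hwA, hwty, hwB⟩ := hWA w hw
      have h5 : (nb G w B true).card < m := by
        unfold ty at hwty
        rw [decide_eq_true_eq, not_le] at hwty
        exact hwty
      have h6 : (B'.filter fun v => ¬ ¬ G.Adj v w) ⊆ nb G w B true := by
        intro v hv
        rw [Finset.mem_filter, not_not] at hv
        unfold nb
        rw [Finset.mem_filter]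
        refine ⟨(Finset.mem_filter.1 (hB'sub hv.1)).1, ?_, ?_⟩
        · rintro rfl
          exact hwB hv.1
        · exact ⟨fun _ => rfl, fun _ => hv.2.symm⟩
      have h7 : (B'.filter fun v => ¬ G.Adj v w).card + (B'.filter fun v => ¬ ¬ G.Adj v w).card =
          B'.card := Finset.card_filter_add_card_filter_not _
      have h8 := Finset.card_le_card h6
      show m + 1 ≤ (B'.filter fun v => ¬ G.Adj v w).card
      omega) (by
      intro v hv
      have hvty : ty m G A v = true := (Finset.mem_filter.1 (hB'sub hv)).2
      have h5 : m ≤ (nb G v A true).card := by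
        unfold ty at hvty
        rw [decide_eq_true_eq] at hvty
        exact hvty
      have h6 : (nb G v A false).card < m := by
        by_contra hcon
        exact hNS b A v hA ⟨h5, not_lt.1 hcon⟩
      have h7 : (W.filter fun w => ¬ G.Adj v w) ⊆ nb G v A false := by
        intro w hw
        rw [Finset.mem_filter] at hw
        obtain ⟨hwA, -, hwB⟩ := hWA w hw.1
        unfold nb
        rw [Finset.mem_filter]
        refine ⟨hwA, ?_, ?_⟩
        · rintro rfl
          exact hwB hv
        · exact ⟨fun h => absurd h hw.2, fun h => absurd h (by decide)⟩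
      show (W.filter fun w => ¬ G.Adj v w).card ≤ m
      exact (Finset.card_le_card h7).trans h6.le)
  rw [hB'c] at key
  have h9 : 4 * m * (m + 1) ≤ 2 * m * m := (Nat.mul_le_mul_right _ hWc).trans key
  nlinarith

theorem stmt_SYM : Stmt_SYM := by
  intro m V _ G hm hNS A B b b' hA hB hcA hcB
  cases h1 : sg m G A B <;> cases h2 : sg m G B A
  · rfl
  · exact (SYM_aux m V G hm hNS B A b' hB hcB h2 h1).elim
  · exact (SYM_aux m V G hm hNS A B b hA hcA h1 h2).elim
  · rfl

end Pool.Ker
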