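import Pool.Agent.Work.MP_2df4ce_k.InterfaceB

/-!
# Block TRF: transfer between instances and solutions on sets of vertices
-/

set_option autoImplicit false

namespace Pool.Ker

open Classical St Alg

theorem TRF_adj (I : Inst) (i j : Fin I.1) : I.graph.Adj i j ↔ adj I.2.1 (i : ℕ) (j : ℕ) = true := by
  unfold Inst.graph adj
  simp only [SimpleGraph.fromRel_adj, Bool.and_eq_true, Bool.not_eq_true', decide_eq_false_iff_not,
    List.any_eq_true, Bool.or_eq_true, decide_eq_true_eq]
  constructor
  · rintro ⟨h1, h2⟩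
    refine ⟨fun h => h1 (Fin.ext h), ?_⟩
    rcases h2 with h | h
    · exact ⟨_, h, Or.inl ⟨rfl, rfl⟩⟩
    · exact ⟨_, h, Or.inr ⟨rfl, rfl⟩⟩
  · rintro ⟨h1, e, he, h2⟩
    refine ⟨fun h => h1 (congrArg Fin.val h), ?_⟩
    rcases h2 with ⟨h3, h4⟩ | ⟨h3, h4⟩
    · left
      rw [← h3, ← h4]
      exact he
    · right
      rw [← h3, ← h4]
      exact he

theorem TRF_mem {n : ℕ} (A B : SimpleGraph (Fin n)) (i j : Fin n) :
    s(i, j) ∈ symmDiff A.edgeSet B.edgeSet ↔ ¬ (A.Adj i j ↔ B.Adj i j) := by
  rw [Set.mem_symmDiff, SimpleGraph.mem_edgeSet, SimpleGraph.mem_edgeSet]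
  tauto

theorem stmt_TRF : Stmt_TRF := by
  intro F E I φ hφ hadj
  have hinj : Function.Injective (fun i : Fin I.1 => φ i) := by
    intro i j h
    exact Fin.ext (hφ i j i.2 j.2 h)
  have hA : ∀ i j : Fin I.1, (gr E).Adj (φ i) (φ j) ↔ I.graph.Adj i j := by
    intro i j
    rw [TRF_adj, hadj i j i.2 j.2]
    exact Iff.rfl
  constructor
  · rintro ⟨G', hfree, hcard⟩
    have hfin : (symmDiff I.graph.edgeSet G'.edgeSet).Finite := Set.toFinite _
    refine ⟨hfin.toFinset.image (Sym2.map (fun i : Fin I.1 => φ i)), ?_, ?_⟩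
    · refine le_trans Finset.card_image_le ?_
      rw [← Set.ncard_eq_toFinset_card _ hfin]
      exact hcard
    · rintro O hO ⟨H, hH, ψ, hψ, hHa, hOe⟩
      have hS : ∀ i j : Fin I.1, (s(φ i, φ j) ∈
          hfin.toFinset.image (Sym2.map (fun i : Fin I.1 => φ i))) ↔
          ¬ (I.graph.Adj i j ↔ G'.Adj i j) := by
        intro i j
        rw [← TRF_mem, Finset.mem_image]
        constructor
        · rintro ⟨e, he, h⟩
          have h2 : Sym2.map (fun i : Fin I.1 => φ i) e =
              Sym2.map (fun i : Fin I.1 => φ i) s(i, j) := by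
            rw [h, Sym2.map_mk]
          have h3 := Sym2.map.injective hinj h2
          rw [← h3]
          exact hfin.mem_toFinset.mp he
        · intro h
          exact ⟨s(i, j), hfin.mem_toFinset.mpr h, by rw [Sym2.map_mk]⟩
      have hE : ∀ i j : Fin I.1, (ed (gr E)
          (hfin.toFinset.image (Sym2.map (fun i : Fin I.1 => φ i)))).Adj (φ i) (φ j) ↔
          G'.Adj i j := by
        intro i j
        show (φ i ≠ φ j ∧ ¬ ((gr E).Adj (φ i) (φ j) ↔ _)) ↔ _
        rw [hS, hA]
        by_cases hij : i = j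
        · subst hij
          simp
        · have h1 : φ i ≠ φ j := fun h => hij (hinj h)
          tauto
      have hg : ∀ a : Fin H.1, ∃ i : Fin I.1, φ i = ψ a := by
        intro a
        have h1 : ψ a ∈ O := by
          rw [← hOe]
          exact Finset.mem_image_of_mem ψ (Finset.mem_univ a)
        obtain ⟨i, hi, h2⟩ := Finset.mem_image.mp (hO h1)
        exact ⟨⟨i, Finset.mem_range.mp hi⟩, h2⟩
      choose g hg using hg
      refine (hfree H hH).false ⟨⟨g, ?_⟩, ?_⟩
      · intro a b hab
        apply hψ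
        rw [← hg a, ← hg b, hab]
      · intro a b
        show G'.Adj (g a) (g b) ↔ H.2.Adj a b
        rw [← hE, hg, hg, hHa]
  · rintro ⟨S, hcard, hsol⟩
    refine ⟨(ed (gr E) S).comap (fun i : Fin I.1 => φ i), ?_, ?_⟩
    · intro H hH
      refine ⟨fun f => ?_⟩
      refine hsol (Finset.univ.image (fun a => φ (f a))) ?_ ⟨H, hH, fun a => φ (f a), ?_, ?_, rfl⟩
      · intro x hx
        obtain ⟨a, -, h⟩ := Finset.mem_image.mp hx
        rw [← h]
        exact Finset.mem_image_of_mem φ (Finset.mem_range.mpr (f a).2)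
      · intro a b hab
        exact f.injective (hinj hab)
      · intro a b
        exact f.map_rel_iff.symm
    · refine le_trans ?_ hcard
      rw [← Set.ncard_coe_finset]
      refine Set.ncard_le_ncard_of_injOn (Sym2.map (fun i : Fin I.1 => φ i)) ?_
        (Sym2.map.injective hinj).injOn (Finset.finite_toSet S)
      intro e he
      induction e using Sym2.ind with
      | _ i j =>
        rw [TRF_mem] at he
        rw [Sym2.map_mk]
        by_contra hc
        apply he
        have hij : i ≠ j := by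
          rintro rfl
          apply he
          simp
        have h1 : φ i ≠ φ j := fun h => hij (hinj h)
        have h2 : ((ed (gr E) S).comap (fun i : Fin I.1 => φ i)).Adj i j ↔
            (φ i ≠ φ j ∧ ¬ ((gr E).Adj (φ i) (φ j) ↔ s(φ i, φ j) ∈ S)) := Iff.rfl
        have h3 : ¬ s(φ i, φ j) ∈ S := fun h => hc h
        rw [h2, hA]
        tauto

end Pool.Ker
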