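import Pool.Agent.Work.MP_2df4ce_k.InterfaceB

/-! # MP_2df4ce_lc, block TRS -/

set_option autoImplicit false

namespace Pool.Ker

open Classical St Alg

theorem stmt_TRS : Stmt_TRS := by
  intro F hF
  obtain ⟨r, D, c, hF⟩ := hF
  refine ⟨r, D, c, ?_⟩
  intro G V hV
  let e : V ≃ Fin V.card := V.equivFin
  let f : Fin V.card → ℕ := fun i => (e.symm i : ℕ)
  have hf : Function.Injective f := fun i j h => e.symm.injective (Subtype.ext h)
  have hfV : ∀ i, f i ∈ V := fun i => (e.symm i).2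
  have hfe : ∀ (v : ℕ) (h : v ∈ V), f (e ⟨v, h⟩) = v := fun v h => by
    show ((e.symm (e ⟨v, h⟩) : V) : ℕ) = v
    rw [Equiv.symm_apply_apply]
  have hef : ∀ i, e ⟨f i, hfV i⟩ = i := fun i => hf (hfe _ _)
  obtain ⟨lab, M, hM, h1, h2⟩ := hF V.card (G.comap f) (by
    intro H hH
    refine ⟨fun φ => ?_⟩
    refine hV (Finset.univ.image fun a => f (φ a)) ?_ ⟨H, hH, fun a => f (φ a), ?_, ?_, rfl⟩
    · intro x hx
      obtain ⟨a, -, rfl⟩ := Finset.mem_image.1 hx
      exact hfV _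
    · intro a b h
      exact φ.injective (hf h)
    · intro a b
      exact (φ.map_adj_iff (v := a) (w := b)).symm)
  refine ⟨fun v => if h : v ∈ V then lab (e ⟨v, h⟩) else none, M, hM, ?_, ?_⟩
  · rw [← Set.ncard_coe_finset]
    refine le_trans (Set.ncard_le_ncard (t := f '' {v | lab v = none}) ?_ (Set.toFinite _))
      ((Set.ncard_image_le (Set.toFinite _)).trans h1)
    intro v hv
    rw [Finset.mem_coe, Finset.mem_filter] at hv
    obtain ⟨hv1, hv2⟩ := hv
    dsimp only at hv2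
    rw [dif_pos hv1] at hv2
    exact ⟨e ⟨v, hv1⟩, hv2, hfe v hv1⟩
  · intro v hv i hi
    dsimp only at hi
    rw [dif_pos hv] at hi
    rw [← Set.ncard_coe_finset]
    refine le_trans (Set.ncard_le_ncard (t := f '' {u | u ≠ e ⟨v, hv⟩ ∧
      ∃ j, lab u = some j ∧ ¬ ((G.comap f).Adj (e ⟨v, hv⟩) u ↔ M i j)}) ?_ (Set.toFinite _))
      ((Set.ncard_image_le (Set.toFinite _)).trans (h2 _ i hi))
    intro u hu
    rw [Finset.mem_coe, Finset.mem_filter] at hu
    obtain ⟨hu1, hu2, j, hu3, hu4⟩ := hu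
    dsimp only at hu3
    rw [dif_pos hu1] at hu3
    refine ⟨e ⟨u, hu1⟩, ⟨?_, j, hu3, ?_⟩, hfe u hu1⟩
    · intro h
      apply hu2
      have := congrArg f h
      rwa [hfe, hfe] at this
    · rw [SimpleGraph.comap_adj, hfe, hfe]
      exact hu4

end Pool.Ker
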