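import Pool.Agent.Work.MP_2df4ce_k.InterfaceE

/-!
# MP_2df4ce_lc, block TWO: two homogeneous sets (helper81)
-/

set_option autoImplicit false

namespace Pool.Ker

open Classical St

/-- double counting -/
theorem TWO_count {V : Type} (m : ℕ) (hm : 1 ≤ m) (N : V → Finset V) (W B : Finset V)
    (hB : B.card = 2 * m) (h : ∀ v ∈ B, (N v).card < m) :
    (W.filter fun w => m ≤ (B.filter fun v => w ∈ N v).card).card < 2 * m := by
  set S := W.filter fun w => m ≤ (B.filter fun v => w ∈ N v).card with hS
  have h1 : S.card * m ≤ B.card * (m - 1) := by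
    refine Finset.card_mul_le_card_mul (fun w v => w ∈ N v) ?_ ?_
    · intro w hw
      exact (Finset.mem_filter.mp hw).2
    · intro v hv
      have h2 : (S.bipartiteBelow (fun w v => w ∈ N v) v).card ≤ (N v).card := by
        apply Finset.card_le_card
        intro w hw
        rw [Finset.mem_bipartiteBelow] at hw
        exact hw.2
      have h3 := h v hv
      omega
  rw [hB] at h1
  have h2 : S.card * m ≤ (2 * (m - 1)) * m := by
    calc S.card * m ≤ 2 * m * (m - 1) := h1
      _ = (2 * (m - 1)) * m := by ring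
  have h3 := Nat.le_of_mul_le_mul_right h2 hm
  omega

/-- **Block TWO.** -/
theorem stmt_TWO : Stmt_TWO := by
  intro m V _ G hm hNS A B b b' hA hB hcard ⟨h1, h0⟩
  obtain ⟨B1, hB1, hB1c⟩ := Finset.exists_subset_card_eq h1
  obtain ⟨B0, hB0, hB0c⟩ := Finset.exists_subset_card_eq h0
  have hlt1 : ∀ v ∈ B1, (nb G v A false).card < m := by
    intro v hv
    have h2 := (Finset.mem_filter.mp (hB1 hv)).2
    have h3 : m ≤ (nb G v A true).card := of_decide_eq_true h2
    have h4 := hNS b A v hA
    by_contra hcon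
    exact h4 ⟨h3, not_lt.mp hcon⟩
  have hlt0 : ∀ v ∈ B0, (nb G v A true).card < m := by
    intro v hv
    have h2 := (Finset.mem_filter.mp (hB0 hv)).2
    have h3 : ¬ m ≤ (nb G v A true).card := of_decide_eq_false h2
    exact not_le.mp h3
  obtain ⟨W, hW⟩ : ∃ W, W = A \ (B1 ∪ B0) := ⟨_, rfl⟩
  have hWA : W ⊆ A := by
    rw [hW]
    exact Finset.sdiff_subset
  have hWc : 4 * m ≤ W.card := by
    have h2 := Finset.le_card_sdiff (B1 ∪ B0) A
    have h3 := Finset.card_union_le B1 B0
    rw [← hW] at h2
    omega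
  have hc1 := TWO_count m hm (fun v => nb G v A false) W B1 hB1c hlt1
  have hc0 := TWO_count m hm (fun v => nb G v A true) W B0 hB0c hlt0
  obtain ⟨w, hwW, hw1, hw0⟩ : ∃ w ∈ W,
      ¬ m ≤ (B1.filter fun v => w ∈ nb G v A false).card ∧
      ¬ m ≤ (B0.filter fun v => w ∈ nb G v A true).card := by
    by_contra hcon
    push Not at hcon
    have h2 : W ⊆ (W.filter fun w => m ≤ (B1.filter fun v => w ∈ nb G v A false).card) ∪
        (W.filter fun w => m ≤ (B0.filter fun v => w ∈ nb G v A true).card) := by
      intro w hw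
      rw [Finset.mem_union, Finset.mem_filter, Finset.mem_filter]
      by_cases h3 : m ≤ (B1.filter fun v => w ∈ nb G v A false).card
      · exact Or.inl ⟨hw, h3⟩
      · exact Or.inr ⟨hw, hcon w hw (not_le.mp h3)⟩
    have h3 := Finset.card_le_card h2
    have h4 := Finset.card_union_le
      (W.filter fun w => m ≤ (B1.filter fun v => w ∈ nb G v A false).card)
      (W.filter fun w => m ≤ (B0.filter fun v => w ∈ nb G v A true).card)
    omega
  have hwA : w ∈ A := hWA hwW
  rw [hW] at hwW
  have hwB1 : w ∉ B1 := fun h => (Finset.mem_sdiff.mp hwW).2 (Finset.mem_union_left _ h)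
  have hwB0 : w ∉ B0 := fun h => (Finset.mem_sdiff.mp hwW).2 (Finset.mem_union_right _ h)
  have hB1B : B1 ⊆ B := fun v hv => (Finset.mem_filter.mp (hB1 hv)).1
  have hB0B : B0 ⊆ B := fun v hv => (Finset.mem_filter.mp (hB0 hv)).1
  apply hNS b' B w hB
  constructor
  · have h2 : B1 \ (B1.filter fun v => w ∈ nb G v A false) ⊆ nb G w B true := by
      intro v hv
      rw [Finset.mem_sdiff, Finset.mem_filter] at hv
      have hne : v ≠ w := fun h => hwB1 (h ▸ hv.1)
      have hadj : G.Adj w v := by
        by_contra hcon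
        apply hv.2
        refine ⟨hv.1, ?_⟩
        unfold nb
        rw [Finset.mem_filter]
        exact ⟨hwA, hne.symm, ⟨fun h => absurd h.symm hcon, fun h => absurd h (by decide)⟩⟩
      unfold nb
      rw [Finset.mem_filter]
      exact ⟨hB1B hv.1, hne, ⟨fun _ => rfl, fun _ => hadj⟩⟩
    have h3 := Finset.card_le_card h2
    have h4 := Finset.le_card_sdiff (B1.filter fun v => w ∈ nb G v A false) B1
    omega
  · have h2 : B0 \ (B0.filter fun v => w ∈ nb G v A true) ⊆ nb G w B false := by
      intro v hv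
      rw [Finset.mem_sdiff, Finset.mem_filter] at hv
      have hne : v ≠ w := fun h => hwB0 (h ▸ hv.1)
      have hadj : ¬ G.Adj w v := by
        intro hcon
        apply hv.2
        refine ⟨hv.1, ?_⟩
        unfold nb
        rw [Finset.mem_filter]
        exact ⟨hwA, hne.symm, ⟨fun _ => rfl, fun _ => hcon.symm⟩⟩
      unfold nb
      rw [Finset.mem_filter]
      exact ⟨hB0B hv.1, hne, ⟨fun h => absurd h hadj, fun h => absurd h (by decide)⟩⟩
    have h3 := Finset.card_le_card h2
    have h4 := Finset.le_card_sdiff (B0.filter fun v => w ∈ nb G v A true) B0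
    omega

end Pool.Ker
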