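import Pool.Agent.Work.MP_2df4ce_k.InterfaceB

/-!
# MP_2df4ce_lc, block VKB: the number of kernel vertices
-/

set_option autoImplicit false

namespace Pool.Ker

open Classical St Alg

theorem VKB_len {s k cc C N z m b p v : ℕ} (hz : z ≤ s * k + cc) (hm : m ≤ C * (z + 1) ^ s * N)
    (hb : b ≤ p) (hv : v ≤ (z + m) * b) :
    v ≤ (s * k + cc + C * (s * k + cc + 1) ^ s * N) * p := by
  refine hv.trans (Nat.mul_le_mul (Nat.add_le_add hz (hm.trans ?_)) hb)
  exact Nat.mul_le_mul_right _ (Nat.mul_le_mul_left _ (Nat.pow_le_pow_left (by omega) _))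

theorem stmt_VKB (hLBA : Stmt_LBA) (hPFR : Stmt_PFR) (hSMP : Stmt_SMP) (hCRE : Stmt_CRE)
    (hMCA : Stmt_MCA) (hBLE : Stmt_BLE) (hBAL : Stmt_BAL) (hRDB : Stmt_RDB) : Stmt_VKB := by
  intro F OL s r D c hOL hB hS
  obtain ⟨C, hC⟩ := hMCA s r
  obtain ⟨PR, hPR⟩ := hRDB s (D + (c + r * (2 * D + 2)))
  refine ⟨((Polynomial.C s * Polynomial.X + Polynomial.C (c + r * (2 * D + 2))) +
    Polynomial.C C * (Polynomial.C s * Polynomial.X + Polynomial.C (c + r * (2 * D + 2)) + 1) ^ s *
      (Polynomial.C 2 * Polynomial.X +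
        Polynomial.C (s + s * (D + (c + r * (2 * D + 2))) + 1))) * PR, ?_⟩
  intro n k E hP
  have hmem := hLBA.1
  obtain ⟨h1, h2⟩ := (hPFR F OL s hOL hB n k E).2 hP
  have hVn : (restL n (packO OL s n k E)).Nodup := List.Nodup.filter _ List.nodup_range
  have hVlt : ∀ v ∈ restL n (packO OL s n k E), v < n := fun v hv =>
    List.mem_range.1 (List.mem_filter.1 hv).1
  obtain ⟨h3, h4⟩ := hSMP F r D c hS E _ hVn h1
  unfold vk
  generalize c + r * (2 * D + 2) = cc at *
  generalize restL n (packO OL s n k E) = V at *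
  generalize samp D cc r E V = Sa at *
  have hRlt : ∀ v ∈ regL D cc E Sa V, v < n := fun v hv => hVlt v (List.mem_filter.1 hv).1
  have hMlt : ∀ v ∈ Ml D s (Nc s (D + cc) k) n E Sa (coL n (regL D cc E Sa V))
      (regL D cc E Sa V), v < n := fun v hv => List.mem_range.1 (List.mem_filter.1 hv).1
  have hZlen : (coL n (regL D cc E Sa V)).length ≤ s * k + cc := by
    have hsub : coL n (regL D cc E Sa V) ⊆ coL n V ++ exL D cc E Sa V := by
      intro v hv
      obtain ⟨hv1, hv2⟩ := List.mem_filter.1 hv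
      rw [List.mem_append]
      by_cases hvV : v ∈ V
      · right
        by_contra hn
        have h5 : v ∈ regL D cc E Sa V := by
          refine List.mem_filter.2 ⟨hvV, ?_⟩
          rw [Bool.not_eq_true', ← Bool.not_eq_true]
          rw [hmem]
          exact hn
        rw [Bool.not_eq_true', ← Bool.not_eq_true, hmem] at hv2
        exact hv2 h5
      · left
        refine List.mem_filter.2 ⟨hv1, ?_⟩
        rw [Bool.not_eq_true', ← Bool.not_eq_true, hmem]
        exact hvV
    have hnd : (coL n (regL D cc E Sa V)).Nodup := List.Nodup.filter _ List.nodup_range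
    have h5 := (List.subperm_of_subset hnd hsub).length_le
    rw [List.length_append] at h5
    omega
  have hMlen := hC n D (Nc s (D + cc) k) E Sa (coL n (regL D cc E Sa V)) (regL D cc E Sa V) h4.le
  obtain ⟨h5, h6⟩ := hBLE n D E Sa (regL D cc E Sa V) _ (Rad s (D + cc) (Ln k) + s + 1) hRlt hMlt
  have hcore := hCRE n D cc s (Nc s (D + cc) k) E Sa V hVn hVlt
  have h7 := hBAL _ _ _ _ _ _ _ _ _ hcore (Rad s (D + cc) (Ln k) + s + 1)
  rw [← h5, List.toFinset_card_of_nodup h6] at h7
  have h8 : ((coL n (regL D cc E Sa V)).toFinset ∪ (Ml D s (Nc s (D + cc) k) n E Sa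
      (coL n (regL D cc E Sa V)) (regL D cc E Sa V)).toFinset).card ≤
      (coL n (regL D cc E Sa V)).length + (Ml D s (Nc s (D + cc) k) n E Sa
      (coL n (regL D cc E Sa V)) (regL D cc E Sa V)).length :=
    (Finset.card_union_le _ _).trans
      (Nat.add_le_add (List.toFinset_card_le _) (List.toFinset_card_le _))
  have h9 := VKB_len hZlen hMlen (hPR k) (h7.trans (Nat.mul_le_mul_right _ h8))
  refine h9.trans (le_of_eq ?_)
  simp only [Polynomial.eval_mul, Polynomial.eval_add, Polynomial.eval_pow, Polynomial.eval_C,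
    Polynomial.eval_X, Polynomial.eval_one]
  unfold Nc
  ring

end Pool.Ker
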