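import Pool.Agent.Work.MP_2df4ce_k.InterfaceF

/-! # Block ZER (helper56): a member without vertices -/

set_option autoImplicit false

namespace Pool.Ker

open St Alg Pool.Agent.Work.TMLib

theorem ZER_no (F : Set Gr) (h : ∃ H ∈ F, H.1 = 0) (I : Inst) : ¬ St.Yes F I := by
  obtain ⟨⟨m, H⟩, hH, h0⟩ := h
  change m = 0 at h0
  subst h0
  rintro ⟨G', hG', -⟩
  exact (hG' _ hH).false
    { toFun := fun i => i.elim0
      inj' := fun i => i.elim0
      map_rel_iff' := fun {i} => i.elim0 }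

theorem stmt_ZER : Stmt_PEN → Stmt_ZER := by
  intro hP F hF
  refine ⟨fun _ => (0, [], 0), Polynomial.C 2, hP _ (PolyF.const _), fun I => ⟨?_, ?_, ?_⟩⟩
  · exact ⟨fun h => absurd h (ZER_no F hF _), fun h => absurd h (ZER_no F hF _)⟩
  · exact Nat.zero_le _
  · rw [Polynomial.eval_C]
    show (Inst.enc (0, [], 0)).length ≤ 2
    decide

end Pool.Ker
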