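import Mathlib

/-!
# MP_2df4ce_lc: polynomial kernels for F-free edge editing

Definitions of part A (the kernelization argument for an abstract set of obstructions).
-/

set_option autoImplicit false

namespace Pool.Ker

open Classical

/-- The graph obtained from `G` by changing the adjacency of the pairs in `S`. -/
def ed (G : SimpleGraph ℕ) (S : Finset (Sym2 ℕ)) : SimpleGraph ℕ where
  Adj x y := x ≠ y ∧ ¬ (G.Adj x y ↔ s(x, y) ∈ S)
  symm := ⟨fun x y h => ⟨h.1.symm, fun hh => h.2 (by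
    rw [G.adj_comm x y, Sym2.eq_swap]
    exact hh)⟩⟩
  loopless := ⟨fun x h => h.1 rfl⟩

/-- `Ob G O`: `O` is (the vertex set of) an obstruction of `G`; the axioms used. -/
structure IsOb (s : ℕ) (Ob : SimpleGraph ℕ → Finset ℕ → Prop) : Prop where
  card : ∀ G O, Ob G O → O.card ≤ s
  pos : ∀ G O, Ob G O → O.Nonempty
  map : ∀ (G H : SimpleGraph ℕ) (O : Finset ℕ) (f : ℕ → ℕ), Ob G O → Set.InjOn f (O : Set ℕ) →
    (∀ x ∈ O, ∀ y ∈ O, (G.Adj x y ↔ H.Adj (f x) (f y))) → Ob H (O.image f)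

/-- `S` is a solution on `U`: the edited graph has no obstruction in `U`. -/
def Sol (Ob : SimpleGraph ℕ → Finset ℕ → Prop) (G : SimpleGraph ℕ) (U : Finset ℕ)
    (S : Finset (Sym2 ℕ)) : Prop := ∀ O ⊆ U, ¬ Ob (ed G S) O

/-- There is a solution on `U` with at most `k` pairs. -/
def Yes (Ob : SimpleGraph ℕ → Finset ℕ → Prop) (G : SimpleGraph ℕ) (U : Finset ℕ) (k : ℕ) : Prop :=
  ∃ S : Finset (Sym2 ℕ), S.card ≤ k ∧ Sol Ob G U S

/-- Defects: pairs of vertices of `X \ Z` whose adjacency is not the one prescribed by the labels. -/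
def Df (G : SimpleGraph ℕ) (X Z : Finset ℕ) (lab : ℕ → ℕ) (W : ℕ → ℕ → Prop) (u v : ℕ) : Prop :=
  u ∈ X ∧ u ∉ Z ∧ v ∈ X ∧ v ∉ Z ∧ u ≠ v ∧ ¬ (G.Adj u v ↔ W (lab u) (lab v))

/-- `c` copies `P` into `M`, with the same labels, the same adjacencies, also to `Z'`. -/
structure Copy (G : SimpleGraph ℕ) (lab : ℕ → ℕ) (M P Z' : Finset ℕ) (c : ℕ → ℕ) : Prop where
  mem : ∀ x ∈ P, c x ∈ M
  inj : ∀ x ∈ P, ∀ y ∈ P, c x = c y → x = y
  lab : ∀ x ∈ P, lab (c x) = lab x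
  adj : ∀ x ∈ P, ∀ y ∈ P, (G.Adj (c x) (c y) ↔ G.Adj x y)
  adz : ∀ x ∈ P, ∀ z ∈ Z', (G.Adj (c x) z ↔ G.Adj x z)

/-- The structure used by the kernelization: `Z` are the exceptional vertices, outside of `Z` every
vertex has at most `Δ` defects, and every set `P` of at most `s` vertices outside of `Z ∪ M` has `N`
disjoint copies in `M`, for each set `Z'` of at most `s` exceptional vertices. -/
structure Core (G : SimpleGraph ℕ) (X : Finset ℕ) (s Δ N : ℕ) (Z M : Finset ℕ) (lab : ℕ → ℕ)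
    (W : ℕ → ℕ → Prop) : Prop where
  hZ : Z ⊆ X
  hM : M ⊆ X
  hZM : ∀ x ∈ M, x ∉ Z
  sym : ∀ i j, W i j → W j i
  deg : ∀ v, (X.filter fun u => Df G X Z lab W v u).card ≤ Δ
  rep : ∀ P Z' : Finset ℕ, P ⊆ X → (∀ x ∈ P, x ∉ Z ∧ x ∉ M) → P.Nonempty → P.card ≤ s →
    Z' ⊆ Z → Z'.card ≤ s → ∃ c : Fin N → ℕ → ℕ, (∀ i, Copy G lab M P Z' (c i)) ∧
      ∀ i j, i ≠ j → ∀ x ∈ P, ∀ y ∈ P, c i x ≠ c j y

/-- The vertices at defect-distance at most `n` from `T`. -/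
noncomputable def ball (G : SimpleGraph ℕ) (X Z : Finset ℕ) (lab : ℕ → ℕ) (W : ℕ → ℕ → Prop)
    (T : Finset ℕ) : ℕ → Finset ℕ
  | 0 => T
  | n + 1 => X.filter fun v => v ∈ ball G X Z lab W T n ∨
      ∃ u ∈ ball G X Z lab W T n, Df G X Z lab W u v

/-- The balls used: around `Z ∪ M`. -/
noncomputable def bl (G : SimpleGraph ℕ) (X Z M : Finset ℕ) (lab : ℕ → ℕ) (W : ℕ → ℕ → Prop)
    (n : ℕ) : Finset ℕ := ball G X Z lab W (Z ∪ M) n

/-- The invariant of the replacement argument: `f` maps `A0` into `A ∪ M`, it is the identity on `Z`,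
keeps the labels outside of `Z`, and carries the adjacency of `H` to the one of the edited graph. -/
structure Emb (G : SimpleGraph ℕ) (S : Finset (Sym2 ℕ)) (H : SimpleGraph ℕ) (Z M A : Finset ℕ)
    (lab : ℕ → ℕ) (A0 : Finset ℕ) (f : ℕ → ℕ) : Prop where
  mem : ∀ x ∈ A0, f x ∈ A ∪ M
  inj : ∀ x ∈ A0, ∀ y ∈ A0, f x = f y → x = y
  fz : ∀ x ∈ A0, x ∈ Z → f x = x
  fnz : ∀ x ∈ A0, x ∉ Z → f x ∉ Z ∧ lab (f x) = lab x
  adj : ∀ x ∈ A0, ∀ y ∈ A0, (H.Adj x y ↔ (ed G S).Adj (f x) (f y))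

/-- The pairs of `S` inside the ball of radius `b`. -/
noncomputable def Sin (B : Finset ℕ) (S : Finset (Sym2 ℕ)) : Finset (Sym2 ℕ) :=
  S.filter fun e => ∀ x ∈ e, x ∈ B

/-- The pairs of `S` not inside `B`. -/
noncomputable def Sout (B : Finset ℕ) (S : Finset (Sym2 ℕ)) : Finset (Sym2 ℕ) :=
  S.filter fun e => ¬ ∀ x ∈ e, x ∈ B

/-- The vertices of `Bb \ Ba` in a pair of `S` which is inside `Bb`. -/
noncomputable def Wt (Ba Bb : Finset ℕ) (S : Finset (Sym2 ℕ)) : Finset ℕ :=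
  (Bb \ Ba).filter fun x => ∃ e ∈ Sin Bb S, x ∈ e

/-- The repaired set of pairs: the pairs of `S` inside `Bb` which avoid `Wt`, and all defects at the
vertices of `Wt`. -/
noncomputable def Sst (G : SimpleGraph ℕ) (X Z : Finset ℕ) (lab : ℕ → ℕ) (W : ℕ → ℕ → Prop)
    (Ba Bb : Finset ℕ) (S : Finset (Sym2 ℕ)) : Finset (Sym2 ℕ) :=
  ((Sin Bb S).filter fun e => ∀ x ∈ e, x ∉ Wt Ba Bb S) ∪
    (Wt Ba Bb S).biUnion fun x => (X.filter fun y => Df G X Z lab W x y).image fun y => s(x, y)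

/-- The radius. -/
def Rad (s Δ L : ℕ) : ℕ := (s + 1) * ((2 * Δ + 1) * L)

end Pool.Ker
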