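import Pool.Agent.Work.MP_2df4ce_k.B_DFS
import Pool.Agent.Work.MP_2df4ce_k.B_SHL
import Pool.Agent.Work.MP_2df4ce_k.B_STP
import Pool.Agent.Work.MP_2df4ce_k.B_EXT
import Pool.Agent.Work.MP_2df4ce_k.B_REP
import Pool.Agent.Work.MP_2df4ce_k.B_LOS
import Pool.Agent.Work.MP_2df4ce_k.B_LOD
import Pool.Agent.Work.MP_2df4ce_k.B_EXP
import Pool.Agent.Work.MP_2df4ce_k.B_LOC
import Pool.Agent.Work.MP_2df4ce_k.B_GLU
import Pool.Agent.Work.MP_2df4ce_k.B_BAL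
import Pool.Agent.Work.MP_2df4ce_k.B_PKN
import Pool.Agent.Work.MP_2df4ce_k.B_RAM
import Pool.Agent.Work.MP_2df4ce_k.B_MON
import Pool.Agent.Work.MP_2df4ce_k.B_EX1
import Pool.Agent.Work.MP_2df4ce_k.B_EX2
import Pool.Agent.Work.MP_2df4ce_k.B_TWO
import Pool.Agent.Work.MP_2df4ce_k.B_SYM
import Pool.Agent.Work.MP_2df4ce_k.B_SGT
import Pool.Agent.Work.MP_2df4ce_k.B_MIX
import Pool.Agent.Work.MP_2df4ce_k.B_SBD
import Pool.Agent.Work.MP_2df4ce_k.B_ROW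
import Pool.Agent.Work.MP_2df4ce_k.B_MAX
import Pool.Agent.Work.MP_2df4ce_k.B_LBL
import Pool.Agent.Work.MP_2df4ce_k.B_DFB
import Pool.Agent.Work.MP_2df4ce_k.B_STR
import Pool.Agent.Work.MP_2df4ce_k.B_KFR
import Pool.Agent.Work.MP_2df4ce_k.B_IOB
import Pool.Agent.Work.MP_2df4ce_k.B_TRS
import Pool.Agent.Work.MP_2df4ce_k.B_LBA
import Pool.Agent.Work.MP_2df4ce_k.B_APT
import Pool.Agent.Work.MP_2df4ce_k.B_PAK
import Pool.Agent.Work.MP_2df4ce_k.B_OBT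
import Pool.Agent.Work.MP_2df4ce_k.B_PFR
import Pool.Agent.Work.MP_2df4ce_k.B_SMV
import Pool.Agent.Work.MP_2df4ce_k.B_SMP
import Pool.Agent.Work.MP_2df4ce_k.B_CDG
import Pool.Agent.Work.MP_2df4ce_k.B_RPC
import Pool.Agent.Work.MP_2df4ce_k.B_CRE
import Pool.Agent.Work.MP_2df4ce_k.B_MCA
import Pool.Agent.Work.MP_2df4ce_k.B_BLE
import Pool.Agent.Work.MP_2df4ce_k.B_COR
import Pool.Agent.Work.MP_2df4ce_k.B_RDB
import Pool.Agent.Work.MP_2df4ce_k.B_VKB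
import Pool.Agent.Work.MP_2df4ce_k.B_TRF
import Pool.Agent.Work.MP_2df4ce_k.B_SBB
import Pool.Agent.Work.MP_2df4ce_k.B_NOI
import Pool.Agent.Work.MP_2df4ce_k.B_KRN
import Pool.Agent.Work.MP_2df4ce_k.B_PA1
import Pool.Agent.Work.MP_2df4ce_k.B_PA2
import Pool.Agent.Work.MP_2df4ce_k.B_PA3
import Pool.Agent.Work.MP_2df4ce_k.B_PA4
import Pool.Agent.Work.MP_2df4ce_k.B_PA5
import Pool.Agent.Work.MP_2df4ce_k.B_PA6
import Pool.Agent.Work.MP_2df4ce_k.B_PEN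
import Pool.Agent.Work.MP_2df4ce_k.B_ZER
import Pool.Agent.Work.MP_2df4ce_k.B_FIN
import Pool.Agent.Work.MP_2df4ce_k.B_GS1
import Pool.Agent.Work.MP_2df4ce_k.B_GS2
import Pool.Agent.Work.MP_2df4ce_k.B_GS3
import Pool.Agent.Work.MP_2df4ce_k.B_GS4

/-!
# MP_2df4ce_lc: assembly
-/

set_option autoImplicit false

namespace Pool.Ker

open St

theorem hEXT : Stmt_EXT := stmt_EXT stmt_DFS (stmt_STP stmt_DFS)
theorem hREP : Stmt_REP := stmt_REP stmt_DFS hEXT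
theorem hLOS : Stmt_LOS := stmt_LOS stmt_DFS stmt_SHL hREP
theorem hLOD : Stmt_LOD := stmt_LOD stmt_DFS hLOS
theorem hLOC : Stmt_LOC := stmt_LOC stmt_EXP hLOD
theorem hGLU : Stmt_GLU := stmt_GLU stmt_DFS stmt_SHL hREP hLOC

theorem hSGT : Stmt_SGT := stmt_SGT stmt_TWO
theorem hMIX : Stmt_MIX := stmt_MIX hSGT
theorem hSBD : Stmt_SBD := stmt_SBD hSGT
theorem hROW : Stmt_ROW := stmt_ROW stmt_TWO hSGT hMIX
theorem hMAX : Stmt_MAX := stmt_MAX stmt_SYM hSBD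
theorem hLBL : Stmt_LBL := stmt_LBL hROW
theorem hDFB : Stmt_DFB := stmt_DFB stmt_SYM hSGT hMIX hROW
theorem hSTR : Stmt_STR := stmt_STR stmt_RAM stmt_MON stmt_EX1 stmt_EX2 stmt_SYM hMAX hLBL hDFB

theorem hPAK : Stmt_PAK := stmt_PAK stmt_LBA
theorem hOBT : Stmt_OBT := stmt_OBT stmt_LBA stmt_APT
theorem hPFR : Stmt_PFR := stmt_PFR stmt_IOB stmt_PKN stmt_LBA hPAK hOBT
theorem hSMP : Stmt_SMP := stmt_SMP stmt_LBA (stmt_SMV stmt_LBA)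
theorem hRPC : Stmt_RPC := stmt_RPC stmt_LBA stmt_APT hPAK
theorem hCRE : Stmt_CRE := stmt_CRE stmt_LBA (stmt_CDG stmt_LBA) hRPC
theorem hBLE : Stmt_BLE := stmt_BLE stmt_LBA
theorem hCOR : Stmt_COR := stmt_COR stmt_IOB stmt_LBA hCRE hBLE hGLU
theorem hVKB : Stmt_VKB :=
  stmt_VKB stmt_LBA hPFR hSMP hCRE (stmt_MCA stmt_LBA hPAK) hBLE stmt_BAL stmt_RDB
theorem hKRN : Stmt_KRN :=
  stmt_KRN hPAK hOBT hPFR hCOR hVKB stmt_TRF (stmt_SBB stmt_LBA) stmt_NOI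

theorem hPA3 : Stmt_PA3 := stmt_PA3 stmt_PA1
theorem hPA4 : Stmt_PA4 := stmt_PA4 stmt_PA1 stmt_PA2 hPA3
theorem hPA5 : Stmt_PA5 := stmt_PA5 stmt_PA1 stmt_PA2 hPA3 hPA4
theorem hPA6 : Stmt_PA6 := stmt_PA6 stmt_PA1 hPA4 hPA5
theorem hFIN : Stmt_FIN := stmt_FIN stmt_TRS hKRN hPA6 stmt_PEN (stmt_ZER stmt_PEN)

theorem hGS4 : Stmt_GS4 := stmt_GS4 stmt_GS2 stmt_GS3

/-- A finite bounded family has a polynomial kernel. -/
theorem bounded_kernel (F : Set Gr) (hF : F.Finite) (hB : St.Bounded F) : HasKernel F :=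
  hFIN F hF (hGS4 F hB)

/-- The four families. -/
theorem four_bounded (F : Set Gr) (h : Four F) : St.Bounded F := stmt_GS1 F (hSTR F h)

/-- The pair. -/
theorem pair_four (p q : ℕ) (F : Set Gr) (hp : (⟨p, KMinus p⟩ : Gr) ∈ F)
    (hq : (⟨q, (KMinus q)ᶜ⟩ : Gr) ∈ F) : Four F := stmt_KFR p q F hp hq

end Pool.Ker
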