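import Pool.Agent.Work.MP_2df4ce_k.Alg
import Pool.Agent.Work.TMLib.Lib2
import Pool.Agent.Work.TMLib.FP

/-!
# MP_2df4ce_lc, part P: the algorithm runs in polynomial time (statements)

`PolyF` (TMLib): polynomial-time functions between types with an encoding `DE` (`ℕ`, `Bool`, products,
lists). Tools: `fun_prop` and `PolyF.comp`, `pair`, `fst`, `snd`, `cond`, `and`, `or`, `not`, `le`, `lt`,
`natEq`, `eq`, `cons`, `append`, `headD`, `getD`, `isEmpty`, `length`, `range`, `map`, `filter`, `flatMap`,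
`all`, `foldl_add`, `iterate_add`, `add`, `mul`, `bits`, `congrF` (TMLib/PolyF.lean, Lib.lean, Lib2.lean);
the model file is `MP_2183d4_pt/AlgPoly.lean` (there also `PolyF.any`; copy it, do not import).
Functions with an argument under a binder (`map`, `filter`, `flatMap`, `any`): give `f` explicitly, e.g.
`PolyF.filter (f := fun a y => ...) (by fun_prop) (by fun_prop)`.
-/

set_option autoImplicit false

namespace Pool.Ker

open St Alg Pool.Agent.Work.TMLib

/-- PA1. `adj`, `memB`, `apat`, `disB`, `nodB` (`any` is `!` of an `all` of negations). -/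
def Stmt_PA1 : Prop :=
  (∀ (α : Type) [DE α] (E : α → List (ℕ × ℕ)) (u v : α → ℕ), PolyF E → PolyF u → PolyF v →
    PolyF (fun a => adj (E a) (u a) (v a))) ∧
  (∀ (α : Type) [DE α] (l : α → List ℕ) (v : α → ℕ), PolyF l → PolyF v →
    PolyF (fun a => memB (l a) (v a))) ∧
  (∀ (α : Type) [DE α] (E : α → List (ℕ × ℕ)) (t z : α → List ℕ), PolyF E → PolyF t → PolyF z →
    PolyF (fun a => apat (E a) (t a) (z a))) ∧
  (∀ (α : Type) [DE α] (t l : α → List ℕ), PolyF t → PolyF l →
    PolyF (fun a => disB (t a) (l a))) ∧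
  (∀ (α : Type) [DE α] (t : α → List ℕ), PolyF t → PolyF (fun a => nodB (t a)))

/-- PA2. `tup` for a fixed length (induction), `allT` for a fixed bound (induction), equality of lists
(`PEq`): equal lengths and, for all `i` in the range of the length, equal `l.getD i d` (if there is an element
`d`, e.g. compare the lists `[l.headD]`-wise by `drop`; simplest: fold over the first list the pair (flag,
rest of the second list): flag and rest not empty and equal heads, at the end the rest is empty). -/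
def Stmt_PA2 : Prop :=
  (∀ (α β : Type) [DE α] [DE β] (U : α → List β) (l : ℕ), PolyF U →
    PolyF (fun a => tup (U a) l)) ∧
  (∀ (α : Type) [DE α] (U : α → List ℕ) (l : ℕ), PolyF U → PolyF (fun a => allT (U a) l)) ∧
  (∀ (β : Type) [DE β] [DecidableEq β] [PEq β], PEq (List β))

/-- PA3. `pack`: `PolyF.foldl_add`; a step adds `[t]` at the end or nothing. Uses PA1 (`disB`). -/
def Stmt_PA3 : Prop :=
  ∀ (α : Type) [DE α] (N : α → ℕ) (c : α → List ℕ → Bool) (ts : α → List (List ℕ)), PolyF N →
    PolyF (fun p : α × List ℕ => c p.1 p.2) → PolyF ts →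
    PolyF (fun a => pack (N a) (c a) (ts a))

/-- PA4. The packing of obstructions, votes, labels, defects, exceptional vertices. Uses PA1, PA2, PA3. -/
def Stmt_PA4 : Prop :=
  (∀ (α : Type) [DE α] (OL : List (ℕ × List Bool)) (s : ℕ) (n k : α → ℕ)
    (E : α → List (ℕ × ℕ)), PolyF n → PolyF k → PolyF E →
    PolyF (fun a => packO OL s (n a) (k a) (E a))) ∧
  (∀ (α : Type) [DE α] (n : α → ℕ) (P : α → List (List ℕ)), PolyF n → PolyF P →
    PolyF (fun a => restL (n a) (P a))) ∧
  (∀ (α : Type) [DE α] (D : ℕ) (E : α → List (ℕ × ℕ)) (Sa : α → List (List ℕ)) (v : α → ℕ),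
    PolyF E → PolyF Sa → PolyF v → PolyF (fun a => labB D (E a) (Sa a) (v a))) ∧
  (∀ (α : Type) [DE α] (D : ℕ) (E : α → List (ℕ × ℕ)) (Sa : α → List (List ℕ)) (u v : α → ℕ),
    PolyF E → PolyF Sa → PolyF u → PolyF v →
    PolyF (fun a => defB D (E a) (Sa a) (u a) (v a))) ∧
  (∀ (α : Type) [DE α] (D cc : ℕ) (E : α → List (ℕ × ℕ)) (Sa : α → List (List ℕ))
    (V : α → List ℕ), PolyF E → PolyF Sa → PolyF V →
    PolyF (fun a => exL D cc (E a) (Sa a) (V a)))

/-- PA5. The sample, the regular vertices, `M`, the steps of the balls. Uses PA1 to PA4. -/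
def Stmt_PA5 : Prop :=
  (∀ (α : Type) [DE α] (D cc r : ℕ) (E : α → List (ℕ × ℕ)) (V : α → List ℕ), PolyF E → PolyF V →
    PolyF (fun a => samp D cc r (E a) (V a))) ∧
  (∀ (α : Type) [DE α] (D cc : ℕ) (E : α → List (ℕ × ℕ)) (Sa : α → List (List ℕ))
    (V : α → List ℕ), PolyF E → PolyF Sa → PolyF V →
    PolyF (fun a => regL D cc (E a) (Sa a) (V a))) ∧
  (∀ (α : Type) [DE α] (n : α → ℕ) (R : α → List ℕ), PolyF n → PolyF R →
    PolyF (fun a => coL (n a) (R a))) ∧
  (∀ (α : Type) [DE α] (D s : ℕ) (N n : α → ℕ) (E : α → List (ℕ × ℕ))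
    (Sa : α → List (List ℕ)) (Z R : α → List ℕ), PolyF N → PolyF n → PolyF E → PolyF Sa →
    PolyF Z → PolyF R → PolyF (fun a => Ml D s (N a) (n a) (E a) (Sa a) (Z a) (R a))) ∧
  (∀ (α : Type) [DE α] (D : ℕ) (n : α → ℕ) (E : α → List (ℕ × ℕ))
    (Sa : α → List (List ℕ)) (R B : α → List ℕ), PolyF n → PolyF E → PolyF Sa → PolyF R →
    PolyF B → PolyF (fun a => stepB D (n a) (E a) (Sa a) (R a) (B a))) ∧
  (∀ (α : Type) [DE α] (n : α → ℕ) (Z M : α → List ℕ), PolyF n → PolyF Z → PolyF M →
    PolyF (fun a => startB (n a) (Z a) (M a)))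

/-- PA6. The kernelization. The iteration in `vk`: `PolyF.iterate_add`, the size of `stepB D n E Sa R B`
is at most the size of `List.range n`. Uses PA1, PA4, PA5. -/
def Stmt_PA6 : Prop :=
  ∀ (OL : List (ℕ × List Bool)) (s r D cc : ℕ) (noI : Inst),
    PolyF (fun I : Inst => kern OL s r D cc noI I)

/-- PEN (encodings). `Inst.enc` can be decoded and encoded in polynomial time, so a `PolyF` function is a
`PolyTime` function (`PolyTime.of_PolyF` with an equivalence of `Bool` and `Fin 2`; model: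
`MP_2183d4_pt/B_SPT.lean`). The decoder is a fold with a counter: the first number is `n`, the second `k`, the
others are paired. -/
def Stmt_PEN : Prop :=
  ∀ f : Inst → Inst, PolyF f → PolyTime Inst.enc Inst.enc f

end Pool.Ker
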