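import Pool.Agent.Work.MP_2df4ce_k.InterfaceB
import Pool.Agent.Work.MP_2df4ce_k.InterfaceP

/-!
# MP_2df4ce_lc: the last statements
-/

set_option autoImplicit false

namespace Pool.Ker

open St Alg Pool.Agent.Work.TMLib

/-- ZER. If `F` has a member without vertices then no graph is `F`-free, and the constant function
`(0, [], 0)` is a kernel. (`PolyF.const`, PEN.) -/
def Stmt_ZER : Prop := ∀ F : Set Gr, (∃ H ∈ F, H.1 = 0) → HasKernel F

/-- FIN. `F` finite and structured: polynomial kernel. If some member has no vertices: ZER. Otherwise
`Bdd F s` for the largest size `s` (the set `F` is finite), `OL` = the list of the `patG H`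
(`F.Finite.toFinset.toList.map patG`), `StrN` (TRS), KRN, and PA6, PEN for the polynomial time. -/
def Stmt_FIN : Prop := ∀ F : Set Gr, F.Finite → Structured F → HasKernel F

end Pool.Ker
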