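import Pool.Agent.Work.MP_2df4ce_k.Stmt

/-!
# MP_2df4ce_lc, part G: a simpler form of the hypothesis `Structured`
-/

set_option autoImplicit false

namespace Pool.Ker

open Classical St

/-- There is `t` such that no finite `F`-free graph contains `t` vertices, any two of which are
distinguished by at least `t` other vertices (adjacent to exactly one of the two). -/
def St.Bounded (F : Set Gr) : Prop :=
  ∃ t : ℕ, ∀ (n : ℕ) (G : SimpleGraph (Fin n)), Free F G →
    ¬ ∃ x : Fin t → Fin n, ∀ i j, i ≠ j →
      t ≤ {v | v ≠ x i ∧ v ≠ x j ∧ (G.Adj (x i) v ↔ ¬ G.Adj (x j) v)}.ncard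

/-- The number of vertices, other than `x` and `y`, adjacent to exactly one of `x`, `y`. -/
noncomputable def dst {V : Type} [Fintype V] (G : SimpleGraph V) (x y : V) : ℕ :=
  (Finset.univ.filter fun v => v ≠ x ∧ v ≠ y ∧ (G.Adj x v ↔ ¬ G.Adj y v)).card

/-- The neighbours (`β = true`) or non-neighbours (`β = false`) of `u` in `B`, without `u`. -/
noncomputable def nbr {V : Type} (G : SimpleGraph V) (B : Finset V) (β : Bool) (u : V) : Finset V :=
  B.filter fun w => w ≠ u ∧ (G.Adj u w ↔ β = true)

/-- GS1. `Structured` implies `Bounded`: `t = r + c + 2D + 1`. The `x i` are different vertices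
(`t ≥ 1`), at most `c` of them have no label, so two of the others, `x` and `y`, have the same label. A
vertex distinguishing them has no label (at most `c`) or is a defect of `x` or of `y` (at most `2D`);
together less than `t`. -/
def Stmt_GS1 : Prop := ∀ F : Set Gr, Structured F → St.Bounded F

/-- GS2 (classes). If `G` has no `t` vertices pairwise at distance at least `t` (`dst`), there is a function
`cl : V → V` with less than `t` values (`t ≥ 1`), constant `cl x` on its values (`cl (cl v) = cl v`) and
`dst G v (cl v) < t`; so any two vertices `u`, `v` with `cl u = cl v` satisfy `dst G u v < 2 * t`.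
Proof: a set `X0` with pairwise `dst ≥ t` of the largest cardinality has less than `t` elements; for
`v ∉ X0` there is `x ∈ X0` with `dst G v x < t` (otherwise `insert v X0`); `cl v = v` for `v ∈ X0`
(`dst G v v = 0`). A vertex different from `u`, `v` distinguishing them is `x` or distinguishes `u`, `x` or
`v`, `x`. -/
def Stmt_GS2 : Prop :=
  ∀ (V : Type) [Fintype V] (G : SimpleGraph V) (t : ℕ), 1 ≤ t →
    (¬ ∃ x : Fin t → V, ∀ i j, i ≠ j → t ≤ dst G (x i) (x j)) →
    ∃ cl : V → V, (Finset.univ.image cl).card < t ∧ (∀ v, cl (cl v) = cl v) ∧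
      (∀ v, dst G v (cl v) < t) ∧ ∀ u v, cl u = cl v → dst G u v < 2 * t

/-- GS3 (two classes). `A`, `B` sets of vertices, any two vertices of `A` have `dst < 2t`, the same for `B`,
`|A| ≥ 4t + 4`, `t ≥ 1`, `u ∈ A`: `u` has less than `8t` neighbours or less than `8t` non-neighbours in `B`.
Otherwise take `A'`, `B'` with `8t` neighbours, resp. `8t` non-neighbours of `u` in `B`. Every `u' ∈ A` is
not adjacent to less than `2t` vertices `w ≠ u'` of `A'` (they distinguish `u` and `u'`), so some `w1 ∈ A'` is
not adjacent to at most `2t |A| / (8t) = |A| / 4` vertices `u' ≠ w1` of `A`; similarly some `w0 ∈ B'` is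
adjacent to at most `|A| / 4` vertices `u' ≠ w0` of `A`. The other vertices of `A` except `w0`, `w1`, at
least `|A| / 2 - 2 ≥ 2t` of them, distinguish `w1` and `w0`, contradiction. -/
def Stmt_GS3 : Prop :=
  ∀ (V : Type) [Fintype V] (G : SimpleGraph V) (t : ℕ) (A B : Finset V), 1 ≤ t →
    (∀ u ∈ A, ∀ v ∈ A, dst G u v < 2 * t) → (∀ u ∈ B, ∀ v ∈ B, dst G u v < 2 * t) →
    4 * t + 8 ≤ A.card → ∀ u ∈ A,
      (nbr G B true u).card < 8 * t ∨ (nbr G B false u).card < 8 * t

/-- GS4. `Bounded` implies `Structured`: if `t = 0` no `F`-free graph exists (the empty family of vertices),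
trivial. GS2 gives at most `t` classes; those with less than `K = 40t + 8` vertices go to the unlabelled
vertices, at most `t K`. For two large classes `A`, `B` (possibly equal), `M A B` iff some (chosen)
`u0 ∈ A` has at least `8t` neighbours in `B`; by GS3 then `u0` has less than `8t` non-neighbours in `B`, and
every `u ∈ A` less than `8t + 2t + 1` (a vertex `w ≠ u, u0` of the difference distinguishes `u` and `u0`);
if not `M A B` every `u ∈ A` has less than `10t + 1` neighbours in `B`. `M` is symmetric: if `M A B` and
not `M B A`, with `a = |A|`, `b = |B|`, counting the adjacent pairs: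
`a (b - 10t - 2) ≤ b (10t + 1)`; since `b ≥ 4 (10t + 2)`, `3a ≤ 4 (10t + 1)`, contradiction.
`r = t` (number the classes), `c = t K`, `D = t (10t + 1)`. -/
def Stmt_GS4 : Prop := ∀ F : Set Gr, St.Bounded F → Structured F

end Pool.Ker
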