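import Pool.Agent.Work.MP_2df4ce_k.InterfaceG
import Pool.Agent.Work.MP_2df4ce_k.InterfaceE

/-!
# MP_2df4ce_lc, part H: the exact criterion for `Bounded` (unavoidable induced subgraphs)
-/

set_option autoImplicit false

namespace Pool.Ker

open Classical St

/-- The graph on the vertices `inl i` (`i < m`) and `inr x` (`x : B`): the vertices `inl i` are pairwise
adjacent iff `a`, the vertices `inr x` are pairwise adjacent iff `b`, and `inl i`, `inr x` are adjacent iff
`R i x`. -/
def St.bip (m : ℕ) {B : Type} (a b : Bool) (R : Fin m → B → Prop) : SimpleGraph (Fin m ⊕ B) where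
  Adj
    | .inl i, .inl j => i ≠ j ∧ a = true
    | .inr x, .inr y => x ≠ y ∧ b = true
    | .inl i, .inr x => R i x
    | .inr x, .inl i => R i x
  symm := ⟨by
    rintro (i | x) (j | y) h
    · exact ⟨h.1.symm, h.2⟩
    · exact h
    · exact h
    · exact ⟨h.1.symm, h.2⟩⟩
  loopless := ⟨by
    rintro (i | x) h
    · exact h.1 rfl
    · exact h.1 rfl⟩

/-- The half graph: `inl i` and `inr j` are adjacent iff `i ≤ j`. -/
def St.half (a b : Bool) (m : ℕ) : SimpleGraph (Fin m ⊕ Fin m) := St.bip m a b fun i j => i ≤ j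

/-- `inl i` is adjacent exactly to the `m` vertices `inr (i, y)` of the other side (`c = true`), or exactly
to the other ones (`c = false`). -/
def St.mtch (a b c : Bool) (m : ℕ) : SimpleGraph (Fin m ⊕ Fin m × Fin m) :=
  St.bip m a b fun i x => (i = x.1 ↔ c = true)

/-- Each of the 14 families (`half a b`, `mtch a b c`, disjoint unions of complete graphs and their
complements) has a member which contains a member of `F` as an induced subgraph. -/
def St.Unavoidable (F : Set Gr) : Prop :=
  (∀ a b, ∃ H ∈ F, ∃ m, Nonempty (H.2 ↪g half a b m)) ∧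
    (∀ a b c, ∃ H ∈ F, ∃ m, Nonempty (H.2 ↪g mtch a b c m)) ∧
    (∃ H ∈ F, ∃ m, Nonempty (H.2 ↪g cliques m)) ∧ (∃ H ∈ F, ∃ m, Nonempty (H.2 ↪g (cliques m)ᶜ))

/-- `G` contains none of the 14 graphs of order `m`. -/
def Excl14 (m : ℕ) {V : Type} (G : SimpleGraph V) : Prop :=
  (∀ a b, IsEmpty (half a b m ↪g G)) ∧ (∀ a b c, IsEmpty (mtch a b c m ↪g G)) ∧
    IsEmpty (cliques m ↪g G) ∧ IsEmpty ((cliques m)ᶜ ↪g G)

/-- RMC (Ramsey for pairs, finitely many colours). -/
def Stmt_RMC : Prop :=
  ∀ m q : ℕ, ∃ N : ℕ, ∀ c : Fin N → Fin N → Fin (q + 1),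
    ∃ (f : Fin m → Fin N) (k : Fin (q + 1)), StrictMono f ∧ ∀ i j, i < j → c (f i) (f j) = k

/-- BIR (bipartite Ramsey). `A0 ⊆ A` with `2m` elements; among `m 2^(2m)` vertices `b ∈ B` there are `m` with the
same neighbours in `A0`; `m` of the `2m` vertices of `A0` are all neighbours or all non-neighbours. -/
def Stmt_BIR : Prop :=
  ∀ m : ℕ, ∃ N : ℕ, ∀ (V : Type) [Fintype V] (G : SimpleGraph V) (A B : Finset V), N ≤ A.card →
    N ≤ B.card → ∃ A' ⊆ A, ∃ B' ⊆ B, A'.card = m ∧ B'.card = m ∧
      ∃ e : Bool, ∀ x ∈ A', ∀ y ∈ B', (G.Adj x y ↔ e = true)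

/-- CLE (cleaning). Sets `B i`, `i < L`, with at least `T` vertices contain sets `B' i` with `m` vertices,
homogeneous, and every pair of them complete or empty. (First RAM in each set, then BIR for the pairs one after
the other, with decreasing sizes; subsets of homogeneous sets and pairs are homogeneous. Induction on a list
of pairs; every set is cut down to the next size in each step.) -/
def Stmt_CLE : Prop :=
  ∀ L m : ℕ, ∃ T : ℕ, ∀ (V : Type) [Fintype V] (G : SimpleGraph V) (B : Fin L → Finset V),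
    (∀ i, T ≤ (B i).card) → ∃ (B' : Fin L → Finset V) (b : Fin L → Bool) (e : Fin L → Fin L → Bool),
      (∀ i, B' i ⊆ B i) ∧ (∀ i, (B' i).card = m) ∧ (∀ i, Hom G (b i) (B' i)) ∧
      ∀ i j, i < j → ∀ x ∈ B' i, ∀ y ∈ B' j, (G.Adj x y ↔ e i j = true)

/-- CHN (a chain of separations). By induction on `L`: `R` has at least two elements; take `σ 0` separating
two of them; it divides `R` into two non-empty parts; the larger one has at least `2^(L-1)` elements, apply
the induction hypothesis to it, and take `f 0` in the other one. -/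
def Stmt_CHN : Prop :=
  ∀ (ι : Type) [Fintype ι] (Hv : (ι → Bool) → Prop) (L : ℕ) (R : Finset ι), 2 ^ L ≤ R.card →
    (∀ i ∈ R, ∀ j ∈ R, i ≠ j → ∃ σ, Hv σ ∧ σ i ≠ σ j) →
    ∃ (f : Fin L → ι) (σ : Fin L → ι → Bool), (∀ i, f i ∈ R) ∧ (∀ i, Hv (σ i)) ∧
      ∀ i j, i < j → σ i (f j) ≠ σ i (f i)

/-- HTY (heavy types). `k` vertices `x i`, pairwise distinguished by at least `2^k T + k` vertices. For `i ≠ j`
there is a type `σ` with `σ i ≠ σ j` and at least `T` vertices `v`, different from all `x l`, with
`Adj (x l) v ↔ σ l` for all `l` (at most `k` of the distinguishing vertices are some `x l`; pigeonhole on the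
`2^k` types of the others). -/
def Stmt_HTY : Prop :=
  ∀ (V : Type) [Fintype V] (G : SimpleGraph V) (k T : ℕ) (x : Fin k → V),
    (∀ i j, i ≠ j → 2 ^ k * T + k ≤ dst G (x i) (x j)) → ∀ i j, i ≠ j →
    ∃ σ : Fin k → Bool, σ i ≠ σ j ∧
      T ≤ (Finset.univ.filter fun v => ∀ l, v ≠ x l ∧ (G.Adj (x l) v ↔ σ l = true)).card

/-- UNI (the uniform configuration contains one of the 14 graphs). `m ≥ 1`. Data: different vertices
`x i` (`i ≤ m`), pairwise adjacent iff `a`; sets `B i` (`i ≤ m`) with `m` vertices, homogeneous of kind `b`,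
all pairs between different `B i` adjacent iff `e`; no `x i` in a `B j`; `x i` and the vertices of `B j` are
adjacent iff `d` for `i = j`, iff `u` for `i < j`, iff `!d` for `i > j`.
If `e ≠ b`: the `B i`, `i < m`, give `cliques m` (`b = true`) or its complement (the `B i` are disjoint: a vertex in
`B i` and `B j`, `i < j`, would give `d = u` from `x i` and `d = !d` from `x j`). If `e = b` all vertices of the
`B i` are pairwise adjacent iff `b`. If `u = !d`: `mtch a b d m` (`x i`, `B i` for `i < m`). If `u = d = true`: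
`half a b m` with one vertex of each `B i`. If `u = d = false`: `x i` is adjacent to `B j` iff `j < i`; take
`inl i ↦ x (m - i)` and `inr j ↦` a vertex of `B (m - 1 - j)`: adjacent iff `m - 1 - j < m - i` iff `i ≤ j`. -/
def Stmt_UNI : Prop :=
  ∀ (V : Type) [Fintype V] (G : SimpleGraph V) (m : ℕ) (a b e d u : Bool) (x : Fin (m + 1) → V)
    (B : Fin (m + 1) → Finset V), 1 ≤ m → Function.Injective x →
    (∀ i j, i < j → (G.Adj (x i) (x j) ↔ a = true)) → (∀ i, (B i).card = m) →
    (∀ i, Hom G b (B i)) →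
    (∀ i j, i < j → ∀ y ∈ B i, ∀ z ∈ B j, (G.Adj y z ↔ e = true)) → (∀ i j, x i ∉ B j) →
    (∀ i, ∀ y ∈ B i, (G.Adj (x i) y ↔ d = true)) →
    (∀ i j, i < j → ∀ y ∈ B j, (G.Adj (x i) y ↔ u = true)) →
    (∀ i j, j < i → ∀ y ∈ B j, (G.Adj (x i) y ↔ d = false)) → ¬ Excl14 m G

/-- EXC (extraction). For every `m ≥ 1` there is `t` such that a finite graph with `t` vertices pairwise
distinguished by at least `t` vertices contains one of the 14 graphs of order `m`. Proof: `L` from RMC for
`m + 2` indices and `64` colours; `T` from CLE for `L` and `m`; `k = 2^L`; `t = 2^k T + k`. Use the first `k` of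
the vertices. HTY: any two are separated by a heavy type; CHN with `R` = everything: `f`, `σ`; `x' i = x (f i)`
(`f` is injective by the separations), `B i` = the vertices of type `σ i`, at least `T`; CLE: `B' i`, `b i`,
`e i j`. Colour the pair `i < j` with the five bits `Adj (x' i) (x' j)`, `b i`, `e i j`, `σ i (f i)`,
`σ j (f i)`. RMC gives `m + 2` indices with the same colour; drop the last one, so that `b i` and `σ i (f i)`
are constant on the remaining `m + 1` indices; `σ i (f j) = !(σ i (f i))` for `i < j`. UNI. -/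
def Stmt_EXC : Prop :=
  ∀ m : ℕ, 1 ≤ m → ∃ t : ℕ, ∀ (V : Type) [Fintype V] (G : SimpleGraph V),
    (∃ x : Fin t → V, ∀ i j, i ≠ j → t ≤ dst G (x i) (x j)) → ¬ Excl14 m G

/-- MO2 (monotonicity). Each of the 14 graphs of order `m` is an induced subgraph of the one of order
`m' ≥ m` (`Fin.castLE`). So if `Unavoidable F`, there is `m ≥ 1` such that every `F`-free graph is
`Excl14 m`. -/
def Stmt_MO2 : Prop :=
  ∀ F : Set Gr, St.Unavoidable F → ∃ m, 1 ≤ m ∧ ∀ (V : Type) (G : SimpleGraph V), Free F G →
    Excl14 m G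

/-- UNB (the 14 families are unbounded). For `t ≥ 1` the graphs of order `m = t * t + t` (any large `m`)
contain `t` vertices pairwise distinguished by at least `t` vertices: in `half a b m` the vertices
`inl (t i)`, `i < t`: `inr j` with `t i ≤ j < t i'` distinguish `inl (t i)` and `inl (t i')`; in
`mtch a b c m` the vertices `inl i`: the `m` vertices `inr (i, y)` distinguish `inl i` and `inl i'`; in
`cliques m` the vertices `(i, 0)`: `(i, y)` with `y ≠ 0` distinguish `(i, 0)` and `(i', 0)`; the same in the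
complement. -/
def Stmt_UNB : Prop :=
  ∀ t : ℕ, 1 ≤ t → ∃ m : ℕ,
    (∀ a b, ∃ x : Fin t → _, ∀ i j, i ≠ j → t ≤ dst (half a b m) (x i) (x j)) ∧
    (∀ a b c, ∃ x : Fin t → _, ∀ i j, i ≠ j → t ≤ dst (mtch a b c m) (x i) (x j)) ∧
    (∃ x : Fin t → _, ∀ i j, i ≠ j → t ≤ dst (cliques m) (x i) (x j)) ∧
    ∃ x : Fin t → _, ∀ i j, i ≠ j → t ≤ dst (cliques m)ᶜ (x i) (x j)

/-- FTN (the criterion). `Bounded` is about graphs on `Fin n`, but a finite graph on any type is isomorphic to
one (`Fintype.equivFin`; `dst` as a `Finset` cardinality or an `ncard`). Right to left: MO2, EXC. Left to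
right: `Bounded` with `t`; it also holds with `max t 1` (a family of `t + 1` vertices contains one of `t`), so let
`t ≥ 1`. If no member of `F` is an induced subgraph of a member of one of the 14 families, all its members
are `F`-free, contradicting UNB. -/
def Stmt_FTN : Prop := ∀ F : Set Gr, St.Bounded F ↔ St.Unavoidable F

end Pool.Ker
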